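import Pool.Agent.H19.GP.P4

/-!
# Goldstern's principle: failure for `Σ¹₂`

`Kc c x = {y | ∀ n, ∃ m, n ≤ m ≤ x n, y ∈ Uk m (c m)}`: a compact subset of `Nw c`, increasing in `x`.
PROOFS.
* `kc_null`: `x ∈ Rl N` is in some `K ξ`; `z ∈ Rl N` infinitely often equal over `K ξ` (`Sys.ioe`).  `G = {((x, z), y) | ∀ k, ∃ n ≥ k, ∃ m, n ≤ m ∧ m ≤ x n ∧ y ∈ Uk m (getN (z n) m)}` is Borel, `G_{(x, z)}` is null (Borel-Cantelli: `∑_{m ≥ n} (1/4)^m ≤ 2 (1/4)^n`), so `an_null` in `N` gives `w ∈ Rl N` with `G_{(x,z)} ⊆ Nw w`.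
  For `c ∈ Rl (K 0)` the real `n ↦ ini c (x n + 1)` is in `K ξ`, so `z n = ini c (x n + 1)` for infinitely many `n`, and then `getN (z n) m = c m` for `m ≤ x n`; so `Kc c x ⊆ G_{(x, z)} ⊆ Nw w`.
* `mem_kc`: `y ∈ N`, `c ∈ Rl N`, `y ∈ Nw c`: `x n =` least `m ≥ n` with `y ∈ Uk m (c m)`; in `N` by `solve`.
* `sig_of_coan` (the complement of `Q` is analytic): as in the proof of `cchoice`: let `F` be closed with `(e, x, y, z) ∉ Q ↔ ∃ w, (cR (e, x, y, z), w) ∈ F`, `a = trc F`; `c m = a (pair (ini (jn e (jn x' (jn y' z'))) k) s)` with `x' = getN (m.unpair.1.unpair.1)`, `y' = getN (m.unpair.1.unpair.2)`,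
  `z' = getN (m.unpair.2.unpair.1)`, `k = lenN (m.unpair.1.unpair.1)`, `s = m.unpair.2.unpair.2`.  `c ∈ Rl N`; for `x, y, z ∈ N`: `Opn c x (b2n y) z w ↔ ∃ n, a (pair (ini (cR (e, x, y, z)) n) (ini w n)) = 0`, and `(∀ w ∈ Rl N, ...) ↔ (e, x, y, z) ∈ Q` by `CTM.sc1`, `trc_spec`.
  (`cR (e, x, y, z) = jn e (jn x (jn (b2n y) z))`.)
* `not_gp_sigma`: `A x y ↔ ∃ c ∈ Rl (K 0), y ∈ Kc c x`.  `Σ¹₂`: `A x y ↔ ∃ z ∈ Rl N, (e, x, y, z) ∈ Q`, `Q = {(e, x, y, z) | (e, lf z, rt z) ∈ C ∧ y ∈ Kc (lf z) x}` (`z = jn c c'`).  Sections are null: `kc_null` and `nullL_of_nw`, `NullL.mono`.  Monotone: clear.  Union not null: `nw_of_nullL` gives `w`, `p4` gives `c`, `y`,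
  `mem_kc` gives `x` with `A x y`: contradiction.
-/

set_option autoImplicit false
set_option linter.unusedVariables false

universe u

namespace Pool.Agent.H19.GP

open Pool.Agent.H17.Omega Pool.Agent.H17.GP
open MeasureTheory Topology Filter

/-- A compact subset of `Nw c`. -/
def Kc (c x : ℕ → ℕ) : Set (ℕ → Bool) := {y | ∀ n, ∃ m, n ≤ m ∧ m ≤ x n ∧ y ∈ Uk m (c m)}

theorem Kc_mono {c x x' : ℕ → ℕ} (h : ∀ n, x n ≤ x' n) : Kc c x ⊆ Kc c x' := by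
  intro y hy n
  obtain ⟨m, h1, h2, h3⟩ := hy n
  exact ⟨m, h1, h2.trans (h n), h3⟩

/-- the null sets that cover the sets `Kc c x` -/
def Fail_G : Set (((ℕ → ℕ) × (ℕ → ℕ)) × (ℕ → Bool)) :=
  {p | ∀ k, ∃ n, k ≤ n ∧ ∃ m, n ≤ m ∧ m ≤ p.1.1 n ∧ p.2 ∈ Uk m (getN (p.1.2 n) m)}

theorem Fail_G_meas : MeasurableSet Fail_G := by
  have h : Fail_G = ⋂ k, ⋃ n, ⋃ (_ : k ≤ n), ⋃ m, ⋃ (_ : n ≤ m), ⋃ j : ℕ,
      {p : ((ℕ → ℕ) × (ℕ → ℕ)) × (ℕ → Bool) | m ≤ p.1.1 n} ∩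
        ({p | getN (p.1.2 n) m = j} ∩ {p | p.2 ∈ Uk m j}) := by
    ext p
    simp only [Fail_G, Set.mem_setOf_eq, Set.mem_iInter, Set.mem_iUnion, Set.mem_inter_iff, exists_prop]
    refine forall_congr' fun k => exists_congr fun n => and_congr_right fun _ => exists_congr fun m =>
      and_congr_right fun _ => ?_
    constructor
    · rintro ⟨h1, h2⟩; exact ⟨_, h1, rfl, h2⟩
    · rintro ⟨j, h1, rfl, h2⟩; exact ⟨h1, h2⟩
  rw [h]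
  refine MeasurableSet.iInter fun k => MeasurableSet.iUnion fun n => MeasurableSet.iUnion fun _ =>
    MeasurableSet.iUnion fun m => MeasurableSet.iUnion fun _ => MeasurableSet.iUnion fun j =>
      MeasurableSet.inter ?_ (MeasurableSet.inter ?_ ?_)
  · have hm : Measurable (fun p : ((ℕ → ℕ) × (ℕ → ℕ)) × (ℕ → Bool) => p.1.1 n) :=
      (measurable_pi_apply n).comp (measurable_fst.comp measurable_fst)
    exact hm (MeasurableSet.of_discrete (s := {k : ℕ | m ≤ k}))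
  · have hm : Measurable (fun p : ((ℕ → ℕ) × (ℕ → ℕ)) × (ℕ → Bool) => p.1.2 n) :=
      (measurable_pi_apply n).comp (measurable_snd.comp measurable_fst)
    exact hm (MeasurableSet.of_discrete (s := {k : ℕ | getN k m = j}))
  · exact measurable_snd (isClopen_Uk m j).isOpen.measurableSet

theorem Fail_G_null (x z : ℕ → ℕ) : lam {y | ((x, z), y) ∈ Fail_G} = 0 := by
  have hC : ((1 - 1 / 4 : ENNReal))⁻¹ ≠ ⊤ := by
    rw [ENNReal.inv_ne_top]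
    intro h0
    rw [tsub_eq_zero_iff_le, one_div] at h0
    have h1 : (4 : ENNReal)⁻¹ < 1 := by
      rw [ENNReal.inv_lt_one]
      norm_num
    exact absurd h0 (not_le.mpr h1)
  have h : {y | ((x, z), y) ∈ Fail_G} ⊆ {y | ∃ᶠ n in atTop, y ∈ ⋃ m, Uk (n + m) (getN (z n) (n + m))} := by
    intro y hy
    rw [Set.mem_setOf_eq, Filter.frequently_atTop]
    intro k
    obtain ⟨n, hn, m, hm, -, h1⟩ := hy k
    refine ⟨n, hn, Set.mem_iUnion.2 ⟨m - n, ?_⟩⟩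
    rw [Nat.add_sub_cancel' hm]
    exact h1
  refine measure_mono_null h (measure_setOfPred_frequently_eq_zero ?_)
  have h1 : ∀ n, lam (⋃ m, Uk (n + m) (getN (z n) (n + m))) ≤ (1 / 4) ^ n * (1 - 1 / 4)⁻¹ := by
    intro n
    refine (measure_iUnion_le _).trans ((ENNReal.tsum_le_tsum fun m => lam_Uk (n + m) _).trans ?_)
    simp_rw [pow_add]
    rw [ENNReal.tsum_mul_left, ENNReal.tsum_geometric]
  refine ne_top_of_le_ne_top ?_ (ENNReal.tsum_le_tsum h1)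
  rw [ENNReal.tsum_mul_right, ENNReal.tsum_geometric]
  exact ENNReal.mul_ne_top hC hC

theorem kc_null : EvS.{u} (fun N δ K => ∀ x ∈ Rl N, ∃ w ∈ Rl N, ∀ c ∈ Rl (K 0), Kc c x ⊆ Nw w) := by
  refine EvS.mono (evS_of (an_null Fail_G_meas.analyticSet)) ?_
  rintro N δ K hS ⟨hN1, -⟩ x hx
  obtain ⟨ξ, hξ, hxξ⟩ := hS.reals x hx
  obtain ⟨z, hz, hzx⟩ := hS.ioe ξ hξ
  obtain ⟨w, hw, h1⟩ := hN1 (x, z) ((In_prod hS.ctmN).2 ⟨hx, hz⟩) (Fail_G_null x z)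
  refine ⟨w, hw, fun c hc y hy => h1 y ?_⟩
  have hcξ : c ∈ Rl (K ξ) := Rl_mono (hS.mono 0 ξ zero_le hξ) hc
  have hK := hS.ctmK ξ hξ
  have hr : (fun n => ini c (x n + 1)) ∈ Rl (K ξ) := CTM.mem_Rl' hK (CTM.DR.mk (CTM.DN.ini
    (CTM.DR.const hcξ) (CTM.DN.succ (CTM.DN.app (CTM.DR.const hxξ) (CTM.DN.var _)))))
  intro k
  obtain ⟨n, hn, hzn⟩ := hzx _ hr k
  obtain ⟨m, h2, h3, h4⟩ := hy n
  refine ⟨n, hn, m, h2, h3, ?_⟩
  show y ∈ Uk m (getN (z n) m)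
  rw [hzn, getN_ini (Nat.lt_succ_of_le h3)]
  exact h4

theorem Fail_Kc_meas : MeasurableSet {p : ((ℕ → ℕ) × (ℕ → Bool)) × (ℕ → ℕ) | p.1.2 ∈ Kc p.1.1 p.2} := by
  have h : {p : ((ℕ → ℕ) × (ℕ → Bool)) × (ℕ → ℕ) | p.1.2 ∈ Kc p.1.1 p.2} =
      ⋂ n, ⋃ m, ⋃ (_ : n ≤ m), ⋃ j : ℕ,
      {p : ((ℕ → ℕ) × (ℕ → Bool)) × (ℕ → ℕ) | m ≤ p.2 n} ∩ ({p | p.1.1 m = j} ∩ {p | p.1.2 ∈ Uk m j}) := by
    ext p
    simp only [Kc, Set.mem_setOf_eq, Set.mem_iInter, Set.mem_iUnion, Set.mem_inter_iff, exists_prop]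
    refine forall_congr' fun n => exists_congr fun m => and_congr_right fun _ => ?_
    constructor
    · rintro ⟨h1, h2⟩; exact ⟨_, h1, rfl, h2⟩
    · rintro ⟨j, h1, rfl, h2⟩; exact ⟨h1, h2⟩
  rw [h]
  refine MeasurableSet.iInter fun n => MeasurableSet.iUnion fun m => MeasurableSet.iUnion fun _ =>
    MeasurableSet.iUnion fun j => MeasurableSet.inter ?_ (MeasurableSet.inter ?_ ?_)
  · have hm : Measurable (fun p : ((ℕ → ℕ) × (ℕ → Bool)) × (ℕ → ℕ) => p.2 n) :=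
      (measurable_pi_apply n).comp measurable_snd
    exact hm (MeasurableSet.of_discrete (s := {k : ℕ | m ≤ k}))
  · have hm : Measurable (fun p : ((ℕ → ℕ) × (ℕ → Bool)) × (ℕ → ℕ) => p.1.1 m) :=
      (measurable_pi_apply m).comp (measurable_fst.comp measurable_fst)
    exact hm (measurableSet_singleton j)
  · exact (measurable_snd.comp measurable_fst) (isClopen_Uk m j).isOpen.measurableSet

theorem mem_kc : ∀ᶠ N in ctmF.{u}, ∀ c ∈ Rl N, ∀ y, In N y → y ∈ Nw c → ∃ x ∈ Rl N, y ∈ Kc c x := by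
  filter_upwards [ev_ctm, solve Fail_Kc_meas.analyticSet] with N hN h1 c hc y hy hyc
  choose x hx1 hx2 using hyc
  obtain ⟨x', hx', h2⟩ := h1 (c, y) ((In_prod hN).2 ⟨hc, hy⟩) x (fun n => ⟨x n, hx1 n, le_rfl, hx2 n⟩)
  exact ⟨x', hx', h2⟩

theorem sig_of_coan {Q : Set ((ℕ → ℕ) × (ℕ → ℕ) × (ℕ → Bool) × (ℕ → ℕ))} (hQ : AnalyticSet Qᶜ) :
    ∀ᶠ N in ctmF.{u}, ∀ e ∈ Rl N, Sig12B (Rl N) (fun x y => ∃ z ∈ Rl N, (e, x, y, z) ∈ Q) := by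
  have h1 : AnalyticSet ((cR : (ℕ → ℕ) × (ℕ → ℕ) × (ℕ → Bool) × (ℕ → ℕ) → (ℕ → ℕ)) '' Qᶜ) :=
    hQ.image_of_continuous RT.emb.continuous
  obtain ⟨F, hF, hFS⟩ := AnalyticSet.exists_closed h1
  filter_upwards [ev_ctm, ev_mem (trc F)] with N hN ha e he
  let c : ℕ → ℕ := fun m => trc F (Nat.pair (ini (jn e (jn (getN m.unpair.1.unpair.1)
    (jn (getN m.unpair.1.unpair.2) (getN m.unpair.2.unpair.1)))) (lenN m.unpair.1.unpair.1)) m.unpair.2.unpair.2)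
  have hc : c ∈ Rl N := by
    show (fun m : ℕ => trc F (Nat.pair (ini (fun i => Nat.pair (e i) (Nat.pair (getN m.unpair.1.unpair.1 i)
      (Nat.pair (getN m.unpair.1.unpair.2 i) (getN m.unpair.2.unpair.1 i)))) (lenN m.unpair.1.unpair.1))
        m.unpair.2.unpair.2)) ∈ Rl N
    refine CTM.mem_Rl' hN (CTM.DR.mk (CTM.DN.app (CTM.DR.const ha) (CTM.DN.pair (CTM.DN.ini
      (CTM.DR.mk ?_) (CTM.DN.primrec prim_lenN (CTM.DN.unpair1 (CTM.DN.unpair1 (CTM.DN.var _)))))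
        (CTM.DN.unpair2 (CTM.DN.unpair2 (CTM.DN.var _))))))
    exact CTM.DN.pair (CTM.DN.app (CTM.DR.const he) (CTM.DN.var _)) (CTM.DN.pair
      (CTM.DN.primrec₂ prim_getN (CTM.DN.unpair1 (CTM.DN.unpair1 (CTM.DN.var 0))) (CTM.DN.var _))
      (CTM.DN.pair (CTM.DN.primrec₂ prim_getN (CTM.DN.unpair2 (CTM.DN.unpair1 (CTM.DN.var 0))) (CTM.DN.var _))
        (CTM.DN.primrec₂ prim_getN (CTM.DN.unpair1 (CTM.DN.unpair2 (CTM.DN.var 0))) (CTM.DN.var _))))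
  refine ⟨c, hc, fun x hx y hy => exists_congr fun z => and_congr_right fun hz => ?_⟩
  have hval : ∀ w k, c (Nat.pair (Nat.pair (ini x k) (ini (b2n y) k)) (Nat.pair (ini z k) (ini w k))) =
      trc F (Nat.pair (ini (cR (e, x, y, z)) k) (ini w k)) := by
    intro w k
    show trc F (Nat.pair (ini (jn e (jn
      (getN (Nat.pair (Nat.pair (ini x k) (ini (b2n y) k)) (Nat.pair (ini z k) (ini w k))).unpair.1.unpair.1)
      (jn (getN (Nat.pair (Nat.pair (ini x k) (ini (b2n y) k)) (Nat.pair (ini z k) (ini w k))).unpair.1.unpair.2)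
      (getN (Nat.pair (Nat.pair (ini x k) (ini (b2n y) k)) (Nat.pair (ini z k) (ini w k))).unpair.2.unpair.1))))
      (lenN (Nat.pair (Nat.pair (ini x k) (ini (b2n y) k)) (Nat.pair (ini z k) (ini w k))).unpair.1.unpair.1))
      (Nat.pair (Nat.pair (ini x k) (ini (b2n y) k)) (Nat.pair (ini z k) (ini w k))).unpair.2.unpair.2) = _
    rw [Nat.unpair_pair, Nat.unpair_pair, Nat.unpair_pair, lenN_ini]
    refine congrArg (fun t => trc F (Nat.pair t (ini w k))) (ini_congr fun i hi => ?_)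
    show Nat.pair (e i) (Nat.pair (getN (ini x k) i) (Nat.pair (getN (ini (b2n y) k) i) (getN (ini z k) i))) =
      Nat.pair (e i) (Nat.pair (x i) (Nat.pair (b2n y i) (z i)))
    rw [getN_ini hi, getN_ini hi, getN_ini hi]
  have hin : cR (e, x, y, z) ∈ Rl N := (In_prod hN).2 ⟨he, (In_prod hN).2 ⟨hx, (In_prod hN).2 ⟨hy, hz⟩⟩⟩
  constructor
  · intro hc w hw
    by_contra hcon
    have : (cR (e, x, y, z), w) ∈ F := (trc_spec hF _ w).1 fun k hk => hcon ⟨k, by rw [hval]; exact hk⟩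
    obtain ⟨p, hp, hp'⟩ := (hFS _).2 ⟨w, this⟩
    rw [cR_inj hp'] at hp
    exact hp hc
  · intro h
    by_contra hc
    obtain ⟨w, hw⟩ := (hFS _).1 ⟨_, hc, rfl⟩
    obtain ⟨w', h2, h3⟩ := hN.sc1 ha hin ⟨w, (trc_spec hF _ w).2 hw⟩
    obtain ⟨k, hk⟩ := h w' h2
    rw [hval] at hk
    exact h3 k hk

theorem not_gp_sigma {C : Set ((ℕ → ℕ) × (ℕ → ℕ) × (ℕ → ℕ))} (hC : AnalyticSet Cᶜ) :
    EvS.{u} (fun N δ K => ∀ e ∈ Rl N, (∀ x ∈ Rl N, (x ∈ Rl (K 0) ↔ ∃ c ∈ Rl N, (e, x, c) ∈ C)) →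
      NotGPSigL (Rl N)) := by
  haveI hP : PolishSpace ((ℕ → ℕ) × (ℕ → ℕ) × (ℕ → Bool) × (ℕ → ℕ)) :=
    (RT.emb (X := (ℕ → ℕ) × (ℕ → ℕ) × (ℕ → Bool) × (ℕ → ℕ))).polishSpace
  have hQ : AnalyticSet ({p : (ℕ → ℕ) × (ℕ → ℕ) × (ℕ → Bool) × (ℕ → ℕ) |
      (p.1, lf p.2.2.2, rt p.2.2.2) ∈ C ∧ p.2.2.1 ∈ Kc (lf p.2.2.2) p.2.1})ᶜ := by
    have h1 : AnalyticSet {p : (ℕ → ℕ) × (ℕ → ℕ) × (ℕ → Bool) × (ℕ → ℕ) |
        (p.1, lf p.2.2.2, rt p.2.2.2) ∈ Cᶜ} := by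
      refine AnalyticSet.preimage hC (f := fun p : (ℕ → ℕ) × (ℕ → ℕ) × (ℕ → Bool) × (ℕ → ℕ) =>
        (p.1, lf p.2.2.2, rt p.2.2.2)) ?_
      exact continuous_fst.prodMk ((continuous_lf.comp (continuous_snd.comp (continuous_snd.comp
        continuous_snd))).prodMk (continuous_rt.comp (continuous_snd.comp (continuous_snd.comp continuous_snd))))
    have h2 : AnalyticSet {p : (ℕ → ℕ) × (ℕ → ℕ) × (ℕ → Bool) × (ℕ → ℕ) |
        p.2.2.1 ∉ Kc (lf p.2.2.2) p.2.1} := by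
      refine AnalyticSet.preimage Fail_Kc_meas.compl.analyticSet
        (f := fun p : (ℕ → ℕ) × (ℕ → ℕ) × (ℕ → Bool) × (ℕ → ℕ) => ((lf p.2.2.2, p.2.2.1), p.2.1)) ?_
      exact ((continuous_lf.comp (continuous_snd.comp (continuous_snd.comp continuous_snd))).prodMk
        (continuous_fst.comp (continuous_snd.comp continuous_snd))).prodMk (continuous_fst.comp continuous_snd)
    have e : ({p : (ℕ → ℕ) × (ℕ → ℕ) × (ℕ → Bool) × (ℕ → ℕ) |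
        (p.1, lf p.2.2.2, rt p.2.2.2) ∈ C ∧ p.2.2.1 ∈ Kc (lf p.2.2.2) p.2.1})ᶜ =
        ⋃ b : Bool, cond b {p : (ℕ → ℕ) × (ℕ → ℕ) × (ℕ → Bool) × (ℕ → ℕ) |
          (p.1, lf p.2.2.2, rt p.2.2.2) ∈ Cᶜ} {p | p.2.2.1 ∉ Kc (lf p.2.2.2) p.2.1} := by
      rw [← Set.union_eq_iUnion]
      ext p
      simp only [Set.mem_compl_iff, Set.mem_setOf_eq, Set.mem_union, not_and_or]
    rw [e]
    refine AnalyticSet.iUnion fun b => ?_
    cases b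
    · exact h2
    · exact h1
  refine EvS.mono (EvS.and (EvS.and kc_null p4) (evS_of ((sig_of_coan hQ).and
    (nullL_of_nw.and (nw_of_nullL.and mem_kc))))) ?_
  rintro N δ K hS ⟨⟨h1, h2⟩, ⟨h3, h4, h5, h6⟩, -⟩ e he hx
  have hsub : Rl (K 0) ⊆ Rl N := Rl_mono (hS.sub 0 hS.pos)
  refine ⟨fun x y => ∃ c ∈ Rl (K 0), y ∈ Kc c x, ?_, fun x hx' => ?_, fun x _ x' _ hxx y _ h => ?_, fun h => ?_⟩
  · obtain ⟨c, hc, h7⟩ := h3 e he
    refine ⟨c, hc, fun x hx' y hy => Iff.trans ⟨?_, ?_⟩ (h7 x hx' y hy)⟩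
    · rintro ⟨d, hd, hd'⟩
      obtain ⟨d', hd1, hd2⟩ := (hx d (hsub hd)).1 hd
      refine ⟨jn d d', (jn_mem hS.ctmN).2 ⟨hsub hd, hd1⟩, ?_, ?_⟩
      · show (e, lf (jn d d'), rt (jn d d')) ∈ C
        rw [lf_jn, rt_jn]
        exact hd2
      · show y ∈ Kc (lf (jn d d')) x
        rw [lf_jn]
        exact hd'
    · rintro ⟨z, hz, hz1, hz2⟩
      exact ⟨lf z, (hx _ (lf_mem hS.ctmN hz)).2 ⟨rt z, rt_mem hS.ctmN hz, hz1⟩, hz2⟩
  · obtain ⟨w, hw, h7⟩ := h1 x hx'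
    exact NullL.mono (h4 w hw) fun y _ ⟨c, hc, hy⟩ => h7 c hc hy
  · obtain ⟨c, hc, hy⟩ := h
    exact ⟨c, hc, Kc_mono hxx hy⟩
  · obtain ⟨w, hw, h7⟩ := h5 _ h
    obtain ⟨c, hc, y, hy, hy1, hy2⟩ := h2 w hw
    obtain ⟨x, hx', h8⟩ := h6 c (hsub hc) y hy hy1
    exact hy2 (h7 y hy ⟨x, hx', c, hc, h8⟩)

end Pool.Agent.H19.GP
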