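import Pool.Agent.H17.GP.RlD
import Pool.Agent.H17.GP.Seq

/-!
# Shoenfield absoluteness between a countable transitive model and `V`, in the form of trees

PROOF.  `N` contains the set of the finite attempts `(c, t)`, `c` the code of a finite sequence of natural numbers,
`t` a partial function from `ω` to `γ`.  `q` and `f` give a branch in `V`, so there is one in `N` (`exists_desc`).
-/

set_option autoImplicit false
set_option linter.unusedVariables false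
set_option linter.unusedSectionVars false

universe u

namespace Pool.Agent.H19.GP

open Pool.Agent.H17.Omega Pool.Agent.H17.Omega.CTM Pool.Agent.H17.GP

/-- `t` is an attempt for the finite sequence `c` -/
def AttC {N : Set ZFSet.{u}} (b : ℕ → ℕ) (t : N) (c : ℕ) : Prop :=
  (∀ m, m ≤ lenN c → b (takeN c m) ≠ 0) ∧
  (∀ i, i < lenN c → ∃ i' ξ : N, i'.1 = natZ i ∧ ZFSet.pair i'.1 ξ.1 ∈ t.1) ∧
  (∀ i' ξ η : N, ZFSet.pair i'.1 ξ.1 ∈ t.1 → ZFSet.pair i'.1 η.1 ∈ t.1 → ξ = η) ∧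
  (∀ i j, i < lenN c → j < lenN c → Nat.pair i j < lenN c → (getN c (Nat.pair i j)).unpair.1 = 0 →
    ∀ i' j' ξ η : N, i'.1 = natZ i → j'.1 = natZ j → ZFSet.pair i'.1 ξ.1 ∈ t.1 → ZFSet.pair j'.1 η.1 ∈ t.1 →
      ξ.1 ∈ η.1)

theorem AttC.dfn {N : Set ZFSet.{u}} (hN : CTM N) {b : ℕ → ℕ} (hb : b ∈ Rl N) :
    hN.Dfn (fun v : Fin 2 → N => AttC b (v 0) (natD (v 1).1)) := by
  unfold AttC
  refine Dfn.and ?_ (Dfn.and ?_ (Dfn.and ?_ ?_))
  · refine Dfn.allN (P := fun v m => m ≤ lenN (natD (v 1).1) → b (takeN (natD (v 1).1) m) ≠ 0) ?_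
    refine Dfn.imp (Dfn.leN (DN.var _) (DN.lenN (DN.var _))) (Dfn.not (Dfn.eqN (DN.app (DR.const hb)
      (DN.takeN (DN.var _) (DN.var _))) (DN.const 0)))
  · refine Dfn.allN (P := fun v i => i < lenN (natD (v 1).1) → ∃ i' ξ : N, i'.1 = natZ i ∧
      ZFSet.pair i'.1 ξ.1 ∈ (v 0).1) ?_
    exact Dfn.imp (Dfn.ltN (DN.var _) (DN.lenN (DN.var _))) (Dfn.ex (Dfn.ex (Dfn.and
      (Dfn.eqNatZ (DT.var _) (DN.var _)) (Dfn.pairMem (DT.var _) (DT.var _) (DT.var _)))))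
  · exact Dfn.all (Dfn.all (Dfn.all (Dfn.imp (Dfn.pairMem (DT.var _) (DT.var _) (DT.var _)) (Dfn.imp
      (Dfn.pairMem (DT.var _) (DT.var _) (DT.var _)) (Dfn.eq (DT.var _) (DT.var _))))))
  · refine Dfn.allN (P := fun v i => ∀ j, i < lenN (natD (v 1).1) → j < lenN (natD (v 1).1) →
      Nat.pair i j < lenN (natD (v 1).1) → (getN (natD (v 1).1) (Nat.pair i j)).unpair.1 = 0 →
        ∀ i' j' ξ η : N, i'.1 = natZ i → j'.1 = natZ j → ZFSet.pair i'.1 ξ.1 ∈ (v 0).1 →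
          ZFSet.pair j'.1 η.1 ∈ (v 0).1 → ξ.1 ∈ η.1) ?_
    refine Dfn.allN (P := fun v j => natD (v 2).1 < lenN (natD (v 1).1) → j < lenN (natD (v 1).1) →
      Nat.pair (natD (v 2).1) j < lenN (natD (v 1).1) →
        (getN (natD (v 1).1) (Nat.pair (natD (v 2).1) j)).unpair.1 = 0 →
        ∀ i' j' ξ η : N, i'.1 = natZ (natD (v 2).1) → j'.1 = natZ j → ZFSet.pair i'.1 ξ.1 ∈ (v 0).1 →
          ZFSet.pair j'.1 η.1 ∈ (v 0).1 → ξ.1 ∈ η.1) ?_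
    refine Dfn.imp (Dfn.ltN (DN.var _) (DN.lenN (DN.var _))) (Dfn.imp (Dfn.ltN (DN.var _) (DN.lenN (DN.var _)))
      (Dfn.imp (Dfn.ltN (DN.pair (DN.var _) (DN.var _)) (DN.lenN (DN.var _))) (Dfn.imp (Dfn.eqN
        (DN.unpair1 (DN.getN (DN.var _) (DN.pair (DN.var _) (DN.var _)))) (DN.const 0)) ?_)))
    exact Dfn.all (Dfn.all (Dfn.all (Dfn.all (Dfn.imp (Dfn.eqNatZ (DT.var _) (DN.var _)) (Dfn.imp
      (Dfn.eqNatZ (DT.var _) (DN.var _)) (Dfn.imp (Dfn.pairMem (DT.var _) (DT.var _) (DT.var _)) (Dfn.imp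
        (Dfn.pairMem (DT.var _) (DT.var _) (DT.var _)) (Dfn.mem (DT.var _) (DT.var _)))))))))

theorem shoenfield {N : Set ZFSet.{u}} (hN : CTM N) {γ : Ordinal.{u}} (hγ : γ.toZFSet ∈ N) {b : ℕ → ℕ} (hb : b ∈ Rl N)
    {q : ℕ → ℕ} (hq : ∀ n, b (ini q n) ≠ 0) {f : ℕ → Ordinal.{u}} (hf : ∀ n, f n < γ)
    (h : ∀ i j, (q (Nat.pair i j)).unpair.1 = 0 → f i < f j) :
    ∃ q' ∈ Rl N, (∀ n, b (ini q' n) ≠ 0) ∧ ∃ f' : ℕ → Ordinal.{u}, ∀ i j, (q' (Nat.pair i j)).unpair.1 = 0 → f' i < f' j := by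
  classical
  obtain ⟨P, hP, hP'⟩ := hN.exists_pow (hN.prod_mem hN.omZ_mem hγ)
  -- the attempts of the branch
  have hfN : ∀ n, (f n).toZFSet ∈ N := fun n => hN.mem_of_mem hγ (Ordinal.toZFSet_mem_toZFSet_iff.2 (hf n))
  have hex : ∀ n, ∃ t ∈ N, ∀ z, z ∈ t ↔ ∃ i < n, z = ZFSet.pair (natZ i) (f i).toZFSet := fun n =>
    hN.finite_seq_mem (g := fun n => (f n).toZFSet) hfN n
  choose T hT hT' using hex
  have hTA : ∀ n, AttC b (⟨T n, hT n⟩ : N) (ini q n) := by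
    intro n
    have hpm : ∀ (i : ℕ) (ξ : ZFSet.{u}), ZFSet.pair (natZ i) ξ ∈ T n ↔ i < n ∧ ξ = (f i).toZFSet := by
      intro i ξ
      rw [hT']
      constructor
      · rintro ⟨j, hj, e⟩
        rw [ZFSet.pair_inj, natZ_inj] at e
        obtain ⟨rfl, e2⟩ := e
        exact ⟨hj, e2⟩
      · rintro ⟨h1, rfl⟩
        exact ⟨i, h1, rfl⟩
    refine ⟨fun m hm => ?_, fun i hi => ?_, fun i' ξ η h1 h2 => ?_, ?_⟩
    · rw [lenN_ini] at hm
      rw [takeN_ini hm]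
      exact hq m
    · rw [lenN_ini] at hi
      exact ⟨⟨natZ i, hN.natZ_mem_N i⟩, ⟨_, hfN i⟩, rfl, (hpm _ _).2 ⟨hi, rfl⟩⟩
    · obtain ⟨i, hi, e1⟩ := (hT' n _).1 h1
      obtain ⟨j, hj, e2⟩ := (hT' n _).1 h2
      rw [ZFSet.pair_inj] at e1 e2
      have : i = j := natZ_inj.1 (e1.1.symm.trans e2.1)
      subst this
      exact Subtype.ext (e1.2.trans e2.2.symm)
    · intro i j hi hj hij h0 i' j' ξ η hi' hj' h1 h2
      rw [lenN_ini] at hij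
      rw [getN_ini hij] at h0
      rw [hi'] at h1
      rw [hj'] at h2
      rw [((hpm _ _).1 h1).2, ((hpm _ _).1 h2).2]
      exact Ordinal.toZFSet_mem_toZFSet_iff.2 (h i j h0)
  -- the relation
  have hA := AttC.dfn hN hb
  let DM : N := ⟨ZFSet.prod omZ P, hN.prod_mem hN.omZ_mem hP⟩
  obtain ⟨E, hE, hE'⟩ := hN.exists_sep (P := fun z => ∃ y x c d t t' : N, z.1 = ZFSet.pair y.1 x.1 ∧
      x.1 = ZFSet.pair c.1 t.1 ∧ y.1 = ZFSet.pair d.1 t'.1 ∧ IsNatZ c.1 ∧ (∃ a, d.1 = natZ (snocN (natD c.1) a)) ∧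
        t.1 ⊆ t'.1 ∧ AttC b t' (natD d.1)) (by
    refine Dfn.ex (Dfn.ex (Dfn.ex (Dfn.ex (Dfn.ex (Dfn.ex (Dfn.and (Dfn.isPair (DT.var _) (DT.var _) (DT.var _))
      (Dfn.and (Dfn.isPair (DT.var _) (DT.var _) (DT.var _)) (Dfn.and (Dfn.isPair (DT.var _) (DT.var _) (DT.var _))
        (Dfn.and (Dfn.isNat (DT.var _)) (Dfn.and ?_ (Dfn.and (Dfn.subset (DT.var _) (DT.var _)) ?_)))))))))))
    · refine Dfn.exN (P := fun v a => (v 4).1 = natZ (snocN (natD (v 3).1) a)) ?_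
      exact Dfn.eqNatZ (DT.var _) (DN.snocN (DN.var _) (DN.var _))
    · exact Dfn.subst2 (P := fun t d : N => AttC b t (natD d.1)) hA (DT.var _) (DT.var _)) (hN.prod_mem DM.2 DM.2)
  have hED : ∀ y x, ZFSet.pair y x ∈ E → y ∈ DM.1 ∧ x ∈ DM.1 := by
    intro y x h1
    have h2 := ((hE' _).1 h1).1
    rwa [ZFSet.pair_mem_prod] at h2
  have hxD : ∀ n, ZFSet.pair (natZ (ini q n)) (T n) ∈ DM.1 := by
    intro n
    show _ ∈ ZFSet.prod omZ P
    rw [ZFSet.pair_mem_prod]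
    refine ⟨natZ_mem_omZ _, (hP' _).2 ⟨hT n, fun z hz => ?_⟩⟩
    obtain ⟨i, hi, rfl⟩ := (hT' n z).1 hz
    rw [ZFSet.pair_mem_prod]
    exact ⟨natZ_mem_omZ _, Ordinal.toZFSet_mem_toZFSet_iff.2 (hf i)⟩
  have hdesc : ∀ n, ZFSet.pair (ZFSet.pair (natZ (ini q (n + 1))) (T (n + 1)))
      (ZFSet.pair (natZ (ini q n)) (T n)) ∈ E := by
    intro n
    have m1 := hN.mem_of_mem DM.2 (hxD (n + 1))
    have m2 := hN.mem_of_mem DM.2 (hxD n)
    refine (hE' _).2 ⟨?_, hN.pair_mem m1 m2, ⟨_, m1⟩, ⟨_, m2⟩, ⟨_, hN.natZ_mem_N (ini q n)⟩,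
      ⟨_, hN.natZ_mem_N (ini q (n + 1))⟩, ⟨_, hT n⟩, ⟨_, hT (n + 1)⟩, rfl, rfl, rfl, isNatZ_natZ _, ⟨q n, ?_⟩, ?_, ?_⟩
    · rw [ZFSet.pair_mem_prod]
      exact ⟨hxD (n + 1), hxD n⟩
    · show natZ (ini q (n + 1)) = natZ (snocN (natD (natZ (ini q n))) (q n))
      rw [natD_natZ, ini_succ]
    · intro z hz
      obtain ⟨i, hi, rfl⟩ := (hT' n z).1 hz
      exact (hT' (n + 1) _).2 ⟨i, by omega, rfl⟩
    · show AttC b _ (natD (natZ (ini q (n + 1))))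
      rw [natD_natZ]
      exact hTA (n + 1)
  obtain ⟨g, hg0, hg, hgN⟩ := hN.exists_desc DM.2 hE hED
    (f := fun n => ZFSet.pair (natZ (ini q n)) (T n)) hdesc
  have hg1 : ∀ n, ∃ (c a : ℕ) (t t' : N), g n = ZFSet.pair (natZ c) t.1 ∧
      g (n + 1) = ZFSet.pair (natZ (snocN c a)) t'.1 ∧ t.1 ⊆ t'.1 ∧ AttC b t' (snocN c a) := by
    intro n
    obtain ⟨-, hm, y, x, c, d, t, t', e1, e2, e3, h1, ⟨a, h2⟩, h3, h4⟩ := (hE' _).1 (hg n)
    have e1 : ZFSet.pair (g (n + 1)) (g n) = ZFSet.pair y.1 x.1 := e1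
    rw [ZFSet.pair_inj] at e1
    obtain ⟨k, hk⟩ := isNatZ_iff.1 h1
    rw [hk, natD_natZ] at h2
    refine ⟨k, a, t, t', ?_, ?_, h3, ?_⟩
    · rw [e1.2, e2, hk]
    · rw [e1.1, e3, h2]
    · rw [h2, natD_natZ] at h4
      exact h4
  choose c a t t' hgc hgc' hsub hatt using hg1
  have hstep : ∀ n, c (n + 1) = snocN (c n) (a n) ∧ t (n + 1) = t' n := by
    intro n
    have e1 := (hgc (n + 1)).symm.trans (hgc' n)
    rw [ZFSet.pair_inj, natZ_inj] at e1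
    exact ⟨e1.1, Subtype.ext e1.2⟩
  have hc0 : c 0 = ini a 0 := by
    have e1 := (hgc 0).symm.trans hg0
    rw [ZFSet.pair_inj, natZ_inj] at e1
    exact e1.1
  have hc : ∀ n, c n = ini a n := by
    intro n
    induction n with
    | zero => exact hc0
    | succ n ih => rw [(hstep n).1, ih, ini_succ]
  have hat : ∀ n, AttC b (t (n + 1)) (ini a (n + 1)) := by
    intro n
    have h1 := hatt n
    rw [← (hstep n).1, ← (hstep n).2, hc] at h1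
    exact h1
  have hmono : ∀ m n, m ≤ n → (t m).1 ⊆ (t n).1 := by
    intro m n hmn
    induction hmn with
    | refl => exact fun z hz => hz
    | step _ ih =>
      intro z hz
      rw [Nat.succ_eq_add_one, (hstep _).2]
      exact hsub _ (ih hz)
  have haN : a ∈ Rl N := by
    let G : N := ⟨_, hgN⟩
    refine mem_Rl' hN (DR.mk (DN.of (P := fun v k => ∃ i' x c' s : N, i'.1 = natZ (natD (v 0).1 + 1) ∧
      ZFSet.pair i'.1 x.1 ∈ G.1 ∧ x.1 = ZFSet.pair c'.1 s.1 ∧ getN (natD c'.1) (natD (v 0).1) = k) ?_ ?_))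
    · exact Dfn.ex (Dfn.ex (Dfn.ex (Dfn.ex (Dfn.and (Dfn.eqNatZ (DT.var _) (DN.succ (DN.var _))) (Dfn.and
        (Dfn.pairMem (DT.var _) (DT.var _) (DT.const _)) (Dfn.and (Dfn.isPair (DT.var _) (DT.var _) (DT.var _))
          (Dfn.eqN (DN.getN (DN.var _) (DN.var _)) (DN.var _))))))))
    · intro v k
      show _ ↔ a (natD (v 0).1) = k
      generalize natD (v 0).1 = n
      constructor
      · rintro ⟨i', x, c', s, h1, h2, h3, h4⟩
        rw [h1] at h2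
        have h5 := pair_mem_seqZ.1 h2
        rw [h3, hgc (n + 1), ZFSet.pair_inj] at h5
        rw [h5.1, natD_natZ, hc, getN_ini (Nat.lt_succ_self n)] at h4
        exact h4
      · intro h1
        have hxN := hN.seqZ_val hgN (n + 1)
        refine ⟨⟨_, hN.natZ_mem_N (n + 1)⟩, ⟨_, hxN⟩, ⟨_, hN.natZ_mem_N (c (n + 1))⟩, t (n + 1), rfl,
          pair_mem_seqZ.2 rfl, hgc (n + 1), ?_⟩
        show getN (natD (natZ (c (n + 1)))) n = k
        rw [natD_natZ, hc, getN_ini (Nat.lt_succ_self n)]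
        exact h1
  refine ⟨a, haN, fun n => ?_, ?_⟩
  · have h1 := (hat n).1 n (by rw [lenN_ini]; omega)
    rwa [takeN_ini (Nat.le_succ n)] at h1
  · have h2 : ∀ i, ∃ ξ : N, ZFSet.pair (natZ i) ξ.1 ∈ (t (i + 1)).1 := by
      intro i
      obtain ⟨i', ξ, h3, h4⟩ := (hat i).2.1 i (by rw [lenN_ini]; omega)
      rw [h3] at h4
      exact ⟨ξ, h4⟩
    choose ξ hξ using h2
    refine ⟨fun i => (ξ i).1.rank, fun i j h0 => ZFSet.rank_lt_of_mem ?_⟩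
    have hM : i < i + j + Nat.pair i j + 1 ∧ j < i + j + Nat.pair i j + 1 ∧ Nat.pair i j < i + j + Nat.pair i j + 1 := by
      omega
    refine (hat (i + j + Nat.pair i j)).2.2.2 i j (by rw [lenN_ini]; exact hM.1) (by rw [lenN_ini]; exact hM.2.1)
      (by rw [lenN_ini]; exact hM.2.2) (by rw [getN_ini hM.2.2]; exact h0) ⟨_, hN.natZ_mem_N i⟩ ⟨_, hN.natZ_mem_N j⟩
      (ξ i) (ξ j) rfl rfl (hmono _ _ (by omega) (hξ i)) (hmono _ _ (by omega) (hξ j))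

end Pool.Agent.H19.GP
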