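import Pool.Agent.H19.GP.XCode
import Pool.Agent.H19.GP.Shoen

/-!
# Goldstern's principle: the reals of `L_β[e]` are `Σ¹₂` in every extension with the same ordinals

PROOF of `reals_sig`.  Let `S` be the Borel set of `xd_psiX` (`m = ` the empty function): `((e, x), c) ∈ S ↔ PsiX (BR e) w0 x (El c)` for valid `c`.  `CM = {(e, x, c) | Vld c ∧ ((e, x), c) ∈ S}`; its complement is analytic: `¬ Wf c` is analytic
(`∃ s, ∀ n, rel c (s (n+1)) (s n)`), the rest is Borel.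
(→) Let `x ∈ Rl M`.  `psiX_complete` gives `X`, `ρ < β`; `exists_code_El` gives `c` (in `V`) with `El c = X`, so `((e, x), c) ∈ S`.  `S` is analytic (Borel): closed `F ⊆ (R × R) × R × R`, i.e. `((e, x), c) ∈ S ↔ ∃ q, (jn e x, jn c q) ∈ F'`, `F'` closed (`AnalyticSet.exists_closed`, `RT`
embeddings as in the proof of `solve`); tree code `trc F'` in `M` (`ev_mem`).  Let `b n = trc F' (pair (ini (jn e x) (lenN n)) n)`, `b ∈ Rl M` (see `CTM.exists_br2`).  `shoenfield` (Shoen.lean) with `γ = ρ`, `q = jn c q`, `f n = (val c n).rank < ρ` (`rel c i j → val c i ∈ val c j`, ranks increase;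
`(jn c q (pair i j)).unpair.1 = c (pair i j)`) gives `q' ∈ Rl M`, `c' = lf q'`, `((e, x), c') ∈ S'`, `rel c'` well-founded (`f'`).  To have `c'` extensional: put extensionality of `rel c` into the Borel set (it is Borel: countable quantifiers), i.e. use `S ∩ {c | ext}` in place of `S`.
So `Vld c'` and `((e, x), c') ∈ S`, `c' ∈ Rl M ⊆ Rl N`.
(←) Let `x ∈ Rl N`, `c ∈ Rl N`, `Vld c`, `PsiX (BR e) w0 x (El c)`.  `psiX_sound`: `γ.toZFSet ∈ El c`, `rz x ∈ KL (BR e) w0 γ`.  `γ.toZFSet = val c n ∈ N`: the Mostowski collapse is in `N` (`CtmM.lean`, the theorem with conclusion `∃ x ∈ N, IsVal E x n`; `IsVal.unique`).  So `γ.toZFSet ∈ M` (same ordinals), `γ < β`, and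
`fld (Wl γ) ⊆ fld (Wl β)` (`Wl_mono`, `fld_mono`), `rz x ∈ M`.
-/

set_option autoImplicit false
set_option linter.unusedVariables false
set_option linter.unusedSectionVars false

universe u

namespace Pool.Agent.H19.GP

open Pool.Agent.H17.Omega Pool.Agent.H17.GP
open Pool.Agent.H52.OM
open MeasureTheory Topology Filter

/-! ### The trivial wellorder -/

theorem sgm_mem_w0 {z : ZFSet.{u}} : z ∈ w0.{u} ↔ z = ZFSet.pair ∅ ∅ := by
  rw [w0, ZFSet.mem_singleton]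

theorem sgm_fld_w0 {z : ZFSet.{u}} : z ∈ fld w0.{u} ↔ z = ∅ := by
  rw [mem_fld, sgm_mem_w0, ZFSet.pair_inj, and_self]

theorem sgm_wo : WO w0.{u} where
  rel := fun z hz => ⟨∅, sgm_fld_w0.2 rfl, ∅, sgm_fld_w0.2 rfl, sgm_mem_w0.1 hz⟩
  anti := fun a b h _ => by
    rw [sgm_mem_w0, ZFSet.pair_inj] at h
    rw [h.1, h.2]
  trans := fun a b c h h' => by
    rw [sgm_mem_w0, ZFSet.pair_inj] at h h'
    rw [sgm_mem_w0, h.1, h'.2]
  min := fun c hc hne => by
    obtain ⟨x, hx⟩ : ∃ x, x ∈ c := by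
      by_contra hcon
      push Not at hcon
      exact hne ((ZFSet.eq_empty c).2 hcon)
    refine ⟨x, hx, fun z hz => ?_⟩
    rw [sgm_mem_w0, sgm_fld_w0.1 (hc hx), sgm_fld_w0.1 (hc hz)]

theorem sgm_tr : (fld w0.{u}).IsTransitive := by
  intro x hx y hy
  rw [sgm_fld_w0.1 hx] at hy
  exact absurd hy (ZFSet.notMem_empty y)

theorem sgm_countable : {y | y ∈ w0.{u}}.Countable := by
  refine (Set.countable_singleton (ZFSet.pair.{u} ∅ ∅)).mono fun y hy => ?_
  exact sgm_mem_w0.1 hy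

theorem sgm_polish_prod (X Y : Type) [TopologicalSpace X] [TopologicalSpace Y] [PolishSpace X] [PolishSpace Y] :
    PolishSpace (X × Y) := inferInstance

/-! ### Well-foundedness is coanalytic, extensionality is Borel -/

theorem sgm_analytic_not_wf : AnalyticSet {c : ℕ → ℕ | ¬ Wf c} := by
  have h1 : IsClosed {p : (ℕ → ℕ) × (ℕ → ℕ) | ∀ n, rel p.1 (p.2 (n + 1)) (p.2 n)} := by
    have h2 : {p : (ℕ → ℕ) × (ℕ → ℕ) | ∀ n, rel p.1 (p.2 (n + 1)) (p.2 n)} =
        ⋂ n : ℕ, ⋂ i : ℕ, ⋂ j : ℕ, ({p | p.2 (n + 1) = i}ᶜ ∪ ({p | p.2 n = j}ᶜ ∪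
          {p | p.1 (Nat.pair i j) = 0})) := by
      ext p
      simp only [Set.mem_iInter, Set.mem_union, Set.mem_compl_iff]
      constructor
      · intro h n i j
        by_cases hi : p.2 (n + 1) = i
        · by_cases hj : p.2 n = j
          · refine Or.inr (Or.inr ?_)
            rw [← hi, ← hj]
            exact h n
          · exact Or.inr (Or.inl hj)
        · exact Or.inl hi
      · intro h n
        rcases h n _ _ with h1 | h1 | h1
        · exact absurd rfl h1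
        · exact absurd rfl h1
        · exact h1
    have h3 : ∀ n k : ℕ, IsClopen {p : (ℕ → ℕ) × (ℕ → ℕ) | p.2 n = k} := fun n k =>
      (isClopen_discrete ({k} : Set ℕ)).preimage ((continuous_apply n).comp continuous_snd)
    have h4 : ∀ n k : ℕ, IsClopen {p : (ℕ → ℕ) × (ℕ → ℕ) | p.1 n = k} := fun n k =>
      (isClopen_discrete ({k} : Set ℕ)).preimage ((continuous_apply n).comp continuous_fst)
    rw [h2]
    refine isClosed_iInter fun n => isClosed_iInter fun i => isClosed_iInter fun j => ?_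
    exact ((h3 _ _).compl.1).union (((h3 _ _).compl.1).union (h4 _ _).1)
  have h5 := (h1.measurableSet.analyticSet).image_of_continuous continuous_fst
  have h6 : {c : ℕ → ℕ | ¬ Wf c} =
      Prod.fst '' {p : (ℕ → ℕ) × (ℕ → ℕ) | ∀ n, rel p.1 (p.2 (n + 1)) (p.2 n)} := by
    ext c
    constructor
    · intro hc
      have hc' : ¬ WellFounded (rel c) := hc
      rw [wellFounded_iff_isEmpty_descending_chain, not_isEmpty_iff] at hc'
      obtain ⟨s, hs⟩ := hc'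
      exact ⟨(c, s), hs, rfl⟩
    · rintro ⟨⟨c', s⟩, hs, rfl⟩
      intro hc'
      have hc2 : WellFounded (rel c') := hc'
      rw [wellFounded_iff_isEmpty_descending_chain] at hc2
      exact hc2.false ⟨s, hs⟩
  rw [h6]
  exact h5

/-- extensionality of the coded relation -/
def sgm_ext (c : ℕ → ℕ) : Prop := ∀ m n, (∀ k, rel c k m ↔ rel c k n) → m = n

theorem sgm_measurable_ext : MeasurableSet {c : ℕ → ℕ | sgm_ext c} := by
  have hr : ∀ i j : ℕ, MeasurableSet {c : ℕ → ℕ | rel c i j} := fun i j =>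
    (measurable_pi_apply (Nat.pair i j)) (measurableSet_singleton 0)
  have h : {c : ℕ → ℕ | sgm_ext c} =
      ⋂ m : ℕ, ⋂ n : ℕ, ((⋂ k : ℕ, {c : ℕ → ℕ | rel c k m ↔ rel c k n})ᶜ ∪ {_c | m = n}) := by
    ext c
    simp only [Set.mem_iInter, Set.mem_union, Set.mem_compl_iff]
    constructor
    · intro h m n
      by_cases h1 : ∀ k, rel c k m ↔ rel c k n
      · exact Or.inr (h m n h1)
      · exact Or.inl h1
    · intro h m n hmn
      rcases h m n with h1 | h1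
      · exact absurd hmn h1
      · exact h1
  rw [h]
  refine MeasurableSet.iInter fun m => MeasurableSet.iInter fun n => ?_
  refine MeasurableSet.union (MeasurableSet.compl (MeasurableSet.iInter fun k => ?_))
    (MeasurableSet.const _)
  have h2 : {c : ℕ → ℕ | rel c k m ↔ rel c k n} =
      ({c | rel c k m} ∩ {c | rel c k n}) ∪ ({c | rel c k m}ᶜ ∩ {c | rel c k n}ᶜ) := by
    ext c
    exact iff_iff_and_or_not_and_not
  rw [h2]
  exact ((hr k m).inter (hr k n)).union ((hr k m).compl.inter (hr k n).compl)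

/-! ### The collapse in the model -/

theorem sgm_relZ_mem {N : Set ZFSet.{u}} (hN : CTM N) {c : ℕ → ℕ} (hc : c ∈ Rl N) :
    CTM.relZ.{u} (rel c) ∈ N := by
  have hR : hN.Dfn (fun v : Fin 2 → N => rel c (natD (v 0).1) (natD (v 1).1)) :=
    CTM.Dfn.eqN (CTM.DN.app (CTM.DR.const hc) (CTM.DN.pair (CTM.DN.var _) (CTM.DN.var _)))
      (CTM.DN.const 0)
  obtain ⟨E, hE, hE'⟩ := CTM.exists_relN hR
  have h : CTM.relZ.{u} (rel c) = E := by
    ext z
    rw [CTM.mem_relZ, hE']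
    constructor
    · rintro ⟨a, b, h1, h2⟩; exact ⟨a, b, h2, h1⟩
    · rintro ⟨a, b, h1, h2⟩; exact ⟨a, b, h2, h1⟩
  rw [h]; exact hE

theorem sgm_val_mem {N : Set ZFSet.{u}} (hN : CTM N) {c : ℕ → ℕ} (hc : c ∈ Rl N) (hw : Wf c) (n : ℕ) :
    val.{u} c n ∈ N := by
  obtain ⟨x, hx, hx'⟩ := hN.exists_isVal hw (sgm_relZ_mem hN hc) n
  rw [(isVal_val hw n).unique hx']
  exact hx

/-- There is a coanalytic relation `C` such that the reals of `M = L_β[e]` are the reals `x` with `∃ c ∈ N, (e, x, c) ∈ C`. -/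
theorem reals_sig : ∃ C : Set ((ℕ → ℕ) × (ℕ → ℕ) × (ℕ → ℕ)), AnalyticSet Cᶜ ∧
    ∀ᶠ M in ctmF.{u}, ∀ (e : ℕ → ℕ) (β : Ordinal.{u}), M = KL (BR e) w0 β → Order.IsSuccLimit β → e ∈ Rl M →
      (∀ γ : Ordinal.{u}, γ.toZFSet ∈ M ↔ γ < β) →
      ∀ N : Set ZFSet.{u}, CTM N → M ⊆ N → (∀ γ : Ordinal.{u}, γ.toZFSet ∈ N → γ.toZFSet ∈ M) →
        ∀ x ∈ Rl N, (x ∈ Rl M ↔ ∃ c ∈ Rl N, (e, x, c) ∈ C) := by
  classical
  have i1 : PolishSpace (((ℕ → ℕ) × (ℕ → ℕ)) × (ℕ → ℕ)) := sgm_polish_prod _ _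
  have i2 : PolishSpace ((ℕ → ℕ) × (ℕ → ℕ) × (ℕ → ℕ)) := sgm_polish_prod _ _
  have i3 : BorelSpace ((ℕ → ℕ) × (ℕ → ℕ)) := Prod.borelSpace
  have i4 : BorelSpace (((ℕ → ℕ) × (ℕ → ℕ)) × (ℕ → ℕ)) := Prod.borelSpace
  have i5 : BorelSpace ((ℕ → ℕ) × (ℕ → ℕ) × (ℕ → ℕ)) := Prod.borelSpace
  obtain ⟨S, hS, hS1⟩ := xd_psiX.{u} (Empty.elim : Empty → ℕ)
  have hS2 : ∀ e x c, Vld c → (((e, x), c) ∈ S ↔ PsiX.{u} (BR e) w0 x (El c)) := fun e x c hc =>
    hS1 (e, x) c hc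
  -- the Borel part of `C`
  let S' : Set (((ℕ → ℕ) × (ℕ → ℕ)) × (ℕ → ℕ)) := S ∩ {p | sgm_ext p.2}
  have hS' : MeasurableSet S' := hS.inter (measurable_snd sgm_measurable_ext)
  have hVld : ∀ c, Vld c ↔ sgm_ext c ∧ Wf c := fun c =>
    ⟨fun h => ⟨h.ext, h.wf⟩, fun h => ⟨h.1, h.2⟩⟩
  obtain ⟨F, hF, hFS⟩ := AnalyticSet.exists_closed hS'.analyticSet
  let G : (ℕ → ℕ) × (ℕ → ℕ) → (((ℕ → ℕ) × (ℕ → ℕ)) × (ℕ → ℕ)) × (ℕ → ℕ) :=
    fun p => (((lf p.1, rt p.1), lf p.2), rt p.2)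
  have hG : Continuous G :=
    ((((continuous_lf.comp continuous_fst).prodMk (continuous_rt.comp continuous_fst)).prodMk
      (continuous_lf.comp continuous_snd)).prodMk (continuous_rt.comp continuous_snd))
  have hF' : IsClosed (G ⁻¹' F) := hF.preimage hG
  refine ⟨{p | Vld p.2.2 ∧ ((p.1, p.2.1), p.2.2) ∈ S}, ?_, ?_⟩
  · -- the complement is analytic
    have h1 : {p : (ℕ → ℕ) × (ℕ → ℕ) × (ℕ → ℕ) | Vld p.2.2 ∧ ((p.1, p.2.1), p.2.2) ∈ S}ᶜ =
        {p | ¬ Wf p.2.2} ∪ {p | ((p.1, p.2.1), p.2.2) ∉ S'} := by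
      ext p
      show ¬ (Vld p.2.2 ∧ ((p.1, p.2.1), p.2.2) ∈ S) ↔
        (¬ Wf p.2.2 ∨ ¬ (((p.1, p.2.1), p.2.2) ∈ S ∧ sgm_ext p.2.2))
      rw [hVld]
      tauto
    rw [h1]
    have hc : Continuous (fun p : (ℕ → ℕ) × (ℕ → ℕ) × (ℕ → ℕ) => p.2.2) :=
      continuous_snd.comp continuous_snd
    have hm : Measurable (fun p : (ℕ → ℕ) × (ℕ → ℕ) × (ℕ → ℕ) => ((p.1, p.2.1), p.2.2)) :=
      ((measurable_fst).prodMk (measurable_fst.comp measurable_snd)).prodMk
        (measurable_snd.comp measurable_snd)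
    have h2 : AnalyticSet {p : (ℕ → ℕ) × (ℕ → ℕ) × (ℕ → ℕ) | ¬ Wf p.2.2} :=
      sgm_analytic_not_wf.preimage hc
    have h3 : AnalyticSet {p : (ℕ → ℕ) × (ℕ → ℕ) × (ℕ → ℕ) | ((p.1, p.2.1), p.2.2) ∉ S'} :=
      (hm hS'.compl).analyticSet
    have h4 := AnalyticSet.iUnion (ι := Bool) (s := fun b => if b then
      {p : (ℕ → ℕ) × (ℕ → ℕ) × (ℕ → ℕ) | ¬ Wf p.2.2} else {p | ((p.1, p.2.1), p.2.2) ∉ S'})
      (by
        intro b
        cases b
        · exact h3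
        · exact h2)
    have h5 : ({p : (ℕ → ℕ) × (ℕ → ℕ) × (ℕ → ℕ) | ¬ Wf p.2.2} ∪ {p | ((p.1, p.2.1), p.2.2) ∉ S'}) =
        ⋃ b : Bool, if b then
          {p : (ℕ → ℕ) × (ℕ → ℕ) × (ℕ → ℕ) | ¬ Wf p.2.2} else {p | ((p.1, p.2.1), p.2.2) ∉ S'} := by
      ext p
      rw [Set.mem_union, Set.mem_iUnion]
      constructor
      · rintro (h | h)
        · exact ⟨true, h⟩
        · exact ⟨false, h⟩
      · rintro ⟨b, h⟩
        cases b
        · exact Or.inr h
        · exact Or.inl h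
    rw [h5]
    exact h4
  · filter_upwards [ev_ctm, ev_mem (trc (G ⁻¹' F))] with M hM ha
    intro e β hMβ hβ he hO N hN hMN hON x hxN
    constructor
    · -- witnesses
      intro hx
      subst hMβ
      obtain ⟨X, hXt, hXc, hXi, hX, ρ, hρ, hXρ⟩ := psiX_complete (B := BR.{u} e) (w := w0.{u})
        sgm_wo sgm_tr ⟨∅, sgm_fld_w0.2 rfl⟩ sgm_countable hβ hM (fun γ hγ => (hO γ).2 hγ)
        (fun γ hγ => (hO γ).1 hγ) hx
      obtain ⟨c, hc, rfl⟩ := exists_code_El hXt hXc hXi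
      have h1 : ((e, x), c) ∈ S' := ⟨(hS2 e x c hc).2 hX, hc.ext⟩
      obtain ⟨q0, hq0⟩ := (hFS _).1 h1
      have hX0 : jn e x ∈ Rl (KL (BR.{u} e) w0 β) := (jn_mem hM).2 ⟨he, hx⟩
      have hb : (fun n => trc (G ⁻¹' F) (Nat.pair (Pool.Agent.H17.GP.ini (jn e x) (lenN n)) n)) ∈
          Rl (KL (BR.{u} e) w0 β) :=
        CTM.mem_Rl' hM (CTM.DR.mk (CTM.DN.app (CTM.DR.const ha) (CTM.DN.pair
          (CTM.DN.ini (CTM.DR.const hX0) (CTM.DN.primrec prim_lenN (CTM.DN.var _)))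
          (CTM.DN.var _))))
      have h2 : (jn e x, jn c q0) ∈ G ⁻¹' F := by
        show (((lf (jn e x), rt (jn e x)), lf (jn c q0)), rt (jn c q0)) ∈ F
        rw [lf_jn, rt_jn, lf_jn, rt_jn]
        exact hq0
      obtain ⟨q', hq', hbr, f', hf'⟩ := shoenfield hM ((hO ρ).2 hρ) hb (q := jn c q0)
        (fun n => by
          show trc (G ⁻¹' F) (Nat.pair (Pool.Agent.H17.GP.ini (jn e x) (lenN (Pool.Agent.H17.GP.ini (jn c q0) n))) (Pool.Agent.H17.GP.ini (jn c q0) n)) ≠ 0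
          rw [lenN_ini]
          exact (trc_spec hF' _ _).2 h2 n)
        (f := fun n => (val.{u} c n).rank) (fun n => hXρ _ ⟨n, rfl⟩)
        (fun i j hij => by
          have h3 : rel c i j := by
            have h4 : (jn c q0 (Nat.pair i j)).unpair.1 = c (Nat.pair i j) := by
              show lf (jn c q0) (Nat.pair i j) = _
              rw [lf_jn]
            rw [h4] at hij
            exact hij
          exact ZFSet.rank_lt_of_mem ((val_mem_iff hc).2 h3))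
      have h3 : (jn e x, q') ∈ G ⁻¹' F := by
        refine (trc_spec hF' _ _).1 fun n => ?_
        have h4 := hbr n
        simp only [lenN_ini] at h4
        exact h4
      have h4 : ((e, x), lf q') ∈ S' := by
        refine (hFS _).2 ⟨rt q', ?_⟩
        have h5 : (((lf (jn e x), rt (jn e x)), lf q'), rt q') ∈ F := h3
        rw [lf_jn, rt_jn] at h5
        exact h5
      have h5 : Wf (lf q') := by
        refine Subrelation.wf (r := InvImage (· < ·) f') ?_ (InvImage.wf f' wellFounded_lt)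
        intro i j hij
        exact hf' i j hij
      exact ⟨lf q', Rl_mono hMN (lf_mem hM hq'), ⟨h4.2, h5⟩, h4.1⟩
    · -- soundness
      rintro ⟨c, hcN, hc, hcS⟩
      have hc : Vld c := hc
      have hcS : ((e, x), c) ∈ S := hcS
      obtain ⟨γ, hγ, hxγ⟩ := psiX_sound sgm_wo.{u} (El_trans hc) ((hS2 e x c hc).1 hcS)
      obtain ⟨n, hn⟩ := hγ
      have h1 : γ.toZFSet ∈ N := by
        rw [← hn]
        exact sgm_val_mem hN hcN hc.wf n
      have h2 : γ < β := (hO γ).1 (hON γ h1)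
      show rz x ∈ M
      rw [hMβ]
      exact fld_mono (Wl_mono h2.le) hxγ

end Pool.Agent.H19.GP
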