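import Pool.Agent.H19.GP.Del
import Pool.Agent.H19.GP.SigM
import Pool.Agent.H19.GP.Fail
import Pool.Agent.H17.GP.RedC
import Pool.Agent.H17.GP.RedB

/-!
# Goldstern's principle: from the iteration to the theorem
-/

set_option autoImplicit false

universe u

namespace Pool.Agent.H19.GP

open Pool.Agent.H17.Omega Pool.Agent.H17.GP
open Pool.Agent.H52.OM

/-- For certain countably many reals: if the ground model `K 0 = L_β[e]` contains them, then the final model `N` satisfies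
`GP(Δ¹₂)` and not `GP(Σ¹₂)`. -/
theorem part_A : ∃ T : Set (ℕ → ℕ), T.Countable ∧ ∀ (N : Set ZFSet.{u}) (δ : Ordinal.{u})
    (K : Ordinal.{u} → Set ZFSet.{u}), Sys N δ K → T ⊆ Rl (K 0) →
    ∀ (e : ℕ → ℕ) (β : Ordinal.{u}), K 0 = KL (BR e) w0 β → Order.IsSuccLimit β → e ∈ Rl (K 0) →
      (∀ γ : Ordinal.{u}, γ.toZFSet ∈ K 0 ↔ γ < β) → (∀ γ : Ordinal.{u}, γ.toZFSet ∈ N → γ.toZFSet ∈ K 0) →
      Gold (Rl N) (Del12 (Rl N)) ∧ ¬ Gold (Rl N) (Sig12 (Rl N)) := by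
  obtain ⟨T1, hT1, h1⟩ := gp_delta.{u}
  obtain ⟨T2, hT2, h2⟩ := red_del.{u}
  obtain ⟨C, hC, T3, hT3, h3⟩ := reals_sig.{u}
  obtain ⟨T4, hT4, h4⟩ := not_gp_sigma.{u} hC
  refine ⟨T1 ∪ T2 ∪ (T3 ∪ T4), (hT1.union hT2).union (hT3.union hT4), ?_⟩
  intro N δ K hS hT e β hK hβ he hO hON
  have t1 : T1 ⊆ Rl (K 0) := (Set.subset_union_left.trans Set.subset_union_left).trans hT
  have t2 : T2 ⊆ Rl (K 0) := (Set.subset_union_right.trans Set.subset_union_left).trans hT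
  have t3 : T3 ⊆ Rl (K 0) := (Set.subset_union_left.trans Set.subset_union_right).trans hT
  have t4 : T4 ⊆ Rl (K 0) := (Set.subset_union_right.trans Set.subset_union_right).trans hT
  have hKN : Rl (K 0) ⊆ Rl N := Rl_mono (hS.sub 0 hS.pos)
  refine ⟨h2 hS.ctmN (t2.trans hKN) (h1 N δ K hS t1), ?_⟩
  refine not_gold_of_notGPSigL hS.ctmN ?_
  refine h4 N δ K hS t4 e (hKN he) fun x hx => ?_
  exact h3 (K 0) (hS.ctmK 0 hS.pos) t3 e β hK hβ he hO N hS.ctmN (hS.sub 0 hS.pos) hON x hx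

end Pool.Agent.H19.GP
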