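import Pool.Agent.H17.GP.Stmt

/-!
# Goldstern's principle (MP_66e4cf): the interface between the iteration and the analysis

`Sys N δ K`: `N` is the final model, `K ξ` (`ξ < δ`) the intermediate models, `K 0` the ground model.
PART A (from `Sys` to the principle) uses nothing else about the iteration.
-/

set_option autoImplicit false

universe u

namespace Pool.Agent.H19.GP

open Pool.Agent.H17.Omega Pool.Agent.H17.GP
open MeasureTheory

/-- The fair coin. -/
noncomputable def coin : Measure Bool := (2 : ENNReal)⁻¹ • Measure.count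

/-- Lebesgue measure on `2^ω`. -/
noncomputable def lam : Measure (ℕ → Bool) := Measure.infinitePi (fun _ : ℕ => coin)

/-- The clopen subset of `2^ω` with code `j`: a finite union of basic clopen sets. -/
def Cl (j : ℕ) : Set (ℕ → Bool) :=
  {y | ∃ t ∈ dl j, ExtB y (dlB t)}

/-- The open subset of `2^ω` with code `u`. -/
def Op (u : ℕ → ℕ) : Set (ℕ → Bool) := {y | ∃ j, y ∈ Cl (u j)}

/-- `Uk k j`, `j ∈ ℕ`, are the clopen sets of measure at most `4^(-k)` (codes `j` of larger sets give the empty set). -/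
def Uk (k j : ℕ) : Set (ℕ → Bool) := {y | lam (Cl j) ≤ (1 / 4) ^ k ∧ y ∈ Cl j}

/-- The null set with code `w`: the points that are in infinitely many of the sets `Uk k (w k)`. -/
def Nw (w : ℕ → ℕ) : Set (ℕ → Bool) := {y | ∀ n, ∃ k, n ≤ k ∧ y ∈ Uk k (w k)}

/-- The relation `i < j` coded by the real `g`. -/
def rel (g : ℕ → ℕ) (i j : ℕ) : Prop := g (Nat.pair i j) = 0

/-- The relation coded by `g` is well-founded. -/
def Wf (g : ℕ → ℕ) : Prop := WellFounded (rel g)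

/-- The models of the iteration, as needed for the analysis. -/
structure Sys (N : Set ZFSet.{u}) (δ : Ordinal.{u}) (K : Ordinal.{u} → Set ZFSet.{u}) : Prop where
  ctmN : CTM N
  pos : 0 < δ
  ctmK : ∀ ξ < δ, CTM (K ξ)
  mono : ∀ ξ η, ξ ≤ η → η < δ → K ξ ⊆ K η
  sub : ∀ ξ < δ, K ξ ⊆ N
  /-- every real of `N` is in some `K ξ` -/
  reals : ∀ x ∈ Rl N, ∃ ξ < δ, x ∈ Rl (K ξ)
  /-- the countable ordinals of `N` are countable in the ground model -/
  wo : ∀ g ∈ Rl N, Wf g → ∃ g' ∈ Rl (K 0), Wf g' ∧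
    ∃ e : ℕ → ℕ, ∀ i j, rel g i j → rel g' (e i) (e j)
  /-- a real of `N` that dominates `K ξ` -/
  dom : ∀ ξ < δ, ∃ z ∈ Rl N, ∀ x ∈ Rl (K ξ), ∃ n, ∀ k, n ≤ k → x k ≤ z k
  /-- a real of `N` that is infinitely often equal to every real of `K ξ` -/
  ioe : ∀ ξ < δ, ∃ z ∈ Rl N, ∀ x ∈ Rl (K ξ), ∀ n, ∃ k, n ≤ k ∧ z k = x k
  /-- a real of `N` that is random over `K ξ` -/
  rand : ∀ ξ < δ, ∃ y : ℕ → Bool, b2n y ∈ Rl N ∧ ∀ w ∈ Rl (K ξ), y ∉ Nw w
  /-- no slalom of `N` captures the reals of the ground model -/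
  slal : ∀ b ∈ Rl (K 0), ∀ s ∈ Rl N, (∀ m, (dl (s m)).length ≤ b m) →
    ∃ c ∈ Rl (K 0), ∀ n, ∃ m, n ≤ m ∧ c m ∉ dl (s m)

end Pool.Agent.H19.GP
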