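import Pool.Agent.H19.GP.CapA

/-!
# Goldstern's principle: the capacitability dichotomy in a model

`cap`: `F ⊆ X × 2^ω × ω^ω` closed, `x` in the model `K`.  Either the projection `{y | ∃ q, (x, y, q) ∈ F}` is inside a null set `Nw w` with `w` in `K`,
or for some `τ` in `K` the compact set `Bt F x τ` has positive measure.

PROOF for `X = ℕ → ℕ` (`cap_real`).  Assume no `τ ∈ Rl K` has `0 < lam (Bt F x τ)`.
`Ap F x y s` (`s : List ℕ`): some `(x', y', q') ∈ F` agrees with `(x, y, s)` at all places `< s.length`.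
`Cc F x t` (`t : List ℕ`) `= {y | ∃ s, s.length = t.length ∧ (∀ i < t.length, s.getD i 0 ≤ t.getD i 0) ∧ Ap F x y s}`: clopen (it depends only on `y i`,
`i < t.length`), decreasing under extension of `t`.
`Aa F x t = {y | ∃ q, (∀ i < t.length, q i ≤ t.getD i 0) ∧ (x, y, q) ∈ F} ⊆ Cc F x t`.
(1) `⋂ n, Cc F x (τ|n) = Bt F x τ` (`τ|n = (List.range n).map τ`): Koenig / compactness: for `y` in the intersection choose `s_n` and points of `F`; along an ultrafilter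
the `s_n` converge to some `q ≤ τ` and the points of `F` converge to `(x, y, q)`.
So if `(ε : ENNReal) ≤ lam (Cc F x (τ|n))` for all `n` then `ε ≤ lam (Bt F x τ)` (continuity from above).
(2) Fix `ε = (1/2)^e > 0`.  The tree `T = {t | ε ≤ lam (Cc F x t)}` has no infinite branch `τ`: by (1) `ε ≤ lam (Bt F x τ)`, the relation
`{(x, τ) | ε ≤ lam (Bt F x τ)}` is Borel (`isClosed_Bt`, `measurable_lam`), so by `solve` there is such a `τ` in `K`, contradiction.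
(3) CLAIM: for all `t : List ℕ` and all `m` there is `u ∈ Rl K` with `Aa F x t ⊆ Op u`, `lam (Op u) ≤ ε + (1/2)^m`.
If `t ∉ T`: `Aa F x t ⊆ Cc F x t`, which is clopen of measure `< ε`: `u` = constant function, value a code of it.
For `t ∈ T` by well-founded induction on the extension relation `t ++ [j] < t` on `T` (well-founded by (2)): the claim holds for all `t ++ [j]`.
By `cchoice` (relation `C = {(x, n, u) | Aa F x (t ++ [n.unpair.1]) ⊆ Op u ∧ lam (Op u) ≤ ε + (1/2)^(n.unpair.2)}`, the complement is analytic: a projection of a Borel set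
union a Borel set) there is `U : ℕ → ℕ → ℕ` in `K` with `Aa F x (t ++ [j]) ⊆ Op (U j)` and `lam (Op (U j)) ≤ ε + (1/2)^(m+2+j)` for all `j` (first get the double sequence, then
reindex by `In_fun`).  In `V`: `G n = ⋂_{i ≥ n} Op (U i)` is increasing in `n`, `lam (G n) ≤ ε`, `Aa F x (t ++ [n]) ⊆ Aa F x (t ++ [i]) ⊆ Op (U i)` for `i ≥ n`, so
`Aa F x t = ⋃ n, Aa F x (t ++ [n]) ⊆ ⋃ n, G n`, `lam (⋃ n, G n) ≤ ε`.  Choose `κ n` with `lam (V n \ G n) ≤ (1/2)^(m+1+n)`, `V n = ⋂_{n ≤ i ≤ n + κ n} Op (U i)`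
(continuity from above).  Then `lam (Op (inter U κ)) ≤ ε + (1/2)^m`.  By `solve` for the Borel relation `{(U, κ) | lam (Op (inter U κ)) ≤ ε + (1/2)^m}` there is such a `κ` in `K`, and for EVERY
`κ`: `Aa F x t ⊆ ⋃ n, G n ⊆ Op (inter U κ)`.  `inter U κ` is in `K` by `In_fun` (`measurable_inter`).
(4) `t = []`: for all `e`: `u ∈ Rl K` with `{y | ∃ q, (x, y, q) ∈ F} = Aa F x [] ⊆ Op u`, `lam (Op u) ≤ (1/2)^(e+1) + (1/2)^(e+1) = (1/2)^e`; `cchoice` gives a sequence, `nw_of_Gd` gives `w`.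
(All filter statements are needed for countably many parameters `ε, m, t` only: `ev_all`; or put them in as natural number coordinates.)

PROOF of `cap` from `cap_real`: `F' = {(cR x, y, q) | (x, y, q) ∈ F}` is closed (image under a closed embedding), `Bt F' (cR x) τ = Bt F x τ`.
-/

set_option autoImplicit false

universe u

namespace Pool.Agent.H19.GP

open Pool.Agent.H17.Omega Pool.Agent.H17.GP
open MeasureTheory Topology Filter

instance polish_cantor : PolishSpace (ℕ → Bool) := (RT.emb (X := ℕ → Bool)).polishSpace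

theorem polish_prod (X Y : Type) [TopologicalSpace X] [TopologicalSpace Y] [PolishSpace X] [PolishSpace Y] :
    PolishSpace (X × Y) := inferInstance

instance polish1 : PolishSpace ((ℕ → ℕ) × ℕ × (ℕ → ℕ)) := polish_prod _ _

instance polish2 : PolishSpace ((ℕ → Bool) × (ℕ → ℕ)) := polish_prod _ _

instance polish3 : PolishSpace (((ℕ → ℕ) × ℕ × (ℕ → ℕ)) × (ℕ → Bool) × (ℕ → ℕ)) := polish_prod _ _

instance polish4 : PolishSpace (ℕ → ℕ → ℕ) := (RT.emb (X := ℕ → ℕ → ℕ)).polishSpace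

instance polish5 : PolishSpace ((ℕ → ℕ → ℕ) × (ℕ → ℕ)) := polish_prod _ _

instance polish6 : PolishSpace (((ℕ → ℕ → ℕ) × (ℕ → ℕ)) × (ℕ → ℕ)) := polish_prod _ _

instance borel4 : BorelSpace (ℕ → ℕ → ℕ) := Pi.borelSpace

instance borel5 : BorelSpace ((ℕ → ℕ → ℕ) × (ℕ → ℕ)) := Prod.borelSpace

instance borel6 : BorelSpace (((ℕ → ℕ → ℕ) × (ℕ → ℕ)) × (ℕ → ℕ)) := Prod.borelSpace

/-- The points with a witness below `t`. -/
def Aa (F : Set ((ℕ → ℕ) × (ℕ → Bool) × (ℕ → ℕ))) (x : ℕ → ℕ) (t : List ℕ) : Set (ℕ → Bool) :=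
  {y | ∃ q : ℕ → ℕ, (∀ i < t.length, q i ≤ t.getD i 0) ∧ (x, y, q) ∈ F}

/-- The clopen approximation of `Aa`. -/
def Cc (F : Set ((ℕ → ℕ) × (ℕ → Bool) × (ℕ → ℕ))) (x : ℕ → ℕ) (t : List ℕ) : Set (ℕ → Bool) :=
  {y | ∃ p ∈ F, ∀ i < t.length, p.1 i = x i ∧ p.2.1 i = y i ∧ p.2.2 i ≤ t.getD i 0}

variable {F : Set ((ℕ → ℕ) × (ℕ → Bool) × (ℕ → ℕ))}

theorem Aa_sub_Cc (x : ℕ → ℕ) (t : List ℕ) : Aa F x t ⊆ Cc F x t := by
  rintro y ⟨q, hq, h⟩
  exact ⟨(x, y, q), h, fun i hi => ⟨rfl, rfl, hq i hi⟩⟩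

theorem isClopen_Cc (x : ℕ → ℕ) (t : List ℕ) : IsClopen (Cc F x t) := by
  have h : Cc F x t = (fun (y : ℕ → Bool) (i : Fin t.length) => y i) ⁻¹'
      {f | ∃ p ∈ F, ∀ i : Fin t.length, p.1 i = x i ∧ p.2.1 i = f i ∧ p.2.2 i ≤ t.getD i 0} := by
    ext y
    constructor
    · rintro ⟨p, hp, h⟩
      exact ⟨p, hp, fun i => h i i.2⟩
    · rintro ⟨p, hp, h⟩
      exact ⟨p, hp, fun i hi => h ⟨i, hi⟩⟩
  rw [h]
  refine IsClopen.preimage (isClopen_discrete _) ?_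
  exact continuous_pi fun i => continuous_apply _

theorem getD_range_map {τ : ℕ → ℕ} {n i : ℕ} (hi : i < n) : ((List.range n).map τ).getD i 0 = τ i := by
  rw [List.getD_eq_getElem _ _ (by simpa using hi)]
  simp

theorem Cc_range (x τ : ℕ → ℕ) (n : ℕ) (y : ℕ → Bool) : y ∈ Cc F x ((List.range n).map τ) ↔
    ∃ p ∈ F, ∀ i < n, p.1 i = x i ∧ p.2.1 i = y i ∧ p.2.2 i ≤ τ i := by
  unfold Cc
  simp only [Set.mem_ofPred_eq, List.length_map, List.length_range]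
  refine exists_congr fun p => and_congr_right fun _ => forall_congr' fun i => forall_congr' fun hi => ?_
  rw [getD_range_map hi]

theorem iInter_Cc (hF : IsClosed F) (x τ : ℕ → ℕ) : ⋂ n, Cc F x ((List.range n).map τ) ⊆ Bt F x τ := by
  intro y hy
  simp only [Set.mem_iInter, Cc_range] at hy
  choose p hp h using hy
  let 𝒰 : Ultrafilter ℕ := hyperfilter ℕ
  have hgt : ∀ i, ∀ᶠ n in (𝒰 : Filter ℕ), i < n := fun i =>
    (Nat.hyperfilter_le_atTop) (eventually_gt_atTop i)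
  -- the limits of the witnesses
  have hq : ∀ i, ∃ c, c ≤ τ i ∧ ∀ᶠ n in (𝒰 : Filter ℕ), (p n).2.2 i = c := by
    intro i
    have hc : IsCompact (Set.Iic (τ i)) := (Set.finite_Iic (τ i)).isCompact
    obtain ⟨c, hc1, hc2⟩ := isCompact_iff_ultrafilter_le_nhds.1 hc (𝒰.map fun n => (p n).2.2 i) (by
      rw [le_principal_iff]
      show ∀ᶠ n in (𝒰 : Filter ℕ), (p n).2.2 i ∈ Set.Iic (τ i)
      filter_upwards [hgt i] with n hn
      exact (h n i hn).2.2)
    rw [nhds_discrete] at hc2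
    exact ⟨c, hc1, (le_pure_iff.1 hc2)⟩
  choose q hq1 hq2 using hq
  refine ⟨q, hq1, ?_⟩
  refine hF.mem_of_tendsto (f := p) (b := (𝒰 : Filter ℕ)) ?_ (Eventually.of_forall hp)
  have t1 : Tendsto (fun n => (p n).1) (𝒰 : Filter ℕ) (𝓝 x) := by
    rw [tendsto_pi_nhds]
    intro i
    refine tendsto_const_nhds.congr' ?_
    filter_upwards [hgt i] with n hn
    exact (h n i hn).1.symm
  have t2 : Tendsto (fun n => (p n).2.1) (𝒰 : Filter ℕ) (𝓝 y) := by
    rw [tendsto_pi_nhds]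
    intro i
    refine tendsto_const_nhds.congr' ?_
    filter_upwards [hgt i] with n hn
    exact (h n i hn).2.1.symm
  have t3 : Tendsto (fun n => (p n).2.2) (𝒰 : Filter ℕ) (𝓝 q) := by
    rw [tendsto_pi_nhds]
    intro i
    refine tendsto_const_nhds.congr' ?_
    filter_upwards [hq2 i] with n hn
    exact hn.symm
  exact t1.prodMk_nhds (t2.prodMk_nhds t3)

theorem le_lam_Bt (hF : IsClosed F) (x τ : ℕ → ℕ) {ε : ENNReal}
    (h : ∀ n, ε ≤ lam (Cc F x ((List.range n).map τ))) : ε ≤ lam (Bt F x τ) := by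
  have hanti : Antitone fun n => Cc F x ((List.range n).map τ) := by
    intro n m hnm y hy
    show y ∈ Cc F x ((List.range n).map τ)
    rw [Cc_range] at hy ⊢
    obtain ⟨p, hp, hpi⟩ := hy
    exact ⟨p, hp, fun i hi => hpi i (hi.trans_le hnm)⟩
  refine le_trans ?_ (measure_mono (iInter_Cc hF x τ))
  rw [hanti.measure_iInter (fun n => (isClopen_Cc x _).isOpen.measurableSet.nullMeasurableSet)
    ⟨0, measure_ne_top _ _⟩]
  exact le_iInf h

theorem Op_const (j : ℕ) : Op (fun _ => j) = Cl j := by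
  ext y
  exact ⟨fun ⟨_, h⟩ => h, fun h => ⟨0, h⟩⟩

/-- the relation for the choice -/
def CR (F : Set ((ℕ → ℕ) × (ℕ → Bool) × (ℕ → ℕ))) (t : ℕ → List ℕ) (b : ℕ → ENNReal) :
    Set ((ℕ → ℕ) × ℕ × (ℕ → ℕ)) :=
  {p | Aa F p.1 (t p.2.1) ⊆ Op p.2.2 ∧ lam (Op p.2.2) ≤ b p.2.1}

theorem analytic_CR (hF : IsClosed F) (t : ℕ → List ℕ) (b : ℕ → ENNReal) : AnalyticSet (CR F t b)ᶜ := by
  have h1 : AnalyticSet {p : (ℕ → ℕ) × ℕ × (ℕ → ℕ) | ∃ z : (ℕ → Bool) × (ℕ → ℕ),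
      (∀ i < (t p.2.1).length, z.2 i ≤ (t p.2.1).getD i 0) ∧ (p.1, z.1, z.2) ∈ F ∧ z.1 ∉ Op p.2.2} := by
    have hcl : IsClosed {r : ((ℕ → ℕ) × ℕ × (ℕ → ℕ)) × ((ℕ → Bool) × (ℕ → ℕ)) |
        (∀ i < (t r.1.2.1).length, r.2.2 i ≤ (t r.1.2.1).getD i 0) ∧ (r.1.1, r.2.1, r.2.2) ∈ F ∧
          r.2.1 ∉ Op r.1.2.2} := by
      have c1 : IsClosed {r : ((ℕ → ℕ) × ℕ × (ℕ → ℕ)) × ((ℕ → Bool) × (ℕ → ℕ)) |
          ∀ i < (t r.1.2.1).length, r.2.2 i ≤ (t r.1.2.1).getD i 0} := by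
        have e : {r : ((ℕ → ℕ) × ℕ × (ℕ → ℕ)) × ((ℕ → Bool) × (ℕ → ℕ)) |
            ∀ i < (t r.1.2.1).length, r.2.2 i ≤ (t r.1.2.1).getD i 0} =
            ⋂ i : ℕ, (fun r : ((ℕ → ℕ) × ℕ × (ℕ → ℕ)) × ((ℕ → Bool) × (ℕ → ℕ)) => (r.1.2.1, r.2.2 i)) ⁻¹'
              {s : ℕ × ℕ | i < (t s.1).length → s.2 ≤ (t s.1).getD i 0} := by
          ext r
          simp
        rw [e]
        refine isClosed_iInter fun i => IsClosed.preimage ?_ (isClosed_discrete _)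
        exact (continuous_fst.comp (continuous_snd.comp continuous_fst)).prodMk
          ((continuous_apply i).comp (continuous_snd.comp continuous_snd))
      have c2 : IsClosed {r : ((ℕ → ℕ) × ℕ × (ℕ → ℕ)) × ((ℕ → Bool) × (ℕ → ℕ)) |
          (r.1.1, r.2.1, r.2.2) ∈ F} := by
        refine hF.preimage (f := fun r : ((ℕ → ℕ) × ℕ × (ℕ → ℕ)) × ((ℕ → Bool) × (ℕ → ℕ)) =>
          (r.1.1, r.2.1, r.2.2)) ?_
        fun_prop
      have c3 : IsClosed {r : ((ℕ → ℕ) × ℕ × (ℕ → ℕ)) × ((ℕ → Bool) × (ℕ → ℕ)) |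
          r.2.1 ∉ Op r.1.2.2} := by
        have ho : IsOpen {r : ((ℕ → ℕ) × ℕ × (ℕ → ℕ)) × ((ℕ → Bool) × (ℕ → ℕ)) |
            r.2.1 ∈ Op r.1.2.2} := by
          refine isOpen_OpRel.preimage (f := fun r : ((ℕ → ℕ) × ℕ × (ℕ → ℕ)) × ((ℕ → Bool) × (ℕ → ℕ)) =>
            (r.1.2.2, r.2.1)) ?_
          fun_prop
        exact ho.isClosed_compl
      exact c1.inter (c2.inter c3)
    have := hcl.analyticSet.image_of_continuous continuous_fst
    convert! this using 1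
    ext p
    constructor
    · rintro ⟨z, hz⟩
      exact ⟨(p, z), hz, rfl⟩
    · rintro ⟨⟨p', z⟩, hz, rfl⟩
      exact ⟨z, hz⟩
  have h2 : MeasurableSet {p : (ℕ → ℕ) × ℕ × (ℕ → ℕ) | b p.2.1 < lam (Op p.2.2)} := by
    refine measurableSet_lt ?_ ?_
    · exact (measurable_of_countable b).comp (measurable_fst.comp measurable_snd)
    · exact measurable_lamOp.comp (measurable_snd.comp measurable_snd)
  have e : (CR F t b)ᶜ = {p : (ℕ → ℕ) × ℕ × (ℕ → ℕ) | ∃ z : (ℕ → Bool) × (ℕ → ℕ),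
      (∀ i < (t p.2.1).length, z.2 i ≤ (t p.2.1).getD i 0) ∧ (p.1, z.1, z.2) ∈ F ∧ z.1 ∉ Op p.2.2} ∪
      {p | b p.2.1 < lam (Op p.2.2)} := by
    ext p
    simp only [CR, Set.mem_compl_iff, Set.mem_ofPred_eq, not_and_or, not_le, Set.mem_union]
    refine or_congr ?_ Iff.rfl
    rw [Set.not_subset]
    constructor
    · rintro ⟨y, ⟨q, hq, h⟩, hy⟩
      exact ⟨(y, q), hq, h, hy⟩
    · rintro ⟨⟨y, q⟩, hq, h, hy⟩
      exact ⟨y, ⟨q, hq, h⟩, hy⟩
  rw [e]
  have h3 := h2.analyticSet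
  rw [Set.union_eq_iUnion]
  refine AnalyticSet.iUnion fun c => ?_
  cases c
  · exact h3
  · exact h1

/-- The claim of the header for one node and one bound. -/
theorem cap_step (hF : IsClosed F) (t : List ℕ) (ε : ENNReal) (hε : ε ≠ ⊤) (m : ℕ) :
    ∀ᶠ K in ctmF.{u}, ∀ x ∈ Rl K,
      (∀ n, ∃ u ∈ Rl K, Aa F x (t ++ [n]) ⊆ Op u ∧ lam (Op u) ≤ ε + (1 / 2) ^ (m + 2 + n)) →
      ∃ u ∈ Rl K, Aa F x t ⊆ Op u ∧ lam (Op u) ≤ ε + (1 / 2) ^ m := by
  have hm : Measurable (fun p : (ℕ → ℕ → ℕ) × (ℕ → ℕ) => lam (Op (inter p.1 p.2))) :=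
    measurable_lamOp.comp measurable_inter
  have hS : AnalyticSet {p : (ℕ → ℕ → ℕ) × (ℕ → ℕ) | lam (Op (inter p.1 p.2)) ≤ ε + (1 / 2) ^ m} :=
    (measurableSet_le hm measurable_const).analyticSet
  have hI : AnalyticSet {p : ((ℕ → ℕ → ℕ) × (ℕ → ℕ)) × (ℕ → ℕ) | p.2 = inter p.1.1 p.1.2} :=
    (measurableSet_eq_fun measurable_snd (measurable_inter.comp measurable_fst)).analyticSet
  filter_upwards [ev_ctm, cchoice (analytic_CR hF (fun n => t ++ [n]) (fun n => ε + (1 / 2) ^ (m + 2 + n))),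
    solve hS, In_fun (f := fun p : (ℕ → ℕ → ℕ) × (ℕ → ℕ) => inter p.1 p.2) hI] with K hK k1 k2 k3 x hx h
  obtain ⟨E, -, U, hU, hE, hEU⟩ := k1 x hx
  have hUC : ∀ n, Aa F x (t ++ [n]) ⊆ Op (U n) ∧ lam (Op (U n)) ≤ ε + (1 / 2) ^ (m + 2 + n) := by
    intro n
    refine hEU n ((hE n).2 ?_)
    obtain ⟨u, hu, h1, h2⟩ := h n
    exact ⟨u, hu, h1, h2⟩
  set G : ℕ → Set (ℕ → Bool) := fun n => ⋂ i ∈ Set.Ici n, Op (U i) with hG
  have hGmono : Monotone G := by
    intro n k hnk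
    exact Set.biInter_subset_biInter_left (Set.Ici_subset_Ici.2 hnk)
  -- the sections are covered
  have hAG : Aa F x t ⊆ ⋃ n, G n := by
    rintro y ⟨q, hq, hqF⟩
    rw [Set.mem_iUnion]
    refine ⟨q t.length, ?_⟩
    rw [hG]
    simp only [Set.mem_Ici, Set.mem_iInter]
    intro i hi
    refine (hUC i).1 ⟨q, fun k hk => ?_, hqF⟩
    rw [List.length_append, List.length_singleton] at hk
    rcases Nat.lt_succ_iff_lt_or_eq.1 hk with h1 | h1
    · rw [List.getD_append _ _ _ _ h1]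
      exact hq k h1
    · subst h1
      rw [List.getD_append_right _ _ _ _ le_rfl]
      simpa using hi
  -- the measure of the increasing union
  have hGle : ∀ n, lam (G n) ≤ ε := by
    intro n
    refine ENNReal.le_of_forall_pos_le_add fun δ hδ _ => ?_
    obtain ⟨k, hk⟩ := exists_pow_lt_of_lt_one (show (0 : ℝ) < δ by exact_mod_cast hδ)
      (by norm_num : (1 / 2 : ℝ) < 1)
    have h1 : lam (G n) ≤ lam (Op (U (n + k))) := by
      refine measure_mono fun y hy => ?_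
      rw [hG] at hy
      simp only [Set.mem_Ici, Set.mem_iInter] at hy
      exact hy (n + k) (Nat.le_add_right _ _)
    refine h1.trans ((hUC _).2.trans ?_)
    gcongr
    have h2 : ((1 / 2 : ENNReal) ^ (m + 2 + (n + k))) ≤ (1 / 2) ^ k :=
      pow_le_pow_right_of_le_one' (by simp) (by omega)
    refine h2.trans ?_
    have h3 : ((1 / 2 : ENNReal) ^ k) = ENNReal.ofReal ((1 / 2) ^ k) := by
      rw [ENNReal.ofReal_pow (by norm_num)]
      congr 1
      rw [ENNReal.ofReal_div_of_pos (by norm_num)]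
      simp
    rw [h3, ENNReal.ofReal_le_iff_le_toReal (by simp)]
    simpa using hk.le
  have hGU : lam (⋃ n, G n) ≤ ε := by
    rw [hGmono.measure_iUnion]
    exact iSup_le hGle
  -- finite approximations of the intersections
  have hmG : ∀ i, MeasurableSet (Op (U i)) := fun i => (isOpen_Op _).measurableSet
  set V : ℕ → ℕ → Set (ℕ → Bool) := fun n k => {y | ∀ i, n ≤ i → i ≤ n + k → y ∈ Op (U i)} with hV
  have hVm : ∀ n k, MeasurableSet (V n k) := by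
    intro n k
    have e : V n k = ⋂ i ∈ Set.Icc n (n + k), Op (U i) := by
      ext y
      simp [hV]
    rw [e]
    exact MeasurableSet.biInter (Set.to_countable _) fun i _ => hmG i
  have hex : ∀ n, ∃ k, lam (V n k) ≤ lam (G n) + (1 / 2) ^ (m + 1 + n) := by
    intro n
    have hanti : Antitone (V n) := by
      intro a b hab y hy i h1 h2
      exact hy i h1 (h2.trans (by omega))
    have hVG : ⋂ k, V n k = G n := by
      ext y
      rw [hG]
      simp only [hV, Set.mem_iInter, Set.mem_ofPred_eq, Set.mem_Ici]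
      exact ⟨fun h i hi => h (i - n) i hi (by omega), fun h k i hi _ => h i hi⟩
    have h1 := tendsto_measure_iInter_atTop (μ := lam) (fun k => (hVm n k).nullMeasurableSet) hanti
      ⟨0, measure_ne_top _ _⟩
    rw [hVG] at h1
    have h2 : lam (G n) < lam (G n) + (1 / 2) ^ (m + 1 + n) :=
      ENNReal.lt_add_right (measure_ne_top _ _) (by simp)
    exact ((h1.eventually (gt_mem_nhds h2)).exists).imp fun _ h => h.le
  choose κ hκ using hex
  have hlam : lam (Op (inter U κ)) ≤ ε + (1 / 2) ^ m := by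
    have hmGn : ∀ n, MeasurableSet (G n) := fun n =>
      MeasurableSet.biInter (Set.to_countable _) fun i _ => hmG i
    have h1 : Op (inter U κ) ⊆ (⋃ n, G n) ∪ ⋃ n, (V n (κ n) \ G n) := by
      intro y hy
      rw [Op_inter] at hy
      obtain ⟨n, hn⟩ := hy
      by_cases hyG : y ∈ ⋃ n, G n
      · exact Or.inl hyG
      · refine Or.inr (Set.mem_iUnion.2 ⟨n, hn, fun h => hyG (Set.mem_iUnion.2 ⟨n, h⟩)⟩)
    refine (measure_mono h1).trans ((measure_union_le _ _).trans ?_)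
    refine add_le_add hGU ((measure_iUnion_le _).trans ?_)
    have h2 : ∀ n, lam (V n (κ n) \ G n) ≤ (1 / 2) ^ (m + 1 + n) := by
      intro n
      have hsub : G n ⊆ V n (κ n) := by
        intro y hy i hi _
        rw [hG] at hy
        simp only [Set.mem_Ici, Set.mem_iInter] at hy
        exact hy i hi
      rw [measure_sdiff hsub (hmGn n).nullMeasurableSet (measure_ne_top _ _)]
      exact tsub_le_iff_left.2 (hκ n)
    refine (ENNReal.tsum_le_tsum h2).trans ?_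
    have h3 : ∑' n : ℕ, ((1 / 2 : ENNReal) ^ (m + 1 + n)) = (1 / 2) ^ m := by
      simp_rw [pow_add]
      rw [ENNReal.tsum_mul_left]
      have h4 : ∑' n : ℕ, (1 / 2 : ENNReal) ^ n = 2 := by
        rw [ENNReal.tsum_geometric]
        simp
      rw [h4, mul_assoc]
      simp
      rw [ENNReal.inv_mul_cancel two_ne_zero ENNReal.ofNat_ne_top, mul_one]
    rw [h3]
  obtain ⟨κ', hκ', hlam'⟩ := k2 U hU κ hlam
  refine ⟨inter U κ', k3 (U, κ') ((In_prod hK).2 ⟨hU, hκ'⟩), ?_, hlam'⟩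
  refine hAG.trans fun y hy => ?_
  obtain ⟨n, hn⟩ := Set.mem_iUnion.1 hy
  rw [Op_inter]
  rw [hG] at hn
  simp only [Set.mem_Ici, Set.mem_iInter] at hn
  exact ⟨n, fun i hi _ => hn i hi⟩

/-- The projection is covered by an open set of measure almost `ε`. -/
theorem cap_open (hF : IsClosed F) (e m : ℕ) :
    ∀ᶠ K in ctmF.{u}, ∀ x ∈ Rl K, (∀ τ ∈ Rl K, ¬ 0 < lam (Bt F x τ)) →
      ∃ u ∈ Rl K, Aa F x [] ⊆ Op u ∧ lam (Op u) ≤ (1 / 2) ^ e + (1 / 2) ^ m := by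
  have hε : ((1 / 2 : ENNReal) ^ e) ≠ ⊤ := by simp
  have hε0 : (0 : ENNReal) < (1 / 2) ^ e := ENNReal.pow_pos (by simp) e
  have hm : Measurable (fun p : (ℕ → ℕ) × (ℕ → ℕ) => lam (Bt F p.1 p.2)) :=
    measurable_lam (isClosed_Bt hF).measurableSet
  have hS : AnalyticSet {p : (ℕ → ℕ) × (ℕ → ℕ) | (1 / 2) ^ e ≤ lam (Bt F p.1 p.2)} :=
    (measurableSet_le measurable_const hm).analyticSet
  filter_upwards [ev_ctm, solve hS, ev_all fun t => ev_all fun k => cap_step hF t ((1 / 2) ^ e) hε k]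
    with K hK k1 k2 x hx hno
  by_contra hcon
  -- bad nodes
  let P : List ℕ → Prop := fun t => ∀ k, ∃ u ∈ Rl K, Aa F x t ⊆ Op u ∧ lam (Op u) ≤ (1 / 2) ^ e + (1 / 2) ^ k
  have h0 : ¬ P [] := fun h => hcon (h m)
  have hstep : ∀ t, ¬ P t → ∃ j, ¬ P (t ++ [j]) := by
    intro t ht
    by_contra hc
    push Not at hc
    refine ht fun k => k2 t k x hx fun n => hc n _
  have hbig : ∀ t, ¬ P t → (1 / 2) ^ e ≤ lam (Cc F x t) := by
    intro t ht
    by_contra hc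
    push Not at hc
    refine ht fun k => ?_
    obtain ⟨j, hj⟩ := exists_Cl (isClopen_Cc (F := F) x t)
    refine ⟨fun _ => j, In_nat hK j, ?_, ?_⟩
    · rw [Op_const, hj]
      exact Aa_sub_Cc x t
    · rw [Op_const, hj]
      exact hc.le.trans le_self_add
  choose! nx hnx using hstep
  -- the branch
  let br : ℕ → List ℕ := fun n => Nat.rec [] (fun _ t => t ++ [nx t]) n
  have hbr0 : br 0 = [] := rfl
  have hbrs : ∀ n, br (n + 1) = br n ++ [nx (br n)] := fun n => rfl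
  have hbad : ∀ n, ¬ P (br n) := by
    intro n
    induction n with
    | zero => exact h0
    | succ n ih =>
      rw [hbrs]
      exact hnx _ ih
  have hbrτ : ∀ n, br n = (List.range n).map fun i => nx (br i) := by
    intro n
    induction n with
    | zero => rfl
    | succ n ih =>
      rw [hbrs, List.range_succ, List.map_append]
      rw [← ih]
      rfl
  have h1 : (1 / 2) ^ e ≤ lam (Bt F x fun i => nx (br i)) := by
    refine le_lam_Bt hF x _ fun n => ?_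
    rw [← hbrτ]
    exact hbig _ (hbad n)
  obtain ⟨τ, hτ, h2⟩ := k1 x hx _ h1
  exact hno τ hτ (lt_of_lt_of_le hε0 h2)

theorem cap_real {F : Set ((ℕ → ℕ) × (ℕ → Bool) × (ℕ → ℕ))} (hF : IsClosed F) :
    ∀ᶠ K in ctmF.{u}, ∀ x ∈ Rl K, (∃ w ∈ Rl K, ∀ y q, (x, y, q) ∈ F → y ∈ Nw w) ∨
      ∃ τ ∈ Rl K, 0 < lam (Bt F x τ) := by
  filter_upwards [ev_ctm, nw_of_Gd, ev_all fun e => cap_open hF (e + 1) (e + 1),
    cchoice (analytic_CR hF (fun _ => []) (fun e => (1 / 2) ^ e))] with K hK k1 k2 k3 x hx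
  by_cases hno : ∃ τ ∈ Rl K, 0 < lam (Bt F x τ)
  · exact Or.inr hno
  left
  push Not at hno
  obtain ⟨E, -, U, hU, hE, hEU⟩ := k3 x hx
  have hUC : ∀ e, Aa F x [] ⊆ Op (U e) ∧ lam (Op (U e)) ≤ (1 / 2) ^ e := by
    intro e
    refine hEU e ((hE e).2 ?_)
    obtain ⟨u, hu, h1, h2⟩ := k2 e x hx fun τ hτ h => absurd (hno τ hτ) (not_le.2 h)
    refine ⟨u, hu, h1, h2.trans (le_of_eq ?_)⟩
    show (1 / 2 : ENNReal) ^ (e + 1) + (1 / 2) ^ (e + 1) = (1 / 2) ^ e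
    rw [pow_succ, ← mul_add]
    have : (1 / 2 : ENNReal) + 1 / 2 = 1 := ENNReal.add_halves 1
    rw [this, mul_one]
  obtain ⟨w, hw, hw'⟩ := k1 U hU fun e => (hUC e).2
  refine ⟨w, hw, fun y q hyq => hw' y fun e => (hUC e).1 ⟨q, ?_, hyq⟩⟩
  intro i hi
  simp at hi

theorem cap {X : Type} [TopologicalSpace X] [RT X] {F : Set (X × (ℕ → Bool) × (ℕ → ℕ))} (hF : IsClosed F) :
    ∀ᶠ K in ctmF.{u}, ∀ x, In K x → (∃ w ∈ Rl K, ∀ y q, (x, y, q) ∈ F → y ∈ Nw w) ∨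
      ∃ τ ∈ Rl K, 0 < lam (Bt F x τ) := by
  have hemb : IsClosedEmbedding (fun p : X × (ℕ → Bool) × (ℕ → ℕ) => ((cR p.1, p.2.1, p.2.2) :
      (ℕ → ℕ) × (ℕ → Bool) × (ℕ → ℕ))) := RT.emb.prodMap .id
  have hF' := hemb.isClosedMap F hF
  have hiff : ∀ x y q, (cR x, y, q) ∈ ((fun p : X × (ℕ → Bool) × (ℕ → ℕ) => ((cR p.1, p.2.1, p.2.2) :
      (ℕ → ℕ) × (ℕ → Bool) × (ℕ → ℕ))) '' F) ↔ (x, y, q) ∈ F := by
    intro x y q
    constructor
    · rintro ⟨⟨x', y', q'⟩, h, h'⟩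
      simp only [Prod.mk.injEq] at h'
      obtain ⟨h1, rfl, rfl⟩ := h'
      rw [cR_inj h1] at h
      exact h
    · intro h
      exact ⟨(x, y, q), h, rfl⟩
  filter_upwards [cap_real hF'] with K k1 x hx
  rcases k1 (cR x) hx with ⟨w, hw, h⟩ | ⟨τ, hτ, h⟩
  · exact Or.inl ⟨w, hw, fun y q hyq => h y q ((hiff x y q).2 hyq)⟩
  · refine Or.inr ⟨τ, hτ, ?_⟩
    have e : Bt ((fun p : X × (ℕ → Bool) × (ℕ → ℕ) => ((cR p.1, p.2.1, p.2.2) :
      (ℕ → ℕ) × (ℕ → Bool) × (ℕ → ℕ))) '' F) (cR x) τ = Bt F x τ := by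
      ext y
      unfold Bt
      simp only [Set.mem_ofPred_eq, hiff]
    rw [← e]
    exact h

end Pool.Agent.H19.GP
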