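import Pool.Agent.H19.GP.Meas

/-!
# Goldstern's principle: null `G_δ` sets are inside sets `Nw w`; compact sections of closed relations

PROOF of `nw_of_Gd`.  By `solve` (with the Borel relation below) it is enough to find `w` in `V`.  Let
`p (k, j) = Cl (U k j) \ ⋃ i < j, Cl (U k i)`, and `p n = p (n.unpair)`; `∑ n, lam (p n) = ∑ k, lam (Op (U k)) ≤ 2 < ∞`.  So there is a
strictly increasing `m : ℕ → ℕ`, `m 0 = 0`, with `∑_{i ≥ m n} lam (p i) ≤ (1/4)^n` for `n ≥ 1`, and codes `w n` with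
`Cl (w n) = ⋃_{m n ≤ i < m (n+1)} p i` (`exists_Cl`).  For `n = 0` the condition `lam (Cl (w 0)) ≤ 1` is trivial.
A point `y` in all `Op (U k)` is in exactly one `p (k, j)` for every `k`, hence in infinitely many `p i`, hence in infinitely many
`Cl (w n)` (every `i` is in exactly one interval).
Borel relation (`S : Set ((ℕ → ℕ → ℕ) × ((ℕ → ℕ) × (ℕ → ℕ)))`, elements `(U, (m, w))`): `m 0 = 0`, `m n < m (n+1)`, `lam (Cl (w n)) ≤ (1/4)^n`, and
`Cl (w n) = ⋃_{m n ≤ i < m (n+1)} p_U i` for all `n`.  Measurable: the last condition for fixed `n` depends only on `w n`, `m n`, `m (n+1)` and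
on finitely many values of `U` once `m n`, `m (n+1)` are fixed (a countable union of clopen sets).
In `K`: `solve` gives `m', w'` in `K` in the relation, and the argument above shows `⋂ k, Op (U k) ⊆ Nw w'`.

PROOF of `isClosed_Bt`.  Let `(x, τ, y)` be the limit of an ultrafilter on points `(x', τ', y')` with `y' ∈ Bt F x' τ'`, witnesses `q'`.  For each `n`,
eventually `τ' n = τ n`, so `q' n ≤ τ n`, so along the ultrafilter `q' n` is eventually constant, `= q n`; the limit of `q'` is `q`, `q ≤ τ`, `(x, y, q) ∈ F`.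
-/

set_option autoImplicit false

universe u

namespace Pool.Agent.H19.GP

open Pool.Agent.H17.Omega Pool.Agent.H17.GP
open MeasureTheory Topology Filter

theorem capa_exists_clD : ∃ f : ℕ → ℕ → ℕ, ∀ i j, Cl (f i j) = Cl i \ Cl j := by
  choose f hf using fun i j => exists_Cl ((isClopen_Cl i).diff (isClopen_Cl j))
  exact ⟨f, hf⟩

/-- code of the difference of two clopen sets -/
noncomputable def capa_clD : ℕ → ℕ → ℕ := capa_exists_clD.choose

theorem capa_Cl_clD (i j : ℕ) : Cl (capa_clD i j) = Cl i \ Cl j := capa_exists_clD.choose_spec i j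

theorem capa_exists_clU : ∃ f : ℕ → ℕ → ℕ, ∀ i j, Cl (f i j) = Cl i ∪ Cl j := by
  choose f hf using fun i j => exists_Cl ((isClopen_Cl i).union (isClopen_Cl j))
  exact ⟨f, hf⟩

/-- code of the union of two clopen sets -/
noncomputable def capa_clU : ℕ → ℕ → ℕ := capa_exists_clU.choose

theorem capa_Cl_clU (i j : ℕ) : Cl (capa_clU i j) = Cl i ∪ Cl j := capa_exists_clU.choose_spec i j

theorem capa_exists_clE : ∃ e : ℕ, Cl e = ∅ := exists_Cl isClopen_empty

/-- code of the empty set -/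
noncomputable def capa_clE : ℕ := capa_exists_clE.choose

theorem capa_Cl_clE : Cl capa_clE = ∅ := capa_exists_clE.choose_spec

/-- code of `Cl (U k j) \ ⋃ i < l, Cl (U k i)` -/
noncomputable def capa_dd (U : ℕ → ℕ → ℕ) (k j : ℕ) : ℕ → ℕ
  | 0 => U k j
  | l + 1 => capa_clD (capa_dd U k j l) (U k l)

theorem capa_Cl_dd (U : ℕ → ℕ → ℕ) (k j l : ℕ) :
    Cl (capa_dd U k j l) = {y | y ∈ Cl (U k j) ∧ ∀ i < l, y ∉ Cl (U k i)} := by
  induction l with
  | zero =>
    ext y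
    exact ⟨fun h => ⟨h, fun i hi => absurd hi (Nat.not_lt_zero i)⟩, fun h => h.1⟩
  | succ l ih =>
    rw [capa_dd, capa_Cl_clD, ih]
    ext y
    constructor
    · rintro ⟨⟨h1, h2⟩, h3⟩
      refine ⟨h1, fun i hi => ?_⟩
      rcases Nat.lt_succ_iff_lt_or_eq.1 hi with h4 | h4
      · exact h2 i h4
      · rw [h4]
        exact h3
    · rintro ⟨h1, h2⟩
      exact ⟨⟨h1, fun i hi => h2 i (by omega)⟩, h2 l (by omega)⟩

/-- code of the `i`-th piece -/
noncomputable def capa_p (U : ℕ → ℕ → ℕ) (i : ℕ) : ℕ := capa_dd U i.unpair.1 i.unpair.2 i.unpair.2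

/-- code of the union of the pieces `i`, `a ≤ i < a + b` -/
noncomputable def capa_u (U : ℕ → ℕ → ℕ) (a : ℕ) : ℕ → ℕ
  | 0 => capa_clE
  | b + 1 => capa_clU (capa_u U a b) (capa_p U (a + b))

theorem capa_mem_u {U : ℕ → ℕ → ℕ} {a b i : ℕ} (h1 : a ≤ i) (h2 : i < a + b) {y : ℕ → Bool}
    (hy : y ∈ Cl (capa_p U i)) : y ∈ Cl (capa_u U a b) := by
  induction b with
  | zero => omega
  | succ b ih =>
    rw [capa_u, capa_Cl_clU]
    by_cases h3 : i < a + b
    · exact Or.inl (ih h3)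
    · have h4 : i = a + b := by omega
      rw [h4] at hy
      exact Or.inr hy

theorem capa_lam_u (U : ℕ → ℕ → ℕ) (a b : ℕ) :
    lam (Cl (capa_u U a b)) ≤ ∑ i ∈ Finset.range b, lam (Cl (capa_p U (i + a))) := by
  induction b with
  | zero =>
    rw [capa_u, capa_Cl_clE, measure_empty]
    exact zero_le
  | succ b ih =>
    rw [capa_u, capa_Cl_clU, Finset.sum_range_succ, add_comm b a]
    exact (measure_union_le _ _).trans (add_le_add ih le_rfl)

/-- the sequence of the codes of the unions of the pieces in the intervals -/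
noncomputable def capa_W (p : (ℕ → ℕ → ℕ) × (ℕ → ℕ)) (n : ℕ) : ℕ :=
  capa_u p.1 (p.2 n) (p.2 (n + 1) - p.2 n)

theorem capa_meas_dd (k j l : ℕ) : Measurable (fun U : ℕ → ℕ → ℕ => capa_dd U k j l) := by
  have h0 : ∀ k j, Measurable (fun U : ℕ → ℕ → ℕ => U k j) := fun k j =>
    (measurable_pi_apply j).comp (measurable_pi_apply k)
  induction l with
  | zero => exact h0 k j
  | succ l ih =>
    have h1 : Measurable (fun U : ℕ → ℕ → ℕ => (capa_dd U k j l, U k l)) := ih.prodMk (h0 k l)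
    have h2 : Measurable (fun q : ℕ × ℕ => capa_clD q.1 q.2) := measurable_of_countable _
    exact h2.comp h1

theorem capa_meas_u (a b : ℕ) : Measurable (fun U : ℕ → ℕ → ℕ => capa_u U a b) := by
  induction b with
  | zero => exact measurable_const
  | succ b ih =>
    have h1 : Measurable (fun U : ℕ → ℕ → ℕ => (capa_u U a b, capa_p U (a + b))) :=
      ih.prodMk (capa_meas_dd _ _ _)
    have h2 : Measurable (fun q : ℕ × ℕ => capa_clU q.1 q.2) := measurable_of_countable _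
    exact h2.comp h1

theorem capa_meas_W (n : ℕ) : Measurable (fun p : (ℕ → ℕ → ℕ) × (ℕ → ℕ) => capa_W p n) := by
  have h1 : Measurable (fun q : (ℕ × ℕ) × (ℕ → ℕ → ℕ) => capa_u q.2 q.1.1 q.1.2) :=
    measurable_from_prod_countable_right fun r => capa_meas_u r.1 r.2
  have h3 : Measurable (fun q : ℕ × ℕ => q.2 - q.1) := measurable_of_countable _
  have h4 : Measurable (fun p : (ℕ → ℕ → ℕ) × (ℕ → ℕ) => (p.2 n, p.2 (n + 1))) :=
    ((measurable_pi_apply n).comp measurable_snd).prodMk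
      ((measurable_pi_apply (n + 1)).comp measurable_snd)
  have h2 : Measurable (fun p : (ℕ → ℕ → ℕ) × (ℕ → ℕ) => ((p.2 n, p.2 (n + 1) - p.2 n), p.1)) :=
    (((measurable_pi_apply n).comp measurable_snd).prodMk (h3.comp h4)).prodMk measurable_fst
  exact h1.comp h2

/-- the Borel relation -/
def capa_S : Set ((ℕ → ℕ → ℕ) × (ℕ → ℕ)) :=
  {p | p.2 0 = 0 ∧ (∀ n, p.2 n < p.2 (n + 1)) ∧ ∀ n, lam (Cl (capa_W p n)) ≤ (1 / 4) ^ n}

theorem capa_meas_S : MeasurableSet capa_S := by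
  have e : capa_S = {p | p.2 0 = 0} ∩ ((⋂ n, {p | p.2 n < p.2 (n + 1)}) ∩
      ⋂ n, {p | lam (Cl (capa_W p n)) ≤ (1 / 4) ^ n}) := by
    ext p
    simp only [capa_S, Set.mem_inter_iff, Set.mem_iInter]
    rfl
  rw [e]
  have hc : ∀ n : ℕ, Measurable (fun p : (ℕ → ℕ → ℕ) × (ℕ → ℕ) => p.2 n) := fun n =>
    (measurable_pi_apply n).comp measurable_snd
  refine MeasurableSet.inter (measurableSet_eq_fun (hc 0) measurable_const)
    (MeasurableSet.inter (MeasurableSet.iInter fun n => measurableSet_lt (hc n) (hc (n + 1)))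
      (MeasurableSet.iInter fun n => measurableSet_le ?_ measurable_const))
  have h1 : Measurable (fun j : ℕ => lam (Cl j)) := measurable_of_countable _
  exact h1.comp (capa_meas_W n)

theorem capa_tsum (U : ℕ → ℕ → ℕ) (hU : ∀ k, lam (Op (U k)) ≤ (1 / 2) ^ k) :
    ∑' i, lam (Cl (capa_p U i)) ≠ ⊤ := by
  have h1 : ∑' i, lam (Cl (capa_p U i)) =
      ∑' q : ℕ × ℕ, lam (Cl (capa_dd U q.1 q.2 q.2)) := by
    rw [← Nat.pairEquiv.tsum_eq (fun i => lam (Cl (capa_p U i)))]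
    refine tsum_congr fun q => ?_
    rw [capa_p, Nat.pairEquiv_apply, Function.uncurry, Nat.unpair_pair]
  rw [h1, ENNReal.tsum_prod (f := fun k j => lam (Cl (capa_dd U k j j)))]
  have h2 : ∀ k, ∑' j, lam (Cl (capa_dd U k j j)) ≤ (1 / 2) ^ k := by
    intro k
    refine le_trans ?_ (hU k)
    rw [← measure_iUnion ?_ (fun j => (isClopen_Cl _).isOpen.measurableSet)]
    · refine measure_mono (Set.iUnion_subset fun j y hy => ?_)
      rw [capa_Cl_dd] at hy
      exact ⟨j, hy.1⟩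
    · intro i j hij
      change Disjoint (Cl (capa_dd U k i i)) (Cl (capa_dd U k j j))
      rw [Set.disjoint_left]
      intro y hy hy'
      rw [capa_Cl_dd] at hy hy'
      rcases lt_or_gt_of_ne hij with h | h
      · exact hy'.2 i h hy.1
      · exact hy.2 j h hy'.1
  refine ne_top_of_le_ne_top ?_ (ENNReal.tsum_le_tsum h2)
  rw [ENNReal.tsum_geometric, ENNReal.inv_ne_top]
  intro h0
  rw [tsub_eq_zero_iff_le, one_div] at h0
  have h3 : (2 : ENNReal)⁻¹ < 1 := by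
    rw [ENNReal.inv_lt_one]
    norm_num
  exact absurd h0 (not_le.mpr h3)

theorem capa_exists_m (U : ℕ → ℕ → ℕ) (hU : ∀ k, lam (Op (U k)) ≤ (1 / 2) ^ k) :
    ∃ m, (U, m) ∈ capa_S := by
  have ht := ENNReal.tendsto_sum_nat_add (fun i => lam (Cl (capa_p U i))) (capa_tsum U hU)
  have h1 : ∀ n : ℕ, ∃ N : ℕ, ∀ i ≥ N, ∑' k, lam (Cl (capa_p U (k + i))) ≤ (1 / 4) ^ n := by
    intro n
    have h2 : (0 : ENNReal) < (1 / 4) ^ n := by
      refine ENNReal.pow_pos ?_ n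
      rw [one_div, ENNReal.inv_pos]
      norm_num
    have h3 := ht.eventually (ge_mem_nhds h2)
    exact Filter.eventually_atTop.1 h3
  choose N hN using h1
  let m : ℕ → ℕ := fun n => Nat.rec 0 (fun k r => max (r + 1) (N (k + 1))) n
  have hm1 : ∀ n, m (n + 1) = max (m n + 1) (N (n + 1)) := fun n => rfl
  refine ⟨m, rfl, fun n => ?_, fun n => ?_⟩
  · change m n < m (n + 1)
    rw [hm1]
    exact lt_of_lt_of_le (Nat.lt_succ_self _) (le_max_left _ _)
  · rcases Nat.eq_zero_or_pos n with rfl | hn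
    · rw [pow_zero]
      exact prob_le_one
    · obtain ⟨k, rfl⟩ : ∃ k, n = k + 1 := ⟨n - 1, by omega⟩
      refine (capa_lam_u _ _ _).trans ?_
      refine le_trans ?_ (hN (k + 1) (m (k + 1)) (by rw [hm1]; exact le_max_right _ _))
      exact ENNReal.sum_le_tsum _

theorem capa_interval {m : ℕ → ℕ} (h0 : m 0 = 0) (hm : ∀ n, m n < m (n + 1)) (i : ℕ) :
    ∃ n, m n ≤ i ∧ i < m (n + 1) := by
  classical
  have hmono : StrictMono m := strictMono_nat_of_lt_succ hm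
  have hex : ∃ t, i < m t := ⟨i + 1, lt_of_lt_of_le (Nat.lt_succ_self i) (hmono.id_le _)⟩
  have h1 := Nat.find_spec hex
  have h2 : Nat.find hex ≠ 0 := by
    intro h3
    rw [h3, h0] at h1
    exact absurd h1 (Nat.not_lt_zero i)
  obtain ⟨n, hn⟩ := Nat.exists_eq_succ_of_ne_zero h2
  refine ⟨n, ?_, ?_⟩
  · have h3 := Nat.find_min hex (m := n) (by omega)
    exact not_lt.1 h3
  · rw [hn] at h1
    exact h1

theorem capa_sub {U : ℕ → ℕ → ℕ} {m : ℕ → ℕ} (h : (U, m) ∈ capa_S) (y : ℕ → Bool)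
    (hy : ∀ k, y ∈ Op (U k)) : y ∈ Nw (capa_W (U, m)) := by
  classical
  obtain ⟨h0, hm, hl⟩ := h
  have h0' : m 0 = 0 := h0
  have hm' : ∀ n, m n < m (n + 1) := hm
  have hmono : StrictMono m := strictMono_nat_of_lt_succ hm'
  intro n
  have hex : ∃ j, y ∈ Cl (U (m n) j) := hy (m n)
  have hj := Nat.find_spec hex
  have hy1 : y ∈ Cl (capa_p U (Nat.pair (m n) (Nat.find hex))) := by
    rw [capa_p, Nat.unpair_pair, capa_Cl_dd]
    exact ⟨hj, fun i hi => Nat.find_min hex hi⟩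
  obtain ⟨n', h1, h2⟩ := capa_interval h0' hm' (Nat.pair (m n) (Nat.find hex))
  have h3 : m n ≤ Nat.pair (m n) (Nat.find hex) := Nat.left_le_pair _ _
  have h4 : n < n' + 1 := hmono.lt_iff_lt.1 (lt_of_le_of_lt h3 h2)
  refine ⟨n', by omega, hl n', ?_⟩
  have h5 : m n' < m (n' + 1) := hm' n'
  exact capa_mem_u h1 (by
    change _ < m n' + (m (n' + 1) - m n')
    omega) hy1

theorem capa_polish_prod (X Y : Type) [TopologicalSpace X] [TopologicalSpace Y] [PolishSpace X]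
    [PolishSpace Y] : PolishSpace (X × Y) := inferInstance

theorem nw_of_Gd : ∀ᶠ K in ctmF.{u}, ∀ U : ℕ → ℕ → ℕ, In K U → (∀ k, lam (Op (U k)) ≤ (1 / 2) ^ k) →
    ∃ w ∈ Rl K, ∀ y, (∀ k, y ∈ Op (U k)) → y ∈ Nw w := by
  have p4 : PolishSpace (ℕ → ℕ → ℕ) := (RT.emb (X := ℕ → ℕ → ℕ)).polishSpace
  have p5 : PolishSpace ((ℕ → ℕ → ℕ) × (ℕ → ℕ)) := capa_polish_prod _ _
  have p6 : PolishSpace (((ℕ → ℕ → ℕ) × (ℕ → ℕ)) × (ℕ → ℕ)) := capa_polish_prod _ _
  have b4 : BorelSpace (ℕ → ℕ → ℕ) := Pi.borelSpace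
  have hW : Measurable (capa_W : (ℕ → ℕ → ℕ) × (ℕ → ℕ) → ℕ → ℕ) :=
    measurable_pi_lambda _ capa_meas_W
  have h2 : MeasurableSet {p : ((ℕ → ℕ → ℕ) × (ℕ → ℕ)) × (ℕ → ℕ) | p.2 = capa_W p.1} :=
    measurableSet_eq_fun measurable_snd (hW.comp measurable_fst)
  filter_upwards [ev_ctm, solve capa_meas_S.analyticSet, In_fun h2.analyticSet] with K hK k1 k2 U hU hlam
  obtain ⟨m, hm⟩ := capa_exists_m U hlam
  obtain ⟨m', hm1, hm2⟩ := k1 U hU m hm
  have h3 : In K (U, m') := (In_prod hK).2 ⟨hU, hm1⟩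
  exact ⟨capa_W (U, m'), k2 (U, m') h3, fun y hy => capa_sub hm2 y hy⟩

/-- The points with a witness below `τ`. -/
def Bt {X : Type} (F : Set (X × (ℕ → Bool) × (ℕ → ℕ))) (x : X) (τ : ℕ → ℕ) : Set (ℕ → Bool) :=
  {y | ∃ q, (∀ n, q n ≤ τ n) ∧ (x, y, q) ∈ F}

theorem isClosed_Bt {X : Type} [TopologicalSpace X] {F : Set (X × (ℕ → Bool) × (ℕ → ℕ))} (hF : IsClosed F) :
    IsClosed {p : (X × (ℕ → ℕ)) × (ℕ → Bool) | p.2 ∈ Bt F p.1.1 p.1.2} := by
  classical
  rw [isClosed_iff_ultrafilter]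
  intro p u hu hs
  have hex : ∀ p' : (X × (ℕ → ℕ)) × (ℕ → Bool), ∃ q : ℕ → ℕ, p'.2 ∈ Bt F p'.1.1 p'.1.2 →
      (∀ n, q n ≤ p'.1.2 n) ∧ (p'.1.1, p'.2, q) ∈ F := by
    intro p'
    by_cases h : p'.2 ∈ Bt F p'.1.1 p'.1.2
    · obtain ⟨q, hq⟩ := h
      exact ⟨q, fun _ => hq⟩
    · exact ⟨fun _ => 0, fun h' => absurd h' h⟩
  choose q hq using hex
  have hs' : ∀ᶠ p' in (u : Filter ((X × (ℕ → ℕ)) × (ℕ → Bool))), p'.2 ∈ Bt F p'.1.1 p'.1.2 := hs
  have hτ : ∀ n, ∀ᶠ p' in (u : Filter ((X × (ℕ → ℕ)) × (ℕ → Bool))), p'.1.2 n = p.1.2 n := by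
    intro n
    have hc : Continuous (fun p' : (X × (ℕ → ℕ)) × (ℕ → Bool) => p'.1.2 n) :=
      (continuous_apply n).comp (continuous_snd.comp continuous_fst)
    have h1 : ∀ᶠ p' in 𝓝 p, p'.1.2 n = p.1.2 n :=
      hc.continuousAt.eventually (IsOpen.mem_nhds (isOpen_discrete ({p.1.2 n} : Set ℕ)) rfl)
    exact hu h1
  have hQ : ∀ n, ∃ a, a ≤ p.1.2 n ∧
      ∀ᶠ p' in (u : Filter ((X × (ℕ → ℕ)) × (ℕ → Bool))), q p' n = a := by
    intro n
    have h1 : {a : ℕ | a ≤ p.1.2 n} ∈ u.map (fun p' => q p' n) := by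
      rw [Ultrafilter.mem_map]
      have h2 : ∀ᶠ p' in (u : Filter ((X × (ℕ → ℕ)) × (ℕ → Bool))), q p' n ≤ p.1.2 n := by
        filter_upwards [hs', hτ n] with p' h3 h4
        rw [← h4]
        exact (hq p' h3).1 n
      exact h2
    obtain ⟨a, ha, ha'⟩ := Ultrafilter.eq_pure_of_finite_mem (Set.finite_le_nat _) h1
    refine ⟨a, ha, ?_⟩
    have h3 : ({a} : Set ℕ) ∈ u.map (fun p' => q p' n) := by
      rw [ha']
      exact Ultrafilter.mem_pure.2 rfl
    exact h3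
  choose Q hQ1 hQ2 using hQ
  refine ⟨Q, hQ1, ?_⟩
  have ht : Tendsto (fun p' : (X × (ℕ → ℕ)) × (ℕ → Bool) => (p'.1.1, p'.2, q p'))
      (u : Filter ((X × (ℕ → ℕ)) × (ℕ → Bool))) (𝓝 (p.1.1, p.2, Q)) := by
    have hid : Tendsto (fun p' : (X × (ℕ → ℕ)) × (ℕ → Bool) => p')
        (u : Filter ((X × (ℕ → ℕ)) × (ℕ → Bool))) (𝓝 p) := hu
    have t1 : Tendsto (fun p' : (X × (ℕ → ℕ)) × (ℕ → Bool) => p'.1.1)
        (u : Filter ((X × (ℕ → ℕ)) × (ℕ → Bool))) (𝓝 p.1.1) :=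
      ((continuous_fst.comp continuous_fst).tendsto p).comp hid
    have t2 : Tendsto (fun p' : (X × (ℕ → ℕ)) × (ℕ → Bool) => p'.2)
        (u : Filter ((X × (ℕ → ℕ)) × (ℕ → Bool))) (𝓝 p.2) := (continuous_snd.tendsto p).comp hid
    have t3 : Tendsto q (u : Filter ((X × (ℕ → ℕ)) × (ℕ → Bool))) (𝓝 Q) := by
      rw [tendsto_pi_nhds]
      intro n
      refine tendsto_const_nhds.congr' ?_
      filter_upwards [hQ2 n] with p' h
      exact h.symm
    exact t1.prodMk_nhds (t2.prodMk_nhds t3)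
  exact hF.mem_of_tendsto ht (hs'.mono fun p' h => (hq p' h).2)

theorem isClosed_Bt' {X : Type} [TopologicalSpace X] {F : Set (X × (ℕ → Bool) × (ℕ → ℕ))} (hF : IsClosed F)
    (x : X) (τ : ℕ → ℕ) : IsClosed (Bt F x τ) :=
  (isClosed_Bt hF).preimage (Continuous.prodMk_right (x, τ))

end Pool.Agent.H19.GP
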