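import Pool.Agent.H19.GP.Tools

/-!
# Goldstern's principle: countable choice in a model, for natively defined coanalytic relations
-/

set_option autoImplicit false

universe u

namespace Pool.Agent.H19.GP

open Pool.Agent.H17.Omega Pool.Agent.H17.GP
open MeasureTheory Topology Filter

theorem ini_jn {x y : ℕ → ℕ} {k : ℕ} : ini (jn x y) k = ini (jn x (getN (ini y k))) k := by
  refine ini_congr fun i hi => ?_
  show Nat.pair (x i) (y i) = Nat.pair (x i) (getN (ini y k) i)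
  rw [getN_ini hi]

/-- Comprehension and countable choice. -/
theorem cchoice {X : Type} [TopologicalSpace X] [RT X] {C : Set (X × ℕ × (ℕ → ℕ))}
    (hC : AnalyticSet Cᶜ) :
    ∀ᶠ K in ctmF.{u}, ∀ x, In K x → ∃ E ∈ Rl K, ∃ U : ℕ → ℕ → ℕ, In K U ∧
      (∀ n, E n = 0 ↔ ∃ y ∈ Rl K, (x, n, y) ∈ C) ∧ ∀ n, E n = 0 → (x, n, U n) ∈ C := by
  have hT : T2Space X := (RT.emb (X := X)).isEmbedding.t2Space
  -- the set of the codes of the points outside `C`
  have h1 : AnalyticSet ((cR : X × ℕ × (ℕ → ℕ) → (ℕ → ℕ)) '' Cᶜ) :=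
    hC.image_of_continuous RT.emb.continuous
  obtain ⟨F, hF, hFS⟩ := AnalyticSet.exists_closed h1
  filter_upwards [ev_ctm, ev_mem (trc F)] with K hK ha x hx
  have hcx : cR x ∈ Rl K := hx
  -- the tree
  let X0 : ℕ → ℕ → ℕ → ℕ := fun n s => jn (cR x) (jn (fun _ => n) (getN s))
  let e : ℕ → ℕ := fun m => trc F (Nat.pair
    (ini (X0 m.unpair.1 m.unpair.2.unpair.1) (lenN m.unpair.2.unpair.1)) m.unpair.2.unpair.2)
  have he : e ∈ Rl K := by
    show (fun m : ℕ => trc F (Nat.pair (ini (fun i => Nat.pair (cR x i) (Nat.pair m.unpair.1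
      (getN m.unpair.2.unpair.1 i))) (lenN m.unpair.2.unpair.1)) m.unpair.2.unpair.2)) ∈ Rl K
    refine CTM.mem_Rl' hK (CTM.DR.mk (CTM.DN.app (CTM.DR.const ha) (CTM.DN.pair (CTM.DN.ini
      (CTM.DR.mk ?_) (CTM.DN.primrec prim_lenN (CTM.DN.unpair1 (CTM.DN.unpair2 (CTM.DN.var _))))) (CTM.DN.unpair2 (CTM.DN.unpair2 (CTM.DN.var _))))))
    exact CTM.DN.pair (CTM.DN.app (CTM.DR.const hcx) (CTM.DN.var _)) (CTM.DN.pair
      (CTM.DN.unpair1 (CTM.DN.var 0))
      (CTM.DN.primrec₂ prim_getN (CTM.DN.unpair1 (CTM.DN.unpair2 (CTM.DN.var 0))) (CTM.DN.var _)))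
  have key : ∀ n, ∀ q ∈ Rl K, (∀ w ∈ Rl K, ∃ k, e (Nat.pair n (Nat.pair (ini q k) (ini w k))) = 0) ↔
      (x, n, q) ∈ C := by
    intro n q hq
    have hval : ∀ w k, e (Nat.pair n (Nat.pair (ini q k) (ini w k))) =
        trc F (Nat.pair (ini (cR (x, n, q)) k) (ini w k)) := by
      intro w k
      show trc F (Nat.pair (ini (X0 (Nat.pair n (Nat.pair (ini q k) (ini w k))).unpair.1
        (Nat.pair n (Nat.pair (ini q k) (ini w k))).unpair.2.unpair.1)
        (lenN (Nat.pair n (Nat.pair (ini q k) (ini w k))).unpair.2.unpair.1))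
        (Nat.pair n (Nat.pair (ini q k) (ini w k))).unpair.2.unpair.2) = _
      rw [Nat.unpair_pair, Nat.unpair_pair, lenN_ini]
      refine congrArg (fun t => trc F (Nat.pair t (ini w k))) (ini_congr fun i hi => ?_)
      show Nat.pair (cR x i) (Nat.pair n (getN (ini q k) i)) = Nat.pair (cR x i) (Nat.pair n (q i))
      rw [getN_ini hi]
    have hin : cR (x, n, q) ∈ Rl K := (In_prod hK).2 ⟨hx, (In_prod hK).2 ⟨In_nat hK n, hq⟩⟩
    constructor
    · intro h
      by_contra hc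
      obtain ⟨w, hw⟩ := (hFS _).1 ⟨_, hc, rfl⟩
      obtain ⟨w', h2, h3⟩ := hK.sc1 ha hin ⟨w, (trc_spec hF _ w).2 hw⟩
      obtain ⟨k, hk⟩ := h w' h2
      rw [hval] at hk
      exact h3 k hk
    · intro hc w hw
      by_contra hcon
      push Not at hcon
      have : (cR (x, n, q), w) ∈ F := (trc_spec hF _ w).1 fun k => by
        have := hcon k
        rwa [hval] at this
      obtain ⟨p, hp, hp'⟩ := (hFS _).2 ⟨w, this⟩
      rw [cR_inj hp'] at hp
      exact hp hc
  obtain ⟨E, hE, Q, hQ, hEQ, hQ'⟩ := hK.cc he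
  refine ⟨E, hE, fun n => row n Q, ?_, fun n => ?_, fun n hn => ?_⟩
  · show rows (fun n => row n Q) ∈ Rl K
    rw [rows_row]
    exact hQ
  · rw [hEQ]
    exact exists_congr fun y => and_congr_right fun hy => key n y hy
  · exact (key n (row n Q) (hK.row_mem hQ n)).1 (hQ' n hn)

end Pool.Agent.H19.GP
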