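import Pool.Agent.H19.GP.Rnd

/-!
# Goldstern's principle: strongly dominating reals

PROOF of `sdom`: let `x ∈ Rl N`, `η < δ`, `z₀ ∈ Rl N` dominating `K η` (`Sys.dom`).  Define recursively
`z k = x k + z₀ (ini z k)`; `z ∈ Rl N` by the calculus (`CTM.DN.rec`).  The codes `ini z k` are distinct, so they tend to
infinity, and `F (ini z k) ≤ z₀ (ini z k) ≤ z k` for almost all `k`, for every `F ∈ Rl (K η)`.
-/

set_option autoImplicit false

universe u

namespace Pool.Agent.H19.GP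

open Pool.Agent.H17.Omega Pool.Agent.H17.GP
open MeasureTheory Topology Filter

theorem sdom : EvS.{u} (fun N δ K => ∀ η < δ, ∀ x ∈ Rl N, ∃ z ∈ Rl N, (∀ i, x i ≤ z i) ∧
    ∀ F ∈ Rl (K η), ∃ n, ∀ k, n ≤ k → F (ini z k) ≤ z k) := by
  refine ⟨∅, Set.countable_empty, fun N δ K hS _ η hη x hx => ?_⟩
  obtain ⟨z₀, hz₀, hd⟩ := hS.dom η hη
  -- the codes of the initial segments
  let c : ℕ → ℕ := fun n => Nat.rec 0 (fun k y => snocN y (x k + z₀ y)) n
  let z : ℕ → ℕ := fun k => x k + z₀ (c k)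
  have hc : ∀ k, ini z k = c k := by
    intro k
    induction k with
    | zero => rfl
    | succ k ih => rw [ini_succ, ih]
  have hz : z ∈ Rl N := by
    show (fun k : ℕ => x k + z₀ (Nat.rec 0 (fun k y => snocN y (x k + z₀ y)) k)) ∈ Rl N
    refine CTM.mem_Rl' hS.ctmN (CTM.DR.mk (CTM.DN.add (CTM.DN.app (CTM.DR.const hx) (CTM.DN.var _))
      (CTM.DN.app (CTM.DR.const hz₀) (CTM.DN.rec (g := fun _ k y => snocN y (x k + z₀ y))
        (CTM.DN.const 0) ?_ (CTM.DN.var _)))))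
    exact CTM.DN.primrec₂ prim_snocN (CTM.DN.var _) (CTM.DN.add
      (CTM.DN.app (CTM.DR.const hx) (CTM.DN.var _)) (CTM.DN.app (CTM.DR.const hz₀) (CTM.DN.var _)))
  refine ⟨z, hz, fun i => Nat.le_add_right _ _, fun F hF => ?_⟩
  obtain ⟨n₀, hn₀⟩ := hd F hF
  have hinj : Function.Injective (fun k => ini z k) := fun k l h => (ini_inj h).1
  obtain ⟨n, hn⟩ := (hinj.nat_tendsto_atTop.eventually_ge_atTop n₀).exists_forall_of_atTop
  refine ⟨n, fun k hk => (hn₀ _ (hn k hk)).trans ?_⟩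
  rw [hc k]
  exact Nat.le_add_left _ _

end Pool.Agent.H19.GP
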