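import Pool.Agent.H19.GP.Ind

/-!
# Goldstern's principle: completeness of the certificates

PROOF of `ucert_complete`.  `ind` for `K η`.  (a) `F₁ (encode s) = max` of `F (pc (s.take j, v)) (encode s)` over `j ≤ s.length` and `v` with `encode v ≤ s.length`; `F₁ ∈ Rl (K η)` (`In_fun`).  Let `k₀` be such that `F₁ (ini z k) ≤ z k` for
`k ≥ k₀`.  CLAIM: for `j ≤ m`, `k₀ ≤ m`, `encode (inl v j) ≤ m`: `(inl z m, inl v j) ∈ PG G`.  Well-founded induction on `lt`: it is in `Pos D ζ` by `app_inl`; if it is not in `PG G`, then `F n`, `n = pc (inl z m, inl v j)`, avoids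
`{m | m ∈ PG G ∨ ¬ lt m ..}`; choose `m' > m`, `m' ≥ encode (inl v (j+1))`, `m' ≥ j + 1`: `Obey (F n) (inl z m) (inl z m')` as `F n (ini z k) ≤ F₁ (ini z k) ≤ z k` for `k ≥ m` (`encode (inl v j) ≤ m ≤ k`), so the position `(inl z m', inl v (j+1))`
is in `Pos D ζ`, not in `PG G` and `lt` below: contradiction to the induction hypothesis.
(b) So `(inl z k₀, []) ∈ PG G`.  `g₀`: `rel g₀ i j ↔ ∃ p ∈ PG G, ∃ s k, Sg (PG G) p.1 p.2 (s ++ [k]) ∧ i = Nat.pair (pc p) (encode (s ++ [k])) ∧ j = Nat.pair (pc p) (encode s)`; `g₀ ∈ Rl (K η) ⊆ Rl N` by `In_fun`; `Wf g₀` by `avoid_iff_sg` and (1) of `ind`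
(a descending sequence gives `p` and `σ` with `Sg (PG G) p.1 p.2 (inl σ n)` for all `n`).  `Sys.wo`: `g ∈ Rl (K 0)`, `Wf g`, `e`; `ρ := e`.
-/

set_option autoImplicit false

universe u

namespace Pool.Agent.H19.GP

open Pool.Agent.H17.Omega Pool.Agent.H17.GP
open MeasureTheory Topology Filter

variable {D : Set ((ℕ → ℕ) × (ℕ → ℕ) × (ℕ → ℕ))}

/-! ### lists -/

theorem indB_len (x : ℕ → ℕ) (n : ℕ) : (inl x n).length = n := by
  rw [inl, List.length_map, List.length_range]

theorem indB_getD (x : ℕ → ℕ) {n k : ℕ} (h : k < n) : (inl x n).getD k 0 = x k := by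
  rw [List.getD_eq_getElem _ _ (by rw [indB_len]; exact h)]
  simp [inl]

theorem indB_take (x : ℕ → ℕ) {n k : ℕ} (h : k ≤ n) : (inl x n).take k = inl x k := by
  rw [inl, ← List.map_take, List.take_range, min_eq_left h, inl]

theorem indB_succ (x : ℕ → ℕ) (n : ℕ) : inl x (n + 1) = inl x n ++ [x n] := by
  rw [inl, List.range_succ, List.map_append, inl]
  rfl

theorem indB_prefix (x : ℕ → ℕ) {n m : ℕ} (h : n ≤ m) : inl x n <+: inl x m := by
  rw [← indB_take x h]
  exact List.take_prefix _ _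

theorem indB_ini (x : ℕ → ℕ) (n : ℕ) : Encodable.encode (inl x n) = ini x n := rfl

theorem indB_pc {p q : List ℕ × List ℕ} (h : pc p = pc q) : p = q := by
  unfold pc at h
  rw [Nat.pair_eq_pair] at h
  exact Prod.ext (Encodable.encode_injective h.1) (Encodable.encode_injective h.2)

theorem indB_sg {G : Set (List ℕ × List ℕ)} {t v : List ℕ} : ∀ (u s : List ℕ),
    Sg G t v (s ++ u) → Sg G t v s := by
  intro u
  induction u using List.reverseRecOn with
  | nil =>
    intro s h
    rwa [List.append_nil] at h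
  | append_singleton u k ih =>
    intro s h
    rw [← List.append_assoc] at h
    exact ih s (sg_init h)

theorem indB_sg_prefix {G : Set (List ℕ × List ℕ)} {t v s s' : List ℕ} (h : Sg G t v s)
    (h' : s' <+: s) : Sg G t v s' := by
  obtain ⟨u, rfl⟩ := h'
  exact indB_sg u s' h

/-! ### the combined strategy -/

/-- the sum of the relevant strategies -/
def indB_F (F : ℕ → ℕ → ℕ) (c : ℕ) : ℕ :=
  ∑ j ∈ Finset.range ((dl c).length + 1), ∑ w ∈ Finset.range ((dl c).length + 1),
    F (Nat.pair (Encodable.encode ((dl c).take j)) w) c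

theorem indB_F_cont : Continuous indB_F := by
  refine continuous_pi fun c => ?_
  unfold indB_F
  refine continuous_finsetSum _ fun j _ => continuous_finsetSum _ fun w _ => ?_
  exact (continuous_apply c).comp (continuous_apply _)

theorem indB_F_le (F : ℕ → ℕ → ℕ) (z v : ℕ → ℕ) {m j k : ℕ} (hmk : m ≤ k)
    (hv : Encodable.encode (inl v j) ≤ m) :
    F (pc (inl z m, inl v j)) (ini z k) ≤ indB_F F (ini z k) := by
  unfold indB_F
  rw [← indB_ini, dl_encode, indB_len]
  have h1 : F (pc (inl z m, inl v j)) (Encodable.encode (inl z k)) ≤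
      ∑ w ∈ Finset.range (k + 1), F (Nat.pair (Encodable.encode ((inl z k).take m)) w)
        (Encodable.encode (inl z k)) := by
    have h2 := Finset.single_le_sum (f := fun w => F (Nat.pair (Encodable.encode ((inl z k).take m)) w)
      (Encodable.encode (inl z k))) (fun _ _ => Nat.zero_le _)
      (Finset.mem_range.2 (Nat.lt_succ_of_le (hv.trans hmk)))
    refine le_trans (le_of_eq ?_) h2
    rw [indB_take z hmk]
    rfl
  refine h1.trans ?_
  exact Finset.single_le_sum (f := fun j => ∑ w ∈ Finset.range (k + 1),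
    F (Nat.pair (Encodable.encode ((inl z k).take j)) w) (Encodable.encode (inl z k)))
    (fun _ _ => Nat.zero_le _) (Finset.mem_range.2 (Nat.lt_succ_of_le hmk))

theorem indB_claim {F : ℕ → ℕ → ℕ} {G' ζ z v : ℕ → ℕ}
    {lt : List ℕ × List ℕ → List ℕ × List ℕ → Prop} (hlt : WellFounded lt)
    (h2 : ∀ p ∈ Pos D ζ, p ∉ PG G' →
      Avoid (F (pc p)) {m | m ∈ Pos D ζ ∧ (m ∈ PG G' ∨ ¬ lt m p)} p.1 p.2)
    {k₀ : ℕ} (hk : ∀ k, k₀ ≤ k → indB_F F (ini z k) ≤ z k) (hv : (ζ, z, v) ∈ D) :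
    ∀ p : List ℕ × List ℕ, ∀ m j, p = (inl z m, inl v j) → j ≤ m → k₀ ≤ m →
      Encodable.encode (inl v j) ≤ m → p ∈ PG G' := by
  intro p
  induction p using hlt.induction with
  | _ p ih =>
    intro m j hp hjm hkm hem
    by_contra hc
    have hpos : ∀ m j, j ≤ m → (inl z m, inl v j) ∈ Pos D ζ := by
      intro m j h
      refine ⟨?_, app_inl hv h⟩
      rw [indB_len, indB_len]
      exact h
    have hpP : p ∈ Pos D ζ := by
      rw [hp]
      exact hpos m j hjm
    have hA := h2 p hpP hc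
    set m' := max (m + 1) (max (j + 1) (Encodable.encode (inl v (j + 1)))) with hm'
    have e1 : m + 1 ≤ m' := le_max_left _ _
    have e2 : j + 1 ≤ m' := (le_max_left _ _).trans (le_max_right _ _)
    have e3 : Encodable.encode (inl v (j + 1)) ≤ m' := (le_max_right _ _).trans (le_max_right _ _)
    have hO : Obey (F (pc p)) p.1 (inl z m') := by
      rw [hp]
      refine ⟨indB_prefix z (by omega), ?_, ?_⟩
      · intro h
        have := congrArg List.length h
        rw [indB_len, indB_len] at this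
        omega
      · intro k hk1 hk2
        rw [indB_len] at hk1 hk2
        rw [indB_take z hk2.le, indB_getD z hk2, indB_ini]
        exact (indB_F_le F z v hk1 hem).trans (hk k (hkm.trans hk1))
    have hn := hA (inl z m') hO (v j)
    have e4 : p.2 ++ [v j] = inl v (j + 1) := by
      rw [hp, indB_succ]
    rw [e4] at hn
    have hn' : ¬ ((inl z m', inl v (j + 1)) ∈ Pos D ζ ∧ ((inl z m', inl v (j + 1)) ∈ PG G' ∨
        ¬ lt (inl z m', inl v (j + 1)) p)) := hn
    have hP' := hpos m' (j + 1) e2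
    have hlt' : lt (inl z m', inl v (j + 1)) p := by
      by_contra h
      exact hn' ⟨hP', Or.inr h⟩
    have hG' : (inl z m', inl v (j + 1)) ∉ PG G' := fun h => hn' ⟨hP', Or.inl h⟩
    exact hG' (ih _ hlt' m' (j + 1) rfl e2 (by omega) e3)

/-! ### the relation of the trees -/

/-- the relation of the trees of the strategies -/
def indB_R (G : ℕ → ℕ) (n : ℕ) : Prop :=
  ∃ (p : List ℕ × List ℕ) (s : List ℕ) (k : ℕ), p ∈ PG G ∧ Sg (PG G) p.1 p.2 (s ++ [k]) ∧
    n = Nat.pair (Nat.pair (pc p) (Encodable.encode (s ++ [k])))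
      (Nat.pair (pc p) (Encodable.encode s))

open Classical in
/-- the relation of the trees of the strategies -/
noncomputable def indB_g (G : ℕ → ℕ) (n : ℕ) : ℕ := if indB_R G n then 0 else 1

theorem indB_g_iff (G : ℕ → ℕ) (n : ℕ) : indB_g G n = 0 ↔ indB_R G n := by
  unfold indB_g
  split_ifs with h
  · simp [h]
  · simp [h]

theorem indB_meas_PG (p : List ℕ × List ℕ) : Measurable fun G : ℕ → ℕ => p ∈ PG G := by
  apply measurableSet_setOfPred.1
  exact (measurable_pi_apply (pc p)) (measurableSet_singleton 0)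

theorem indB_meas_Sg (t v s : List ℕ) : Measurable fun G : ℕ → ℕ => Sg (PG G) t v s := by
  unfold Sg
  refine Measurable.forall fun t' => Measurable.forall fun a => ?_
  exact (indB_meas_PG _).imp measurable_const

theorem indB_meas : Measurable indB_g := by
  classical
  refine measurable_pi_lambda _ fun n => ?_
  unfold indB_g
  refine Measurable.ite ?_ measurable_const measurable_const
  apply measurableSet_setOfPred.2
  unfold indB_R
  refine Measurable.exists fun p => Measurable.exists fun s => Measurable.exists fun k => ?_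
  exact (indB_meas_PG p).and ((indB_meas_Sg _ _ _).and measurable_const)

theorem indB_wf {G : ℕ → ℕ} (h1 : ∀ p ∈ PG G, ∀ σ, ¬ Avoid σ (PG G) p.1 p.2) :
    Wf (indB_g G) := by
  unfold Wf
  rw [wellFounded_iff_isEmpty_descending_chain]
  refine ⟨fun ⟨f, hf⟩ => ?_⟩
  have h2 : ∀ n, indB_R G (Nat.pair (f (n + 1)) (f n)) := fun n => (indB_g_iff G _).1 (hf n)
  choose p s k hp hs hn using h2
  have e1 : ∀ n, f (n + 1) = Nat.pair (pc (p n)) (Encodable.encode (s n ++ [k n])) :=
    fun n => (Nat.pair_eq_pair.1 (hn n)).1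
  have e2 : ∀ n, f n = Nat.pair (pc (p n)) (Encodable.encode (s n)) :=
    fun n => (Nat.pair_eq_pair.1 (hn n)).2
  have e3 : ∀ n, p (n + 1) = p n ∧ s (n + 1) = s n ++ [k n] := by
    intro n
    have h3 := (e2 (n + 1)).symm.trans (e1 n)
    rw [Nat.pair_eq_pair] at h3
    exact ⟨indB_pc h3.1, Encodable.encode_injective h3.2⟩
  have e4 : ∀ n, p n = p 0 := by
    intro n
    induction n with
    | zero => rfl
    | succ n ih => rw [(e3 n).1, ih]
  have e5 : ∀ n, (s n).length = (s 0).length + n := by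
    intro n
    induction n with
    | zero => rfl
    | succ n ih =>
      rw [(e3 n).2, List.length_append, ih]
      rfl
  have e6 : ∀ n m, n ≤ m → s n <+: s m := by
    intro n m hnm
    induction m, hnm using Nat.le_induction with
    | base => exact List.prefix_refl _
    | succ m _ ih =>
      rw [(e3 m).2]
      exact ih.trans (List.prefix_append _ _)
  have e7 : ∀ i n m, n ≤ m → i < (s n).length → (s m).getD i 0 = (s n).getD i 0 := by
    intro i n m hnm hi
    obtain ⟨u, hu⟩ := e6 n m hnm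
    rw [← hu, List.getD_append _ _ _ _ hi]
  refine h1 (p 0) (hp 0) (fun i => (s (i + 1)).getD i 0) (avoid_iff_sg.2 fun n => ?_)
  have h3 : Sg (PG G) (p 0).1 (p 0).2 (s n) := by
    have := sg_init (hs n)
    rw [e4 n] at this
    exact this
  refine indB_sg_prefix h3 ?_
  have h4 : inl (fun i => (s (i + 1)).getD i 0) n = (s n).take n := by
    apply List.ext_getElem
    · rw [indB_len, List.length_take, e5, min_eq_left (by omega)]
    · intro i hi1 hi2
      rw [indB_len] at hi1
      have hlen : i < (s n).length := by rw [e5]; omega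
      have hlen' : i < (s (i + 1)).length := by rw [e5]; omega
      rw [List.getElem_take]
      have h5 : (inl (fun i => (s (i + 1)).getD i 0) n)[i]'(by rw [indB_len]; exact hi1) =
          (s (i + 1)).getD i 0 := by
        simp [inl]
      rw [h5, ← e7 i (i + 1) n (by omega) hlen', List.getD_eq_getElem _ _ hlen]
  rw [h4]
  exact List.take_prefix _ _

theorem ucert_complete (hD : IsClosed D) : EvS.{u} (fun N δ K => ∀ η < δ, ∀ ζ ∈ Rl (K η), ∀ z ∈ Rl N,
    (∀ F ∈ Rl (K η), ∃ n, ∀ k, n ≤ k → F (ini z k) ≤ z k) → ∀ v, (ζ, z, v) ∈ D →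
    ∃ m, ∃ g ∈ Rl (K 0), Wf g ∧ Ucert D ζ (inl z m) g) := by
  have i1 : PolishSpace (ℕ → ℕ → ℕ) := inferInstance
  have i2 : PolishSpace (ℕ → ℕ) := inferInstance
  have i3 : PolishSpace ((ℕ → ℕ → ℕ) × (ℕ → ℕ)) := inferInstance
  have hF : AnalyticSet {p : (ℕ → ℕ → ℕ) × (ℕ → ℕ) | p.2 = indB_F p.1} :=
    (isClosed_eq continuous_snd (indB_F_cont.comp continuous_fst)).analyticSet
  have hg : AnalyticSet {p : (ℕ → ℕ) × (ℕ → ℕ) | p.2 = indB_g p.1} :=
    (measurableSet_eq_fun measurable_snd (indB_meas.comp measurable_fst)).analyticSet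
  have hev : ∀ᶠ K in ctmF.{u}, (∀ ζ ∈ Rl K, ∃ G ∈ Rl K, ∃ F : ℕ → ℕ → ℕ, In K F ∧
      ∃ lt : List ℕ × List ℕ → List ℕ × List ℕ → Prop, WellFounded lt ∧ PG G ⊆ Pos D ζ ∧
        (∀ p ∈ PG G, ∀ σ, ¬ Avoid σ (PG G) p.1 p.2) ∧
        ∀ p ∈ Pos D ζ, p ∉ PG G →
          Avoid (F (pc p)) {m | m ∈ Pos D ζ ∧ (m ∈ PG G ∨ ¬ lt m p)} p.1 p.2) ∧
      (∀ F : ℕ → ℕ → ℕ, In K F → In K (indB_F F)) ∧
      (∀ G : ℕ → ℕ, In K G → In K (indB_g G)) := by
    filter_upwards [ind hD, In_fun hF, In_fun hg] with K k1 k2 k3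
    exact ⟨k1, k2, k3⟩
  refine (evS_of hev).mono ?_
  rintro N δ K hS ⟨-, hK⟩ η hη ζ hζ z hz hdom v hv
  obtain ⟨k1, k2, k3⟩ := hK η hη
  obtain ⟨G, hG, F, hFK, lt, hlt, hPG, h1, h2⟩ := k1 ζ hζ
  obtain ⟨k₀, hk₀⟩ := hdom (indB_F F) (k2 F hFK)
  have hwf := indB_wf h1
  have hgN : indB_g G ∈ Rl N := Rl_mono (hS.sub η hη) (k3 G hG)
  obtain ⟨g', hg', hwf', e, he⟩ := hS.wo _ hgN hwf
  refine ⟨max k₀ (Encodable.encode ([] : List ℕ)), g', hg', hwf', G, e, ?_, hPG, ?_⟩
  · exact indB_claim hlt h2 hk₀ hv _ (max k₀ (Encodable.encode ([] : List ℕ))) 0 rfl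
      (Nat.zero_le _) (le_max_left _ _) (le_max_right _ _)
  · intro p hp s k hsg
    apply he
    unfold rel
    rw [indB_g_iff]
    exact ⟨p, s, k, hp, hsg, rfl⟩

end Pool.Agent.H19.GP
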