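import Pool.Agent.H19.GP.Rnd
import Pool.Agent.H17.GP.RlD

/-!
# Goldstern's principle: maximal countable families inside a model

PROOF.  For `c ∈ Rl K`, `t`, `r : ℕ` (`q r` an enumeration of the nonnegative rationals): by `cchoice` for the coanalytic relation
`{(c, n, y) | ∀ i, row i y ∈ V ∧ ((q (n.unpair.2) : ENNReal) ≤ lam (⋃ i, {z | ((c, n.unpair.1, row i y), z) ∈ B}))}` (Borel part: `measurable_lam`; complement analytic) there are `E`, `U'` in `K`.  For each `t` the pair `(t, r)` with `q r = 0`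
is in `E` (constant sequence `u₀`, which is in `K` by `ev_mem`).  Let `U t (pair r i) = row i (U' (pair t r))` if `E (pair t r) = 0`, `u₀` otherwise (`In_fun`).  Let `u ∈ Rl K`, `u ∈ V` and suppose
`lam (b u \ ⋃ i, b (U t i)) = ε > 0`.  Let `s = lam (⋃ i, b (U t i)) ≤ 1`.  Choose `r` with `s < q r ≤ s + ε`.  The sequence `u, U t 0, U t 1, ...` is in `K`, all members are in `V` and the measure of the union is `≥ s + ε ≥ q r`, so `E (pair t r) = 0`
and `s ≥ lam (⋃ i, b (U t (pair r i))) ≥ q r > s`, contradiction.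
-/

set_option autoImplicit false

universe u

namespace Pool.Agent.H19.GP

open Pool.Agent.H17.Omega Pool.Agent.H17.GP
open MeasureTheory Topology Filter

/-- an enumeration of the nonnegative rational numbers -/
noncomputable def qe (r : ℕ) : ENNReal := (r.unpair.1 : ENNReal) / ((r.unpair.2 + 1 : ℕ) : ENNReal)

theorem exists_qe {a b : ENNReal} (h : a < b) : ∃ r, a < qe r ∧ qe r < b := by
  obtain ⟨q, hq0, h1, h2⟩ := ENNReal.lt_iff_exists_rat_btwn.1 h
  have hden : (0 : ℝ) < q.den := by exact_mod_cast q.den_pos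
  have hnum : ((q.num.toNat : ℕ) : ℝ) = (q.num : ℝ) := by
    have : ((q.num.toNat : ℕ) : ℤ) = q.num := Int.toNat_of_nonneg (Rat.num_nonneg.2 hq0)
    exact_mod_cast congrArg (Int.cast : ℤ → ℝ) this
  have hq : (q : ℝ) = (q.num.toNat : ℝ) / q.den := by
    rw [hnum]
    exact_mod_cast (Rat.num_div_den q).symm
  have e : qe (Nat.pair q.num.toNat (q.den - 1)) = (Real.toNNReal q : ENNReal) := by
    have h3 : q.den - 1 + 1 = q.den := Nat.sub_add_cancel q.den_pos
    rw [qe, Nat.unpair_pair]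
    show ((q.num.toNat : ℕ) : ENNReal) / ((q.den - 1 + 1 : ℕ) : ENNReal) = ENNReal.ofReal q
    rw [h3, hq, ENNReal.ofReal_div_of_pos hden, ENNReal.ofReal_natCast, ENNReal.ofReal_natCast]
  exact ⟨_, by rw [e]; exact h1, by rw [e]; exact h2⟩

theorem exists_cons {K : Set ZFSet.{u}} (hK : CTM K) {u W : ℕ → ℕ} (hu : u ∈ Rl K) (hW : W ∈ Rl K) :
    ∃ y ∈ Rl K, row 0 y = u ∧ ∀ i, row (i + 1) y = fun k => W (Nat.pair i k) := by
  refine ⟨fun a => if a.unpair.1 = 0 then u a.unpair.2 else W (Nat.pair (a.unpair.1 - 1) a.unpair.2),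
    ?_, ?_, ?_⟩
  · exact CTM.mem_Rl' hK (CTM.DR.mk (CTM.DN.ite (CTM.Dfn.eqN (CTM.DN.unpair1 (CTM.DN.var _))
      (CTM.DN.const 0)) (CTM.DN.app (CTM.DR.const hu) (CTM.DN.unpair2 (CTM.DN.var _)))
      (CTM.DN.app (CTM.DR.const hW) (CTM.DN.pair (CTM.DN.sub' (CTM.DN.unpair1 (CTM.DN.var _))
        (CTM.DN.const 1)) (CTM.DN.unpair2 (CTM.DN.var _))))))
  · funext k
    unfold row
    beta_reduce
    rw [Nat.unpair_pair, if_pos rfl]
  · intro i
    funext k
    unfold row
    beta_reduce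
    rw [Nat.unpair_pair]
    rw [if_neg (Nat.succ_ne_zero i)]
    rfl

theorem exists_max {V : Set (ℕ → ℕ)} (hV : AnalyticSet Vᶜ) {u₀ : ℕ → ℕ} (h₀ : u₀ ∈ V)
    {B : Set (((ℕ → ℕ) × ℕ × (ℕ → ℕ)) × (ℕ → Bool))} (hB : MeasurableSet B) :
    ∀ᶠ K in ctmF.{u}, ∀ c ∈ Rl K, ∃ U : ℕ → ℕ → (ℕ → ℕ), In K U ∧ (∀ t i, U t i ∈ V) ∧
      ∀ t, ∀ u ∈ Rl K, u ∈ V →
        lam ({y | ((c, t, u), y) ∈ B} \ ⋃ i, {y | ((c, t, U t i), y) ∈ B}) = 0 := by
  classical
  -- the coanalytic relation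
  let B' : Set (((ℕ → ℕ) × ℕ × (ℕ → ℕ)) × (ℕ → Bool)) :=
    ⋃ i : ℕ, (fun p => ((p.1.1, p.1.2.1.unpair.1, row i p.1.2.2), p.2)) ⁻¹' B
  have hB' : MeasurableSet B' := by
    refine MeasurableSet.iUnion fun i => ?_
    refine Measurable.comp (g := id) measurable_id ?_ hB
    refine Measurable.prodMk (Measurable.prodMk (measurable_fst.comp measurable_fst) (Measurable.prodMk
      ((measurable_of_countable (fun n : ℕ => n.unpair.1)).comp
        (measurable_fst.comp (measurable_snd.comp measurable_fst)))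
      ((continuous_row i).measurable.comp
        (measurable_snd.comp (measurable_snd.comp measurable_fst))))) measurable_snd
  have hmB : Measurable (fun x : (ℕ → ℕ) × ℕ × (ℕ → ℕ) => lam {y | (x, y) ∈ B'}) := measurable_lam hB'
  let C : Set ((ℕ → ℕ) × ℕ × (ℕ → ℕ)) := {x | (∀ i, row i x.2.2 ∈ V) ∧
    qe x.2.1.unpair.2 ≤ lam {y | (x, y) ∈ B'}}
  have hC : AnalyticSet Cᶜ := by
    have e : Cᶜ = ⋃ i : Option ℕ, (match i with
        | some i => (fun x : (ℕ → ℕ) × ℕ × (ℕ → ℕ) => row i x.2.2) ⁻¹' Vᶜ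
        | none => {x | lam {y | (x, y) ∈ B'} < qe x.2.1.unpair.2}) := by
      ext x
      simp only [C, Set.mem_compl_iff, Set.mem_iUnion]
      constructor
      · intro h
        by_cases h1 : ∀ i, row i x.2.2 ∈ V
        · exact ⟨none, not_le.1 fun h2 => h ⟨h1, h2⟩⟩
        · push Not at h1
          obtain ⟨i, hi⟩ := h1
          exact ⟨some i, hi⟩
      · rintro ⟨i, hi⟩ ⟨h1, h2⟩
        cases i with
        | none => exact absurd h2 (not_le.2 hi)
        | some i => exact hi (h1 i)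
    rw [e]
    refine AnalyticSet.iUnion fun i => ?_
    cases i with
    | none =>
      refine MeasurableSet.analyticSet ?_
      refine measurableSet_lt hmB ?_
      exact (measurable_of_countable (fun n : ℕ => qe n.unpair.2)).comp
        (measurable_fst.comp measurable_snd)
    | some i =>
      exact hV.preimage ((continuous_row i).comp (continuous_snd.comp continuous_snd))
  filter_upwards [ev_ctm, ev_mem u₀, cchoice hC] with K hK hu₀ hch c hc
  obtain ⟨E, hE, U', hU', hE0, hEU⟩ := hch c hc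
  have hU'R : rows U' ∈ Rl K := hU'
  let U : ℕ → ℕ → (ℕ → ℕ) := fun t i k =>
    if E (Nat.pair t i.unpair.1) = 0 then rows U' (Nat.pair (Nat.pair t i.unpair.1) (Nat.pair i.unpair.2 k))
    else u₀ k
  have hU1 : ∀ t r j, E (Nat.pair t r) = 0 → U t (Nat.pair r j) = row j (U' (Nat.pair t r)) := by
    intro t r j h
    funext k
    simp only [U, Nat.unpair_pair, if_pos h, rows, row]
  have hUV : ∀ t i, U t i ∈ V := by
    intro t i
    by_cases h : E (Nat.pair t i.unpair.1) = 0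
    · rw [← Nat.pair_unpair i, hU1 t _ _ h]
      exact (hEU _ h).1 _
    · have : U t i = u₀ := by
        funext k
        simp only [U, if_neg h]
      rw [this]; exact h₀
  have hUK : (fun a : ℕ => U a.unpair.1 a.unpair.2.unpair.1 a.unpair.2.unpair.2) ∈ Rl K := by
    refine CTM.mem_Rl' hK (CTM.DR.mk (CTM.DN.ite (CTM.Dfn.eqN (CTM.DN.app (CTM.DR.const hE) (CTM.DN.pair
      (CTM.DN.unpair1 (CTM.DN.var _)) (CTM.DN.unpair1 (CTM.DN.unpair1 (CTM.DN.unpair2 (CTM.DN.var _))))))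
      (CTM.DN.const 0)) (CTM.DN.app (CTM.DR.const hU'R) (CTM.DN.pair (CTM.DN.pair
      (CTM.DN.unpair1 (CTM.DN.var _)) (CTM.DN.unpair1 (CTM.DN.unpair1 (CTM.DN.unpair2 (CTM.DN.var _)))))
      (CTM.DN.pair (CTM.DN.unpair2 (CTM.DN.unpair1 (CTM.DN.unpair2 (CTM.DN.var _))))
        (CTM.DN.unpair2 (CTM.DN.unpair2 (CTM.DN.var _)))))) (CTM.DN.app (CTM.DR.const hu₀)
        (CTM.DN.unpair2 (CTM.DN.unpair2 (CTM.DN.var _))))))
  refine ⟨U, ?_, hUV, ?_⟩
  · show rows (fun t => rows (fun i => U t i)) ∈ Rl K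
    exact hUK
  intro t u hu huV
  by_contra hne
  let b : (ℕ → ℕ) → Set (ℕ → Bool) := fun w => {y | ((c, t, w), y) ∈ B}
  have hb : ∀ w, MeasurableSet (b w) := fun w => measurable_prodMk_left hB
  have hbU : MeasurableSet (⋃ i, b (U t i)) := MeasurableSet.iUnion fun i => hb _
  have h1 : lam (b u ∪ ⋃ i, b (U t i)) = lam (⋃ i, b (U t i)) + lam (b u \ ⋃ i, b (U t i)) := by
    rw [Set.union_comm, ← Set.union_sdiff_self, measure_union' Set.disjoint_sdiff_right hbU]
  have h2 : lam (⋃ i, b (U t i)) < lam (b u ∪ ⋃ i, b (U t i)) := by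
    rw [h1]
    exact ENNReal.lt_add_right (measure_ne_top _ _) hne
  obtain ⟨r, hr1, hr2⟩ := exists_qe h2
  -- the enlarged sequence
  have hUt : (fun a : ℕ => U t a.unpair.1 a.unpair.2) ∈ Rl K := by
    have := hK.row_mem hUK t
    simp only [Nat.unpair_pair] at this
    exact this
  obtain ⟨y, hyK, hy0, hyS⟩ := exists_cons hK hu hUt
  have hyS : ∀ i, row (i + 1) y = U t i := by
    intro i
    rw [hyS]
    funext k
    simp only [Nat.unpair_pair]
  have h3 : {z | ((c, Nat.pair t r, y), z) ∈ B'} = b u ∪ ⋃ i, b (U t i) := by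
    ext z
    simp only [B', Set.mem_iUnion, Set.mem_preimage, Nat.unpair_pair, Set.mem_union, b, Set.mem_ofPred_eq]
    constructor
    · rintro ⟨i, hi⟩
      cases i with
      | zero => rw [hy0] at hi; exact Or.inl hi
      | succ i => rw [hyS] at hi; exact Or.inr ⟨i, hi⟩
    · rintro (hi | ⟨i, hi⟩)
      · exact ⟨0, by rw [hy0]; exact hi⟩
      · exact ⟨i + 1, by rw [hyS]; exact hi⟩
  have h4 : E (Nat.pair t r) = 0 := by
    refine (hE0 _).2 ⟨y, hyK, ?_, ?_⟩
    · intro i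
      cases i with
      | zero => show row 0 y ∈ V; rw [hy0]; exact huV
      | succ i => show row (i + 1) y ∈ V; rw [hyS]; exact hUV t i
    · show qe (Nat.pair t r).unpair.2 ≤ lam {z | ((c, Nat.pair t r, y), z) ∈ B'}
      rw [Nat.unpair_pair, h3]
      exact hr2.le
  have h5 := (hEU _ h4).2
  have h6 : qe r ≤ lam (⋃ i, b (U t i)) := by
    have h7 : qe (Nat.pair t r).unpair.2 ≤ lam {z | ((c, Nat.pair t r, U' (Nat.pair t r)), z) ∈ B'} := h5
    rw [Nat.unpair_pair] at h7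
    refine h7.trans (measure_mono ?_)
    intro z hz
    simp only [B', Set.mem_iUnion, Set.mem_preimage, Nat.unpair_pair, Set.mem_ofPred_eq] at hz
    obtain ⟨j, hj⟩ := hz
    refine Set.mem_iUnion.2 ⟨Nat.pair r j, ?_⟩
    show ((c, t, U t (Nat.pair r j)), z) ∈ B
    rw [hU1 t r j h4]
    exact hj
  exact absurd (hr1.trans_le h6) (lt_irrefl _)

end Pool.Agent.H19.GP
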