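import Pool.Agent.H19.GP.Rnd

/-!
# Goldstern's principle: null sets in the two formats

PROOFS.
* `nullL_of_nw`: let `w ∈ Rl N`.  Borel relation between `w` and `u`: for all `k, l`: `∑ j < l, (1/2)^(dlB (u (pair k j))).length ≤ (1/2)^k`, and for all `k` and all `m ≥ k + 1`: `Uk m (w m) ⊆ ⋃ j < J, {y | ExtB y (dlB (u (pair k j)))}`
  for some `J`.  It has a solution in `V`: `O_k = ⋃_{m > k} Uk m (w m)` is open of measure `≤ ∑_{m > k} (1/4)^m ≤ (1/2)^k`, a disjoint union of basic clopen sets (countably many; if finitely many, fill up with lists of length `k + 2 + j` and shrink: use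
  measure `≤ (1/3) (1/4)^k` and filling lists of total length sum `≤ (1/2)^(k+1)`); compactness gives `J`.  `solve`.
* `nw_of_nullL`: given `u ∈ Rl N` as in `NullL`; the open sets `{y | ∃ j, ExtB y (dlB (u (pair k j)))}` have measure `≤ (1/2)^k` (countable subadditivity, `lam_cyl`); `an_null` for the Borel set
  `{(u, y) | ∀ k, ∃ j, ExtB y (dlB (u (pair k j)))}`.
* `point_of_null`: `nw_of_nullL` gives `w ∈ Rl N` with `B ⊆ Nw w` (on `N`); `{y | (x, y) ∈ G} \ Nw w` is nonempty (`lam_Nw`), so by `solve` for the analytic relation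
  `{((x, w), y) | (x, y) ∈ G ∧ y ∉ Nw w}` (`meas_Nw`; `AnalyticSet.inter`, preimages under continuous maps: `AnalyticSet.preimage`) it has a point in `N`.
-/

set_option autoImplicit false

universe u

namespace Pool.Agent.H19.GP

open Pool.Agent.H17.Omega Pool.Agent.H17.GP
open MeasureTheory Topology Filter

/-- a code of a binary sequence -/
def NullF_code (s : List Bool) : ℕ := Encodable.encode (s.map (fun b => if b then 1 else 0) : List ℕ)

theorem NullF_dlB (s : List Bool) : dlB (NullF_code s) = s := by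
  unfold dlB dl NullF_code
  rw [Denumerable.ofNat_encode, List.map_map]
  conv_rhs => rw [← List.map_id s]
  refine List.map_congr_left fun b _ => ?_
  cases b <;> simp

theorem NullF_ext {y : ℕ → Bool} {s : List Bool} {n : ℕ} (hn : s.length ≤ n) (h : ExtB y s) :
    ∀ y', ExtB y' (List.ofFn (fun i : Fin n => y i)) → ExtB y' s := by
  intro y' h'
  unfold ExtB at h h' ⊢
  rw [List.length_ofFn, List.ofFn_eq_map] at h'
  have h1 : ∀ i < n, y' i = y i := by
    intro i hi
    have := congrArg (fun l : List Bool => l[i]?) h'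
    simpa [hi] using this
  conv_rhs => rw [← h]
  refine List.map_congr_left fun i hi => ?_
  exact h1 i ((List.mem_range.1 hi).trans_le hn)

theorem NullF_self (y : ℕ → Bool) (n : ℕ) : ExtB y (List.ofFn (fun i : Fin n => y i)) := by
  unfold ExtB
  rw [List.length_ofFn, List.ofFn_eq_map]
  apply List.ext_getElem
  · simp
  · intro i h1 h2
    simp

theorem NullF_uniq {y : ℕ → Bool} {n : ℕ} {f g : Fin n → Bool} (hf : ExtB y (List.ofFn f))
    (hg : ExtB y (List.ofFn g)) : f = g := by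
  unfold ExtB at hf hg
  rw [List.length_ofFn] at hf hg
  exact List.ofFn_injective (hf.symm.trans hg)

/-- a clopen set is a disjoint union of cylinders -/
theorem NullF_cover {S : Set (ℕ → Bool)} (hS : IsClopen S) : ∃ (M : ℕ) (a : ℕ → ℕ),
    S ⊆ (⋃ i < M, {y | ExtB y (dlB (a i))}) ∧
      ∑ i ∈ Finset.range M, (1 / 2 : ENNReal) ^ (dlB (a i)).length ≤ lam S := by
  classical
  obtain ⟨j, rfl⟩ := exists_Cl hS
  let n : ℕ := ((dl j).map fun t => (dlB t).length).sum
  have hn : ∀ t ∈ dl j, (dlB t).length ≤ n := by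
    intro t ht
    exact List.single_le_sum (by simp) _ (List.mem_map.2 ⟨t, ht, rfl⟩)
  let F : Finset (Fin n → Bool) := Finset.univ.filter fun f => {y | ExtB y (List.ofFn f)} ⊆ Cl j
  let g : ℕ → ℕ := fun i => if h : i < F.card then NullF_code (List.ofFn (F.equivFin.symm ⟨i, h⟩).1) else 0
  have hg : ∀ i : Fin F.card, g i = NullF_code (List.ofFn (F.equivFin.symm i).1) := by
    intro i
    simp [g, i.2]
  refine ⟨F.card, g, ?_, ?_⟩
  · intro y hy
    obtain ⟨t, ht, hty⟩ := hy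
    have hF : (fun i : Fin n => y i) ∈ F := by
      rw [Finset.mem_filter]
      refine ⟨Finset.mem_univ _, fun y' hy' => ?_⟩
      exact ⟨t, ht, NullF_ext (hn t ht) hty y' hy'⟩
    rw [Set.mem_iUnion₂]
    refine ⟨F.equivFin ⟨_, hF⟩, (F.equivFin ⟨_, hF⟩).2, ?_⟩
    rw [Set.mem_ofPred_eq, hg, NullF_dlB, Equiv.symm_apply_apply]
    exact NullF_self y n
  · rw [Finset.sum_range]
    have h1 : ∀ i : Fin F.card, (1 / 2 : ENNReal) ^ (dlB (g i)).length =
        lam {y | ExtB y (List.ofFn (F.equivFin.symm i).1)} := by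
      intro i
      rw [hg, NullF_dlB, lam_cyl]
    rw [Finset.sum_congr rfl fun i _ => h1 i,
      Equiv.sum_comp F.equivFin.symm (fun f : F => lam {y | ExtB y (List.ofFn f.1)}),
      Finset.sum_coe_sort F (fun f => lam {y | ExtB y (List.ofFn f)}),
      ← measure_biUnion_finset]
    · refine measure_mono (Set.iUnion₂_subset fun f hf => ?_)
      exact (Finset.mem_filter.1 hf).2
    · intro f _ g _ hfg
      rw [Function.onFun, Set.disjoint_left]
      intro y h1 h2
      exact hfg (NullF_uniq h1 h2)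
    · intro f _
      exact (isClopen_cyl _).isOpen.measurableSet

theorem NullF_real {n : ℕ → ℕ} {l k : ℕ}
    (h : ∑ j ∈ Finset.range l, (1 / 2 : ENNReal) ^ n j ≤ (1 / 2) ^ k) :
    ∑ j ∈ Finset.range l, (1 / 2 : ℝ) ^ n j ≤ (1 / 2) ^ k := by
  have h1 := ENNReal.toReal_mono (by simp) h
  rw [ENNReal.toReal_sum (by simp)] at h1
  simpa using h1

theorem NullF_geom (k : ℕ) : ∑' j : ℕ, (1 / 2 : ENNReal) ^ (k + 1 + j) = (1 / 2) ^ k := by
  simp_rw [pow_add]
  rw [ENNReal.tsum_mul_left]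
  have h4 : ∑' n : ℕ, (1 / 2 : ENNReal) ^ n = 2 := by
    rw [ENNReal.tsum_geometric]
    simp
  rw [h4, mul_assoc]
  simp
  rw [ENNReal.inv_mul_cancel two_ne_zero ENNReal.ofNat_ne_top, mul_one]

theorem NullF_exists (w : ℕ → ℕ) (k : ℕ) : ∃ v : ℕ → ℕ,
    (∀ l, ∑ j ∈ Finset.range l, (1 / 2 : ℝ) ^ (dlB (v j)).length ≤ (1 / 2) ^ k) ∧
    ∀ m, k + 2 ≤ m → ∃ J, Uk m (w m) ⊆ ⋃ j < J, {y | ExtB y (dlB (v j))} := by
  classical
  choose M a hM ha using fun m => NullF_cover (isClopen_Uk m (w m))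
  let v : ℕ → ℕ := fun j => if k + 2 ≤ j.unpair.1 ∧ j.unpair.2 < M j.unpair.1 then
    a j.unpair.1 j.unpair.2 else NullF_code (List.replicate (k + 2 + j) true)
  refine ⟨v, fun l => ?_, fun m hm => ?_⟩
  · apply NullF_real (n := fun j => (dlB (v j)).length)
    let f : ℕ × ℕ → ENNReal := fun q => if k + 2 ≤ q.1 ∧ q.2 < M q.1 then
      (1 / 2) ^ (dlB (a q.1 q.2)).length else 0
    have h1 : ∀ j, (1 / 2 : ENNReal) ^ (dlB (v j)).length ≤ f j.unpair + (1 / 2) ^ (k + 2 + j) := by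
      intro j
      by_cases hj : k + 2 ≤ j.unpair.1 ∧ j.unpair.2 < M j.unpair.1
      · simp only [v, f, if_pos hj]
        exact le_self_add
      · simp only [v, f, if_neg hj, NullF_dlB, List.length_replicate, zero_add, le_refl]
    have h2 : ∑' q : ℕ × ℕ, f q ≤ (1 / 2) ^ (k + 1) := by
      rw [ENNReal.tsum_prod']
      have h3 : ∀ m, ∑' i, f (m, i) ≤ if k + 2 ≤ m then (1 / 4) ^ m else 0 := by
        intro m
        by_cases hm : k + 2 ≤ m
        · rw [if_pos hm]
          refine le_trans ?_ (lam_Uk m (w m))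
          refine le_trans ?_ (ha m)
          rw [tsum_eq_sum (s := Finset.range (M m))]
          · refine Finset.sum_le_sum fun i hi => ?_
            simp only [f]
            split_ifs
            · exact le_rfl
            · exact zero_le
          · intro i hi
            rw [Finset.mem_range] at hi
            simp only [f]
            rw [if_neg]
            exact fun h => hi h.2
        · rw [if_neg hm]
          simp only [f]
          refine le_of_eq ?_
          rw [ENNReal.tsum_eq_zero]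
          intro i
          rw [if_neg]
          exact fun h => hm h.1
      refine (ENNReal.tsum_le_tsum h3).trans ?_
      have h4 : ∀ m : ℕ, (if k + 2 ≤ m then ((1 / 4 : ENNReal)) ^ m else 0) ≤ (1 / 2) ^ (k + 1 + 1 + m) + 0 := by
        intro m
        rw [add_zero]
        split_ifs with hm
        · have e : (1 / 4 : ENNReal) = (1 / 2) ^ 2 := by
            rw [one_div, one_div, ← ENNReal.inv_pow]
            norm_num
          rw [e, ← pow_mul]
          exact pow_le_pow_right_of_le_one' (by simp) (by omega)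
        · exact zero_le
      refine (ENNReal.tsum_le_tsum h4).trans ?_
      simp only [add_zero]
      rw [NullF_geom]
    calc ∑ j ∈ Finset.range l, (1 / 2 : ENNReal) ^ (dlB (v j)).length
        ≤ ∑' j, (1 / 2 : ENNReal) ^ (dlB (v j)).length := ENNReal.sum_le_tsum _
      _ ≤ ∑' j : ℕ, (f j.unpair + (1 / 2) ^ (k + 2 + j)) := ENNReal.tsum_le_tsum h1
      _ = ∑' j : ℕ, f j.unpair + ∑' j : ℕ, (1 / 2) ^ (k + 1 + 1 + j) := ENNReal.tsum_add
      _ = ∑' q : ℕ × ℕ, f q + (1 / 2) ^ (k + 1) := by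
          rw [NullF_geom]
          congr 1
          exact Nat.pairEquiv.symm.tsum_eq f
      _ ≤ (1 / 2) ^ (k + 1) + (1 / 2) ^ (k + 1) := by gcongr
      _ = (1 / 2) ^ k := by
          rw [pow_succ, ← mul_add]
          have : (1 / 2 : ENNReal) + 1 / 2 = 1 := ENNReal.add_halves 1
          rw [this, mul_one]
  · refine ⟨∑ i ∈ Finset.range (M m), (Nat.pair m i + 1), fun y hy => ?_⟩
    have h1 := hM m hy
    rw [Set.mem_iUnion₂] at h1 ⊢
    obtain ⟨i, hi, h1⟩ := h1
    refine ⟨Nat.pair m i, ?_, ?_⟩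
    · have : Nat.pair m i + 1 ≤ ∑ i ∈ Finset.range (M m), (Nat.pair m i + 1) :=
        Finset.single_le_sum (f := fun i => Nat.pair m i + 1) (fun _ _ => Nat.zero_le _)
          (Finset.mem_range.2 hi)
      omega
    · have e : v (Nat.pair m i) = a m i := by
        simp only [v, Nat.unpair_pair]
        rw [if_pos ⟨hm, hi⟩]
      rw [Set.mem_ofPred_eq, e]
      exact h1

/-- the relation between the codes -/
def NullF_S : Set ((ℕ → ℕ) × (ℕ → ℕ)) :=
  {p | (∀ k l, ∑ j ∈ Finset.range l, (1 / 2 : ℝ) ^ (dlB (p.2 (Nat.pair k j))).length ≤ (1 / 2) ^ k) ∧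
    ∀ k m, k + 2 ≤ m → ∃ J, Uk m (p.1 m) ⊆ ⋃ j < J, {y | ExtB y (dlB (p.2 (Nat.pair k j)))}}

theorem NullF_meas : MeasurableSet NullF_S := by
  have h1 : MeasurableSet {p : (ℕ → ℕ) × (ℕ → ℕ) |
      ∀ k l, ∑ j ∈ Finset.range l, (1 / 2 : ℝ) ^ (dlB (p.2 (Nat.pair k j))).length ≤ (1 / 2) ^ k} := by
    simp only [Set.ofPred_forall]
    refine MeasurableSet.iInter fun k => MeasurableSet.iInter fun l => ?_
    refine measurableSet_le ?_ measurable_const
    refine Finset.measurable_sum _ fun j _ => ?_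
    exact (measurable_of_countable (fun a : ℕ => (1 / 2 : ℝ) ^ (dlB a).length)).comp
      ((measurable_pi_apply _).comp measurable_snd)
  have h2 : MeasurableSet {p : (ℕ → ℕ) × (ℕ → ℕ) |
      ∀ k m, k + 2 ≤ m → ∃ J, Uk m (p.1 m) ⊆ ⋃ j < J, {y | ExtB y (dlB (p.2 (Nat.pair k j)))}} := by
    simp only [Set.ofPred_forall, Set.ofPred_exists]
    refine MeasurableSet.iInter fun k => MeasurableSet.iInter fun m => MeasurableSet.iInter fun _ =>
      MeasurableSet.iUnion fun J => ?_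
    have e : {p : (ℕ → ℕ) × (ℕ → ℕ) | Uk m (p.1 m) ⊆ ⋃ j < J, {y | ExtB y (dlB (p.2 (Nat.pair k j)))}} =
        (fun p : (ℕ → ℕ) × (ℕ → ℕ) => ((p.1 m, fun j : Fin J => p.2 (Nat.pair k j)) : ℕ × (Fin J → ℕ))) ⁻¹'
          {q | Uk m q.1 ⊆ ⋃ j : Fin J, {y | ExtB y (dlB (q.2 j))}} := by
      ext p
      simp only [Set.mem_ofPred_eq, Set.mem_preimage, Set.subset_def, Set.mem_iUnion]
      refine forall_congr' fun y => imp_congr_right fun _ => ?_
      constructor
      · rintro ⟨j, hj, h⟩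
        exact ⟨⟨j, hj⟩, h⟩
      · rintro ⟨j, h⟩
        exact ⟨j, j.2, h⟩
    rw [e]
    refine MeasurableSet.preimage (Set.to_countable _).measurableSet ?_
    refine ((measurable_pi_apply _).comp measurable_fst).prodMk ?_
    exact measurable_pi_lambda _ fun j => (measurable_pi_apply _).comp measurable_snd
  exact h1.inter h2

theorem nullL_of_nw : ∀ᶠ N in ctmF.{u}, ∀ w ∈ Rl N, NullL (Rl N) (fun y => y ∈ Nw w) := by
  filter_upwards [solve NullF_meas.analyticSet] with N k1 w hw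
  choose v hv1 hv2 using NullF_exists w
  obtain ⟨u, hu, h1, h2⟩ := k1 w hw (fun n => v n.unpair.1 n.unpair.2) ⟨fun k l => by
      simpa using hv1 k l, fun k m hm => by simpa using hv2 k m hm⟩
  refine ⟨u, hu, h1, fun y _ hy k => ?_⟩
  obtain ⟨m, hm, hym⟩ := hy (k + 2)
  obtain ⟨J, hJ⟩ := h2 k m hm
  have h3 := hJ hym
  rw [Set.mem_iUnion₂] at h3
  obtain ⟨j, _, hj⟩ := h3
  exact ⟨j, hj⟩

theorem nw_of_nullL : ∀ᶠ N in ctmF.{u}, ∀ B : (ℕ → Bool) → Prop, NullL (Rl N) B →
    ∃ w ∈ Rl N, ∀ y, In N y → B y → y ∈ Nw w := by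
  have hG : MeasurableSet {p : (ℕ → ℕ) × (ℕ → Bool) | ∀ k, ∃ j, ExtB p.2 (dlB (p.1 (Nat.pair k j)))} := by
    simp only [Set.ofPred_forall, Set.ofPred_exists]
    refine MeasurableSet.iInter fun k => MeasurableSet.iUnion fun j => ?_
    have e : {p : (ℕ → ℕ) × (ℕ → Bool) | ExtB p.2 (dlB (p.1 (Nat.pair k j)))} =
        ⋃ a : ℕ, ((fun p : (ℕ → ℕ) × (ℕ → Bool) => p.1 (Nat.pair k j)) ⁻¹' {a}) ∩
          (Prod.snd ⁻¹' {y | ExtB y (dlB a)}) := by
      ext p
      simp
    rw [e]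
    refine MeasurableSet.iUnion fun a => MeasurableSet.inter ?_ ?_
    · exact ((measurable_pi_apply _).comp measurable_fst) (measurableSet_singleton a)
    · exact measurable_snd (isClopen_cyl _).isOpen.measurableSet
  filter_upwards [an_null hG.analyticSet] with N k1 B hB
  obtain ⟨u, hu, h1, h2⟩ := hB
  have h0 : lam {y | (u, y) ∈ {p : (ℕ → ℕ) × (ℕ → Bool) |
      ∀ k, ∃ j, ExtB p.2 (dlB (p.1 (Nat.pair k j)))}} = 0 := by
    have h4 : ∀ k, lam {y | (u, y) ∈ {p : (ℕ → ℕ) × (ℕ → Bool) |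
        ∀ k, ∃ j, ExtB p.2 (dlB (p.1 (Nat.pair k j)))}} ≤ (1 / 2) ^ k := by
      intro k
      calc lam {y | (u, y) ∈ {p : (ℕ → ℕ) × (ℕ → Bool) |
            ∀ k, ∃ j, ExtB p.2 (dlB (p.1 (Nat.pair k j)))}}
          ≤ lam (⋃ j, {y | ExtB y (dlB (u (Nat.pair k j)))}) := by
            refine measure_mono fun y hy => ?_
            obtain ⟨j, hj⟩ := hy k
            exact Set.mem_iUnion.2 ⟨j, hj⟩
        _ ≤ ∑' j, lam {y | ExtB y (dlB (u (Nat.pair k j)))} := measure_iUnion_le _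
        _ = ∑' j, (1 / 2) ^ (dlB (u (Nat.pair k j))).length := by simp_rw [lam_cyl]
        _ ≤ (1 / 2) ^ k := by
            refine ENNReal.tsum_le_of_sum_range_le fun l => ?_
            have h5 := ENNReal.ofReal_le_ofReal (h1 k l)
            rw [ENNReal.ofReal_sum_of_nonneg (by intros; positivity),
              ENNReal.ofReal_pow (by norm_num)] at h5
            have e : ENNReal.ofReal (1 / 2) = 1 / 2 := by
              rw [ENNReal.ofReal_div_of_pos (by norm_num)]
              simp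
            rw [e] at h5
            refine le_trans (le_of_eq (Finset.sum_congr rfl fun j _ => ?_)) h5
            rw [ENNReal.ofReal_pow (by norm_num), e]
    have h6 : Tendsto (fun k : ℕ => (1 / 2 : ENNReal) ^ k) atTop (𝓝 0) :=
      ENNReal.tendsto_pow_atTop_nhds_zero_of_lt_one (by
        rw [one_div]
        exact ENNReal.one_half_lt_one.trans_le' (by simp))
    exact le_antisymm (ge_of_tendsto' h6 h4) zero_le
  obtain ⟨w, hw, h3⟩ := k1 u hu h0
  exact ⟨w, hw, fun y hy hBy => h3 y (h2 y hy hBy)⟩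

theorem NullL.mono {R : Set (ℕ → ℕ)} {B B' : (ℕ → Bool) → Prop} (h : NullL R B')
    (h' : ∀ y, b2n y ∈ R → B y → B' y) : NullL R B := by
  obtain ⟨u, hu, h1, h2⟩ := h
  exact ⟨u, hu, h1, fun y hy hB => h2 y hy (h' y hy hB)⟩

/-- The intersection of a closed set of positive measure with the complement of a null set has a point in the model. -/
theorem point_of_null {X : Type} [TopologicalSpace X] [RT X] {G : Set (X × (ℕ → Bool))} (hG : AnalyticSet G) :
    ∀ᶠ N in ctmF.{u}, ∀ x, In N x → ∀ B : (ℕ → Bool) → Prop, NullL (Rl N) B → 0 < lam {y | (x, y) ∈ G} →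
      ∃ y, In N y ∧ (x, y) ∈ G ∧ ¬ B y := by
  have hT : T2Space X := (RT.emb (X := X)).isEmbedding.t2Space
  have hP : PolishSpace X := (RT.emb (X := X)).polishSpace
  have hS : AnalyticSet {q : (X × (ℕ → ℕ)) × (ℕ → Bool) | (q.1.1, q.2) ∈ G ∧ q.2 ∉ Nw q.1.2} := by
    have h1 : AnalyticSet {q : (X × (ℕ → ℕ)) × (ℕ → Bool) | (q.1.1, q.2) ∈ G} := by
      refine AnalyticSet.preimage hG (f := fun q : (X × (ℕ → ℕ)) × (ℕ → Bool) => (q.1.1, q.2)) ?_
      fun_prop
    have h2 : AnalyticSet {q : (X × (ℕ → ℕ)) × (ℕ → Bool) | q.2 ∉ Nw q.1.2} := by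
      refine AnalyticSet.preimage meas_Nw.compl.analyticSet
        (f := fun q : (X × (ℕ → ℕ)) × (ℕ → Bool) => (q.1.2, q.2)) ?_
      fun_prop
    have e : {q : (X × (ℕ → ℕ)) × (ℕ → Bool) | (q.1.1, q.2) ∈ G ∧ q.2 ∉ Nw q.1.2} =
        ⋂ c : Bool, cond c {q : (X × (ℕ → ℕ)) × (ℕ → Bool) | (q.1.1, q.2) ∈ G}
          {q : (X × (ℕ → ℕ)) × (ℕ → Bool) | q.2 ∉ Nw q.1.2} := by
      rw [← Set.inter_eq_iInter]
      rfl
    rw [e]
    refine AnalyticSet.iInter fun c => ?_
    cases c
    · exact h2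
    · exact h1
  filter_upwards [ev_ctm, nw_of_nullL, solve hS] with N hN k1 k2 x hx B hB hpos
  obtain ⟨w, hw, hBw⟩ := k1 B hB
  have h3 : ∃ y, (x, y) ∈ G ∧ y ∉ Nw w := by
    by_contra hc
    push Not at hc
    have : lam {y | (x, y) ∈ G} ≤ lam (Nw w) := measure_mono fun y hy => hc y hy
    rw [lam_Nw] at this
    exact absurd hpos (not_lt.2 this)
  obtain ⟨y, h4, h5⟩ := h3
  obtain ⟨y', hy', h6, h7⟩ := k2 (x, w) ((In_prod hN).2 ⟨hx, hw⟩) y ⟨h4, h5⟩
  exact ⟨y', hy', h6, fun hBy => h7 (hBw y' hy' hBy)⟩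

end Pool.Agent.H19.GP
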