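import Pool.Agent.H19.GP.Pos

/-!
# Goldstern's principle: soundness of the certificates

PROOF.
* `ucert_sound`: `G`, `ρ` as in `Ucert`.  For `(t', v) ∈ G` and any `σ`, not `Avoid σ G t' v`, since otherwise `ρ (encode (σ|n))` descends in `rel g`.  Let `σ s = x (s.length)` (as a function of
  codes: `σ k = x (lenN k)`).  Choose recursively `(t₀, v₀) = (t, [])`, `(t_{i+1}, v_{i+1}) ∈ G` with `Obey σ t_i t_{i+1}`, `v_{i+1} = v_i ++ [a_i]`.  The unions `z`, `v` satisfy: `x ≤ z` (below `t.length` by hypothesis,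
  beyond by `Obey`), `App D ζ (z|n) (v|n)` for all `n` (the positions `(t_n, v_n)`, `v_n.length = n`, `t_n` agrees with `z`), so `(ζ, z, v) ∈ D` by `mem_of_app`.
-/

set_option autoImplicit false

universe u

namespace Pool.Agent.H19.GP

open Pool.Agent.H17.Omega Pool.Agent.H17.GP
open MeasureTheory Topology Filter

variable {D : Set ((ℕ → ℕ) × (ℕ → ℕ) × (ℕ → ℕ))}

/-- the length of the sequence with code `k` -/
noncomputable def lenC (k : ℕ) : ℕ := ((Encodable.decode k : Option (List ℕ)).getD []).length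

theorem lenC_encode (s : List ℕ) : lenC (Encodable.encode s) = s.length := by
  simp [lenC, Encodable.encodek]

theorem inl_succ (x : ℕ → ℕ) (n : ℕ) : inl x (n + 1) = inl x n ++ [x n] := by
  simp [inl, List.range_succ]

theorem getD_inl (x : ℕ → ℕ) {n i : ℕ} (h : i < n) : (inl x n).getD i 0 = x i := by
  simp [inl, List.getD_eq_getElem?_getD, h]

theorem getD_prefix {s t : List ℕ} (h : s <+: t) {i : ℕ} (hi : i < s.length) : t.getD i 0 = s.getD i 0 := by
  obtain ⟨r, rfl⟩ := h
  simp [List.getD_eq_getElem?_getD, List.getElem?_append_left hi]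

theorem not_avoid {G : Set (List ℕ × List ℕ)} {g ρ : ℕ → ℕ} (hg : Wf g) {p : List ℕ × List ℕ}
    (h : ∀ (s : List ℕ) (k : ℕ), Sg G p.1 p.2 (s ++ [k]) →
      rel g (ρ (Nat.pair (pc p) (Encodable.encode (s ++ [k])))) (ρ (Nat.pair (pc p) (Encodable.encode s))))
    (σ : ℕ → ℕ) : ∃ t' a, Obey σ p.1 t' ∧ (t', p.2 ++ [a]) ∈ G := by
  by_contra hc
  push Not at hc
  have hav : Avoid σ G p.1 p.2 := fun t' ht' a => hc t' a ht'
  rw [avoid_iff_sg] at hav
  have hd : ∀ n, rel g (ρ (Nat.pair (pc p) (Encodable.encode (inl σ (n + 1)))))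
      (ρ (Nat.pair (pc p) (Encodable.encode (inl σ n)))) := by
    intro n
    have := h (inl σ n) (σ n) (by rw [← inl_succ]; exact hav (n + 1))
    rwa [← inl_succ] at this
  have key : ∀ y n, ρ (Nat.pair (pc p) (Encodable.encode (inl σ n))) = y → False := by
    intro y
    induction y using hg.induction with
    | _ y ih =>
      intro n hn
      exact ih _ (hn ▸ hd n) (n + 1) rfl
  exact key _ 0 rfl

theorem ucert_sound (hD : IsClosed D) {ζ : ℕ → ℕ} {t : List ℕ} {g : ℕ → ℕ} (h : Ucert D ζ t g) (hg : Wf g)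
    {x : ℕ → ℕ} (hx : ∀ i < t.length, x i ≤ t.getD i 0) :
    ∃ z v, (∀ i, x i ≤ z i) ∧ (ζ, z, v) ∈ D := by
  obtain ⟨G, ρ, h0, hsub, hρ⟩ := h
  have hstep : ∀ p : PG G, ∃ q : PG G, Obey (fun k => x (lenC k)) p.1.1 q.1.1 ∧ ∃ a, q.1.2 = p.1.2 ++ [a] := by
    intro p
    obtain ⟨t', a, h1, h2⟩ := not_avoid hg (hρ p.1 p.2) (fun k => x (lenC k))
    exact ⟨⟨(t', p.1.2 ++ [a]), h2⟩, h1, a, rfl⟩
  choose f hf1 hf2 using hstep
  let P : ℕ → PG G := fun n => Nat.rec ⟨(t, []), h0⟩ (fun _ p => f p) n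
  have hP0 : (P 0).1 = (t, []) := rfl
  have hPs : ∀ n, P (n + 1) = f (P n) := fun n => rfl
  have hob : ∀ n, Obey (fun k => x (lenC k)) (P n).1.1 (P (n + 1)).1.1 := fun n => by
    rw [hPs]; exact hf1 (P n)
  have hap : ∀ n, ∃ a, (P (n + 1)).1.2 = (P n).1.2 ++ [a] := fun n => by
    rw [hPs]; exact hf2 (P n)
  have hlen2 : ∀ n, (P n).1.2.length = n := by
    intro n
    induction n with
    | zero => simp [hP0]
    | succ n ih =>
      obtain ⟨a, ha⟩ := hap n
      rw [ha]; simp [ih]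
  have hpre1 : ∀ n m, n ≤ m → (P n).1.1 <+: (P m).1.1 := by
    intro n m hnm
    induction m, hnm using Nat.le_induction with
    | base => exact List.prefix_refl _
    | succ m _ ih => exact ih.trans (hob m).1
  have hpre2 : ∀ n m, n ≤ m → (P n).1.2 <+: (P m).1.2 := by
    intro n m hnm
    induction m, hnm using Nat.le_induction with
    | base => exact List.prefix_refl _
    | succ m _ ih =>
      obtain ⟨a, ha⟩ := hap m
      exact ih.trans (ha ▸ List.prefix_append _ _)
  have hlen1 : ∀ n, n ≤ (P n).1.1.length := by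
    intro n
    have := (hsub (P n).2).1
    rw [hlen2] at this
    exact this
  have hxP : ∀ n, ∀ i < (P n).1.1.length, x i ≤ (P n).1.1.getD i 0 := by
    intro n
    induction n with
    | zero => exact hx
    | succ n ih =>
      intro i hi
      by_cases hin : i < (P n).1.1.length
      · rw [getD_prefix (hob n).1 hin]; exact ih i hin
      · have := (hob n).2.2 i (not_lt.mp hin) hi
        simp only [lenC_encode, List.length_take] at this
        rwa [min_eq_left hi.le] at this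
  refine ⟨fun j => (P (j + 1)).1.1.getD j 0, fun j => (P (j + 1)).1.2.getD j 0, fun i => hxP (i + 1) i (hlen1 (i + 1)), ?_⟩
  apply mem_of_app hD
  intro n
  refine ⟨n, le_refl n, ?_⟩
  obtain ⟨q, hq, hq2⟩ := (hsub (P n).2).2
  refine ⟨q, hq, ?_⟩
  intro i hi
  have hin : i < n := by simpa [inl] using hi
  obtain ⟨h1, h2, h3⟩ := hq2 i (by rw [hlen2]; exact hin)
  refine ⟨h1, ?_, ?_⟩
  · rw [getD_inl _ hin, h2]
    exact getD_prefix (hpre1 (i + 1) n hin) (hlen1 (i + 1))
  · rw [getD_inl _ hin, h3]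
    exact getD_prefix (hpre2 (i + 1) n hin) (by have := hlen2 (i + 1); omega)

end Pool.Agent.H19.GP
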