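import Pool.Agent.H19.GP.Pos

/-!
# Goldstern's principle: the certificates are an analytic relation

PROOF.
* `an_ucert`: Borel matrix: for fixed lists everything is a countable Boolean combination of locally constant conditions on `(G, ρ, g)`; `App D` is a closed/open condition:
  for fixed `s, v` the set `{ζ | App D ζ s v}` is clopen (it depends only on `ζ i`, `i < v.length`).
-/

set_option autoImplicit false

universe u

namespace Pool.Agent.H19.GP

open Pool.Agent.H17.Omega Pool.Agent.H17.GP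
open MeasureTheory Topology Filter

variable {D : Set ((ℕ → ℕ) × (ℕ → ℕ) × (ℕ → ℕ))}

private theorem meas_comp {α β : Type} [MeasurableSpace α] [MeasurableSpace β] [DiscreteMeasurableSpace β]
    {f : α → β} (hf : Measurable f) (P : β → Prop) : Measurable fun x => P (f x) :=
  (Measurable.of_discrete (f := P)).comp hf

private theorem meas_app (s v : List ℕ) : Measurable fun ζ : ℕ → ℕ => App D ζ s v := by
  have h : (fun ζ : ℕ → ℕ => App D ζ s v) = fun ζ : ℕ → ℕ =>
      (fun w : Fin v.length → ℕ => ∃ p ∈ D, ∀ i : Fin v.length, p.1 i = w i ∧ p.2.1 i = s.getD i 0 ∧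
        p.2.2 i = v.getD i 0) (fun i => ζ i) := by
    funext ζ
    unfold App
    apply propext
    constructor
    · rintro ⟨p, hp, h⟩
      exact ⟨p, hp, fun i => h i i.2⟩
    · rintro ⟨p, hp, h⟩
      exact ⟨p, hp, fun i hi => h ⟨i, hi⟩⟩
  rw [h]
  have hm : Measurable fun (ζ : ℕ → ℕ) (i : Fin v.length) => ζ i :=
    measurable_pi_lambda _ fun i => measurable_pi_apply (i : ℕ)
  exact meas_comp hm (fun w : Fin v.length → ℕ => ∃ p ∈ D, ∀ i : Fin v.length, p.1 i = w i ∧
    p.2.1 i = s.getD i 0 ∧ p.2.2 i = v.getD i 0)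

private theorem meas_sg {α : Type} [MeasurableSpace α] {G : α → ℕ → ℕ} (hG : ∀ n, Measurable fun x => G x n)
    (t v s : List ℕ) : Measurable fun x => Sg (PG (G x)) t v s := by
  unfold Sg
  refine Measurable.forall fun t' => Measurable.forall fun a => Measurable.imp ?_ ?_
  · exact meas_comp (hG (pc (t', v ++ [a]))) (fun n => n = 0)
  · exact measurable_const

private theorem meas_rel {α : Type} [MeasurableSpace α] {g : α → ℕ → ℕ} (hg : ∀ n, Measurable fun x => g x n)
    {a b : α → ℕ} (ha : Measurable a) (hb : Measurable b) : Measurable fun x => rel (g x) (a x) (b x) := by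
  have h : (fun x => rel (g x) (a x) (b x)) = fun x => ∀ i j, a x = i → b x = j → g x (Nat.pair i j) = 0 := by
    funext x
    apply propext
    constructor
    · rintro h i j rfl rfl
      exact h
    · intro h
      exact h _ _ rfl rfl
  rw [h]
  refine Measurable.forall fun i => Measurable.forall fun j => Measurable.imp ?_ (Measurable.imp ?_ ?_)
  · exact meas_comp ha (fun n => n = i)
  · exact meas_comp hb (fun n => n = j)
  · exact meas_comp (hg _) (fun n => n = 0)

private theorem polish_pr (X Y : Type) [TopologicalSpace X] [TopologicalSpace Y] [PolishSpace X] [PolishSpace Y] :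
    PolishSpace (X × Y) := inferInstance

theorem an_ucert : AnalyticSet {p : (ℕ → ℕ) × ℕ × (ℕ → ℕ) | Ucert D p.1 (dl p.2.1) p.2.2} := by
  have hS : MeasurableSet {q : ((ℕ → ℕ) × ℕ × (ℕ → ℕ)) × ((ℕ → ℕ) × (ℕ → ℕ)) |
      (dl q.1.2.1, []) ∈ PG q.2.1 ∧ PG q.2.1 ⊆ Pos D q.1.1 ∧
      ∀ p ∈ PG q.2.1, ∀ (s : List ℕ) (k : ℕ), Sg (PG q.2.1) p.1 p.2 (s ++ [k]) →
        rel q.1.2.2 (q.2.2 (Nat.pair (pc p) (Encodable.encode (s ++ [k]))))
          (q.2.2 (Nat.pair (pc p) (Encodable.encode s)))} := by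
    have hG : ∀ n, Measurable fun q : ((ℕ → ℕ) × ℕ × (ℕ → ℕ)) × ((ℕ → ℕ) × (ℕ → ℕ)) => q.2.1 n :=
      fun n => (measurable_pi_apply n).comp (measurable_fst.comp measurable_snd)
    have hρ : ∀ n, Measurable fun q : ((ℕ → ℕ) × ℕ × (ℕ → ℕ)) × ((ℕ → ℕ) × (ℕ → ℕ)) => q.2.2 n :=
      fun n => (measurable_pi_apply n).comp (measurable_snd.comp measurable_snd)
    have hg : ∀ n, Measurable fun q : ((ℕ → ℕ) × ℕ × (ℕ → ℕ)) × ((ℕ → ℕ) × (ℕ → ℕ)) => q.1.2.2 n :=
      fun n => (measurable_pi_apply n).comp (measurable_snd.comp (measurable_snd.comp measurable_fst))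
    have hk : Measurable fun q : ((ℕ → ℕ) × ℕ × (ℕ → ℕ)) × ((ℕ → ℕ) × (ℕ → ℕ)) => q.1.2.1 :=
      measurable_fst.comp (measurable_snd.comp measurable_fst)
    have hζ : Measurable fun q : ((ℕ → ℕ) × ℕ × (ℕ → ℕ)) × ((ℕ → ℕ) × (ℕ → ℕ)) => q.1.1 :=
      measurable_fst.comp measurable_fst
    refine measurableSet_setOfPred.mpr ((Measurable.and ?_ (Measurable.and ?_ ?_)))
    · have h : (fun q : ((ℕ → ℕ) × ℕ × (ℕ → ℕ)) × ((ℕ → ℕ) × (ℕ → ℕ)) => (dl q.1.2.1, ([] : List ℕ)) ∈ PG q.2.1) =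
          fun q => ∀ i, q.1.2.1 = i → q.2.1 (pc (dl i, [])) = 0 := by
        funext q
        apply propext
        constructor
        · rintro h i rfl
          exact h
        · intro h
          exact h _ rfl
      rw [h]
      exact Measurable.forall fun i => Measurable.imp (meas_comp hk (fun n => n = i)) (meas_comp (hG _) (fun n => n = 0))
    · have h : (fun q : ((ℕ → ℕ) × ℕ × (ℕ → ℕ)) × ((ℕ → ℕ) × (ℕ → ℕ)) => PG q.2.1 ⊆ Pos D q.1.1) =
          fun q => ∀ p : List ℕ × List ℕ, q.2.1 (pc p) = 0 → (p.2.length ≤ p.1.length ∧ App D q.1.1 p.1 p.2) := by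
        funext q
        rfl
      rw [h]
      exact Measurable.forall fun p => Measurable.imp (meas_comp (hG _) (fun n => n = 0))
        (Measurable.and measurable_const ((meas_app p.1 p.2).comp hζ))
    · refine Measurable.forall fun p => Measurable.imp (meas_comp (hG (pc p)) (fun n => n = 0)) ?_
      refine Measurable.forall fun s => Measurable.forall fun k => Measurable.imp (meas_sg hG _ _ _) ?_
      exact meas_rel hg (hρ _) (hρ _)
  have i1 : PolishSpace ((ℕ → ℕ) × ℕ × (ℕ → ℕ)) := polish_pr _ _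
  have i2 : PolishSpace (((ℕ → ℕ) × ℕ × (ℕ → ℕ)) × (ℕ → ℕ) × (ℕ → ℕ)) := polish_pr _ _
  have i3 : BorelSpace (((ℕ → ℕ) × ℕ × (ℕ → ℕ)) × (ℕ → ℕ) × (ℕ → ℕ)) := Prod.borelSpace
  have h2 := hS.analyticSet.image_of_continuous
    (f := fun q : ((ℕ → ℕ) × ℕ × (ℕ → ℕ)) × ((ℕ → ℕ) × (ℕ → ℕ)) => q.1) continuous_fst
  convert h2 using 1
  ext p
  constructor
  · rintro ⟨G, ρ, h⟩
    exact ⟨(p, (G, ρ)), h, rfl⟩
  · rintro ⟨⟨p', G, ρ⟩, h, rfl⟩
    exact ⟨G, ρ, h⟩

end Pool.Agent.H19.GP
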