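import Pool.Agent.H19.GP.Rnd
import Mathlib.Probability.Independence.ZeroOne
import Mathlib.Probability.Independence.InfinitePi

/-!
# Goldstern's principle: random reals in closed sets of positive measure

PROOF.
* `rand_pos`.  `tog y s` (`s : List Bool`): `y` with the first `s.length` values replaced by `s`.  `D = {(x, y) | ∀ s, (x, tog y s) ∉ C}`: Borel.  If `0 < lam C_x` then `lam D_x = 0`:
  `D_x` is invariant under finite modifications, so for every `s` the part `D_x ∩ cyl s` has measure `lam D_x * lam (cyl s)` (the map `y ↦ s ⌢ y(|s| + ·)`; or: `D_x` is a tail set, Kolmogorov `0-1` law: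
  `ProbabilityTheory.measure_zero_or_one_of_measurableSet_limsup_atTop`), so `D_x` is independent of all clopen sets, hence of itself (approximate by clopen sets), `lam D_x ∈ {0, 1}`; `D_x ⊆ C_xᶜ` has measure `< 1`.
  Let `y` be the random real over `K ξ` of `Sys.rand`.  By `rnd_null` (relation `D`), `y ∉ D_x`, so `(x, tog y s) ∈ C` for some `s`.  `tog y s` is in `N` (`In_fun`) and random over `K ξ`: if `tog y s ∈ Nw w` then
  `y ∈ {y | tog y s ∈ Nw w}`, a Borel set with parameter `(s, w)` in `K ξ` that is null (its intersection with each `cyl s'`, `s'.length = s.length`, is the image of `Nw w ∩ cyl s` under a measure preserving modification;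
  or simply: `Nw w` is null, `{y | tog y s ∈ Nw w} ⊆ ⋃ s', tog · s' '' ...`), contradiction to `rnd_null`.
-/

set_option autoImplicit false

universe u

namespace Pool.Agent.H19.GP

open Pool.Agent.H17.Omega Pool.Agent.H17.GP
open MeasureTheory Topology Filter

theorem rp_polish_bool : PolishSpace (ℕ → Bool) := (RT.emb (X := ℕ → Bool)).polishSpace

theorem rp_polish_prod (X Y : Type) [TopologicalSpace X] [PolishSpace X] [TopologicalSpace Y]
    [PolishSpace Y] : PolishSpace (X × Y) := by
  let _ := TopologicalSpace.upgradeIsCompletelyMetrizable X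
  let _ := TopologicalSpace.upgradeIsCompletelyMetrizable Y
  infer_instance

/-- the finite modification with number `s` -/
def rpTog (s : ℕ) (y : ℕ → Bool) : ℕ → Bool := fun n => Bool.xor (s.testBit n) (y n)

theorem rpTog_zero (y : ℕ → Bool) : rpTog 0 y = y := by
  funext n
  simp [rpTog]

theorem rpTog_tog (s t : ℕ) (y : ℕ → Bool) : rpTog s (rpTog t y) = rpTog (s ^^^ t) y := by
  funext n
  simp [rpTog, Nat.testBit_xor]

theorem continuous_rpTog (s : ℕ) : Continuous (rpTog s) :=
  continuous_pi fun n => (continuous_of_discreteTopology (f := fun b : Bool =>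
    Bool.xor (s.testBit n) b)).comp (continuous_apply n)

theorem coin_map_xor (b : Bool) : coin.map (fun c => Bool.xor b c) = coin := by
  have hb : Measurable (fun c : Bool => Bool.xor b c) := measurable_of_countable _
  have e : (fun c : Bool => Bool.xor b c) = ⇑(Equiv.mk (fun c : Bool => Bool.xor b c)
      (fun c : Bool => Bool.xor b c) (fun c => by cases b <;> cases c <;> rfl)
      (fun c => by cases b <;> cases c <;> rfl)) := rfl
  ext S hS
  rw [Measure.map_apply hb hS]
  unfold coin
  rw [Measure.smul_apply, Measure.smul_apply, Measure.count_apply (hb hS), Measure.count_apply hS]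
  congr 2
  rw [e]
  generalize (Equiv.mk (fun c : Bool => Bool.xor b c)
      (fun c : Bool => Bool.xor b c) (fun c => by cases b <;> cases c <;> rfl)
      (fun c => by cases b <;> cases c <;> rfl)) = e'
  rw [← Equiv.image_symm_eq_preimage, e'.symm.injective.encard_image]

theorem lam_tog (s : ℕ) {S : Set (ℕ → Bool)} (hS : MeasurableSet S) :
    lam (rpTog s ⁻¹' S) = lam S := by
  have h1 : lam.map (rpTog s) = lam := by
    unfold lam
    have := Measure.infinitePi_map_pi (fun _ : ℕ => coin)
      (f := fun (n : ℕ) (c : Bool) => Bool.xor (s.testBit n) c)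
      (fun n => measurable_of_countable _)
    simp only [coin_map_xor] at this
    exact this
  conv_rhs => rw [← h1]
  rw [Measure.map_apply (continuous_rpTog s).measurable hS]

/-- `y` with the first `n` values replaced by `false` -/
def rpCut (n : ℕ) (y : ℕ → Bool) : ℕ → Bool := fun i => if i < n then false else y i

theorem rpCut_eq (n : ℕ) (y : ℕ → Bool) : ∃ s, rpCut n y = rpTog s y := by
  induction n with
  | zero => exact ⟨0, by rw [rpTog_zero]; funext i; simp [rpCut]⟩
  | succ n ih =>
    obtain ⟨s, hs⟩ := ih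
    refine ⟨(if y n then 2 ^ n else 0) ^^^ s, ?_⟩
    rw [← rpTog_tog, ← hs]
    funext i
    by_cases hy : y n
    · simp only [rpCut, rpTog, hy, if_true, Nat.testBit_two_pow]
      by_cases h1 : i < n
      · simp [h1, h1.ne', Nat.lt_succ_of_lt h1]
      · by_cases h2 : n = i
        · subst h2
          simp [hy]
        · have h3 : ¬ i < n + 1 := by omega
          simp [h1, h2, h3]
    · simp only [rpCut, rpTog, hy]
      by_cases h1 : i < n
      · simp [h1, Nat.lt_succ_of_lt h1]
      · by_cases h2 : n = i
        · subst h2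
          simp [hy]
        · have h3 : ¬ i < n + 1 := by omega
          simp [h1, h3]

/-- the zero-one law for sets invariant under finite modifications -/
theorem rp_zero_one {S : Set (ℕ → Bool)} (hS : MeasurableSet S)
    (h : ∀ s y, y ∈ S → rpTog s y ∈ S) : lam S = 0 ∨ lam S = 1 := by
  have h2 : ∀ s y, rpTog s y ∈ S → y ∈ S := by
    intro s y hy
    have := h s _ hy
    rwa [rpTog_tog, Nat.xor_self, rpTog_zero] at this
  refine ProbabilityTheory.measure_zero_or_one_of_measurableSet_limsup_atTop
    (s := fun n : ℕ => MeasurableSpace.comap (fun y : ℕ → Bool => y n) inferInstance)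
    (m0 := inferInstance) ?_ ?_ ?_
  · intro n
    exact (measurable_pi_apply n).comap_le
  · have := ProbabilityTheory.iIndepFun_infinitePi (P := fun _ : ℕ => coin)
      (X := fun (_ : ℕ) (b : Bool) => b) (fun _ => measurable_id)
    exact this
  · rw [Filter.limsup_eq_iInf_iSup_of_nat]
    rw [MeasurableSpace.measurableSet_iInf]
    intro n
    have e : S = rpCut n ⁻¹' S := by
      ext y
      obtain ⟨s, hs⟩ := rpCut_eq n y
      rw [Set.mem_preimage, hs]
      exact ⟨h s y, h2 s y⟩
    rw [e]
    have hm : @Measurable (ℕ → Bool) (ℕ → Bool)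
        (⨆ i, ⨆ (_ : i ≥ n), MeasurableSpace.comap (fun y : ℕ → Bool => y i) inferInstance)
        inferInstance (rpCut n) := by
      refine @measurable_pi_lambda (ℕ → Bool) ℕ (fun _ => Bool) (⨆ i, ⨆ (_ : i ≥ n),
        MeasurableSpace.comap (fun y : ℕ → Bool => y i) inferInstance) _ _ fun i => ?_
      by_cases hi : i < n
      · have : (fun y : ℕ → Bool => rpCut n y i) = fun _ => false := by
          funext y
          simp [rpCut, hi]
        rw [this]
        exact measurable_const
      · have : (fun y : ℕ → Bool => rpCut n y i) = fun y => y i := by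
          funext y
          simp [rpCut, hi]
        rw [this]
        refine Measurable.mono (comap_measurable (fun y : ℕ → Bool => y i)) ?_ le_rfl
        exact le_iSup₂_of_le i (not_lt.1 hi) le_rfl
    exact hm hS

theorem rand_pos {X : Type} [TopologicalSpace X] [PolishSpace X] [MeasurableSpace X] [BorelSpace X] [RT X]
    {C : Set (X × (ℕ → Bool))} (hC : MeasurableSet C) :
    EvS.{u} (fun N δ K => ∀ ξ < δ, ∀ x, In (K ξ) x → 0 < lam {y | (x, y) ∈ C} →
      ∃ y, In N y ∧ Rnd (K ξ) y ∧ (x, y) ∈ C) := by
  have := rp_polish_bool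
  have := rp_polish_prod (ℕ → Bool) (ℕ → Bool)
  have := rp_polish_prod X (ℕ → Bool)
  have := rp_polish_prod (ℕ → ℕ) (ℕ → Bool)
  -- the points all of whose finite modifications are outside `C`
  have hD : MeasurableSet {p : X × (ℕ → Bool) | ∀ s, (p.1, rpTog s p.2) ∉ C} := by
    have e : {p : X × (ℕ → Bool) | ∀ s, (p.1, rpTog s p.2) ∉ C} =
        ⋂ s, (fun p : X × (ℕ → Bool) => (p.1, rpTog s p.2)) ⁻¹' Cᶜ := by
      ext p
      simp
    rw [e]
    refine MeasurableSet.iInter fun s => ?_
    exact (measurable_fst.prodMk ((continuous_rpTog s).measurable.comp measurable_snd)) hC.compl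
  have hG : ∀ s, MeasurableSet {p : (ℕ → ℕ) × (ℕ → Bool) | rpTog s p.2 ∈ Nw p.1} := fun s =>
    (measurable_fst.prodMk ((continuous_rpTog s).measurable.comp measurable_snd)) meas_Nw
  have hT : ∀ s, ∀ᶠ K in ctmF.{u}, ∀ y, In K y → In K (rpTog s y) := fun s => by
    refine In_fun (f := rpTog s) ?_
    exact (isClosed_eq continuous_snd ((continuous_rpTog s).comp continuous_fst)).analyticSet
  refine (evS_of ((rnd_null hD.analyticSet).and ((ev_all hT).and
    (ev_all fun s => rnd_null (hG s).analyticSet)))).mono ?_
  rintro N δ K hS ⟨hN, hK⟩ ξ hξ x hx hpos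
  obtain ⟨y, hyN, hy⟩ := hS.rand ξ hξ
  obtain ⟨k1, -, k3⟩ := hK ξ hξ
  -- the measure of the section of `D`
  have h0 : lam {y | (x, y) ∈ {p : X × (ℕ → Bool) | ∀ s, (p.1, rpTog s p.2) ∉ C}} = 0 := by
    have hm : MeasurableSet {y | (x, y) ∈ {p : X × (ℕ → Bool) |
        ∀ s, (p.1, rpTog s p.2) ∉ C}} := measurable_prodMk_left hD
    have hinv : ∀ s y, y ∈ {y | (x, y) ∈ {p : X × (ℕ → Bool) |
        ∀ s, (p.1, rpTog s p.2) ∉ C}} → rpTog s y ∈ {y | (x, y) ∈ {p : X × (ℕ → Bool) |
        ∀ s, (p.1, rpTog s p.2) ∉ C}} := by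
      intro s y hy t
      have := hy (t ^^^ s)
      rwa [← rpTog_tog] at this
    rcases rp_zero_one hm hinv with h | h
    · exact h
    · exfalso
      have hCx : MeasurableSet {y | (x, y) ∈ C} := measurable_prodMk_left hC
      have h1 : {y | (x, y) ∈ {p : X × (ℕ → Bool) | ∀ s, (p.1, rpTog s p.2) ∉ C}} ⊆
          {y | (x, y) ∈ C}ᶜ := by
        intro y hy hyC
        have := hy 0
        rw [rpTog_zero] at this
        exact this hyC
      have h2 := measure_mono (μ := lam) h1
      rw [h, prob_compl_eq_one_sub hCx] at h2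
      have h3 : (1 : ENNReal) - lam {y | (x, y) ∈ C} < 1 :=
        ENNReal.sub_lt_self ENNReal.one_ne_top one_ne_zero hpos.ne'
      exact absurd (h2.trans_lt h3) (lt_irrefl _)
  have h1 := k1 x hx y hy h0
  have h2 : ∃ s, (x, rpTog s y) ∈ C := by
    by_contra hc
    push Not at hc
    exact h1 hc
  obtain ⟨s, hs⟩ := h2
  refine ⟨rpTog s y, hN.2.1 s y hyN, ?_, hs⟩
  intro w hw hwy
  refine k3 s w hw y hy ?_ hwy
  exact (lam_tog s (measurable_prodMk_left meas_Nw)).trans (lam_Nw w)

end Pool.Agent.H19.GP
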