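import Pool.Agent.H19.GP.Sig
import Pool.Agent.H19.GP.IndB
import Pool.Agent.H19.GP.PosB
import Pool.Agent.H19.GP.PosC
import Pool.Agent.H19.GP.Dom
import Pool.Agent.H19.GP.NullF
import Pool.Agent.H19.GP.Max
import Pool.Agent.H19.GP.RandPos

/-!
# Goldstern's principle for `Δ¹₂`: the claims

PROOFS.
* `claim1`: let `A x y`, `x ∈ Rl N`, `y` random over `K ξ`.  `wsig_of_sig`: `g ∈ Rl (K 0)`, `Wf g`, `((c, g), y, x, q) ∈ Wsig`.  Apply `cap` in `K ξ` to the closed set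
  `F = {((c, g), y, q) | ((c, g), y, lf q, rt q) ∈ Wsig}` and `(c, g)`: a null set `Nw w`, `w ∈ Rl (K ξ)`, is impossible as `y` (with `jn x q`) would be in it.  So `0 < lam (Bt F (c, g) τ)`, `τ ∈ Rl (K ξ)`.
  `A τ` has an `N`-null set of points (`τ ∈ Rl N`), so by `point_of_null` (for the closed set `{((c, g, τ), y) | y ∈ Bt F (c, g) τ}`) there is `y' ∈ N`, `y' ∈ Bt F (c, g) τ`, `¬ A τ y'`.  By `solve` for the closed relation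
  `{(((c, g), τ, y), q) | (∀ n, q n ≤ τ n) ∧ ((c, g), y, q) ∈ F}` there is `q ≤ τ` in `N`; `lf q ≤ τ`; `sig_of_wsig` and `IsC`: `A (lf q) y'`; monotonicity: `A τ y'`, contradiction.
* `claim2`: `Sys.reals` for `y` and `x`: `η < δ`, `ξ ≤ η`, `b2n y ∈ Rl (K η)`.  `sdom` for `η`, `x`: `z ≥ x` in `N`.  `¬ A z y`, so `wsig_of_sig` (for `c'`) gives `g ∈ Rl (K 0)`, `Wf g`, `((c', g), y, z, v) ∈ Wsig`, i.e.
  `(cR ((c', g), y), z, v) ∈ DW`.  `ucert_complete isClosed_DW` for `η`, `ζ = cR ((c', g), y) ∈ Rl (K η)` gives `m` and `g'`; `t = ini z m` (`dl_ini`).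
* `claim3`: `ucert_sound`: `z ≥ x`, `v` with `(cR ((c', g), y), z, v) ∈ DW`; by `solve` for the closed relation `{((ζ, x), (z, v)) | (∀ i, x i ≤ z i) ∧ (ζ, z, v) ∈ DW}` we may take `z, v` in `N`; `sig_of_wsig`, `IsC`: `¬ A z y`; monotonicity: `¬ A x y`.
-/

set_option autoImplicit false

universe u

namespace Pool.Agent.H19.GP

open Pool.Agent.H17.Omega Pool.Agent.H17.GP
open MeasureTheory Topology Filter

/-- `c` is a `Σ¹₂` code of `A` -/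
def IsC (R : Set (ℕ → ℕ)) (c : ℕ → ℕ) (A : (ℕ → ℕ) → (ℕ → Bool) → Prop) : Prop :=
  ∀ x ∈ R, ∀ y, b2n y ∈ R → (A x y ↔ ∃ z ∈ R, ∀ w ∈ R, Opn c x (b2n y) z w)

/-- `A` is monotone -/
def Mon (R : Set (ℕ → ℕ)) (A : (ℕ → ℕ) → (ℕ → Bool) → Prop) : Prop :=
  ∀ x ∈ R, ∀ x' ∈ R, (∀ n, x n ≤ x' n) → ∀ y, b2n y ∈ R → A x y → A x' y

/-- the closed relation of `Wsig` with one real parameter -/
def DW : Set ((ℕ → ℕ) × (ℕ → ℕ) × (ℕ → ℕ)) :=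
  {p | ∃ (c g : ℕ → ℕ) (y : ℕ → Bool), p.1 = cR ((c, g), y) ∧ ((c, g), y, p.2.1, p.2.2) ∈ Wsig}

theorem isClosed_DW : IsClosed DW := by
  have h1 : IsClosedEmbedding (fun p : (((ℕ → ℕ) × (ℕ → ℕ)) × (ℕ → Bool)) × (ℕ → ℕ) × (ℕ → ℕ) =>
      ((cR p.1, p.2) : (ℕ → ℕ) × (ℕ → ℕ) × (ℕ → ℕ))) := RT.emb.prodMap .id
  have h2 := h1.comp (Homeomorph.prodAssoc ((ℕ → ℕ) × (ℕ → ℕ)) (ℕ → Bool)
    ((ℕ → ℕ) × (ℕ → ℕ))).symm.isClosedEmbedding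
  have h3 := h2.isClosedMap Wsig isClosed_Wsig
  convert! h3 using 1
  ext p
  constructor
  · rintro ⟨c, g, y, h4, h5⟩
    refine ⟨((c, g), y, p.2.1, p.2.2), h5, ?_⟩
    show (cR ((c, g), y), (p.2.1, p.2.2)) = p
    rw [← h4]
  · rintro ⟨⟨⟨c, g⟩, y, x, q⟩, h4, rfl⟩
    exact ⟨c, g, y, rfl, h4⟩

instance polishC1 : PolishSpace (((ℕ → ℕ) × (ℕ → ℕ)) × (ℕ → ℕ)) := polish_prod _ _

instance polishC2 : PolishSpace ((((ℕ → ℕ) × (ℕ → ℕ)) × (ℕ → ℕ)) × (ℕ → Bool)) := polish_prod _ _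

instance polishC3 : PolishSpace (((((ℕ → ℕ) × (ℕ → ℕ)) × (ℕ → ℕ)) × (ℕ → Bool)) × (ℕ → ℕ)) := polish_prod _ _

instance polishC4 : PolishSpace (((ℕ → ℕ) × (ℕ → ℕ)) × ((ℕ → ℕ) × (ℕ → ℕ))) := polish_prod _ _

/-- the closed set for `cap` -/
def FW : Set (((ℕ → ℕ) × (ℕ → ℕ)) × (ℕ → Bool) × (ℕ → ℕ)) :=
  {p | (p.1, p.2.1, lf p.2.2, rt p.2.2) ∈ Wsig}

theorem isClosed_FW : IsClosed FW := by
  refine isClosed_Wsig.preimage (f := fun p : ((ℕ → ℕ) × (ℕ → ℕ)) × (ℕ → Bool) × (ℕ → ℕ) =>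
    (p.1, p.2.1, lf p.2.2, rt p.2.2)) ?_
  exact continuous_fst.prodMk ((continuous_fst.comp continuous_snd).prodMk
    ((continuous_lf.comp (continuous_snd.comp continuous_snd)).prodMk
      (continuous_rt.comp (continuous_snd.comp continuous_snd))))

theorem mem_DW {c g : ℕ → ℕ} {y : ℕ → Bool} {z v : ℕ → ℕ} :
    (cR ((c, g), y), z, v) ∈ DW ↔ ((c, g), y, z, v) ∈ Wsig := by
  constructor
  · rintro ⟨c', g', y', h1, h2⟩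
    have := cR_inj h1
    simp only [Prod.mk.injEq] at this
    obtain ⟨⟨rfl, rfl⟩, rfl⟩ := this
    exact h2
  · intro h
    exact ⟨c, g, y, rfl, h⟩

theorem claim1 : EvS.{u} (fun N δ K => ∀ A c, IsC (Rl N) c A → (∀ x ∈ Rl N, NullL (Rl N) (A x)) → Mon (Rl N) A →
    ∀ ξ < δ, c ∈ Rl (K ξ) → ∀ y, In N y → Rnd (K ξ) y → ∀ x ∈ Rl N, ¬ A x y) := by
  have hS : IsClosed {p : ((((ℕ → ℕ) × (ℕ → ℕ)) × (ℕ → ℕ)) × (ℕ → Bool)) × (ℕ → ℕ) |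
      (∀ n, p.2 n ≤ p.1.1.2 n) ∧ (p.1.1.1, p.1.2, p.2) ∈ FW} := by
    refine IsClosed.inter ?_ ?_
    · have e : {p : ((((ℕ → ℕ) × (ℕ → ℕ)) × (ℕ → ℕ)) × (ℕ → Bool)) × (ℕ → ℕ) | ∀ n, p.2 n ≤ p.1.1.2 n} =
          ⋂ n, {p | p.2 n ≤ p.1.1.2 n} := by
        ext p
        simp
      show IsClosed {p : ((((ℕ → ℕ) × (ℕ → ℕ)) × (ℕ → ℕ)) × (ℕ → Bool)) × (ℕ → ℕ) | ∀ n, p.2 n ≤ p.1.1.2 n}
      rw [e]
      refine isClosed_iInter fun n => isClosed_le ?_ ?_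
      · exact (continuous_apply n).comp continuous_snd
      · exact (continuous_apply n).comp (continuous_snd.comp (continuous_fst.comp continuous_fst))
    · refine isClosed_FW.preimage
        (f := fun p : ((((ℕ → ℕ) × (ℕ → ℕ)) × (ℕ → ℕ)) × (ℕ → Bool)) × (ℕ → ℕ) => (p.1.1.1, p.1.2, p.2)) ?_
      exact (continuous_fst.comp (continuous_fst.comp continuous_fst)).prodMk
        ((continuous_snd.comp continuous_fst).prodMk continuous_snd)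
  refine ((wsig_of_sig.and (evS_of (cap isClosed_FW))).and
    (((evS_of (point_of_null (isClosed_Bt isClosed_FW).analyticSet)).and (evS_of (solve hS.analyticSet))).and
      (evS_of sig_of_wsig))).mono ?_
  rintro N δ K hSys ⟨⟨k1, -, k2⟩, ⟨⟨k3, -⟩, ⟨k4, -⟩⟩, k5, -⟩ A c hc hnull hmon ξ hξ hcK y hy hrnd x hx hA
  have hN := hSys.ctmN
  have hsub := hSys.sub ξ hξ
  have hcN : c ∈ Rl N := Rl_mono hsub hcK
  obtain ⟨g, hg, hWg, q, hq⟩ := k1 c hcN x hx y hy ((hc x hx y hy).1 hA)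
  have hgK : g ∈ Rl (K ξ) := Rl_mono (hSys.mono 0 ξ zero_le hξ) hg
  have hgN : g ∈ Rl N := Rl_mono hsub hgK
  rcases k2 ξ hξ (c, g) ((In_prod (hSys.ctmK ξ hξ)).2 ⟨hcK, hgK⟩) with ⟨w, hw, h⟩ | ⟨τ, hτ, h⟩
  · refine hrnd w hw (h y (jn x q) ?_)
    show ((c, g), y, lf (jn x q), rt (jn x q)) ∈ Wsig
    rw [lf_jn, rt_jn]
    exact hq
  · have hτN : τ ∈ Rl N := Rl_mono hsub hτ
    have hIn : In N (((c, g), τ) : ((ℕ → ℕ) × (ℕ → ℕ)) × (ℕ → ℕ)) :=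
      (In_prod hN).2 ⟨(In_prod hN).2 ⟨hcN, hgN⟩, hτN⟩
    obtain ⟨y', hy', ⟨q', hq'⟩, hA'⟩ := k3 ((c, g), τ) hIn (A τ) (hnull τ hτN) h
    obtain ⟨q₁, hq₁, h1, h2⟩ := k4 (((c, g), τ), y') ((In_prod hN).2 ⟨hIn, hy'⟩) q' hq'
    have h3 : A (lf q₁) y' :=
      (hc (lf q₁) (lf_mem hN hq₁) y' hy').2 (k5 c hcN g hgN hWg (lf q₁) (lf_mem hN hq₁) y' hy' ⟨rt q₁, h2⟩)
    exact hA' (hmon (lf q₁) (lf_mem hN hq₁) τ hτN (fun n => (Nat.unpair_left_le _).trans (h1 n)) y' hy' h3)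

theorem claim2 : EvS.{u} (fun N δ K => ∀ (A : (ℕ → ℕ) → (ℕ → Bool) → Prop) (c' : ℕ → ℕ),
    IsC (Rl N) c' (fun x y => ¬ A x y) → ∀ ξ < δ, c' ∈ Rl (K ξ) → ∀ y, In N y → (∀ x ∈ Rl N, ¬ A x y) →
    ∀ x ∈ Rl N, ∃ t : ℕ, (∀ i < (dl t).length, x i ≤ (dl t).getD i 0) ∧ ∃ g ∈ Rl (K 0), Wf g ∧
      ∃ g' ∈ Rl (K 0), Wf g' ∧ Ucert DW (cR ((c', g), y)) (dl t) g') := by
  refine ((wsig_of_sig.and sdom).and (ucert_complete isClosed_DW)).mono ?_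
  rintro N δ K hSys ⟨⟨k1, k2⟩, k3⟩ A c' hc' ξ hξ hcK y hy hno x hx
  obtain ⟨η₁, hη₁, hyη⟩ := hSys.reals (b2n y) hy
  have hη : max ξ η₁ < δ := max_lt hξ hη₁
  have hK := hSys.ctmK _ hη
  obtain ⟨z, hz, hxz, hdom⟩ := k2 (max ξ η₁) hη x hx
  obtain ⟨g, hg, hWg, v, hv⟩ := k1 c' (Rl_mono (hSys.sub ξ hξ) hcK) z hz y hy ((hc' z hz y hy).1 (hno z hz))
  have hζ : cR ((c', g), y) ∈ Rl (K (max ξ η₁)) := by
    refine (In_prod hK).2 ⟨(In_prod hK).2 ⟨?_, ?_⟩, ?_⟩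
    · exact Rl_mono (hSys.mono ξ _ (le_max_left _ _) hη) hcK
    · exact Rl_mono (hSys.mono 0 _ zero_le hη) hg
    · exact Rl_mono (hSys.mono η₁ _ (le_max_right _ _) hη) hyη
  obtain ⟨m, g', hg', hWg', hU⟩ := k3 (max ξ η₁) hη _ hζ z hz hdom v (mem_DW.2 hv)
  refine ⟨ini z m, ?_, g, hg, hWg, g', hg', hWg', ?_⟩
  · intro i hi
    rw [dl_ini, List.length_map, List.length_range] at hi
    rw [dl_ini, getD_range_map hi]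
    exact hxz i
  · rw [dl_ini]
    exact hU

theorem claim3 : ∀ᶠ N in ctmF.{u}, ∀ (A : (ℕ → ℕ) → (ℕ → Bool) → Prop) (c' : ℕ → ℕ), c' ∈ Rl N →
    IsC (Rl N) c' (fun x y => ¬ A x y) → Mon (Rl N) A → ∀ g ∈ Rl N, Wf g → ∀ g' ∈ Rl N, Wf g' →
    ∀ (t : ℕ) (y : ℕ → Bool), In N y → Ucert DW (cR ((c', g), y)) (dl t) g' →
    ∀ x ∈ Rl N, (∀ i < (dl t).length, x i ≤ (dl t).getD i 0) → ¬ A x y := by
  have hS : IsClosed {p : ((ℕ → ℕ) × (ℕ → ℕ)) × ((ℕ → ℕ) × (ℕ → ℕ)) |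
      (∀ i, p.1.2 i ≤ p.2.1 i) ∧ (p.1.1, p.2.1, p.2.2) ∈ DW} := by
    refine IsClosed.inter ?_ ?_
    · have e : {p : ((ℕ → ℕ) × (ℕ → ℕ)) × ((ℕ → ℕ) × (ℕ → ℕ)) | ∀ i, p.1.2 i ≤ p.2.1 i} =
          ⋂ i, {p | p.1.2 i ≤ p.2.1 i} := by
        ext p
        simp
      show IsClosed {p : ((ℕ → ℕ) × (ℕ → ℕ)) × ((ℕ → ℕ) × (ℕ → ℕ)) | ∀ i, p.1.2 i ≤ p.2.1 i}
      rw [e]
      refine isClosed_iInter fun i => isClosed_le ?_ ?_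
      · exact (continuous_apply i).comp (continuous_snd.comp continuous_fst)
      · exact (continuous_apply i).comp (continuous_fst.comp continuous_snd)
    · refine isClosed_DW.preimage
        (f := fun p : ((ℕ → ℕ) × (ℕ → ℕ)) × ((ℕ → ℕ) × (ℕ → ℕ)) => (p.1.1, p.2.1, p.2.2)) ?_
      exact (continuous_fst.comp continuous_fst).prodMk continuous_snd
  filter_upwards [ev_ctm, solve hS.analyticSet, sig_of_wsig]
    with N hN k1 k2 A c' hc' hC hM g hg hWg g' hg' hWg' t y hy hU x hx hxt hA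
  obtain ⟨z, v, hxz, hD⟩ := ucert_sound isClosed_DW hU hWg' hxt
  have hζ : In N ((cR ((c', g), y), x) : (ℕ → ℕ) × (ℕ → ℕ)) :=
    (In_prod hN).2 ⟨(In_prod hN).2 ⟨(In_prod hN).2 ⟨hc', hg⟩, hy⟩, hx⟩
  obtain ⟨⟨z', v'⟩, hIn, hxz', hD'⟩ := k1 _ hζ (z, v) ⟨hxz, hD⟩
  have hz' : z' ∈ Rl N := ((In_prod hN).1 hIn).1
  have h1 := (hC z' hz' y hy).2 (k2 c' hc' g hg hWg z' hz' y hy ⟨v', mem_DW.1 hD'⟩)
  exact h1 (hM x hx z' hz' hxz' y hy hA)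

end Pool.Agent.H19.GP
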