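import Pool.Agent.H19.GP.Clm

/-!
# Goldstern's principle for `Δ¹₂`

`FU`: a closed set with `Ucert DW (cR ((c, g), y)) (dl t) g' ↔ ∃ q, ((c, g, t, g'), y, q) ∈ FU`.
`BU = {((c, t, u), y) | y ∈ Bt FU (c, row 1 u, t, row 2 u) (row 0 u)}`.
-/

set_option autoImplicit false
set_option synthInstance.maxSize 4000

universe u

namespace Pool.Agent.H19.GP

open Pool.Agent.H17.Omega Pool.Agent.H17.GP
open MeasureTheory Topology Filter

/-- parameters of certificates -/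
abbrev PU : Type := (ℕ → ℕ) × (ℕ → ℕ) × ℕ × (ℕ → ℕ)

theorem continuous_cR {X : Type} [TopologicalSpace X] [RT X] : Continuous (cR : X → (ℕ → ℕ)) :=
  RT.emb.continuous

theorem exists_FU : ∃ F : Set (PU × (ℕ → Bool) × (ℕ → ℕ)), IsClosed F ∧
    ∀ (c g : ℕ → ℕ) (t : ℕ) (g' : ℕ → ℕ) (y : ℕ → Bool),
      Ucert DW (cR ((c, g), y)) (dl t) g' ↔ ∃ q, ((c, g, t, g'), y, q) ∈ F := by
  obtain ⟨F, hF, hFS⟩ := AnalyticSet.exists_closed (an_ucert (D := DW))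
  have hcont : Continuous (fun p : PU × (ℕ → Bool) × (ℕ → ℕ) =>
      (((cR ((p.1.1, p.1.2.1), p.2.1) : ℕ → ℕ), p.1.2.2.1, p.1.2.2.2), p.2.2)) := by
    have h1 : Continuous (fun p : PU × (ℕ → Bool) × (ℕ → ℕ) => (((p.1.1, p.1.2.1), p.2.1) :
        ((ℕ → ℕ) × (ℕ → ℕ)) × (ℕ → Bool))) := by fun_prop
    exact ((continuous_cR.comp h1).prodMk (by fun_prop)).prodMk (by fun_prop)
  refine ⟨_, hF.preimage hcont, fun c g t g' y => ?_⟩
  rw [show Ucert DW (cR ((c, g), y)) (dl t) g' ↔ ((cR ((c, g), y), t, g') : (ℕ → ℕ) × ℕ × (ℕ → ℕ)) ∈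
    {p : (ℕ → ℕ) × ℕ × (ℕ → ℕ) | Ucert DW p.1 (dl p.2.1) p.2.2} from Iff.rfl, hFS]
  rfl

/-- three reals as one -/
def tri (p : (ℕ → ℕ) × (ℕ → ℕ) × (ℕ → ℕ)) : ℕ → ℕ :=
  rows (fun n => if n = 0 then p.1 else if n = 1 then p.2.1 else p.2.2)

theorem continuous_tri : Continuous tri := by
  refine continuous_pi fun m => ?_
  show Continuous (fun p : (ℕ → ℕ) × (ℕ → ℕ) × (ℕ → ℕ) =>
    (if m.unpair.1 = 0 then p.1 else if m.unpair.1 = 1 then p.2.1 else p.2.2) m.unpair.2)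
  split_ifs <;> fun_prop

theorem row0_tri (a b c : ℕ → ℕ) : row 0 (tri (a, b, c)) = a := by
  unfold tri; rw [row_rows]; simp

theorem row1_tri (a b c : ℕ → ℕ) : row 1 (tri (a, b, c)) = b := by
  unfold tri; rw [row_rows]; simp

theorem row2_tri (a b c : ℕ → ℕ) : row 2 (tri (a, b, c)) = c := by
  unfold tri; rw [row_rows]; simp

theorem analytic_not_wf : AnalyticSet {g : ℕ → ℕ | ¬ Wf g} := by
  have e : {g : ℕ → ℕ | ¬ Wf g} = Prod.fst '' {p : (ℕ → ℕ) × (ℕ → ℕ) | ∀ n, p.1 (Nat.pair (p.2 (n + 1)) (p.2 n)) = 0} := by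
    ext g
    simp only [Set.mem_setOf_eq, Set.mem_image, Prod.exists, exists_and_right, exists_eq_right]
    unfold Wf
    rw [wellFounded_iff_isEmpty_descending_chain]
    constructor
    · intro h
      rw [not_isEmpty_iff] at h
      obtain ⟨f, hf⟩ := h
      exact ⟨f, fun n => hf n⟩
    · rintro ⟨f, hf⟩ h
      exact h.false ⟨f, fun n => hf n⟩
  rw [e]
  have hcl : IsClosed {p : (ℕ → ℕ) × (ℕ → ℕ) | ∀ n, p.1 (Nat.pair (p.2 (n + 1)) (p.2 n)) = 0} := by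
    rw [Set.setOf_forall]
    refine isClosed_iInter fun n => ?_
    have hc : Continuous (fun p : (ℕ → ℕ) × (ℕ → ℕ) => p.1 (Nat.pair (p.2 (n + 1)) (p.2 n))) := by
      have h1 : Continuous (fun p : (ℕ → ℕ) × ℕ => p.1 p.2) := by
        rw [continuous_prod_of_discrete_right]
        intro b
        exact continuous_apply b
      have h2 : Continuous (fun p : (ℕ → ℕ) × (ℕ → ℕ) => (p.1, Nat.pair (p.2 (n + 1)) (p.2 n))) := by
        refine continuous_fst.prodMk ?_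
        show Continuous ((fun k : ℕ × ℕ => Nat.pair k.1 k.2) ∘ fun p : (ℕ → ℕ) × (ℕ → ℕ) => (p.2 (n + 1), p.2 n))
        exact (continuous_of_discreteTopology (f := fun k : ℕ × ℕ => Nat.pair k.1 k.2)).comp (by fun_prop)
      exact h1.comp h2
    exact isClosed_singleton.preimage hc
  exact hcl.analyticSet.image_of_continuous continuous_fst

/-- validity of the reals that code members of the maximal family -/
def VU : Set (ℕ → ℕ) := {u | Wf (row 1 u) ∧ Wf (row 2 u)}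

theorem polish_pool : PolishSpace (ℕ → Bool) := rp_polish_bool

theorem analytic_union {X : Type} [TopologicalSpace X] {S S' : Set X} (h : AnalyticSet S) (h' : AnalyticSet S') :
    AnalyticSet (S ∪ S') := by
  rw [Set.union_eq_iUnion]
  exact AnalyticSet.iUnion fun b => by cases b <;> assumption

theorem analytic_VUc : AnalyticSet VUᶜ := by
  have e : VUᶜ = (row 1) ⁻¹' {g | ¬ Wf g} ∪ (row 2) ⁻¹' {g | ¬ Wf g} := by
    ext u
    simp only [VU, Set.mem_compl_iff, Set.mem_setOf_eq, Set.mem_union, Set.mem_preimage]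
    tauto
  rw [e]
  exact analytic_union (analytic_not_wf.preimage (continuous_row 1)) (analytic_not_wf.preimage (continuous_row 2))

/-- the relation of the maximal family -/
def BU (F : Set (PU × (ℕ → Bool) × (ℕ → ℕ))) : Set (((ℕ → ℕ) × ℕ × (ℕ → ℕ)) × (ℕ → Bool)) :=
  {p | p.2 ∈ Bt F (p.1.1, row 1 p.1.2.2, p.1.2.1, row 2 p.1.2.2) (row 0 p.1.2.2)}

theorem isClosed_BU {F : Set (PU × (ℕ → Bool) × (ℕ → ℕ))} (hF : IsClosed F) : IsClosed (BU F) := by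
  have h := isClosed_Bt hF
  have hc : Continuous (fun p : ((ℕ → ℕ) × ℕ × (ℕ → ℕ)) × (ℕ → Bool) =>
      ((((p.1.1, row 1 p.1.2.2, p.1.2.1, row 2 p.1.2.2) : PU), row 0 p.1.2.2), p.2)) := by
    have h0 := continuous_row 0
    have h1 := continuous_row 1
    have h2 := continuous_row 2
    fun_prop
  exact h.preimage hc

/-- the exceptional set: `x` is not captured by the maximal family coded by `υ` -/
def GZ (F : Set (PU × (ℕ → Bool) × (ℕ → ℕ))) : Set ((((ℕ → ℕ) × (ℕ → ℕ)) × (ℕ → Bool)) × (ℕ → ℕ)) :=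
  {p | ∀ t : ℕ, (∀ i < (dl t).length, p.2 i ≤ (dl t).getD i 0) →
    ∀ i : ℕ, ((p.1.1.1, t, row i (row t p.1.1.2)), p.1.2) ∉ BU F}

theorem meas_GZ {F : Set (PU × (ℕ → Bool) × (ℕ → ℕ))} (hF : IsClosed F) : MeasurableSet (GZ F) := by
  have e : GZ F = ⋂ t : ℕ, ({p | ∀ i < (dl t).length, p.2 i ≤ (dl t).getD i 0}ᶜ ∪
      ⋂ i : ℕ, (fun p => ((p.1.1.1, t, row i (row t p.1.1.2)), p.1.2)) ⁻¹' (BU F)ᶜ) := by
    ext p
    simp only [GZ, Set.mem_setOf_eq, Set.mem_iInter, Set.mem_union, Set.mem_compl_iff, Set.mem_preimage]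
    exact forall_congr' fun t => imp_iff_not_or
  rw [e]
  refine MeasurableSet.iInter fun t => (MeasurableSet.union (MeasurableSet.compl ?_) ?_)
  · have e2 : {p : (((ℕ → ℕ) × (ℕ → ℕ)) × (ℕ → Bool)) × (ℕ → ℕ) |
        ∀ i < (dl t).length, p.2 i ≤ (dl t).getD i 0} =
        ⋂ i : ℕ, ⋂ _ : i < (dl t).length, {p | p.2 i ≤ (dl t).getD i 0} := by
      ext p; simp
    rw [e2]
    refine MeasurableSet.iInter fun i => MeasurableSet.iInter fun _ => ?_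
    exact measurableSet_le ((measurable_pi_apply i).comp measurable_snd) measurable_const
  · refine MeasurableSet.iInter fun i => ?_
    have hc : Continuous (fun p : (((ℕ → ℕ) × (ℕ → ℕ)) × (ℕ → Bool)) × (ℕ → ℕ) =>
        ((p.1.1.1, t, row i (row t p.1.1.2)), p.1.2)) := by
      have h0 := continuous_row i
      have h1 := continuous_row t
      fun_prop
    exact hc.measurable (isClosed_BU hF).measurableSet.compl

/-- the set of the last step: outside the maximal family at `t` -/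
def GY (F : Set (PU × (ℕ → Bool) × (ℕ → ℕ))) : Set ((PU × (ℕ → ℕ)) × (ℕ → Bool)) :=
  {p | ∀ i : ℕ, ((p.1.1.1, p.1.1.2.2.1, row i (row p.1.1.2.2.1 p.1.2)), p.2) ∉ BU F}

theorem meas_GY {F : Set (PU × (ℕ → Bool) × (ℕ → ℕ))} (hF : IsClosed F) : MeasurableSet (GY F) := by
  have e : GY F = ⋂ i : ℕ, ⋂ t : ℕ, ({p | p.1.1.2.2.1 = t}ᶜ ∪
      (fun p => ((p.1.1.1, t, row i (row t p.1.2)), p.2)) ⁻¹' (BU F)ᶜ) := by
    ext p
    simp only [GY, Set.mem_setOf_eq, Set.mem_iInter, Set.mem_union, Set.mem_compl_iff, Set.mem_preimage]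
    constructor
    · intro h i t
      by_cases ht : p.1.1.2.2.1 = t
      · right; rw [← ht]; exact h i
      · exact Or.inl ht
    · intro h i
      rcases h i p.1.1.2.2.1 with h | h
      · exact (h rfl).elim
      · exact h
  rw [e]
  refine MeasurableSet.iInter fun i => MeasurableSet.iInter fun t => (MeasurableSet.union (MeasurableSet.compl ?_) ?_)
  · have hc : Continuous (fun p : (PU × (ℕ → ℕ)) × (ℕ → Bool) => p.1.1.2.2.1) := by fun_prop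
    exact hc.measurable (measurableSet_singleton t)
  · have hc : Continuous (fun p : (PU × (ℕ → ℕ)) × (ℕ → Bool) => ((p.1.1.1, t, row i (row t p.1.2)), p.2)) := by
      have h0 := continuous_row i
      have h1 := continuous_row t
      fun_prop
    exact hc.measurable (isClosed_BU hF).measurableSet.compl

theorem row_row_cR (U : ℕ → ℕ → (ℕ → ℕ)) (t i : ℕ) : row i (row t (cR U)) = U t i := by
  show row i (row t (rows (fun n => rows (fun k => U n k)))) = U t i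
  rw [row_rows, row_rows]

theorem tri_spec_V {g g' τ : ℕ → ℕ} (hg : Wf g) (hg' : Wf g') : tri (τ, g, g') ∈ VU := by
  constructor
  · rw [row1_tri]; exact hg
  · rw [row2_tri]; exact hg'

theorem wf_const_one : Wf (fun _ => 1) := by
  refine ⟨fun a => ⟨a, fun b hb => ?_⟩⟩
  exact (one_ne_zero hb).elim

theorem gp_delta : EvS.{u} (fun N δ K => GPDelL (Rl N)) := by
  have := polish_pool
  obtain ⟨FU, hFU, hFU'⟩ := exists_FU
  -- the analytic set of the exceptional points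
  have hGZ : AnalyticSet (Prod.fst '' GZ FU) :=
    (meas_GZ hFU).analyticSet.image_of_continuous continuous_fst
  obtain ⟨FZ0, hFZ0, hFZ0'⟩ := AnalyticSet.exists_closed hGZ
  let FZ : Set (((ℕ → ℕ) × (ℕ → ℕ)) × (ℕ → Bool) × (ℕ → ℕ)) := {p | ((p.1, p.2.1), p.2.2) ∈ FZ0}
  have hFZ : IsClosed FZ := hFZ0.preimage (f := fun p : ((ℕ → ℕ) × (ℕ → ℕ)) × (ℕ → Bool) × (ℕ → ℕ) =>
    ((p.1, p.2.1), p.2.2)) (by fun_prop)
  have hFZ' : ∀ a y, (∃ q, (a, y, q) ∈ FZ) ↔ ∃ x, ((a, y), x) ∈ GZ FU := by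
    intro a y
    rw [show (∃ q, (a, y, q) ∈ FZ) ↔ ∃ q, ((a, y), q) ∈ FZ0 from Iff.rfl, ← hFZ0']
    constructor
    · rintro ⟨⟨p, x⟩, hp, hpa⟩
      simp only at hpa
      subst hpa
      exact ⟨x, hp⟩
    · rintro ⟨x, hx⟩
      exact ⟨((a, y), x), hx, rfl⟩
  -- the closed relation for the last step
  let FY : Set ((PU × (ℕ → ℕ)) × (ℕ → Bool) × (ℕ → ℕ)) := {p | (p.1.1, p.2.1, p.2.2) ∈ FU}
  have hFY : IsClosed FY := hFU.preimage (f := fun p : (PU × (ℕ → ℕ)) × (ℕ → Bool) × (ℕ → ℕ) =>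
    (p.1.1, p.2.1, p.2.2)) (by fun_prop)
  have hclC : IsClosed {p : (((ℕ → ℕ) × (ℕ → ℕ)) × (ℕ → ℕ)) × (ℕ → Bool) | p.2 ∈ Bt FZ p.1.1 p.1.2} := isClosed_Bt hFZ
  have hu0 : tri ((fun _ => 1), (fun _ => 1), (fun _ => 1)) ∈ VU := tri_spec_V wf_const_one wf_const_one
  have E1 := (claim1.{u}.and claim2.{u}).and (evS_of claim3.{u})
  have E2 := (E1.and (evS_of nullL_of_nw.{u})).and (rand_pos.{u} hclC.measurableSet)
  have E3 := (E2.and (evS_of (cap.{u} hFZ))).and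
    (evS_of (exists_max.{u} analytic_VUc hu0 (isClosed_BU hFU).measurableSet))
  have E4 := (E3.and (evS_of (cap2.{u} hFY (meas_GY hFU).analyticSet))).and
    (evS_of (solve.{u} (meas_GZ hFU).analyticSet))
  have E5 := E4.and (evS_of (In_fun.{u} (f := tri)
    (isClosed_eq continuous_snd (continuous_tri.comp continuous_fst)).analyticSet))
  refine E5.mono fun N δ K hS h => ?_
  obtain ⟨⟨⟨⟨⟨⟨⟨⟨⟨h1, h2⟩, h3⟩, hnull⟩, hrand⟩, hcap⟩, hmax⟩, hcap2⟩, hsol⟩, htri⟩ := h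
  intro A ⟨c, hcN, hcA⟩ ⟨c', hcN', hcA'⟩ hsec hmon
  have hIsC : IsC (Rl N) c A := hcA
  have hIsC' : IsC (Rl N) c' (fun x y => ¬ A x y) := hcA'
  have hMon : Mon (Rl N) A := hmon
  -- a stage that contains the codes
  obtain ⟨ξ, hξ, hcξ, hcξ'⟩ : ∃ ξ < δ, c ∈ Rl (K ξ) ∧ c' ∈ Rl (K ξ) := by
    obtain ⟨ξ1, hξ1, hc1⟩ := hS.reals c hcN
    obtain ⟨ξ2, hξ2, hc2⟩ := hS.reals c' hcN'
    rcases le_total ξ1 ξ2 with hle | hle
    · exact ⟨ξ2, hξ2, Rl_mono (hS.mono _ _ hle hξ2) hc1, hc2⟩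
    · exact ⟨ξ1, hξ1, hc1, Rl_mono (hS.mono _ _ hle hξ1) hc2⟩
  have hKN : Rl (K ξ) ⊆ Rl N := Rl_mono (hS.sub ξ hξ)
  have hK0 : Rl (K 0) ⊆ Rl (K ξ) := Rl_mono (hS.mono 0 ξ (zero_le) hξ)
  have hctm : CTM (K ξ) := hS.ctmK ξ hξ
  -- the maximal family
  obtain ⟨U, hU, hUV, hUmax⟩ := hmax.2 ξ hξ c' hcξ'
  have hυ : (cR U : ℕ → ℕ) ∈ Rl (K ξ) := hU
  have hUK : ∀ t i, U t i ∈ Rl (K ξ) := fun t i => (hU.app hctm t).app hctm i
  have hpar : In (K ξ) ((c', cR U) : (ℕ → ℕ) × (ℕ → ℕ)) := (In_prod hctm).2 ⟨hcξ', hυ⟩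
  rcases hcap.2 ξ hξ (c', cR U) hpar with ⟨w, hw, hwZ⟩ | ⟨τ, hτ, hpos⟩
  · -- a null cover in the model
    refine NullL.mono (hnull.1 w (hKN hw)) ?_
    rintro y hy ⟨x, hx, hAxy⟩
    have hz : ((((c', cR U) : (ℕ → ℕ) × (ℕ → ℕ)), y), x) ∈ GZ FU := by
      intro t ht i hmem
      rw [row_row_cR] at hmem
      obtain ⟨q, -, hq⟩ := hmem
      have huc := (hFU' c' (row 1 (U t i)) t (row 2 (U t i)) y).2 ⟨q, hq⟩
      exact h3.1 A c' hcN' hIsC' hMon _ (hKN (hctm.row_mem (hUK t i) 1)) (hUV t i).1 _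
        (hKN (hctm.row_mem (hUK t i) 2)) (hUV t i).2 t y hy huc x hx ht hAxy
    obtain ⟨q, hq⟩ := (hFZ' _ _).2 ⟨x, hz⟩
    exact hwZ y q hq
  · -- a random point
    exfalso
    have hpar2 : In (K ξ) ((((c', cR U) : (ℕ → ℕ) × (ℕ → ℕ)), τ) : ((ℕ → ℕ) × (ℕ → ℕ)) × (ℕ → ℕ)) :=
      (In_prod hctm).2 ⟨hpar, hτ⟩
    obtain ⟨y, hyN, hyR, q, hqτ, hq⟩ := hrand ξ hξ _ hpar2 hpos
    obtain ⟨x₀, hx₀⟩ := (hFZ' _ _).1 ⟨q, hq⟩
    have hparN : In N ((((c', cR U) : (ℕ → ℕ) × (ℕ → ℕ)), y) : ((ℕ → ℕ) × (ℕ → ℕ)) × (ℕ → Bool)) :=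
      (In_prod hS.ctmN).2 ⟨hpar.mono (hS.sub ξ hξ), hyN⟩
    obtain ⟨x, hxN, hx⟩ := hsol.1 _ hparN x₀ hx₀
    have hnot : ∀ x ∈ Rl N, ¬ A x y := h1 A c hIsC hsec hMon ξ hξ hcξ y hyN hyR
    obtain ⟨t, ht, g, hg, hgw, g', hg', hgw', huc⟩ := h2 A c' hIsC' ξ hξ hcξ' y hyN hnot x hxN
    obtain ⟨qU, hqU⟩ := (hFU' c' g t g' y).1 huc
    have hpar3 : In (K ξ) ((((c', g, t, g') : PU), cR U) : PU × (ℕ → ℕ)) :=
      (In_prod hctm).2 ⟨(In_prod hctm).2 ⟨hcξ', (In_prod hctm).2 ⟨hK0 hg, (In_prod hctm).2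
        ⟨In_nat hctm t, hK0 hg'⟩⟩⟩, hυ⟩
    have hyG : ((((c', g, t, g') : PU), cR U), y) ∈ GY FU := fun i => hx t ht i
    rcases hcap2.2 ξ hξ _ hpar3 with ⟨w, hw, hwY⟩ | ⟨τ', hτ', hpos'⟩
    · exact hyR w hw (hwY y qU hqU hyG)
    · have hu : tri (τ', g, g') ∈ Rl (K ξ) := htri.2 ξ hξ (τ', g, g')
        ((In_prod hctm).2 ⟨hτ', (In_prod hctm).2 ⟨hK0 hg, hK0 hg'⟩⟩)
      have h0 := hUmax t _ hu (tri_spec_V hgw hgw')
      refine absurd h0 (ne_of_gt (hpos'.trans_le (measure_mono ?_)))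
      rintro z ⟨hz1, hz2⟩
      refine ⟨?_, ?_⟩
      · show z ∈ Bt FU (c', row 1 (tri (τ', g, g')), t, row 2 (tri (τ', g, g'))) (row 0 (tri (τ', g, g')))
        rw [row0_tri, row1_tri, row2_tri]
        exact hz1
      · rw [Set.mem_iUnion]
        rintro ⟨i, hi⟩
        have := hz2 i
        rw [row_row_cR] at this
        exact this hi

end Pool.Agent.H19.GP
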