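import Pool.Agent.H19.GP.Pos
import Pool.Agent.H17.GP.IndA

/-!
# Goldstern's principle: the inductive definition inside a model

PROOF of `ind`.  A certificate is a real `C`; `Cs C = PG (row 0 C)` (a set of pairs of lists), `Cl C i j ↔ rel (row 1 C) i j`, `Cf C p = row (pc p) (row 2 C)` (strategies).  It is good for `ζ` if
`Wf (row 1 C)` and for all `p ∈ Cs C ∩ Pos D ζ`: `Avoid (Cf C p) {m ∈ Pos D ζ | m ∉ Cs C ∨ ¬ rel (row 1 C) (pc m) (pc p)} p.1 p.2`.
The relation `{(ζ, n, C) | C good for ζ, n = pc p for some p ∈ Cs C ∩ Pos D ζ}` is coanalytic (`Wf` is coanalytic, the rest Borel: for fixed lists all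
conditions are locally constant, except the countable quantifiers).
`cchoice`: for `ζ ∈ Rl K` there are `E ∈ Rl K` and `U : ℕ → ℕ → ℕ` in `K` with `E n = 0 ↔` some good `C ∈ Rl K` has `n` in it, and then `U n` is such a `C`.
For `p` with `E (pc p) = 0` let `ix p` be the least `n` with `E n = 0` and `p ∈ Cs (U n)` (exists: `n = pc p`).  Define `G` by `PG G = Pos D ζ ∩ {p | E (pc p) ≠ 0}` (`G n = 1` for numbers `n` that are
not in it), `F (pc p) = Cf (U (ix p)) p`, and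
`lt m p ↔ m, p ∈ Pos D ζ, E (pc m) = 0, E (pc p) = 0 ∧ (ix m < ix p ∨ (ix m = ix p ∧ rel (row 1 (U (ix p))) (pc m) (pc p)))`: well-founded (lexicographic).
`G` and `F` are in `K` by `In_fun` (Borel functions of `(ζ, E, U)`).
(2): let `p ∈ Pos D ζ`, `p ∉ PG G`, so `E (pc p) = 0`, `C = U (ix p)` good, `p ∈ Cs C`.  Let `m ∈ Pos D ζ`, `m ∈ PG G ∨ ¬ lt m p`.  Then `m ∉ Cs C ∨ ¬ rel (row 1 C) (pc m) (pc p)`: if `m ∈ PG G`, then `E (pc m) ≠ 0`, so `m ∉ Cs C`
(`C ∈ Rl K` is good); otherwise `E (pc m) = 0`, `¬ lt m p`; if `m ∈ Cs C` then `ix m ≤ ix p`, so `ix m = ix p` and `¬ rel ..`.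
(1): let `p ∈ PG G` and suppose `Avoid σ (PG G) p.1 p.2` for some `σ`.  By `solve` (Borel relation between `(ζ, G, pc p)` and `σ`) there is such a `σ ∈ Rl K`.  Let `C` be the real with
`Cs C = {m ∈ Pos D ζ | E (pc m) = 0} ∪ {p}`, `rel (row 1 C) (pc m) (pc m') ↔ lt m m' ∨ (E (pc m) = 0 ∧ m ∈ Pos D ζ ∧ m' = p)`, `Cf C m = F (pc m)` for `m ≠ p`, `Cf C p = σ`.  `C ∈ Rl K` by `In_fun`.  `C` is good: well-founded
(`p` on top); for `m ≠ p`: the positions outside `Cs C` or not below `m` are in `PG G` or not `lt m` (if `m' = p` then `m' ∈ PG G`), use (2); for `m = p`: positions `m'` with `m' ∉ Cs C` or not below `p` are in `PG G`.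
So `E (pc p) = 0`, contradiction.

-/

set_option autoImplicit false

universe u

namespace Pool.Agent.H19.GP

open Pool.Agent.H17.Omega Pool.Agent.H17.GP
open MeasureTheory Topology Filter

variable {D : Set ((ℕ → ℕ) × (ℕ → ℕ) × (ℕ → ℕ))}

theorem unpair_pc (p : List ℕ × List ℕ) : (pc p).unpair = (Encodable.encode p.1, Encodable.encode p.2) := by
  rw [pc, Nat.unpair_pair]

theorem lenN_encode (t : List ℕ) : lenN (Encodable.encode t) = t.length := by rw [lenN, dl_encode]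

theorem getN_encode (t : List ℕ) (k : ℕ) : getN (Encodable.encode t) k = t.getD k 0 := by
  rw [getN, dl_encode]

theorem takeN_encode (t : List ℕ) (k : ℕ) : takeN (Encodable.encode t) k = Encodable.encode (t.take k) := by
  rw [takeN, dl_encode]

theorem obey_iff {σ : ℕ → ℕ} {t t' : List ℕ} :
    Obey σ t t' ↔ ObeyN σ (Encodable.encode t) (Encodable.encode t') := by
  rw [Obey, ObeyN, takeN_encode, lenN_encode, lenN_encode, Encodable.encode_inj]
  refine and_congr ?_ (and_congr ?_ ?_)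
  · rw [List.prefix_iff_eq_take, eq_comm]
  · rw [ne_eq, ne_eq, Encodable.encode_inj]
  · constructor
    · intro h k hk hk'
      rw [takeN_encode, getN_encode]
      exact h k hk' hk
    · intro h k hk hk'
      have := h k hk' hk
      rwa [takeN_encode, getN_encode] at this

theorem avoid_iff {σ : ℕ → ℕ} {S : Set (List ℕ × List ℕ)} {G : ℕ → Prop} (hS : ∀ q, q ∈ S ↔ G (pc q))
    (p : List ℕ × List ℕ) : Avoid σ S p.1 p.2 ↔ AvoidN σ G (pc p) := by
  rw [Avoid, AvoidN, unpair_pc]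
  have h1 : ∀ (t' : List ℕ) a, (t', p.2 ++ [a]) ∈ S ↔
      G (Nat.pair (Encodable.encode t') (snocN (Encodable.encode p.2) a)) := by
    intro t' a
    rw [hS, pc, snocN, dl_encode]
  constructor
  · intro h t' ht' a
    have h2 := h (dl t') (by rw [obey_iff, encode_dl]; exact ht') a
    rwa [h1, encode_dl] at h2
  · intro h t' ht' a
    rw [h1]
    exact h _ (obey_iff.1 ht') a

theorem app_iff {ζ : ℕ → ℕ} {t v : List ℕ} :
    App D ζ t v ↔ App D (getN (ini ζ v.length)) t v := by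
  unfold App
  refine exists_congr fun p => and_congr_right fun _ => forall_congr' fun i => ?_
  refine forall_congr' fun hi => ?_
  rw [getN_ini hi]

/-- code of the approximations -/
noncomputable def apc (D : Set ((ℕ → ℕ) × (ℕ → ℕ) × (ℕ → ℕ))) (k : ℕ) : ℕ := by
  classical
  exact if App D (getN k.unpair.1) (dl k.unpair.2.unpair.1) (dl k.unpair.2.unpair.2) then 0 else 1

theorem apc_iff {k : ℕ} : apc D k = 0 ↔
    App D (getN k.unpair.1) (dl k.unpair.2.unpair.1) (dl k.unpair.2.unpair.2) := by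
  classical
  unfold apc; exact ite01

theorem ind (hD : IsClosed D) : ∀ᶠ K in ctmF.{u}, ∀ ζ ∈ Rl K, ∃ G ∈ Rl K, ∃ F : ℕ → ℕ → ℕ, In K F ∧
    ∃ lt : List ℕ × List ℕ → List ℕ × List ℕ → Prop, WellFounded lt ∧ PG G ⊆ Pos D ζ ∧
      (∀ p ∈ PG G, ∀ σ, ¬ Avoid σ (PG G) p.1 p.2) ∧
      ∀ p ∈ Pos D ζ, p ∉ PG G → Avoid (F (pc p)) {m | m ∈ Pos D ζ ∧ (m ∈ PG G ∨ ¬ lt m p)} p.1 p.2 := by
  filter_upwards [ev_ctm, ev_mem (apc D)] with K hK ha ζ hζ
  let PN : ℕ → Prop := fun n => lenN n.unpair.2 ≤ lenN n.unpair.1 ∧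
    apc D (Nat.pair (ini ζ (lenN n.unpair.2)) n) = 0
  have hPN : hK.Dfn (fun v : Fin 1 → K => PN (natD (v 0).1)) :=
    CTM.Dfn.and (CTM.Dfn.leN (CTM.DN.lenN (CTM.DN.unpair2 (CTM.DN.var _)))
      (CTM.DN.lenN (CTM.DN.unpair1 (CTM.DN.var _)))) (CTM.Dfn.eqN (CTM.DN.app (CTM.DR.const ha)
      (CTM.DN.pair (CTM.DN.ini (CTM.DR.const hζ) (CTM.DN.lenN (CTM.DN.unpair2 (CTM.DN.var _))))
        (CTM.DN.var _))) (CTM.DN.const 0))
  have hPos : ∀ p, p ∈ Pos D ζ ↔ PN (pc p) := by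
    intro p
    show (_ ∧ _) ↔ (_ ∧ _)
    rw [unpair_pc]
    refine and_congr ?_ ?_
    · rw [lenN_encode, lenN_encode]
    · rw [app_iff, apc_iff, Nat.unpair_pair, unpair_pc, dl_encode, dl_encode, lenN_encode]
  obtain ⟨G, hG, F, hF, lt, h1, h2, h3, h4⟩ := ind_core hK hPN
  refine ⟨G, hG, fun n => row n F, ?_, fun q p => lt (pc q) (pc p), InvImage.wf pc h1, ?_, ?_, ?_⟩
  · show rows (fun n => row n F) ∈ Rl K
    rw [rows_row]; exact hF
  · intro p hp
    exact (hPos p).2 (h2 _ hp)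
  · intro p hp σ hσ
    exact h3 (pc p) hp σ ((avoid_iff (fun q => Iff.rfl) p).1 hσ)
  · intro p hp hpG
    refine (avoid_iff (G := fun m => PN m ∧ (G m = 0 ∨ ¬ lt m (pc p))) (fun q => ?_) p).2
      (h4 (pc p) ((hPos p).1 hp) hpG)
    show (_ ∧ _) ↔ _
    rw [hPos]
    exact Iff.rfl

end Pool.Agent.H19.GP
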