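import Pool.Agent.H19.GP.Choice
import Mathlib.Probability.ProductMeasure
import Mathlib.MeasureTheory.Measure.Prod

/-!
# Goldstern's principle: the measure on `2^ω`, clopen sets, open sets

PROOFS (all routine).
* `lam_cyl`: `Measure.infinitePi_pi` with `s = Finset.range n`.
* `exists_Cl`: a clopen set is compact, so a finite union of basic clopen sets `{y | ExtB y s}`; lists of natural numbers with `dlB`
  give all lists of Booleans (`dlB (encode (s.map (fun b => if b then 1 else 0))) = s`).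
* `Op_compact`: compactness.
* `lam_Nw`: Borel-Cantelli (`measure_limsup_atTop_eq_zero`) or: `Nw w ⊆ ⋃ k ≥ n, Uk k (w k)`.
* measurability: all sets are countable unions and intersections of sets `{p | p.1 i = a ∧ p.2 ∈ Cl b}`.
-/

set_option autoImplicit false

universe u

namespace Pool.Agent.H19.GP

open Pool.Agent.H17.Omega Pool.Agent.H17.GP
open MeasureTheory Topology Filter

theorem meas_coin_singleton (b : Bool) : coin {b} = 1 / 2 := by
  rw [coin, Measure.smul_apply, Measure.count_singleton, smul_eq_mul, mul_one, one_div]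

instance isProb_coin : IsProbabilityMeasure coin := by
  constructor
  have h : (Set.univ : Set Bool) = {true} ∪ {false} := by
    ext b
    cases b <;> simp
  rw [h, measure_union (by simp) (MeasurableSet.singleton _), meas_coin_singleton, meas_coin_singleton]
  exact ENNReal.add_halves 1

instance isProb_lam : IsProbabilityMeasure lam := by
  unfold lam; infer_instance

theorem meas_extB (y : ℕ → Bool) (s : List Bool) : ExtB y s ↔ ∀ i < s.length, y i = s.getD i false := by
  unfold ExtB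
  constructor
  · intro h i hi
    have h1 : ((List.range s.length).map y).getD i false = s.getD i false := by rw [h]
    rw [← h1]
    simp [hi]
  · intro h
    refine List.ext_getElem (by simp) fun i h1 h2 => ?_
    have := h i h2
    simp only [List.getElem_map, List.getElem_range]
    rw [this, List.getD_eq_getElem _ _ h2]

theorem lam_cyl (s : List Bool) : lam {y | ExtB y s} = (1 / 2) ^ s.length := by
  have h : {y | ExtB y s} = Set.pi (Finset.range s.length : Set ℕ) (fun i => {s.getD i false}) := by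
    ext y
    rw [Set.mem_pi]
    simp only [Finset.coe_range, Set.mem_Iio, Set.mem_singleton_iff]
    exact meas_extB y s
  rw [h, lam, Measure.infinitePi_pi _ (fun i _ => MeasurableSet.singleton _)]
  simp only [meas_coin_singleton, Finset.prod_const, Finset.card_range]

theorem isClopen_cyl (s : List Bool) : IsClopen {y : ℕ → Bool | ExtB y s} := by
  have h : {y | ExtB y s} = ⋂ i ∈ Finset.range s.length, {y : ℕ → Bool | y i = s.getD i false} := by
    ext y
    simp only [Set.mem_iInter, Finset.mem_range]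
    exact meas_extB y s
  rw [h]
  refine isClopen_biInter_finset fun i _ => ?_
  exact (isClopen_discrete ({s.getD i false} : Set Bool)).preimage (continuous_apply i)

theorem isClopen_Cl (j : ℕ) : IsClopen (Cl j) := by
  have h : Cl j = ⋃ t ∈ {t | t ∈ dl j}, {y | ExtB y (dlB t)} := by
    ext y
    simp only [Cl, Set.mem_iUnion, exists_prop]
    rfl
  rw [h]
  exact Set.Finite.isClopen_biUnion (List.finite_toSet (dl j)) fun t _ => isClopen_cyl _

/-- code of a finite binary sequence -/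
def meas_codeB (s : List Bool) : ℕ := Encodable.encode (s.map (fun b => if b then 1 else 0))

theorem meas_dlB_codeB (s : List Bool) : dlB (meas_codeB s) = s := by
  unfold dlB dl meas_codeB
  rw [Denumerable.ofNat_encode, List.map_map]
  conv_rhs => rw [← List.map_id s]
  refine List.map_congr_left fun b _ => ?_
  cases b <;> rfl

/-- code of a finite union of cylinders -/
theorem meas_Cl_encode (L : List (List Bool)) :
    Cl (Encodable.encode (L.map meas_codeB)) = {y | ∃ s ∈ L, ExtB y s} := by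
  ext y
  unfold Cl dl
  rw [Denumerable.ofNat_encode]
  constructor
  · rintro ⟨t, ht, hy⟩
    obtain ⟨s, hs, rfl⟩ := List.mem_map.mp ht
    rw [meas_dlB_codeB] at hy
    exact ⟨s, hs, hy⟩
  · rintro ⟨s, hs, hy⟩
    exact ⟨meas_codeB s, List.mem_map_of_mem hs, by rwa [meas_dlB_codeB]⟩

/-- cylinders around a point of an open set -/
theorem meas_exists_cyl {S : Set (ℕ → Bool)} (hS : IsOpen S) {y : ℕ → Bool} (hy : y ∈ S) :
    ∃ n : ℕ, {z | ExtB z ((List.range n).map y)} ⊆ S := by
  obtain ⟨v, ⟨x, n, rfl⟩, h2, h3⟩ :=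
    (PiNat.isTopologicalBasis_cylinders (E := fun _ : ℕ => Bool)).exists_subset_of_mem_open hy hS
  refine ⟨n, fun z hz => h3 ?_⟩
  rw [Set.mem_ofPred_eq, meas_extB] at hz
  intro i hi
  have h4 := hz i (by simpa using hi)
  rw [h4]
  have h5 : ((List.range n).map y).getD i false = y i := by simp [hi]
  rw [h5]
  exact h2 i hi

theorem meas_mem_cyl (y : ℕ → Bool) (n : ℕ) : ExtB y ((List.range n).map y) := by
  unfold ExtB
  rw [List.length_map, List.length_range]

theorem exists_Cl {S : Set (ℕ → Bool)} (hS : IsClopen S) : ∃ j, Cl j = S := by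
  classical
  have hex : ∀ y : ℕ → Bool, ∃ n : ℕ, y ∈ S → {z | ExtB z ((List.range n).map y)} ⊆ S := by
    intro y
    by_cases hy : y ∈ S
    · obtain ⟨n, hn⟩ := meas_exists_cyl hS.isOpen hy
      exact ⟨n, fun _ => hn⟩
    · exact ⟨0, fun h => absurd h hy⟩
  choose n hn using hex
  have hcpt : IsCompact S := hS.isClosed.isCompact
  obtain ⟨t, ht, hcov⟩ := hcpt.elim_nhds_subcover
    (fun y => {z | ExtB z ((List.range (n y)).map y)})
    (fun y _ => (isClopen_cyl _).isOpen.mem_nhds (meas_mem_cyl y (n y)))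
  refine ⟨Encodable.encode ((t.toList.map (fun y => (List.range (n y)).map y)).map meas_codeB), ?_⟩
  rw [meas_Cl_encode]
  apply Set.Subset.antisymm
  · rintro z ⟨s, hs, hz⟩
    obtain ⟨y, hy, rfl⟩ := List.mem_map.mp hs
    rw [Finset.mem_toList] at hy
    exact hn y (ht y hy) hz
  · intro z hz
    have := hcov hz
    simp only [Set.mem_iUnion] at this
    obtain ⟨y, hy, h⟩ := this
    exact ⟨_, List.mem_map_of_mem (Finset.mem_toList.mpr hy), h⟩

theorem exists_Op {S : Set (ℕ → Bool)} (hS : IsOpen S) : ∃ u, Op u = S := by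
  classical
  obtain ⟨e, he⟩ := exists_Cl isClopen_empty
  refine ⟨fun j => if Cl j ⊆ S then j else e, ?_⟩
  ext y
  constructor
  · rintro ⟨j, hj⟩
    simp only at hj
    by_cases h : Cl j ⊆ S
    · rw [if_pos h] at hj
      exact h hj
    · rw [if_neg h, he] at hj
      exact hj.elim
  · intro hy
    obtain ⟨n, hn⟩ := meas_exists_cyl hS hy
    obtain ⟨j, hj⟩ := exists_Cl (isClopen_cyl ((List.range n).map y))
    refine ⟨j, ?_⟩
    have h : Cl j ⊆ S := by rw [hj]; exact hn
    simp only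
    rw [if_pos h, hj]
    exact meas_mem_cyl y n

theorem meas_Op_eq (u : ℕ → ℕ) : Op u = ⋃ j, Cl (u j) := by
  ext y
  rw [Set.mem_iUnion]
  rfl

theorem isOpen_Op (u : ℕ → ℕ) : IsOpen (Op u) := by
  rw [meas_Op_eq]
  exact isOpen_iUnion fun j => (isClopen_Cl _).isOpen

theorem Op_compact {C : Set (ℕ → Bool)} (hC : IsCompact C) {u : ℕ → ℕ} (h : C ⊆ Op u) :
    ∃ J, C ⊆ ⋃ j < J, Cl (u j) := by
  rw [meas_Op_eq] at h
  obtain ⟨t, ht⟩ := hC.elim_finite_subcover _ (fun j => (isClopen_Cl (u j)).isOpen) h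
  refine ⟨t.sup id + 1, ht.trans ?_⟩
  intro y hy
  simp only [Set.mem_iUnion] at hy ⊢
  obtain ⟨j, hj, hy⟩ := hy
  exact ⟨j, Nat.lt_succ_of_le (Finset.le_sup (f := id) hj), hy⟩

theorem Uk_of_le {k j : ℕ} (h : lam (Cl j) ≤ (1 / 4) ^ k) : Uk k j = Cl j := by
  ext y
  exact ⟨fun hy => hy.2, fun hy => ⟨h, hy⟩⟩

theorem Uk_of_not {k j : ℕ} (h : ¬ lam (Cl j) ≤ (1 / 4) ^ k) : Uk k j = ∅ := by
  ext y
  exact ⟨fun hy => h hy.1, fun hy => hy.elim⟩

theorem isClopen_Uk (k j : ℕ) : IsClopen (Uk k j) := by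
  by_cases h : lam (Cl j) ≤ (1 / 4) ^ k
  · rw [Uk_of_le h]
    exact isClopen_Cl j
  · rw [Uk_of_not h]
    exact isClopen_empty

theorem lam_Uk (k j : ℕ) : lam (Uk k j) ≤ (1 / 4) ^ k := by
  by_cases h : lam (Cl j) ≤ (1 / 4) ^ k
  · rwa [Uk_of_le h]
  · rw [Uk_of_not h, measure_empty]
    exact zero_le

/-- clopen sets of small measure have codes -/
theorem exists_Uk {S : Set (ℕ → Bool)} (hS : IsClopen S) {k : ℕ} (h : lam S ≤ (1 / 4) ^ k) :
    ∃ j, Uk k j = S := by
  obtain ⟨j, rfl⟩ := exists_Cl hS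
  exact ⟨j, Uk_of_le h⟩

theorem lam_Nw (w : ℕ → ℕ) : lam (Nw w) = 0 := by
  have h : Nw w = {y | ∃ᶠ k in atTop, y ∈ Uk k (w k)} := by
    ext y
    rw [Set.mem_ofPred_eq, Filter.frequently_atTop]
    exact Iff.rfl
  rw [h]
  refine measure_setOfPred_frequently_eq_zero ?_
  refine ne_top_of_le_ne_top ?_ (ENNReal.tsum_le_tsum fun k => lam_Uk k (w k))
  rw [ENNReal.tsum_geometric, ENNReal.inv_ne_top]
  intro h0
  rw [tsub_eq_zero_iff_le, one_div] at h0
  have h1 : (4 : ENNReal)⁻¹ < 1 := by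
    rw [ENNReal.inv_lt_one]
    norm_num
  exact absurd h0 (not_le.mpr h1)

theorem isOpen_OpRel : IsOpen {p : (ℕ → ℕ) × (ℕ → Bool) | p.2 ∈ Op p.1} := by
  have h : {p : (ℕ → ℕ) × (ℕ → Bool) | p.2 ∈ Op p.1} =
      ⋃ j, ⋃ a, ({u : ℕ → ℕ | u j = a} ×ˢ Cl a) := by
    ext p
    simp only [Set.mem_iUnion, Set.mem_prod]
    constructor
    · rintro ⟨j, hj⟩
      exact ⟨j, p.1 j, rfl, hj⟩
    · rintro ⟨j, a, h1, h2⟩
      refine ⟨j, ?_⟩
      have h3 : p.1 j = a := h1
      rwa [h3]
  rw [h]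
  refine isOpen_iUnion fun j => isOpen_iUnion fun a => IsOpen.prod ?_ (isClopen_Cl a).isOpen
  exact (isOpen_discrete ({a} : Set ℕ)).preimage (continuous_apply (A := fun _ : ℕ => ℕ) j)

theorem meas_Nw : MeasurableSet {p : (ℕ → ℕ) × (ℕ → Bool) | p.2 ∈ Nw p.1} := by
  have h : {p : (ℕ → ℕ) × (ℕ → Bool) | p.2 ∈ Nw p.1} =
      ⋂ n, ⋃ k, ⋃ (_ : n ≤ k), ⋃ a, ({u : ℕ → ℕ | u k = a} ×ˢ Uk k a) := by
    ext p
    simp only [Set.mem_iInter, Set.mem_iUnion, Set.mem_prod, exists_prop]
    constructor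
    · intro hp n
      obtain ⟨k, hk, hy⟩ := hp n
      exact ⟨k, hk, p.1 k, rfl, hy⟩
    · intro hp n
      obtain ⟨k, hk, a, h1, h2⟩ := hp n
      refine ⟨k, hk, ?_⟩
      have h3 : p.1 k = a := h1
      rwa [h3]
  rw [h]
  refine MeasurableSet.iInter fun n => MeasurableSet.iUnion fun k => MeasurableSet.iUnion fun _ =>
    MeasurableSet.iUnion fun a => MeasurableSet.prod ?_ (isClopen_Uk k a).isOpen.measurableSet
  exact measurableSet_eq_fun (measurable_pi_apply k) measurable_const

theorem measurable_lam {X : Type} [MeasurableSpace X] {B : Set (X × (ℕ → Bool))} (hB : MeasurableSet B) :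
    Measurable (fun x => lam {y | (x, y) ∈ B}) :=
  measurable_measure_prodMk_left hB

theorem measurable_lamOp : Measurable (fun u : ℕ → ℕ => lam (Op u)) :=
  measurable_lam isOpen_OpRel.measurableSet

/-! ## Operations on codes -/

theorem exists_clI : ∃ f : ℕ → ℕ → ℕ, ∀ i j, Cl (f i j) = Cl i ∩ Cl j := by
  choose f hf using fun i j => exists_Cl ((isClopen_Cl i).inter (isClopen_Cl j))
  exact ⟨f, hf⟩

/-- code of the intersection of two clopen sets -/
noncomputable def clI : ℕ → ℕ → ℕ := exists_clI.choose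

theorem Cl_clI (i j : ℕ) : Cl (clI i j) = Cl i ∩ Cl j := exists_clI.choose_spec i j

/-- code of the intersection of two open sets -/
noncomputable def opI (u v : ℕ → ℕ) : ℕ → ℕ := fun n => clI (u n.unpair.1) (v n.unpair.2)

theorem Op_opI (u v : ℕ → ℕ) : Op (opI u v) = Op u ∩ Op v := by
  ext y
  constructor
  · rintro ⟨n, hn⟩
    rw [opI, Cl_clI] at hn
    exact ⟨⟨_, hn.1⟩, ⟨_, hn.2⟩⟩
  · rintro ⟨⟨i, hi⟩, ⟨j, hj⟩⟩
    refine ⟨Nat.pair i j, ?_⟩
    rw [opI, Cl_clI, Nat.unpair_pair]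
    exact ⟨hi, hj⟩

/-- code of the intersection of the open sets `U n, ..., U (n + k)` -/
noncomputable def opF (U : ℕ → ℕ → ℕ) (n : ℕ) : ℕ → (ℕ → ℕ)
  | 0 => U n
  | k + 1 => opI (opF U n k) (U (n + k + 1))

theorem Op_opF (U : ℕ → ℕ → ℕ) (n k : ℕ) : Op (opF U n k) = {y | ∀ i, n ≤ i → i ≤ n + k → y ∈ Op (U i)} := by
  induction k with
  | zero =>
    ext y
    constructor
    · intro hy i h1 h2
      have h3 : i = n := by omega
      rw [h3]
      exact hy
    · intro hy
      exact hy n le_rfl (by omega)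
  | succ k ih =>
    rw [opF, Op_opI, ih]
    ext y
    constructor
    · rintro ⟨h1, h2⟩ i h3 h4
      by_cases h5 : i ≤ n + k
      · exact h1 i h3 h5
      · have h6 : i = n + k + 1 := by omega
        rw [h6]
        exact h2
    · intro h
      exact ⟨fun i h1 h2 => h i h1 (by omega), h (n + k + 1) (by omega) (by omega)⟩

/-- code of the union of open sets -/
def opU (U : ℕ → ℕ → ℕ) : ℕ → ℕ := fun n => U n.unpair.1 n.unpair.2

theorem Op_opU (U : ℕ → ℕ → ℕ) : Op (opU U) = ⋃ n, Op (U n) := by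
  ext y
  rw [Set.mem_iUnion]
  constructor
  · rintro ⟨m, hm⟩
    exact ⟨m.unpair.1, m.unpair.2, hm⟩
  · rintro ⟨n, m, hm⟩
    refine ⟨Nat.pair n m, ?_⟩
    unfold opU
    rwa [Nat.unpair_pair]

/-- code of the open set `⋃ n, ⋂ (n ≤ i ≤ n + κ n), Op (U i)` -/
noncomputable def inter (U : ℕ → ℕ → ℕ) (κ : ℕ → ℕ) : ℕ → ℕ := opU (fun n => opF U n (κ n))

theorem Op_inter (U : ℕ → ℕ → ℕ) (κ : ℕ → ℕ) :
    Op (inter U κ) = {y | ∃ n, ∀ i, n ≤ i → i ≤ n + κ n → y ∈ Op (U i)} := by
  rw [inter, Op_opU]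
  ext y
  simp only [Set.mem_iUnion, Op_opF, Set.mem_setOf_eq]

theorem measurable_opF (n k m : ℕ) : Measurable (fun U : ℕ → ℕ → ℕ => opF U n k m) := by
  induction k generalizing m with
  | zero =>
    change Measurable (fun U : ℕ → ℕ → ℕ => U n m)
    exact (measurable_pi_apply m).comp (measurable_pi_apply n)
  | succ k ih =>
    have h1 : Measurable (fun U : ℕ → ℕ → ℕ => (opF U n k m.unpair.1, U (n + k + 1) m.unpair.2)) :=
      (ih _).prodMk ((measurable_pi_apply m.unpair.2).comp (measurable_pi_apply (n + k + 1)))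
    have h2 : Measurable (fun q : ℕ × ℕ => clI q.1 q.2) := measurable_of_countable _
    exact h2.comp h1

theorem measurable_inter : Measurable (fun p : (ℕ → ℕ → ℕ) × (ℕ → ℕ) => inter p.1 p.2) := by
  refine measurable_pi_lambda _ fun m => ?_
  have h1 : Measurable (fun q : ℕ × (ℕ → ℕ → ℕ) => opF q.2 m.unpair.1 q.1 m.unpair.2) :=
    measurable_from_prod_countable_right fun k => measurable_opF _ k _
  have h2 : Measurable (fun p : (ℕ → ℕ → ℕ) × (ℕ → ℕ) => (p.2 m.unpair.1, p.1)) :=
    ((measurable_pi_apply m.unpair.1).comp measurable_snd).prodMk measurable_fst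
  exact h1.comp h2

end Pool.Agent.H19.GP
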