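import Pool.Agent.H19.GP.Slm

/-!
# Goldstern's principle: the null sets of the ground model are not covered by a null set

PROOF: see the header of `Slm.lean` (`p4`).
-/

set_option autoImplicit false
set_option linter.unusedVariables false

universe u

namespace Pool.Agent.H19.GP

open Pool.Agent.H17.Omega Pool.Agent.H17.GP
open MeasureTheory Topology Filter

/-- a closed set of positive measure disjoint from `Nw w` -/
def P4_H (w : ℕ → ℕ) : Set (ℕ → Bool) := {y | ∀ m, 1 ≤ m → y ∉ Uk m (w m)}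

theorem P4_H_closed (w : ℕ → ℕ) : IsClosed (P4_H w) := by
  have : P4_H w = ⋂ m, ⋂ (_ : 1 ≤ m), (Uk m (w m))ᶜ := by
    ext y; simp [P4_H]
  rw [this]
  exact isClosed_iInter fun m => isClosed_iInter fun _ => (isClopen_Uk m (w m)).compl.isClosed

theorem P4_H_nw {w : ℕ → ℕ} {y : ℕ → Bool} (h : y ∈ P4_H w) : y ∉ Nw w := by
  intro h1
  obtain ⟨k, hk, h2⟩ := h1 1
  exact h k hk h2

theorem P4_H_pos (w : ℕ → ℕ) : lam (P4_H w) ≠ 0 := by
  intro h0
  have h1 : lam (P4_H w)ᶜ ≤ 1 / 3 := by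
    have h2 : (P4_H w)ᶜ ⊆ ⋃ m : ℕ, Uk (m + 1) (w (m + 1)) := by
      intro y hy
      simp only [P4_H, Set.mem_compl_iff, Set.mem_setOf_eq, not_forall, not_not] at hy
      obtain ⟨m, hm, h3⟩ := hy
      refine Set.mem_iUnion.2 ⟨m - 1, ?_⟩
      rw [Nat.sub_add_cancel hm]; exact h3
    refine (measure_mono h2).trans ((measure_iUnion_le _).trans ?_)
    refine (ENNReal.tsum_le_tsum fun m => lam_Uk (m + 1) (w (m + 1))).trans ?_
    have h3 : ∀ m : ℕ, (1 / 4 : ENNReal) ^ (m + 1) = (1 / 4) * (1 / 4) ^ m := fun m => pow_succ' _ _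
    simp_rw [h3]
    rw [ENNReal.tsum_mul_left, ENNReal.tsum_geometric]
    have h4 : (1 - 1 / 4 : ENNReal) = 3 / 4 := by
      rw [← ENNReal.toReal_eq_toReal_iff' (by simp) (by
        exact ENNReal.div_ne_top (by simp) (by simp)), ENNReal.toReal_sub_of_le (by
          rw [ENNReal.div_le_iff (by simp) (by simp)]; norm_num) (by simp)]
      rw [ENNReal.toReal_div, ENNReal.toReal_div]
      norm_num
    rw [h4, ENNReal.inv_div (by simp) (by simp)]
    rw [← ENNReal.toReal_le_toReal (by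
      exact ENNReal.mul_ne_top (ENNReal.div_ne_top (by simp) (by simp)) (ENNReal.div_ne_top (by simp) (by simp)))
        (by exact ENNReal.div_ne_top (by simp) (by simp))]
    rw [ENNReal.toReal_mul, ENNReal.toReal_div, ENNReal.toReal_div, ENNReal.toReal_div]
    norm_num
  have h5 := measure_add_measure_compl (μ := lam) (P4_H_closed w).measurableSet
  rw [h0, zero_add, measure_univ] at h5
  rw [h5] at h1
  have h6 : (1 / 3 : ENNReal) < 1 := by
    rw [ENNReal.div_lt_iff (by simp) (by simp)]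
    norm_num
  exact absurd h1 (not_le.2 h6)

theorem P4_meas_H : MeasurableSet {p : (ℕ → ℕ) × (ℕ → Bool) | p.2 ∈ P4_H p.1} := by
  have h : {p : (ℕ → ℕ) × (ℕ → Bool) | p.2 ∈ P4_H p.1} =
      ⋂ m, ⋂ (_ : 1 ≤ m), ⋃ j : ℕ, {p | p.1 m = j ∧ p.2 ∉ Uk m j} := by
    ext p
    simp only [P4_H, Set.mem_setOf_eq, Set.mem_iInter, Set.mem_iUnion]
    refine forall_congr' fun m => forall_congr' fun _ => ?_
    constructor
    · intro h; exact ⟨_, rfl, h⟩
    · rintro ⟨j, rfl, h⟩; exact h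
  rw [h]
  refine MeasurableSet.iInter fun m => MeasurableSet.iInter fun _ => MeasurableSet.iUnion fun j => ?_
  refine MeasurableSet.inter ?_ ?_
  · exact measurableSet_eq_fun ((measurable_pi_apply m).comp measurable_fst) measurable_const
  · exact ((isClopen_Uk m j).compl.isOpen.measurableSet).preimage measurable_snd

/-- the relation between the code of a null set and the slalom -/
def P4_S : Set ((ℕ → ℕ) × (ℕ → ℕ)) := {p | (∀ m, (dl (p.2 m)).length ≤ m * 4 ^ m) ∧ ∀ t : List Bool,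
  0 < lam (P4_H p.1 ∩ {y | ExtB y t}) → ∃ n, ∀ m, n ≤ m → ∀ j,
    lam (P4_H p.1 ∩ {y | ExtB y t} ∩ Vb m j) = 0 → j ∈ dl (p.2 m)}

theorem P4_meas_S : MeasurableSet P4_S := by
  have hlam : ∀ {C : Set (ℕ → Bool)}, IsClopen C → Measurable (fun w : ℕ → ℕ => lam (P4_H w ∩ C)) := by
    intro C hC
    exact measurable_lam (B := {p : (ℕ → ℕ) × (ℕ → Bool) | p.2 ∈ P4_H p.1 ∩ C})
      (P4_meas_H.inter ((hC.isOpen.measurableSet).preimage measurable_snd))
  have h : P4_S = (⋂ m, {p : (ℕ → ℕ) × (ℕ → ℕ) | (dl (p.2 m)).length ≤ m * 4 ^ m}) ∩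
      ⋂ t : List Bool, ({p : (ℕ → ℕ) × (ℕ → ℕ) | 0 < lam (P4_H p.1 ∩ {y | ExtB y t})}ᶜ ∪
        ⋃ n : ℕ, ⋂ m : ℕ, ⋂ (_ : n ≤ m), ⋂ j : ℕ, ({p : (ℕ → ℕ) × (ℕ → ℕ) |
          lam (P4_H p.1 ∩ ({y | ExtB y t} ∩ Vb m j)) = 0}ᶜ ∪ {p | j ∈ dl (p.2 m)})) := by
    ext p
    simp only [P4_S, Set.mem_setOf_eq, Set.mem_inter_iff, Set.mem_iInter, Set.mem_union, Set.mem_compl_iff,
      Set.mem_iUnion, Set.inter_assoc]
    refine and_congr_right fun _ => forall_congr' fun t => ?_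
    rw [← imp_iff_not_or]
    refine imp_congr_right fun _ => exists_congr fun n => forall_congr' fun m => forall_congr' fun _ =>
      forall_congr' fun j => ?_
    rw [← imp_iff_not_or]
  rw [h]
  have hev : ∀ m, Measurable (fun p : (ℕ → ℕ) × (ℕ → ℕ) => p.2 m) := fun m =>
    (measurable_pi_apply m).comp measurable_snd
  refine MeasurableSet.inter (MeasurableSet.iInter fun m => ?_) (MeasurableSet.iInter fun t => ?_)
  · exact hev m (MeasurableSet.of_discrete (s := {k : ℕ | (dl k).length ≤ m * 4 ^ m}))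
  · refine MeasurableSet.union (MeasurableSet.compl ?_) (MeasurableSet.iUnion fun n =>
      MeasurableSet.iInter fun m => MeasurableSet.iInter fun _ => MeasurableSet.iInter fun j =>
        MeasurableSet.union (MeasurableSet.compl ?_) ?_)
    · exact measurableSet_lt measurable_const ((hlam (isClopen_cyl t)).comp measurable_fst)
    · exact measurableSet_eq_fun ((hlam ((isClopen_cyl t).inter (isClopen_Vb m j))).comp measurable_fst)
        measurable_const
    · exact hev m (MeasurableSet.of_discrete (s := {k : ℕ | j ∈ dl k}))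

/-- codes of the sets `Vb m j` -/
theorem P4_vb : ∃ v : ℕ → ℕ, ∀ m j, Uk m (v (Nat.pair m j)) = Vb m j := by
  have h : ∀ m j, ∃ k, Uk m k = Vb m j := fun m j => exists_Uk (isClopen_Vb m j) (lam_Vb' m j).le
  choose f hf using h
  exact ⟨fun n => f n.unpair.1 n.unpair.2, fun m j => by simp [hf]⟩

/-- the Baire category argument -/
theorem P4_baire {H : Set (ℕ → Bool)} (hH : IsClosed H) (hpos : lam H ≠ 0) {s : ℕ → ℕ}
    (hs : ∀ t : List Bool, 0 < lam (H ∩ {y | ExtB y t}) → ∃ n, ∀ m, n ≤ m → ∀ j,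
      lam (H ∩ {y | ExtB y t} ∩ Vb m j) = 0 → j ∈ dl (s m)) {c : ℕ → ℕ}
    (hc : ∀ n, ∃ m, n ≤ m ∧ c m ∉ dl (s m)) : ∃ y ∈ H, ∀ n, ∃ m, n ≤ m ∧ y ∈ Vb m (c m) := by
  let H' : Set (ℕ → Bool) := {y | y ∈ H ∧ ∀ n, 0 < lam (H ∩ {y' | ExtB y' ((List.range n).map y)})}
  have hself : ∀ (y : ℕ → Bool) n, ExtB y ((List.range n).map y) := fun y n => meas_mem_cyl y n
  have hext : ∀ {y y' : ℕ → Bool} {n : ℕ}, ExtB y' ((List.range n).map y) →
      (List.range n).map y' = (List.range n).map y := by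
    intro y y' n h
    unfold ExtB at h
    rwa [List.length_map, List.length_range] at h
  -- `H'` is closed
  have hcl : IsClosed H' := by
    have : H' = H ∩ (⋃ t ∈ {t : List Bool | lam (H ∩ {y' | ExtB y' t}) = 0}, {y | ExtB y t})ᶜ := by
      ext y
      simp only [H', Set.mem_setOf_eq, Set.mem_inter_iff, Set.mem_compl_iff, Set.mem_iUnion, not_exists]
      refine and_congr_right fun hy => ?_
      constructor
      · intro h t ht hty
        have h1 := h t.length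
        have h2 : (List.range t.length).map y = t := hty
        rw [h2] at h1
        exact h1.ne' ht
      · intro h n
        refine pos_iff_ne_zero.2 fun h0 => h _ h0 (hself y n)
    rw [this]
    refine hH.inter (IsOpen.isClosed_compl ?_)
    exact isOpen_biUnion fun t _ => (isClopen_cyl t).isOpen
  -- `H \ H'` is null
  have hnull : lam (H \ H') = 0 := by
    have : H \ H' ⊆ ⋃ t : {t : List Bool // lam (H ∩ {y' | ExtB y' t}) = 0}, H ∩ {y | ExtB y t.1} := by
      rintro y ⟨hy, hy'⟩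
      simp only [H', Set.mem_setOf_eq, not_and, not_forall, not_lt, nonpos_iff_eq_zero] at hy'
      obtain ⟨n, hn⟩ := hy' hy
      exact Set.mem_iUnion.2 ⟨⟨_, hn⟩, hy, hself y n⟩
    exact measure_mono_null this (measure_iUnion_null fun t => t.2)
  have hne : H'.Nonempty := by
    by_contra h
    rw [Set.not_nonempty_iff_eq_empty] at h
    rw [h, Set.diff_empty] at hnull
    exact hpos hnull
  -- Baire category
  haveI : CompactSpace H' := isCompact_iff_compactSpace.1 hcl.isCompact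
  haveI : Nonempty H' := hne.to_subtype
  let O : ℕ → Set H' := fun n => {y | ∃ m, n ≤ m ∧ y.1 ∈ Vb m (c m)}
  have hO : ∀ n, IsOpen (O n) := by
    intro n
    have : O n = ⋃ m, ⋃ (_ : n ≤ m), (Subtype.val ⁻¹' Vb m (c m) : Set H') := by
      ext y; simp [O]
    rw [this]
    exact isOpen_iUnion fun m => isOpen_iUnion fun _ => (isClopen_Vb m (c m)).isOpen.preimage continuous_subtype_val
  by_cases hd : ∀ n, Dense (O n)
  · obtain ⟨y, hy⟩ := (dense_iInter_of_isOpen_nat hO hd).nonempty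
    exact ⟨y.1, y.2.1, fun n => Set.mem_iInter.1 hy n⟩
  · exfalso
    push Not at hd
    obtain ⟨n, hn⟩ := hd
    rw [dense_iff_inter_open] at hn
    push Not at hn
    obtain ⟨U, hU, ⟨y0, hy0⟩, hUO⟩ := hn
    obtain ⟨U', hU', hUU⟩ := isOpen_induced_iff.1 hU
    have hy0' : y0.1 ∈ U' := by
      have : y0 ∈ Subtype.val ⁻¹' U' := by rw [hUU]; exact hy0
      exact this
    obtain ⟨k, hk⟩ := meas_exists_cyl hU' hy0'
    obtain ⟨n', hn'⟩ := hs _ (y0.2.2 k)
    obtain ⟨m, hm, hcm⟩ := hc (max n n')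
    refine hcm (hn' m (le_trans (le_max_right _ _) hm) (c m) ?_)
    refine measure_mono_null ?_ hnull
    rintro y ⟨⟨h1, h2⟩, h3⟩
    refine ⟨h1, fun h4 => ?_⟩
    have h5 : (⟨y, h4⟩ : H') ∈ U := by
      rw [← hUU]
      exact hk h2
    have h6 : (⟨y, h4⟩ : H') ∈ U ∩ O n := ⟨h5, m, le_trans (le_max_left _ _) hm, h3⟩
    rw [hUO] at h6
    exact h6

theorem p4 : EvS.{u} (fun N δ K => ∀ w ∈ Rl N, ∃ c ∈ Rl (K 0), ∃ y, In N y ∧ y ∈ Nw c ∧ y ∉ Nw w) := by
  obtain ⟨v, hv⟩ := P4_vb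
  have hR : AnalyticSet {p : ((ℕ → ℕ) × (ℕ → ℕ)) × (ℕ → Bool) | p.2 ∈ Nw p.1.1 ∧ p.2 ∈ P4_H p.1.2} := by
    refine MeasurableSet.analyticSet (MeasurableSet.inter ?_ ?_)
    · exact meas_Nw.preimage ((measurable_fst.comp measurable_fst).prodMk measurable_snd)
    · exact P4_meas_H.preimage ((measurable_snd.comp measurable_fst).prodMk measurable_snd)
  refine EvS.mono (evS_of ((ev_mem v).and ((solve P4_meas_S.analyticSet).and (solve hR)))) ?_
  rintro N δ K hS ⟨⟨-, hN1, hN2⟩, hK⟩ w hw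
  have hK0 := hS.ctmK 0 hS.pos
  -- the slalom
  obtain ⟨s0, h1, h2⟩ := exists_slalom (P4_H w)
  obtain ⟨s, hs, hs1, hs2⟩ := hN1 w hw s0 ⟨h1, h2⟩
  have hb : (fun m => m * 4 ^ m) ∈ Rl (K 0) := by
    refine hK0.primrec_mem ?_
    have hp : Primrec (fun m : ℕ => 4 ^ m) := by
      have h0 : Primrec₂ (fun _ IH : ℕ => 4 * IH) := (Primrec.nat_mul.comp (Primrec.const 4) Primrec.snd)
      refine (Primrec.nat_rec₁ 1 h0).of_eq fun n => ?_
      induction n with
      | zero => rfl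
      | succ n ih =>
        show 4 * Nat.rec 1 (fun _ IH => 4 * IH) n = 4 ^ (n + 1)
        rw [ih, pow_succ]; ring
    exact Primrec.nat_mul.comp Primrec.id hp
  obtain ⟨c, hc, hcs⟩ := hS.slal _ hb s hs hs1
  have hc' : (fun m => v (Nat.pair m (c m))) ∈ Rl (K 0) :=
    hK0.comp_mem (hK 0 hS.pos).1 (hK0.pair_mem_Rl (hK0.primrec_mem Primrec.id) hc)
  obtain ⟨y, hy1, hy2⟩ := P4_baire (P4_H_closed w) (P4_H_pos w) hs2 hcs
  have hc'N : (fun m => v (Nat.pair m (c m))) ∈ Rl N := Rl_mono (hS.sub 0 hS.pos) hc'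
  obtain ⟨y', hy', hy3, hy4⟩ := hN2 ((fun m => v (Nat.pair m (c m))), w) ((In_prod hS.ctmN).2 ⟨hc'N, hw⟩) y
    ⟨fun n => by
      obtain ⟨m, hm, h3⟩ := hy2 n
      exact ⟨m, hm, by show y ∈ Uk m (v (Nat.pair m (c m))); rw [hv]; exact h3⟩, hy1⟩
  exact ⟨_, hc', y', hy', hy3, P4_H_nw hy4⟩

end Pool.Agent.H19.GP
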