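import Pool.Agent.H19.GP.Rnd

/-!
# Goldstern's principle: positions, strategies, certificates

`D ⊆ ω^ω × ω^ω × ω^ω` closed; `ζ` is a parameter; a position is a pair `(t, v)` of finite sequences with `v.length ≤ t.length` and `App D ζ t v` (`(ζ, t, v)` is
approximated by points of `D`, up to the length of `v`).  A strategy `σ` is obeyed by `t'` beyond `t` if `σ (t'|k) ≤ t' k` for `t.length ≤ k < t'.length`.
`Avoid σ G t v`: no extension `t'` of `t` that obeys `σ` has a position `(t', v ++ [a])` in `G`.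
`Sg G t v s`: `s` is a finite approximation of such a `σ`.
`Ucert D ζ t g`: there is a set `G` of positions with `(t, []) ∈ G` and maps showing that for all positions `(t', v)` in `G` the tree `Sg G t' v` is well-founded with rank below `g`.

PROOFS.
* `app_mono`: clear.  `mem_of_app`: closedness.
* `sg_init`, `avoid_iff_sg`: unfold; for `→` given `t'` and `a` with `(t', v ++ [a]) ∈ G` take `n` larger than all codes of `t'.take k`.
-/

set_option autoImplicit false

universe u

namespace Pool.Agent.H19.GP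

open Pool.Agent.H17.Omega Pool.Agent.H17.GP
open MeasureTheory Topology Filter

/-- approximations of the closed set `D` -/
def App (D : Set ((ℕ → ℕ) × (ℕ → ℕ) × (ℕ → ℕ))) (ζ : ℕ → ℕ) (t v : List ℕ) : Prop :=
  ∃ p ∈ D, ∀ i < v.length, p.1 i = ζ i ∧ p.2.1 i = t.getD i 0 ∧ p.2.2 i = v.getD i 0

/-- the initial segment of a real as a list -/
def inl (x : ℕ → ℕ) (n : ℕ) : List ℕ := (List.range n).map x

/-- positions -/
def Pos (D : Set ((ℕ → ℕ) × (ℕ → ℕ) × (ℕ → ℕ))) (ζ : ℕ → ℕ) : Set (List ℕ × List ℕ) :=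
  {p | p.2.length ≤ p.1.length ∧ App D ζ p.1 p.2}

/-- code of a pair of finite sequences -/
def pc (p : List ℕ × List ℕ) : ℕ := Nat.pair (Encodable.encode p.1) (Encodable.encode p.2)

/-- the set of pairs of finite sequences coded by a real -/
def PG (G : ℕ → ℕ) : Set (List ℕ × List ℕ) := {p | G (pc p) = 0}

/-- `t'` is a proper extension of `t` that obeys the strategy `σ` beyond `t` -/
def Obey (σ : ℕ → ℕ) (t t' : List ℕ) : Prop :=
  t <+: t' ∧ t ≠ t' ∧ ∀ k, t.length ≤ k → k < t'.length → σ (Encodable.encode (t'.take k)) ≤ t'.getD k 0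

/-- the strategy `σ` avoids `G` from the position `(t, v)` -/
def Avoid (σ : ℕ → ℕ) (G : Set (List ℕ × List ℕ)) (t v : List ℕ) : Prop :=
  ∀ t', Obey σ t t' → ∀ a, (t', v ++ [a]) ∉ G

/-- approximations of strategies that avoid `G` from the position `(t, v)` -/
def Sg (G : Set (List ℕ × List ℕ)) (t v s : List ℕ) : Prop :=
  ∀ t' a, (t', v ++ [a]) ∈ G → t <+: t' → t ≠ t' →
    (∀ k, t.length ≤ k → k < t'.length → Encodable.encode (t'.take k) < s.length) →
    ∃ k, t.length ≤ k ∧ k < t'.length ∧ t'.getD k 0 < s.getD (Encodable.encode (t'.take k)) 0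

/-- the certificate -/
def Ucert (D : Set ((ℕ → ℕ) × (ℕ → ℕ) × (ℕ → ℕ))) (ζ : ℕ → ℕ) (t : List ℕ) (g : ℕ → ℕ) : Prop :=
  ∃ G ρ : ℕ → ℕ, (t, []) ∈ PG G ∧ PG G ⊆ Pos D ζ ∧
    ∀ p ∈ PG G, ∀ (s : List ℕ) (k : ℕ), Sg (PG G) p.1 p.2 (s ++ [k]) →
      rel g (ρ (Nat.pair (pc p) (Encodable.encode (s ++ [k])))) (ρ (Nat.pair (pc p) (Encodable.encode s)))

section

variable {D : Set ((ℕ → ℕ) × (ℕ → ℕ) × (ℕ → ℕ))}

theorem inl_length (x : ℕ → ℕ) (n : ℕ) : (inl x n).length = n := by
  unfold inl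
  rw [List.length_map, List.length_range]

theorem inl_getD (x : ℕ → ℕ) {n i : ℕ} (h : i < n) : (inl x n).getD i 0 = x i := by
  unfold inl
  have h1 : i < ((List.range n).map x).length := by
    rw [List.length_map, List.length_range]
    exact h
  rw [List.getD_eq_getElem _ _ h1, List.getElem_map, List.getElem_range]

theorem app_inl {ζ z v : ℕ → ℕ} (h : (ζ, z, v) ∈ D) {n m : ℕ} (hm : m ≤ n) : App D ζ (inl z n) (inl v m) := by
  refine ⟨(ζ, z, v), h, fun i hi => ?_⟩
  rw [inl_length] at hi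
  exact ⟨rfl, (inl_getD z (lt_of_lt_of_le hi hm)).symm, (inl_getD v hi).symm⟩

theorem mem_of_app (hD : IsClosed D) {ζ z v : ℕ → ℕ} (h : ∀ n, ∃ m ≥ n, App D ζ (inl z m) (inl v n)) :
    (ζ, z, v) ∈ D := by
  have h1 : ∀ n, ∃ p ∈ D, ∀ i < n, p.1 i = ζ i ∧ p.2.1 i = z i ∧ p.2.2 i = v i := by
    intro n
    obtain ⟨m, hm, p, hp, h2⟩ := h n
    refine ⟨p, hp, fun i hi => ?_⟩
    have h3 := h2 i (by rw [inl_length]; exact hi)
    rw [inl_getD z (lt_of_lt_of_le hi hm), inl_getD v hi] at h3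
    exact h3
  choose p hp h2 using h1
  refine hD.mem_of_tendsto (f := p) (b := atTop) ?_ (Eventually.of_forall hp)
  have t1 : Tendsto (fun n => (p n).1) atTop (𝓝 ζ) := by
    rw [tendsto_pi_nhds]
    intro i
    refine tendsto_const_nhds.congr' ?_
    filter_upwards [eventually_gt_atTop i] with n hn
    exact (h2 n i hn).1.symm
  have t2 : Tendsto (fun n => (p n).2.1) atTop (𝓝 z) := by
    rw [tendsto_pi_nhds]
    intro i
    refine tendsto_const_nhds.congr' ?_
    filter_upwards [eventually_gt_atTop i] with n hn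
    exact (h2 n i hn).2.1.symm
  have t3 : Tendsto (fun n => (p n).2.2) atTop (𝓝 v) := by
    rw [tendsto_pi_nhds]
    intro i
    refine tendsto_const_nhds.congr' ?_
    filter_upwards [eventually_gt_atTop i] with n hn
    exact (h2 n i hn).2.2.symm
  exact t1.prodMk_nhds (t2.prodMk_nhds t3)

theorem sg_init {G : Set (List ℕ × List ℕ)} {t v s : List ℕ} {k : ℕ} (h : Sg G t v (s ++ [k])) : Sg G t v s := by
  intro t' a ha h1 h2 h3
  obtain ⟨j, h4, h5, h6⟩ := h t' a ha h1 h2 (fun j h4 h5 => by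
    rw [List.length_append]
    exact (h3 j h4 h5).trans_le (Nat.le_add_right _ _))
  refine ⟨j, h4, h5, ?_⟩
  rw [List.getD_append _ _ _ _ (h3 j h4 h5)] at h6
  exact h6

theorem avoid_iff_sg {G : Set (List ℕ × List ℕ)} {t v : List ℕ} {σ : ℕ → ℕ} :
    Avoid σ G t v ↔ ∀ n, Sg G t v (inl σ n) := by
  constructor
  · intro h n t' a ha h1 h2 h3
    by_contra hc
    push Not at hc
    refine h t' ⟨h1, h2, fun k h4 h5 => ?_⟩ a ha
    have h6 := hc k h4 h5
    have h7 := h3 k h4 h5
    rw [inl_length] at h7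
    rw [inl_getD σ h7] at h6
    exact h6
  · intro h t' ht a ha
    obtain ⟨n, hn⟩ : ∃ n, ∀ k < t'.length, Encodable.encode (t'.take k) < n := by
      refine ⟨∑ k ∈ Finset.range t'.length, (Encodable.encode (t'.take k)) + 1, fun k hk => ?_⟩
      refine Nat.lt_succ_of_le ?_
      exact Finset.single_le_sum (f := fun k => Encodable.encode (t'.take k))
        (fun _ _ => Nat.zero_le _) (Finset.mem_range.2 hk)
    obtain ⟨k, h4, h5, h6⟩ := h n t' a ha ht.1 ht.2.1 (fun k _ h5 => by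
      rw [inl_length]
      exact hn k h5)
    rw [inl_getD σ (hn k h5)] at h6
    exact absurd (ht.2.2 k h4 h5) (not_le.2 h6)

end

end Pool.Agent.H19.GP
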