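import Pool.Agent.H19.GP.Cap

/-!
# Goldstern's principle: random reals over a model

PROOFS.
* `cap2`: `G = {(x, y) | ∃ q', (x, y, q') ∈ F₂}` with `F₂` closed (`AnalyticSet.exists_closed`, after reassociation).  Apply `cap` to the closed set
  `F' = {(x, y, q) | (x, y, lf q) ∈ F ∧ (x, y, rt q) ∈ F₂}`.  If `q ≤ τ` pointwise then `lf q ≤ τ` pointwise (`Nat.unpair_left_le`), so `Bt F' x τ ⊆ Bt F x τ ∩ G_x`.
* `an_null`: `cap2` with `F = ` everything (`Set.univ`), or `cap` for the closed set of `G`.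
* `rnd_null`: from `an_null`.
-/

set_option autoImplicit false

universe u

namespace Pool.Agent.H19.GP

open Pool.Agent.H17.Omega Pool.Agent.H17.GP
open MeasureTheory Topology Filter

theorem cap2 {X : Type} [TopologicalSpace X] [RT X] {F : Set (X × (ℕ → Bool) × (ℕ → ℕ))} (hF : IsClosed F)
    {G : Set (X × (ℕ → Bool))} (hG : AnalyticSet G) :
    ∀ᶠ K in ctmF.{u}, ∀ x, In K x → (∃ w ∈ Rl K, ∀ y q, (x, y, q) ∈ F → (x, y) ∈ G → y ∈ Nw w) ∨
      ∃ τ ∈ Rl K, 0 < lam (Bt F x τ ∩ {y | (x, y) ∈ G}) := by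
  have hT : T2Space X := (RT.emb (X := X)).isEmbedding.t2Space
  obtain ⟨F₂, hF₂, h2⟩ := AnalyticSet.exists_closed hG
  have hF' : IsClosed {p : X × (ℕ → Bool) × (ℕ → ℕ) |
      (p.1, p.2.1, lf p.2.2) ∈ F ∧ ((p.1, p.2.1), rt p.2.2) ∈ F₂} := by
    refine IsClosed.inter (hF.preimage ?_) (hF₂.preimage ?_)
    · exact continuous_fst.prodMk ((continuous_fst.comp continuous_snd).prodMk
        (continuous_lf.comp (continuous_snd.comp continuous_snd)))
    · exact (continuous_fst.prodMk (continuous_fst.comp continuous_snd)).prodMk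
        (continuous_rt.comp (continuous_snd.comp continuous_snd))
  filter_upwards [cap hF'] with K h x hx
  rcases h x hx with ⟨w, hw, h1⟩ | ⟨τ, hτ, h1⟩
  · refine Or.inl ⟨w, hw, fun y q hq hy => ?_⟩
    obtain ⟨q₂, hq₂⟩ := (h2 (x, y)).1 hy
    refine h1 y (jn q q₂) ⟨?_, ?_⟩
    · rw [lf_jn]
      exact hq
    · rw [rt_jn]
      exact hq₂
  · refine Or.inr ⟨τ, hτ, h1.trans_le (measure_mono ?_)⟩
    rintro y ⟨q, hq, h3, h4⟩
    exact ⟨⟨lf q, fun n => (Nat.unpair_left_le _).trans (hq n), h3⟩, (h2 (x, y)).2 ⟨rt q, h4⟩⟩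

theorem an_null {X : Type} [TopologicalSpace X] [RT X] {G : Set (X × (ℕ → Bool))} (hG : AnalyticSet G) :
    ∀ᶠ K in ctmF.{u}, ∀ x, In K x → lam {y | (x, y) ∈ G} = 0 → ∃ w ∈ Rl K, ∀ y, (x, y) ∈ G → y ∈ Nw w := by
  filter_upwards [cap2 (F := (Set.univ : Set (X × (ℕ → Bool) × (ℕ → ℕ)))) isClosed_univ hG] with K h x hx h0
  rcases h x hx with ⟨w, hw, h1⟩ | ⟨τ, hτ, h1⟩
  · exact ⟨w, hw, fun y hy => h1 y (fun _ => 0) (Set.mem_univ _) hy⟩
  · exact absurd (h1.trans_le (measure_mono Set.inter_subset_right)) (by rw [h0]; exact lt_irrefl _)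

/-- `y` is random over `K`. -/
def Rnd (K : Set ZFSet.{u}) (y : ℕ → Bool) : Prop := ∀ w ∈ Rl K, y ∉ Nw w

theorem rnd_null {X : Type} [TopologicalSpace X] [RT X] {G : Set (X × (ℕ → Bool))} (hG : AnalyticSet G) :
    ∀ᶠ K in ctmF.{u}, ∀ x, In K x → ∀ y, Rnd K y → lam {y | (x, y) ∈ G} = 0 → (x, y) ∉ G := by
  filter_upwards [an_null hG] with K h x hx y hy h0 hxy
  obtain ⟨w, hw, h1⟩ := h x hx h0
  exact hy w hw (h1 y hxy)

end Pool.Agent.H19.GP
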