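import Pool.Agent.H19.GP.Rnd

/-!
# Goldstern's principle: `Σ¹₂` statements as unions of analytic sets

`Wsig`: closed relation; `(c, g), y, x, q` is in it if `q = jn z h` where `z` is the witness for `∃ z ∀ w, (x, b2n y, z, w) ∈ O_c` and `h` maps the tree of the `w` that
avoid the open set order-preservingly into the relation coded by `g`.

PROOFS.
* `isClosed_Wsig`: an intersection over `s : List ℕ`, `k` of clopen sets (each condition depends on finitely many values; `c` and `rt q`, `g` are evaluated at numbers computed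
  from `x, y, lf q, rt q`: locally constant).
* `wsig_of_sig`: let `z ∈ Rl N` be the witness, `T = TrS c x (b2n y) z` (a tree: closed under initial segments).  `g₀ (Nat.pair i j) = 0 ↔ ∃ s k, i = encode (s ++ [k]) ∧ j = encode s ∧ s ++ [k] ∈ T`;
  `g₀ ∈ Rl N` by `In_fun` (Borel function of `(c, x, y, z)`).  `Wf g₀`: an infinite descending sequence gives `w : ℕ → ℕ` with `w|n ∈ T` for all `n`, by `solve` (closed relation) there is
  such a `w` in `N`, contradicting `Opn`.  `Sys.wo` gives `g ∈ Rl (K 0)`, `Wf g`, `e`; then `h := e` works: `q = jn z e`.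
* `sig_of_wsig`: by `solve` there is `q` in `N`; `z = lf q`; if `w ∈ Rl N` were not in the open set then `rt q (ini w n)` would be an infinite descending sequence of `rel g`.
-/

set_option autoImplicit false

universe u

namespace Pool.Agent.H19.GP

open Pool.Agent.H17.Omega Pool.Agent.H17.GP
open MeasureTheory Topology Filter

/-- the tree of the `w` that avoid the open set -/
def TrS (c x y z : ℕ → ℕ) (s : List ℕ) : Prop :=
  ∀ m, m ≤ s.length → c (Nat.pair (Nat.pair (ini x m) (ini y m)) (Nat.pair (ini z m) (Encodable.encode (s.take m)))) ≠ 0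

/-- the closed relation -/
def Wsig : Set (((ℕ → ℕ) × (ℕ → ℕ)) × (ℕ → Bool) × (ℕ → ℕ) × (ℕ → ℕ)) :=
  {p | ∀ (s : List ℕ) (k : ℕ), TrS p.1.1 p.2.2.1 (b2n p.2.1) (lf p.2.2.2) (s ++ [k]) →
    rel p.1.2 (rt p.2.2.2 (Encodable.encode (s ++ [k]))) (rt p.2.2.2 (Encodable.encode s))}

theorem sig_analytic {X : Type} [TopologicalSpace X] [RT X] {S : Set X} (hS : IsClosed S) :
    AnalyticSet S := by
  have : PolishSpace X := (RT.emb (X := X)).polishSpace
  exact hS.analyticSet

/-! ### Continuity -/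

theorem sig_cont_ini (n : ℕ) : Continuous (fun x : ℕ → ℕ => ini x n) := by
  induction n with
  | zero =>
    have h : (fun x : ℕ → ℕ => ini x 0) = fun _ => 0 := by
      funext x
      exact ini_zero x
    rw [h]
    exact continuous_const
  | succ n ih =>
    have h : (fun x : ℕ → ℕ => ini x (n + 1)) = fun x => snocN (ini x n) (x n) := by
      funext x
      exact ini_succ x n
    rw [h]
    exact (continuous_of_discreteTopology (f := fun p : ℕ × ℕ => snocN p.1 p.2)).comp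
      (ih.prodMk (continuous_apply n))

theorem sig_cont_eval : Continuous (fun p : (ℕ → ℕ) × ℕ => p.1 p.2) := by
  rw [continuous_prod_of_discrete_right]
  intro n
  exact continuous_apply n

/-- the value tested by `TrS` and `Opn` -/
def sigV (c x y z : ℕ → ℕ) (m t : ℕ) : ℕ :=
  c (Nat.pair (Nat.pair (ini x m) (ini y m)) (Nat.pair (ini z m) t))

section

variable {P : Type} [TopologicalSpace P] {c x y z : P → ℕ → ℕ}

theorem sig_cont_V (hc : Continuous c) (hx : Continuous x) (hy : Continuous y)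
    (hz : Continuous z) (m : ℕ) {t : P → ℕ} (ht : Continuous t) :
    Continuous (fun p => sigV (c p) (x p) (y p) (z p) m (t p)) := by
  unfold sigV
  have h1 : Continuous (fun p => (ini (x p) m, ini (y p) m, ini (z p) m, t p)) :=
    ((sig_cont_ini m).comp hx).prodMk (((sig_cont_ini m).comp hy).prodMk
      (((sig_cont_ini m).comp hz).prodMk ht))
  have h2 : Continuous (fun p => Nat.pair (Nat.pair (ini (x p) m) (ini (y p) m))
      (Nat.pair (ini (z p) m) (t p))) :=
    (continuous_of_discreteTopology (f := fun k : ℕ × ℕ × ℕ × ℕ =>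
      Nat.pair (Nat.pair k.1 k.2.1) (Nat.pair k.2.2.1 k.2.2.2))).comp h1
  exact sig_cont_eval.comp (hc.prodMk h2)

theorem sig_clopen_T (hc : Continuous c) (hx : Continuous x) (hy : Continuous y)
    (hz : Continuous z) (s : List ℕ) : IsClopen {p | TrS (c p) (x p) (y p) (z p) s} := by
  have h1 : {p | TrS (c p) (x p) (y p) (z p) s} = ⋂ m ∈ Finset.range (s.length + 1),
      {p | sigV (c p) (x p) (y p) (z p) m (Encodable.encode (s.take m)) ≠ 0} := by
    ext p
    simp only [Set.mem_setOf_eq, Set.mem_iInter, Finset.mem_range, Nat.lt_succ_iff]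
    exact Iff.rfl
  rw [h1]
  refine isClopen_biInter_finset fun m _ => ?_
  exact (isClopen_discrete ({0}ᶜ : Set ℕ)).preimage
    (sig_cont_V hc hx hy hz m continuous_const)

/-- the code of the relation of the tree -/
noncomputable def sigG (c x y z : ℕ → ℕ) (n : ℕ) : ℕ := by
  classical
  exact if ∃ (s : List ℕ) (k : ℕ), n.unpair.1 = Encodable.encode (s ++ [k]) ∧
    n.unpair.2 = Encodable.encode s ∧ TrS c x y z (s ++ [k]) then 0 else 1

theorem sig_rel_G (c x y z : ℕ → ℕ) (i j : ℕ) : rel (sigG c x y z) i j ↔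
    ∃ (s : List ℕ) (k : ℕ), i = Encodable.encode (s ++ [k]) ∧ j = Encodable.encode s ∧
      TrS c x y z (s ++ [k]) := by
  classical
  unfold rel sigG
  rw [Nat.unpair_pair]
  constructor
  · intro h
    by_contra hc
    rw [if_neg hc] at h
    exact one_ne_zero h
  · intro h
    rw [if_pos h]

theorem sig_cont_G (hc : Continuous c) (hx : Continuous x) (hy : Continuous y)
    (hz : Continuous z) : Continuous (fun p => sigG (c p) (x p) (y p) (z p)) := by
  classical
  refine continuous_pi fun n => ?_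
  have hcl : IsClopen {p | ∃ (s : List ℕ) (k : ℕ), n.unpair.1 = Encodable.encode (s ++ [k]) ∧
      n.unpair.2 = Encodable.encode s ∧ TrS (c p) (x p) (y p) (z p) (s ++ [k])} := by
    by_cases h : ∃ (s : List ℕ) (k : ℕ), n.unpair.1 = Encodable.encode (s ++ [k]) ∧
      n.unpair.2 = Encodable.encode s
    · obtain ⟨s, k, h1, h2⟩ := h
      convert sig_clopen_T hc hx hy hz (s ++ [k]) using 1
      ext p
      constructor
      · rintro ⟨s', k', h3, h4, h5⟩
        have h6 : s' ++ [k'] = s ++ [k] := Encodable.encode_injective (h3.symm.trans h1)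
        rw [h6] at h5
        exact h5
      · intro h5
        exact ⟨s, k, h1, h2, h5⟩
    · have h0 : {p | ∃ (s : List ℕ) (k : ℕ), n.unpair.1 = Encodable.encode (s ++ [k]) ∧
          n.unpair.2 = Encodable.encode s ∧ TrS (c p) (x p) (y p) (z p) (s ++ [k])} = ∅ := by
        ext p
        simp only [Set.mem_setOf_eq, Set.mem_empty_iff_false, iff_false]
        rintro ⟨s, k, h1, h2, _⟩
        exact h ⟨s, k, h1, h2⟩
      rw [h0]
      exact isClopen_empty
  exact Continuous.if (fun a ha => by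
    rw [hcl.frontier_eq] at ha
    exact absurd ha (Set.notMem_empty _)) continuous_const continuous_const

end

theorem isClosed_Wsig : IsClosed Wsig := by
  have h1 : Wsig = ⋂ (s : List ℕ) (k : ℕ), {p : ((ℕ → ℕ) × (ℕ → ℕ)) × (ℕ → Bool) × (ℕ → ℕ) × (ℕ → ℕ) |
      TrS p.1.1 p.2.2.1 (b2n p.2.1) (lf p.2.2.2) (s ++ [k]) →
      rel p.1.2 (rt p.2.2.2 (Encodable.encode (s ++ [k]))) (rt p.2.2.2 (Encodable.encode s))} := by
    ext p
    simp only [Set.mem_iInter]
    exact Iff.rfl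
  rw [h1]
  refine isClosed_iInter fun s => isClosed_iInter fun k => ?_
  have hq : Continuous (fun p : ((ℕ → ℕ) × (ℕ → ℕ)) × (ℕ → Bool) × (ℕ → ℕ) × (ℕ → ℕ) =>
    rt p.2.2.2) := continuous_rt.comp (continuous_snd.comp (continuous_snd.comp continuous_snd))
  refine isClosed_imp ?_ ?_
  · exact (sig_clopen_T (P := ((ℕ → ℕ) × (ℕ → ℕ)) × (ℕ → Bool) × (ℕ → ℕ) × (ℕ → ℕ))
      (c := fun p => p.1.1) (x := fun p => p.2.2.1) (y := fun p => b2n p.2.1)
      (z := fun p => lf p.2.2.2) (continuous_fst.comp continuous_fst)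
      (continuous_fst.comp (continuous_snd.comp continuous_snd))
      (continuous_b2n.comp (continuous_fst.comp continuous_snd))
      (continuous_lf.comp (continuous_snd.comp (continuous_snd.comp continuous_snd)))
      (s ++ [k])).isOpen
  · unfold rel
    refine isClosed_eq ?_ continuous_const
    have h2 : Continuous (fun p : ((ℕ → ℕ) × (ℕ → ℕ)) × (ℕ → Bool) × (ℕ → ℕ) × (ℕ → ℕ) =>
        Nat.pair (rt p.2.2.2 (Encodable.encode (s ++ [k]))) (rt p.2.2.2 (Encodable.encode s))) :=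
      (continuous_of_discreteTopology (f := fun k : ℕ × ℕ => Nat.pair k.1 k.2)).comp
        (((continuous_apply _).comp hq).prodMk ((continuous_apply _).comp hq))
    exact sig_cont_eval.comp ((continuous_snd.comp continuous_fst).prodMk h2)

/-! ### Branches -/

theorem sig_branch {c x y z : ℕ → ℕ} (h : ¬ Wf (sigG c x y z)) :
    ∃ w : ℕ → ℕ, ∀ m, sigV c x y z m (ini w m) ≠ 0 := by
  unfold Wf at h
  rw [wellFounded_iff_isEmpty_descending_chain, not_isEmpty_iff] at h
  obtain ⟨f, hf⟩ := h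
  have h0 := fun n => (sig_rel_G c x y z _ _).1 (hf n)
  choose S k h1 h2 h3 using h0
  have hS : ∀ n, S (n + 1) = S n ++ [k n] := fun n =>
    Encodable.encode_injective ((h2 (n + 1)).symm.trans (h1 n))
  have hlen : ∀ n, (S n).length = (S 0).length + n := by
    intro n
    induction n with
    | zero => rfl
    | succ n ih =>
      rw [hS, List.length_append, ih]
      simp [Nat.add_assoc]
  have hget : ∀ n j i, i < (S n).length → (S (n + j)).getD i 0 = (S n).getD i 0 := by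
    intro n j i hi
    induction j with
    | zero => rfl
    | succ j ih =>
      rw [← ih, ← Nat.add_assoc, hS]
      refine List.getD_append _ _ _ _ ?_
      rw [hlen] at hi ⊢
      omega
  refine ⟨fun i => (S (i + 1)).getD i 0, fun m => ?_⟩
  have hT : TrS c x y z (S (m + 1)) := by
    rw [hS]
    exact h3 m
  have h4 := hT m (by rw [hlen]; omega)
  have h5 : (S (m + 1)).take m = (List.range m).map (fun i => (S (i + 1)).getD i 0) := by
    apply List.ext_getElem
    · rw [List.length_take, hlen, List.length_map, List.length_range]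
      omega
    · intro i hi1 hi2
      rw [List.length_map, List.length_range] at hi2
      rw [List.getElem_take, List.getElem_map, List.getElem_range]
      have h6 := hget (i + 1) (m - i) i (by rw [hlen]; omega)
      have h7 : i + 1 + (m - i) = m + 1 := by omega
      rw [h7] at h6
      rw [← h6, List.getD_eq_getElem]
  rw [h5] at h4
  exact h4

theorem sig_opn {c x y z w : ℕ → ℕ} : Opn c x y z w ↔ ∃ m, sigV c x y z m (ini w m) = 0 :=
  Iff.rfl

theorem sig_ini (w : ℕ → ℕ) (n m : ℕ) (h : m ≤ n) :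
    ((List.range n).map w).take m = (List.range m).map w := by
  rw [← List.map_take, List.take_range, Nat.min_eq_left h]


theorem sig_ev1 : ∀ᶠ N in ctmF.{u}, ∀ p : (ℕ → ℕ) × (ℕ → ℕ) × (ℕ → Bool) × (ℕ → ℕ), In N p →
    In N (sigG p.1 p.2.1 (b2n p.2.2.1) p.2.2.2) := by
  have hf : Continuous (fun p : (ℕ → ℕ) × (ℕ → ℕ) × (ℕ → Bool) × (ℕ → ℕ) =>
      sigG p.1 p.2.1 (b2n p.2.2.1) p.2.2.2) :=
    sig_cont_G continuous_fst (continuous_fst.comp continuous_snd)
      (continuous_b2n.comp (continuous_fst.comp (continuous_snd.comp continuous_snd)))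
      (continuous_snd.comp (continuous_snd.comp continuous_snd))
  have hg : IsClosed {p : ((ℕ → ℕ) × (ℕ → ℕ) × (ℕ → Bool) × (ℕ → ℕ)) × (ℕ → ℕ) |
      p.2 = (fun p : (ℕ → ℕ) × (ℕ → ℕ) × (ℕ → Bool) × (ℕ → ℕ) =>
        sigG p.1 p.2.1 (b2n p.2.2.1) p.2.2.2) p.1} :=
    isClosed_eq continuous_snd (hf.comp continuous_fst)
  exact In_fun.{u} (sig_analytic hg)

/-- the closed relation `w` avoids the open set -/
def sigR : Set (((ℕ → ℕ) × (ℕ → ℕ) × (ℕ → Bool) × (ℕ → ℕ)) × (ℕ → ℕ)) :=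
  {p | ∀ m, sigV p.1.1 p.1.2.1 (b2n p.1.2.2.1) p.1.2.2.2 m (ini p.2 m) ≠ 0}

theorem sig_R_closed : IsClosed sigR := by
  have h1 : sigR = ⋂ m, {p | sigV p.1.1 p.1.2.1 (b2n p.1.2.2.1) p.1.2.2.2 m (ini p.2 m) ≠ 0} := by
    ext p
    simp only [Set.mem_iInter]
    exact Iff.rfl
  rw [h1]
  refine isClosed_iInter fun m => ?_
  refine ((isClopen_discrete ({0}ᶜ : Set ℕ)).preimage (sig_cont_V
      (P := ((ℕ → ℕ) × (ℕ → ℕ) × (ℕ → Bool) × (ℕ → ℕ)) × (ℕ → ℕ))
      (c := fun p => p.1.1) (x := fun p => p.1.2.1) (y := fun p => b2n p.1.2.2.1)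
      (z := fun p => p.1.2.2.2) ?_ ?_ ?_ ?_ m (t := fun p => ini p.2 m) ?_)).isClosed
  · exact continuous_fst.comp continuous_fst
  · exact continuous_fst.comp (continuous_snd.comp continuous_fst)
  · exact continuous_b2n.comp (continuous_fst.comp (continuous_snd.comp
        (continuous_snd.comp continuous_fst)))
  · exact continuous_snd.comp (continuous_snd.comp (continuous_snd.comp continuous_fst))
  · exact (sig_cont_ini m).comp continuous_snd

theorem sig_ev2 : ∀ᶠ N in ctmF.{u}, ∀ p : (ℕ → ℕ) × (ℕ → ℕ) × (ℕ → Bool) × (ℕ → ℕ), In N p →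
    ∀ w : ℕ → ℕ, (p, w) ∈ sigR → ∃ w', In N w' ∧ (p, w') ∈ sigR :=
  solve.{u} (sig_analytic sig_R_closed)

theorem sig_wf {N : Set ZFSet.{u}} {c x z : ℕ → ℕ} {y : ℕ → Bool}
    (hin : In N ((c, x, y, z) : (ℕ → ℕ) × (ℕ → ℕ) × (ℕ → Bool) × (ℕ → ℕ)))
    (k2 : ∀ p : (ℕ → ℕ) × (ℕ → ℕ) × (ℕ → Bool) × (ℕ → ℕ), In N p →
    ∀ w : ℕ → ℕ, (p, w) ∈ sigR → ∃ w', In N w' ∧ (p, w') ∈ sigR)
    (hw : ∀ w ∈ Rl N, Opn c x (b2n y) z w) : Wf (sigG c x (b2n y) z) := by
  by_contra hcon
  obtain ⟨w, h3⟩ := sig_branch hcon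
  obtain ⟨w', h4, h5⟩ := k2 _ hin w h3
  obtain ⟨m, h6⟩ := sig_opn.1 (hw w' h4)
  exact h5 m h6


theorem sig_wsig_mem {c x z g e : ℕ → ℕ} {y : ℕ → Bool}
    (he : ∀ i j, rel (sigG c x (b2n y) z) i j → rel g (e i) (e j)) :
    ((c, g), y, x, jn z e) ∈ Wsig := by
  intro s k hT
  have hT' : TrS c x (b2n y) (lf (jn z e)) (s ++ [k]) := hT
  rw [lf_jn] at hT'
  change rel g (rt (jn z e) (Encodable.encode (s ++ [k]))) (rt (jn z e) (Encodable.encode s))
  rw [rt_jn]
  exact he _ _ ((sig_rel_G c x (b2n y) z _ _).2 ⟨s, k, rfl, rfl, hT'⟩)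

theorem wsig_of_sig : EvS.{u} (fun N δ K => ∀ c ∈ Rl N, ∀ x ∈ Rl N, ∀ y : ℕ → Bool, In N y →
    (∃ z ∈ Rl N, ∀ w ∈ Rl N, Opn c x (b2n y) z w) →
    ∃ g ∈ Rl (K 0), Wf g ∧ ∃ q, ((c, g), y, x, q) ∈ Wsig) := by
  refine (evS_of (sig_ev1.and (sig_ev2.and ev_ctm))).mono ?_
  rintro N δ K hS ⟨⟨k1, k2, hN⟩, _⟩ c hc x hx y hy ⟨z, hz, hw⟩
  have hin : In N ((c, x, y, z) : (ℕ → ℕ) × (ℕ → ℕ) × (ℕ → Bool) × (ℕ → ℕ)) :=
    (In_prod hN).2 ⟨hc, (In_prod hN).2 ⟨hx, (In_prod hN).2 ⟨hy, hz⟩⟩⟩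
  have hg0 : sigG c x (b2n y) z ∈ Rl N := k1 (c, x, y, z) hin
  have hwf : Wf (sigG c x (b2n y) z) := sig_wf hin k2 hw
  obtain ⟨g, hg1, hg2, e, he⟩ := hS.wo (sigG c x (b2n y) z) hg0 hwf
  exact ⟨g, hg1, hg2, jn z e, sig_wsig_mem he⟩

theorem sig_of_wsig : ∀ᶠ N in ctmF.{u}, ∀ c ∈ Rl N, ∀ g ∈ Rl N, Wf g → ∀ x ∈ Rl N, ∀ y : ℕ → Bool, In N y →
    (∃ q, ((c, g), y, x, q) ∈ Wsig) → ∃ z ∈ Rl N, ∀ w ∈ Rl N, Opn c x (b2n y) z w := by
  have hcl : IsClosed {p : (((ℕ → ℕ) × (ℕ → ℕ)) × (ℕ → Bool) × (ℕ → ℕ)) × (ℕ → ℕ) |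
      (p.1.1, p.1.2.1, p.1.2.2, p.2) ∈ Wsig} := by
    refine isClosed_Wsig.preimage ?_
    fun_prop
  filter_upwards [ev_ctm, solve (sig_analytic hcl)] with N hN h c hc g hg hwf x hx y hy ⟨q, hq⟩
  have hin : In N (((c, g), y, x) : ((ℕ → ℕ) × (ℕ → ℕ)) × (ℕ → Bool) × (ℕ → ℕ)) :=
    (In_prod hN).2 ⟨(In_prod hN).2 ⟨hc, hg⟩, (In_prod hN).2 ⟨hy, hx⟩⟩
  obtain ⟨q', hq1, hq2⟩ := h _ hin q hq
  refine ⟨lf q', lf_mem hN hq1, ?_⟩
  intro w hw
  by_contra hcon
  have h1 : ∀ m, sigV c x (b2n y) (lf q') m (ini w m) ≠ 0 := by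
    intro m hm
    exact hcon (sig_opn.2 ⟨m, hm⟩)
  have h2 : ∀ n, TrS c x (b2n y) (lf q') ((List.range n).map w) := by
    intro n m hm
    rw [List.length_map, List.length_range] at hm
    rw [sig_ini w n m hm]
    exact h1 m
  have h3 : ∀ n, rel g (rt q' (Encodable.encode ((List.range (n + 1)).map w)))
      (rt q' (Encodable.encode ((List.range n).map w))) := by
    intro n
    have h4 : (List.range (n + 1)).map w = (List.range n).map w ++ [w n] := by
      rw [List.range_succ, List.map_append]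
      rfl
    have h5 := hq2 ((List.range n).map w) (w n)
    rw [← h4] at h5
    exact h5 (h2 (n + 1))
  unfold Wf at hwf
  rw [wellFounded_iff_isEmpty_descending_chain] at hwf
  exact hwf.false ⟨fun n => rt q' (Encodable.encode ((List.range n).map w)), h3⟩

end Pool.Agent.H19.GP
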