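import Pool.Agent.H19.GP.NullF

/-!
# Goldstern's principle: the null sets of the ground model are not covered by a null set

`Vb m j = {y | ∀ i < 2 * m, y (2 * m * j + i) = true}`: for fixed `m` independent clopen sets of measure `(1/4)^m`.
PROOFS.
* `lam_Vb`: `{y | ∀ j ∈ J, y ∉ Vb m j}` has measure `(1 - (1/4)^m)^J.card`: the sets `Vb m j`, `j ∈ ℕ`, depend on disjoint blocks of coordinates (`iIndepSet`, or induction on `J` with `Measure.infinitePi`: independence of disjoint sets of coordinates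
  `iIndepFun_infinitePi`, `iIndepFun.finsets`...).
* `card_le_of_avoid`: if `H` has measure `≥ δ > 0` and `lam (H ∩ Vb m j) = 0` for all `j ∈ J` then `δ ≤ (1 - (1/4)^m)^J.card ≤ exp (- J.card / 4^m)`, so `J.card ≤ L * 4^m` for a natural number `L ≥ log (1/δ)`; `L = L(δ)` does not depend on `m`.
* `exists_slalom`: let `s_i` be an enumeration of `List Bool` (`H ∩ cyl s_i` of positive measure or not), `L i` the number of `card_le_of_avoid` for `H ∩ cyl s_i` (`0` if it is null).  `I m = {i ≤ m | ∑_{k ≤ i} L k ≤ m}`, increasing to all of `ℕ`.  Let `s m` code a list of all `j` with `lam (H ∩ cyl s_i ∩ Vb m j) = 0` for some `i ∈ I m`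
  with `0 < lam (H ∩ cyl s_i)`: at most `∑_{i ∈ I m} L i * 4^m ≤ m * 4^m`.
* `p4`.  Let `w ∈ Rl N`.  `H_w = {y | ∀ m ≥ 1, y ∉ Uk m (w m)}`: closed, `lam (H_w) ≥ 1 - ∑_{m ≥ 1} (1/4)^m = 2/3 > 0`, disjoint from `Nw w`.  By `solve` for the Borel relation between `w` and `s`: `(∀ m, (dl (s m)).length ≤ m * 4^m) ∧ ∀ t : List Bool, 0 < lam (H_w ∩ cyl t) → ∃ n, ∀ m ≥ n, ∀ j,
  lam (H_w ∩ cyl t ∩ Vb m j) = 0 → j ∈ dl (s m)` (`measurable_lam`) there is such an `s` in `N` (`exists_slalom`).  `Sys.slal` (with `b m = m * 4^m`, in `K 0` by `CTM.primrec_mem`) gives `c ∈ Rl (K 0)` with `c m ∉ dl (s m)` for infinitely many `m`.  Let `vb m j` be a code with `Uk m (vb m j) = Vb m j` (`exists_Uk`), `c' m = vb m (c m)`, `c' ∈ Rl (K 0)`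
  (the function `vb` is a real: `ev_mem`, `In_fun`).  CLAIM: in `V` there is `y ∈ Nw c'`, `y ∈ H_w`; then by `solve` there is one in `N`, and `y ∉ Nw w`.  Suppose not.  Let `H' = {y ∈ H_w | ∀ n, 0 < lam (H_w ∩ cyl (y|n))}`: closed, `lam (H_w \ H') = 0`, so nonempty, compact; for `t` with
  `cyl t ∩ H' ≠ ∅`: `0 < lam (H_w ∩ cyl t)`, and for open `O`: `lam (O ∩ H_w) = 0 → O ∩ H' = ∅`.  The sets `⋃_{m ≥ n} Vb m (c m) ∩ H'` are relatively open and their intersection over `n` is `Nw c' ∩ H' = ∅`, so by Baire one of them is not dense in `H'`: there are `n`, `t` with `cyl t ∩ H' ≠ ∅` and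
  `Vb m (c m) ∩ H' ∩ cyl t = ∅` for all `m ≥ n`, so `lam (H_w ∩ cyl t ∩ Vb m (c m)) = 0` (`lam (H_w \ H') = 0`), so `c m ∈ dl (s m)` for all large `m`, contradiction.
-/

set_option autoImplicit false
set_option linter.unusedVariables false

universe u

namespace Pool.Agent.H19.GP

open Pool.Agent.H17.Omega Pool.Agent.H17.GP
open MeasureTheory Topology Filter

/-- For fixed `m`, independent sets of measure `(1/4)^m`. -/
def Vb (m j : ℕ) : Set (ℕ → Bool) := {y | ∀ i < 2 * m, y (2 * m * j + i) = true}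

theorem isClopen_Vb (m j : ℕ) : IsClopen (Vb m j) := by
  have h : Vb m j = ⋂ i ∈ Finset.range (2 * m), {y : ℕ → Bool | y (2 * m * j + i) = true} := by
    ext y
    simp only [Set.mem_iInter, Finset.mem_range]
    rfl
  rw [h]
  refine isClopen_biInter_finset fun i _ => ?_
  exact (isClopen_discrete ({true} : Set Bool)).preimage (continuous_apply (2 * m * j + i))

/-- the coordinates of the blocks in `S` -/
def slm_T (m : ℕ) (S : Finset ℕ) : Finset ℕ :=
  S.biUnion fun j => (Finset.range (2 * m)).image (fun i => 2 * m * j + i)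

theorem slm_card (m : ℕ) (S : Finset ℕ) : (slm_T m S).card = S.card * (2 * m) := by
  rw [slm_T, Finset.card_biUnion]
  · have h : ∀ j ∈ S, ((Finset.range (2 * m)).image (fun i => 2 * m * j + i)).card = 2 * m := by
      intro j _
      rw [Finset.card_image_of_injective _ (add_right_injective _), Finset.card_range]
    rw [Finset.sum_congr rfl h, Finset.sum_const, smul_eq_mul]
  · intro j _ j' _ hjj
    rw [Function.onFun, Finset.disjoint_left]
    intro x hx hx'
    obtain ⟨i, hi, rfl⟩ := Finset.mem_image.1 hx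
    obtain ⟨i', hi', h⟩ := Finset.mem_image.1 hx'
    rw [Finset.mem_range] at hi hi'
    have h1 : (2 * m * j' + i') / (2 * m) = j' := by
      rw [Nat.mul_add_div (by omega), Nat.div_eq_of_lt hi', add_zero]
    have h2 : (2 * m * j + i) / (2 * m) = j := by
      rw [Nat.mul_add_div (by omega), Nat.div_eq_of_lt hi, add_zero]
    apply hjj
    rw [← h2, ← h1, h]

theorem slm_base (m : ℕ) (S : Finset ℕ) :
    lam {y | ∀ j ∈ S, y ∈ Vb m j} = ((1 / 4) ^ m) ^ S.card := by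
  have h : {y | ∀ j ∈ S, y ∈ Vb m j} = Set.pi (slm_T m S : Set ℕ) (fun _ => {true}) := by
    ext y
    rw [Set.mem_pi]
    constructor
    · intro hy x hx
      rw [Finset.mem_coe, slm_T, Finset.mem_biUnion] at hx
      obtain ⟨j, hj, hx⟩ := hx
      obtain ⟨i, hi, rfl⟩ := Finset.mem_image.1 hx
      exact hy j hj i (Finset.mem_range.1 hi)
    · intro hy j hj i hi
      refine hy _ ?_
      rw [Finset.mem_coe, slm_T, Finset.mem_biUnion]
      exact ⟨j, hj, Finset.mem_image.2 ⟨i, Finset.mem_range.2 hi, rfl⟩⟩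
  rw [h, lam, Measure.infinitePi_pi _ (fun i _ => MeasurableSet.singleton _)]
  simp only [meas_coin_singleton, Finset.prod_const, slm_card]
  have h4 : (1 / 4 : ENNReal) = (1 / 2) ^ 2 := by
    rw [one_div, one_div, ← ENNReal.inv_pow]
    norm_num
  rw [h4, ← pow_mul, ← pow_mul]
  congr 1
  ring

theorem slm_q (m : ℕ) : ((1 / 4 : ENNReal) ^ m) ≤ 1 :=
  pow_le_one₀ (zero_le) (by
    rw [one_div]
    exact ENNReal.inv_le_one.2 (by norm_num))

theorem slm_gen (m : ℕ) (J : Finset ℕ) : ∀ S : Finset ℕ, Disjoint S J →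
    lam {y | (∀ j ∈ S, y ∈ Vb m j) ∧ ∀ j ∈ J, y ∉ Vb m j} =
      ((1 / 4) ^ m) ^ S.card * (1 - (1 / 4) ^ m) ^ J.card := by
  classical
  have hmeas : ∀ S J : Finset ℕ,
      MeasurableSet {y : ℕ → Bool | (∀ j ∈ S, y ∈ Vb m j) ∧ ∀ j ∈ J, y ∉ Vb m j} := by
    intro S J
    have h : {y : ℕ → Bool | (∀ j ∈ S, y ∈ Vb m j) ∧ ∀ j ∈ J, y ∉ Vb m j} =
        (⋂ j ∈ S, Vb m j) ∩ ⋂ j ∈ J, (Vb m j)ᶜ := by
      ext y
      simp only [Set.mem_inter_iff, Set.mem_iInter, Set.mem_compl_iff]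
      rfl
    rw [h]
    exact (Finset.measurableSet_biInter _ fun j _ => (isClopen_Vb m j).1.measurableSet).inter
      (Finset.measurableSet_biInter _ fun j _ => (isClopen_Vb m j).1.measurableSet.compl)
  induction J using Finset.induction_on with
  | empty =>
    intro S _
    rw [Finset.card_empty, pow_zero, mul_one, ← slm_base]
    congr 1
    ext y
    simp
  | insert j J hj ih =>
    intro S hS
    have hjS : j ∉ S := fun h => Finset.disjoint_left.1 hS h (Finset.mem_insert_self _ _)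
    have hSJ : Disjoint S J := hS.mono_right (Finset.subset_insert _ _)
    have hSJ' : Disjoint (insert j S) J := by
      rw [Finset.disjoint_insert_left]
      exact ⟨hj, hSJ⟩
    have h1 : {y : ℕ → Bool | (∀ j ∈ S, y ∈ Vb m j) ∧ ∀ j' ∈ insert j J, y ∉ Vb m j'} =
        {y | (∀ j ∈ S, y ∈ Vb m j) ∧ ∀ j ∈ J, y ∉ Vb m j} \
        {y | (∀ j' ∈ insert j S, y ∈ Vb m j') ∧ ∀ j ∈ J, y ∉ Vb m j} := by
      ext y
      simp only [Set.mem_ofPred_eq, Set.mem_sdiff, Finset.mem_insert, forall_eq_or_imp]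
      tauto
    rw [h1, measure_sdiff _ (hmeas _ _).nullMeasurableSet (measure_ne_top _ _), ih S hSJ,
      ih _ hSJ', Finset.card_insert_of_notMem hjS, Finset.card_insert_of_notMem hj, pow_succ,
      pow_succ, ← mul_assoc]
    · have hfin : ((1 / 4 : ENNReal) ^ m) ^ S.card * (1 - (1 / 4) ^ m) ^ J.card ≠ ⊤ := by
        refine ENNReal.mul_ne_top (ENNReal.pow_ne_top ?_) (ENNReal.pow_ne_top ?_)
        · exact ne_top_of_le_ne_top ENNReal.one_ne_top (slm_q m)
        · exact ne_top_of_le_ne_top ENNReal.one_ne_top tsub_le_self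
      rw [ENNReal.mul_sub (fun _ _ => hfin), mul_one]
      congr 1
      ring
    · intro y hy
      exact ⟨fun j' hj' => hy.1 j' (Finset.mem_insert_of_mem hj'), hy.2⟩

theorem lam_Vb (m : ℕ) (J : Finset ℕ) : lam {y | ∀ j ∈ J, y ∉ Vb m j} = (1 - (1 / 4) ^ m) ^ J.card := by
  have h := slm_gen m J ∅ (Finset.disjoint_empty_left _)
  rw [Finset.card_empty, pow_zero, one_mul] at h
  rw [← h]
  congr 1
  ext y
  simp

theorem lam_Vb' (m j : ℕ) : lam (Vb m j) = (1 / 4) ^ m := by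
  have h := slm_base m {j}
  rw [Finset.card_singleton, pow_one] at h
  rw [← h]
  congr 1
  ext y
  simp

theorem card_le_of_avoid {H : Set (ℕ → Bool)} (hH : lam H ≠ 0) : ∃ L : ℕ, ∀ (m : ℕ) (J : Finset ℕ),
    (∀ j ∈ J, lam (H ∩ Vb m j) = 0) → J.card ≤ L * 4 ^ m := by
  set δ : ℝ := (lam H).toReal with hδ
  have hfin : lam H ≠ ⊤ := measure_ne_top _ _
  have hδ0 : 0 < δ := ENNReal.toReal_pos hH hfin
  refine ⟨⌈Real.log (1 / δ)⌉₊, fun m J hJ => ?_⟩
  have h1 : lam H ≤ (1 - (1 / 4) ^ m) ^ J.card := by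
    rw [← lam_Vb m J]
    have h2 : H ⊆ {y | ∀ j ∈ J, y ∉ Vb m j} ∪ ⋃ j ∈ J, (H ∩ Vb m j) := by
      intro y hy
      by_cases h : ∀ j ∈ J, y ∉ Vb m j
      · exact Or.inl h
      · push Not at h
        obtain ⟨j, hj, hyj⟩ := h
        exact Or.inr (Set.mem_biUnion (s := (J : Set ℕ)) hj ⟨hy, hyj⟩)
    have h3 : lam (⋃ j ∈ J, (H ∩ Vb m j)) = 0 :=
      (measure_biUnion_null_iff J.countable_toSet).2 hJ
    calc lam H ≤ lam ({y | ∀ j ∈ J, y ∉ Vb m j} ∪ ⋃ j ∈ J, (H ∩ Vb m j)) := measure_mono h2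
      _ ≤ lam {y | ∀ j ∈ J, y ∉ Vb m j} + lam (⋃ j ∈ J, (H ∩ Vb m j)) := measure_union_le _ _
      _ = _ := by rw [h3, add_zero]
  have hq : (((1 / 4 : ENNReal) ^ m)).toReal = (1 / 4 : ℝ) ^ m := by
    rw [ENNReal.toReal_pow, ENNReal.toReal_div, ENNReal.toReal_one]
    norm_num
  have h4 : δ ≤ (1 - (1 / 4 : ℝ) ^ m) ^ J.card := by
    have h5 := ENNReal.toReal_mono (ENNReal.pow_ne_top
      (ne_top_of_le_ne_top ENNReal.one_ne_top tsub_le_self)) h1
    rw [ENNReal.toReal_pow, ENNReal.toReal_sub_of_le (slm_q m) ENNReal.one_ne_top, hq,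
      ENNReal.toReal_one] at h5
    exact h5
  have hq0 : (0 : ℝ) < (1 / 4) ^ m := by positivity
  have hq1 : (1 / 4 : ℝ) ^ m ≤ 1 := pow_le_one₀ (by norm_num) (by norm_num)
  have h5 : (1 - (1 / 4 : ℝ) ^ m) ^ J.card ≤ Real.exp (-((1 / 4) ^ m) * J.card) := by
    have h6 : 1 - (1 / 4 : ℝ) ^ m ≤ Real.exp (-((1 / 4) ^ m)) := by
      have := Real.add_one_le_exp (-((1 / 4 : ℝ) ^ m))
      linarith
    calc (1 - (1 / 4 : ℝ) ^ m) ^ J.card ≤ (Real.exp (-((1 / 4) ^ m))) ^ J.card :=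
          pow_le_pow_left₀ (by linarith) h6 _
      _ = Real.exp (-((1 / 4) ^ m) * J.card) := by
          rw [← Real.exp_nat_mul]
          congr 1
          ring
  have h6 : Real.log δ ≤ -((1 / 4) ^ m) * J.card := by
    rw [Real.log_le_iff_le_exp hδ0]
    exact h4.trans h5
  have h7 : (1 / 4 : ℝ) ^ m * J.card ≤ ⌈Real.log (1 / δ)⌉₊ := by
    refine le_trans ?_ (Nat.le_ceil _)
    rw [one_div δ, Real.log_inv]
    linarith
  have h8 : (J.card : ℝ) ≤ (⌈Real.log (1 / δ)⌉₊ : ℝ) * 4 ^ m := by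
    have h9 : (J.card : ℝ) = ((1 / 4 : ℝ) ^ m * J.card) * 4 ^ m := by
      rw [mul_right_comm, ← mul_pow]
      norm_num
    rw [h9]
    gcongr
  exact_mod_cast h8

/-- a set all whose finite subsets are small is finite and small -/
theorem slm_fin {A : Set ℕ} {n : ℕ} (h : ∀ J : Finset ℕ, (∀ j ∈ J, j ∈ A) → J.card ≤ n) :
    ∃ B : Finset ℕ, B.card ≤ n ∧ ∀ j ∈ A, j ∈ B := by
  have hA : A.Finite := by
    by_contra hA
    obtain ⟨J, hJ, hc⟩ := Set.Infinite.exists_subset_card_eq (hA : A.Infinite) (n + 1)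
    have := h J (fun j hj => hJ hj)
    omega
  refine ⟨hA.toFinset, h _ (fun j hj => hA.mem_toFinset.1 hj), fun j hj => hA.mem_toFinset.2 hj⟩

/-- an enumeration of the finite sequences of bits -/
def slm_e (i : ℕ) : List Bool := ((Encodable.decode i : Option (List Bool))).getD []

theorem slm_e_encode (t : List Bool) : slm_e (Encodable.encode t) = t := by
  rw [slm_e, Encodable.encodek]
  rfl

theorem exists_slalom (H : Set (ℕ → Bool)) : ∃ s : ℕ → ℕ, (∀ m, (dl (s m)).length ≤ m * 4 ^ m) ∧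
    ∀ t : List Bool, 0 < lam (H ∩ {y | ExtB y t}) → ∃ n, ∀ m, n ≤ m → ∀ j,
      lam (H ∩ {y | ExtB y t} ∩ Vb m j) = 0 → j ∈ dl (s m) := by
  classical
  have h1 : ∀ i : ℕ, ∃ (L : ℕ) (B : ℕ → Finset ℕ), (∀ m, (B m).card ≤ L * 4 ^ m) ∧
      (0 < lam (H ∩ {y | ExtB y (slm_e i)}) → ∀ m j,
        lam (H ∩ {y | ExtB y (slm_e i)} ∩ Vb m j) = 0 → j ∈ B m) := by
    intro i
    by_cases hi : 0 < lam (H ∩ {y | ExtB y (slm_e i)})
    · obtain ⟨L, hL⟩ := card_le_of_avoid hi.ne'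
      have h2 : ∀ m, ∃ B : Finset ℕ, B.card ≤ L * 4 ^ m ∧
          ∀ j ∈ {j | lam (H ∩ {y | ExtB y (slm_e i)} ∩ Vb m j) = 0},
            j ∈ B := fun m => slm_fin fun J hJ => hL m J hJ
      choose B hB hB' using h2
      exact ⟨L, B, hB, fun _ m j hj => hB' m j hj⟩
    · exact ⟨0, fun _ => ∅, fun m => by simp, fun h => absurd h hi⟩
  choose L B hB hB' using h1
  let N : ℕ → ℕ := fun m => Nat.findGreatest (fun n => ∑ k ∈ Finset.range n, L k ≤ m) m
  have hN : ∀ m, ∑ k ∈ Finset.range (N m), L k ≤ m := fun m =>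
    Nat.findGreatest_spec (P := fun n => ∑ k ∈ Finset.range n, L k ≤ m) (Nat.zero_le m)
      (by simp)
  let U : ℕ → Finset ℕ := fun m => (Finset.range (N m)).biUnion fun i => B i m
  have hU : ∀ m, dl (Encodable.encode (U m).toList) = (U m).toList := fun m => by
    rw [dl, Denumerable.ofNat_encode]
  refine ⟨fun m => Encodable.encode (U m).toList, fun m => ?_, fun t ht => ?_⟩
  · rw [hU, Finset.length_toList]
    calc (U m).card ≤ ∑ i ∈ Finset.range (N m), (B i m).card := Finset.card_biUnion_le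
      _ ≤ ∑ i ∈ Finset.range (N m), L i * 4 ^ m := Finset.sum_le_sum fun i _ => hB i m
      _ = (∑ i ∈ Finset.range (N m), L i) * 4 ^ m := by rw [Finset.sum_mul]
      _ ≤ m * 4 ^ m := Nat.mul_le_mul_right _ (hN m)
  · obtain ⟨i, rfl⟩ : ∃ i, slm_e i = t := ⟨Encodable.encode t, slm_e_encode t⟩
    refine ⟨max (i + 1) (∑ k ∈ Finset.range (i + 1), L k), fun m hm j hj => ?_⟩
    rw [hU, Finset.mem_toList]
    refine Finset.mem_biUnion.2 ⟨i, Finset.mem_range.2 ?_, hB' i ht m j hj⟩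
    exact Nat.le_findGreatest (P := fun n => ∑ k ∈ Finset.range n, L k ≤ m)
      ((le_max_left _ _).trans hm) ((le_max_right _ _).trans hm)

end Pool.Agent.H19.GP
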