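import Pool.Agent.H19.GP.Sys
import Pool.Agent.H17.GP.RlC
import Mathlib.MeasureTheory.Constructions.Polish.Basic

/-!
# Goldstern's principle: absoluteness for natively defined analytic relations

`ctmF` is the filter of the sets of models that contain all countable transitive models whose reals contain a certain
countable set of reals.  `∀ᶠ K in ctmF, ...` means: for all models that contain certain countably many reals.
`RT X`: points of `X` are coded by reals, `In K x`: the code of `x` is in `K`.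
`solve`: an analytic relation `P x y` with `x` in `K` that has a solution `y` has a solution in `K`.
-/

set_option autoImplicit false

universe u

namespace Pool.Agent.H19.GP

open Pool.Agent.H17.Omega Pool.Agent.H17.GP
open MeasureTheory Topology Filter

/-- The filter of all models that contain certain countably many reals. -/
def ctmF : Filter (Set ZFSet.{u}) where
  sets := {S | ∃ T : Set (ℕ → ℕ), T.Countable ∧ ∀ K, CTM K → T ⊆ Rl K → K ∈ S}
  univ_sets := ⟨∅, Set.countable_empty, fun _ _ _ => trivial⟩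
  sets_of_superset := by
    rintro S S' ⟨T, hT, h⟩ hS
    exact ⟨T, hT, fun K h1 h2 => hS (h K h1 h2)⟩
  inter_sets := by
    rintro S S' ⟨T, hT, h⟩ ⟨T', hT', h'⟩
    exact ⟨T ∪ T', hT.union hT', fun K h1 h2 => ⟨h K h1 (Set.subset_union_left.trans h2),
      h' K h1 (Set.subset_union_right.trans h2)⟩⟩

theorem ev_ctmF {Q : Set ZFSet.{u} → Prop} :
    (∀ᶠ K in ctmF, Q K) ↔ ∃ T : Set (ℕ → ℕ), T.Countable ∧ ∀ K, CTM K → T ⊆ Rl K → Q K := Iff.rfl

theorem ev_ctm : ∀ᶠ K in ctmF.{u}, CTM K := ⟨∅, Set.countable_empty, fun _ h _ => h⟩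

theorem ev_mem (a : ℕ → ℕ) : ∀ᶠ K in ctmF.{u}, a ∈ Rl K :=
  ⟨{a}, Set.countable_singleton a, fun _ _ h => h rfl⟩

theorem ev_all {ι : Type} [Countable ι] {Q : ι → Set ZFSet.{u} → Prop} (h : ∀ i, ∀ᶠ K in ctmF, Q i K) :
    ∀ᶠ K in ctmF, ∀ i, Q i K := by
  choose T hT h' using h
  refine ⟨⋃ i, T i, Set.countable_iUnion hT, fun K h1 h2 i => ?_⟩
  exact h' i K h1 ((Set.subset_iUnion T i).trans h2)

/-- Statements about a system that hold when its ground model contains certain countably many reals. -/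
def EvS (P : (N : Set ZFSet.{u}) → (δ : Ordinal.{u}) → (Ordinal.{u} → Set ZFSet.{u}) → Prop) : Prop :=
  ∃ T : Set (ℕ → ℕ), T.Countable ∧ ∀ N δ K, Sys N δ K → T ⊆ Rl (K 0) → P N δ K

theorem Rl_mono {K K' : Set ZFSet.{u}} (h : K ⊆ K') : Rl K ⊆ Rl K' := fun _ hx => h hx

theorem evS_of {Q : Set ZFSet.{u} → Prop} (h : ∀ᶠ K in ctmF, Q K) :
    EvS.{u} (fun N δ K => Q N ∧ ∀ ξ < δ, Q (K ξ)) := by
  obtain ⟨T, hT, h⟩ := h
  refine ⟨T, hT, fun N δ K hS hK => ⟨h N hS.ctmN ?_, fun ξ hξ => h _ (hS.ctmK ξ hξ) ?_⟩⟩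
  · exact hK.trans (Rl_mono (hS.sub 0 hS.pos))
  · exact hK.trans (Rl_mono (hS.mono 0 ξ (zero_le) hξ))

theorem EvS.and {P P' : (N : Set ZFSet.{u}) → (δ : Ordinal.{u}) → (Ordinal.{u} → Set ZFSet.{u}) → Prop}
    (h : EvS P) (h' : EvS P') : EvS (fun N δ K => P N δ K ∧ P' N δ K) := by
  obtain ⟨T, hT, h⟩ := h
  obtain ⟨T', hT', h'⟩ := h'
  exact ⟨T ∪ T', hT.union hT', fun N δ K hS hK => ⟨h N δ K hS (Set.subset_union_left.trans hK),
    h' N δ K hS (Set.subset_union_right.trans hK)⟩⟩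

theorem EvS.mono {P P' : (N : Set ZFSet.{u}) → (δ : Ordinal.{u}) → (Ordinal.{u} → Set ZFSet.{u}) → Prop}
    (h : EvS P) (h' : ∀ N δ K, Sys N δ K → P N δ K → P' N δ K) : EvS P' := by
  obtain ⟨T, hT, h⟩ := h
  exact ⟨T, hT, fun N δ K hS hK => h' N δ K hS (h N δ K hS hK)⟩

/-! ## Points coded by reals -/

/-- Points of `X` are coded by reals, by a closed embedding. -/
class RT (X : Type) [TopologicalSpace X] where
  /-- the code -/
  cR : X → (ℕ → ℕ)
  emb : IsClosedEmbedding cR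

export RT (cR)

instance : RT (ℕ → ℕ) := ⟨id, .id⟩

theorem continuous_b2n : Continuous b2n := by
  refine continuous_pi fun n => ?_
  unfold b2n
  exact (continuous_of_discreteTopology (f := fun b : Bool => if b then 1 else 0)).comp (continuous_apply n)

theorem b2n_inj : Function.Injective b2n := by
  intro x y h
  funext n
  have := congrFun h n
  unfold b2n at this
  cases hx : x n <;> cases hy : y n <;> simp_all

instance : RT (ℕ → Bool) := ⟨b2n, continuous_b2n.isClosedEmbedding b2n_inj⟩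

theorem isClosedEmbedding_const_nat : IsClosedEmbedding (fun (n : ℕ) (_ : ℕ) => n) := by
  have hc : Continuous (fun (n : ℕ) (_ : ℕ) => n) := continuous_pi fun _ => continuous_id
  have hl : Function.LeftInverse (fun x : ℕ → ℕ => x 0) (fun (n : ℕ) (_ : ℕ) => n) := fun n => rfl
  exact hl.isClosedEmbedding (continuous_apply 0) hc

instance : RT ℕ := ⟨fun n _ => n, isClosedEmbedding_const_nat⟩

/-- Pairs of reals. -/
def jn (x y : ℕ → ℕ) : ℕ → ℕ := fun n => Nat.pair (x n) (y n)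

/-- left part -/
def lf (x : ℕ → ℕ) : ℕ → ℕ := fun n => (x n).unpair.1

/-- right part -/
def rt (x : ℕ → ℕ) : ℕ → ℕ := fun n => (x n).unpair.2

@[simp] theorem lf_jn (x y : ℕ → ℕ) : lf (jn x y) = x := by funext n; simp [lf, jn]

@[simp] theorem rt_jn (x y : ℕ → ℕ) : rt (jn x y) = y := by funext n; simp [rt, jn]

@[simp] theorem jn_lf_rt (x : ℕ → ℕ) : jn (lf x) (rt x) = x := by funext n; simp [lf, rt, jn]

theorem continuous_lf : Continuous lf :=
  continuous_pi fun n => (continuous_of_discreteTopology (f := fun k : ℕ => k.unpair.1)).comp (continuous_apply n)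

theorem continuous_rt : Continuous rt :=
  continuous_pi fun n => (continuous_of_discreteTopology (f := fun k : ℕ => k.unpair.2)).comp (continuous_apply n)

theorem continuous_jn : Continuous (fun p : (ℕ → ℕ) × (ℕ → ℕ) => jn p.1 p.2) := by
  refine continuous_pi fun n => ?_
  show Continuous (fun a : (ℕ → ℕ) × (ℕ → ℕ) => (fun k : ℕ × ℕ => Nat.pair k.1 k.2) (a.1 n, a.2 n))
  exact (continuous_of_discreteTopology (f := fun k : ℕ × ℕ => Nat.pair k.1 k.2)).comp
    (((continuous_apply n).comp continuous_fst).prodMk ((continuous_apply n).comp continuous_snd))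

/-- pairing as a homeomorphism -/
def jnH : (ℕ → ℕ) × (ℕ → ℕ) ≃ₜ (ℕ → ℕ) where
  toFun p := jn p.1 p.2
  invFun x := (lf x, rt x)
  left_inv p := by simp
  right_inv x := by simp
  continuous_toFun := continuous_jn
  continuous_invFun := continuous_lf.prodMk continuous_rt

instance {X Y : Type} [TopologicalSpace X] [TopologicalSpace Y] [RT X] [RT Y] : RT (X × Y) :=
  ⟨fun p => jn (cR p.1) (cR p.2), jnH.isClosedEmbedding.comp (RT.emb.prodMap RT.emb)⟩

/-- A sequence of reals as a real. -/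
def rows (x : ℕ → ℕ → ℕ) : ℕ → ℕ := fun n => x n.unpair.1 n.unpair.2

/-- The `n`-th row. -/
def row (n : ℕ) (x : ℕ → ℕ) : ℕ → ℕ := fun k => x (Nat.pair n k)

@[simp] theorem row_rows (x : ℕ → ℕ → ℕ) (n : ℕ) : row n (rows x) = x n := by
  funext k; simp [row, rows]

@[simp] theorem rows_row (x : ℕ → ℕ) : rows (fun n => row n x) = x := by
  funext k; simp [row, rows]

theorem continuous_row (n : ℕ) : Continuous (row n) := continuous_pi fun _ => continuous_apply _

/-- sequences of reals as a homeomorphism -/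
def rowsH : (ℕ → ℕ → ℕ) ≃ₜ (ℕ → ℕ) where
  toFun := rows
  invFun x n := row n x
  left_inv x := by funext n; simp
  right_inv x := by simp
  continuous_toFun := continuous_pi fun n => (continuous_apply _).comp (continuous_apply _)
  continuous_invFun := continuous_pi fun n => continuous_row n

instance (priority := low) {X : Type} [TopologicalSpace X] [RT X] : RT (ℕ → X) :=
  ⟨fun x => rows (fun n => cR (x n)), by
    have h : ∀ _ : ℕ, IsClosedEmbedding (cR : X → ℕ → ℕ) := fun _ => RT.emb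
    exact rowsH.isClosedEmbedding.comp (IsClosedEmbedding.piMap h)⟩

/-- The point `x` is in the model `K`. -/
def In {X : Type} [TopologicalSpace X] [RT X] (K : Set ZFSet.{u}) (x : X) : Prop := cR x ∈ Rl K

theorem In_real {K : Set ZFSet.{u}} {x : ℕ → ℕ} : In K x ↔ x ∈ Rl K := Iff.rfl

theorem In_bool {K : Set ZFSet.{u}} {x : ℕ → Bool} : In K x ↔ b2n x ∈ Rl K := Iff.rfl

theorem In.mono {X : Type} [TopologicalSpace X] [RT X] {K K' : Set ZFSet.{u}} (h : K ⊆ K') {x : X}
    (hx : In K x) : In K' x := Rl_mono h hx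

theorem rl_comp {K : Set ZFSet.{u}} (hK : CTM K) {F : ℕ → ℕ} (hF : Primrec F) {x : ℕ → ℕ} (hx : x ∈ Rl K) :
    (fun n => F (x n)) ∈ Rl K := hK.comp_mem (hK.primrec_mem hF) hx

theorem lf_mem {K : Set ZFSet.{u}} (hK : CTM K) {x : ℕ → ℕ} (hx : x ∈ Rl K) : lf x ∈ Rl K :=
  rl_comp hK (Primrec.fst.comp Primrec.unpair) hx

theorem rt_mem {K : Set ZFSet.{u}} (hK : CTM K) {x : ℕ → ℕ} (hx : x ∈ Rl K) : rt x ∈ Rl K :=
  rl_comp hK (Primrec.snd.comp Primrec.unpair) hx

theorem jn_mem {K : Set ZFSet.{u}} (hK : CTM K) {x y : ℕ → ℕ} : jn x y ∈ Rl K ↔ x ∈ Rl K ∧ y ∈ Rl K := by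
  refine ⟨fun h => ⟨?_, ?_⟩, fun h => hK.pair_mem_Rl h.1 h.2⟩
  · have := lf_mem hK h; rwa [lf_jn] at this
  · have := rt_mem hK h; rwa [rt_jn] at this

theorem In_prod {X Y : Type} [TopologicalSpace X] [TopologicalSpace Y] [RT X] [RT Y] {K : Set ZFSet.{u}}
    (hK : CTM K) {p : X × Y} : In K p ↔ In K p.1 ∧ In K p.2 := jn_mem hK

theorem In_nat {K : Set ZFSet.{u}} (hK : CTM K) (n : ℕ) : In K n := hK.primrec_mem (Primrec.const n)

theorem In.app {X : Type} [TopologicalSpace X] [RT X] {K : Set ZFSet.{u}} (hK : CTM K) {x : ℕ → X}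
    (hx : @In (ℕ → X) _ instRTForallNat_1 K x) (n : ℕ) : In K (x n) := by
  have := hK.row_mem (show rows (fun n => cR (x n)) ∈ Rl K from hx) n
  have e : (fun k => rows (fun n => cR (x n)) (Nat.pair n k)) = cR (x n) := row_rows (fun n => cR (x n)) n
  rw [e] at this
  exact this

/-! ## Analytic relations -/

/-- a code of the tree of the closed set `F` -/
noncomputable def trc (F : Set ((ℕ → ℕ) × (ℕ → ℕ))) (k : ℕ) : ℕ := by
  classical
  exact if ∃ X q n, k = Nat.pair (ini X n) (ini q n) ∧ (X, q) ∈ F then 1 else 0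

theorem trc_spec {F : Set ((ℕ → ℕ) × (ℕ → ℕ))} (hF : IsClosed F) (X q : ℕ → ℕ) :
    (∀ n, trc F (Nat.pair (ini X n) (ini q n)) ≠ 0) ↔ (X, q) ∈ F := by
  classical
  constructor
  · intro h
    have h1 : ∀ n, ∃ p ∈ F, (∀ i < n, p.1 i = X i) ∧ ∀ i < n, p.2 i = q i := by
      intro n
      have h2 := h n
      unfold trc at h2
      rw [ne_eq, ite_eq_right_iff, not_forall] at h2
      obtain ⟨⟨X', q', m, e, hm⟩, _⟩ := h2
      rw [Nat.pair_eq_pair] at e
      obtain ⟨e1, h3⟩ := ini_inj e.1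
      obtain ⟨e2, h4⟩ := ini_inj e.2
      exact ⟨(X', q'), hm, fun i hi => (h3 i hi).symm, fun i hi => (h4 i hi).symm⟩
    choose p hp hp1 hp2 using h1
    refine hF.mem_of_tendsto (f := p) (b := atTop) ?_ (Eventually.of_forall hp)
    have t1 : Tendsto (fun n => (p n).1) atTop (𝓝 X) := by
      rw [tendsto_pi_nhds]
      intro i
      refine tendsto_const_nhds.congr' ?_
      filter_upwards [eventually_gt_atTop i] with n hn
      exact (hp1 n i hn).symm
    have t2 : Tendsto (fun n => (p n).2) atTop (𝓝 q) := by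
      rw [tendsto_pi_nhds]
      intro i
      refine tendsto_const_nhds.congr' ?_
      filter_upwards [eventually_gt_atTop i] with n hn
      exact (hp2 n i hn).symm
    exact t1.prodMk_nhds t2
  · intro h n
    unfold trc
    rw [if_pos ⟨X, q, n, rfl, h⟩]
    exact one_ne_zero

/-- Closed relations between reals: solutions exist in the models. -/
theorem solve_closed {F : Set ((ℕ → ℕ) × (ℕ → ℕ))} (hF : IsClosed F) :
    ∀ᶠ K in ctmF.{u}, ∀ X ∈ Rl K, ∀ q, (X, q) ∈ F → ∃ q' ∈ Rl K, (X, q') ∈ F := by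
  filter_upwards [ev_ctm, ev_mem (trc F)] with K hK ha X hX q hq
  obtain ⟨q', h1, h2⟩ := hK.sc1 ha hX ⟨q, (trc_spec hF X q).2 hq⟩
  exact ⟨q', h1, (trc_spec hF X q').1 h2⟩

theorem AnalyticSet.exists_closed {X : Type} [TopologicalSpace X] [T2Space X] {S : Set X} (hS : AnalyticSet S) :
    ∃ F : Set (X × (ℕ → ℕ)), IsClosed F ∧ ∀ x, x ∈ S ↔ ∃ q, (x, q) ∈ F := by
  rw [AnalyticSet] at hS
  rcases hS with rfl | ⟨f, hf, rfl⟩
  · exact ⟨∅, isClosed_empty, fun x => by simp⟩
  · refine ⟨{p | f p.2 = p.1}, isClosed_eq (hf.comp continuous_snd) continuous_fst, fun x => ?_⟩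
    exact ⟨fun ⟨q, hq⟩ => ⟨q, hq⟩, fun ⟨q, hq⟩ => ⟨q, hq⟩⟩

theorem cR_inj {X : Type} [TopologicalSpace X] [RT X] : Function.Injective (cR : X → (ℕ → ℕ)) :=
  RT.emb.injective

/-- Analytic relations: solutions exist in the models. -/
theorem solve {X Y : Type} [TopologicalSpace X] [TopologicalSpace Y] [RT X] [RT Y] {S : Set (X × Y)}
    (hS : AnalyticSet S) :
    ∀ᶠ K in ctmF.{u}, ∀ x, In K x → ∀ y, (x, y) ∈ S → ∃ y', In K y' ∧ (x, y') ∈ S := by
  have hT : T2Space X := (RT.emb (X := X)).isEmbedding.t2Space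
  have hT' : T2Space Y := (RT.emb (X := Y)).isEmbedding.t2Space
  obtain ⟨F, hF, hFS⟩ := AnalyticSet.exists_closed hS
  have e1 : IsClosedEmbedding (fun p : (X × Y) × (ℕ → ℕ) => (cR p.1.1, jn (cR p.1.2) p.2)) := by
    have h1 : IsClosedEmbedding (fun p : (X × Y) × (ℕ → ℕ) => ((cR p.1.1, cR p.1.2), p.2)) :=
      (RT.emb.prodMap RT.emb).prodMap .id
    have h2 : IsClosedEmbedding (fun p : ((ℕ → ℕ) × (ℕ → ℕ)) × (ℕ → ℕ) => (p.1.1, jn p.1.2 p.2)) :=
      (((Homeomorph.prodAssoc (ℕ → ℕ) (ℕ → ℕ) (ℕ → ℕ)).trans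
        ((Homeomorph.refl (ℕ → ℕ)).prodCongr jnH))).isClosedEmbedding
    exact h2.comp h1
  have hF' := e1.isClosedMap F hF
  filter_upwards [ev_ctm, solve_closed hF'] with K hK h x hx y hxy
  obtain ⟨w, hw⟩ := (hFS (x, y)).1 hxy
  obtain ⟨q', h1, ⟨⟨⟨x', y'⟩, w'⟩, h2, h3⟩⟩ := h (cR x) hx _ ⟨((x, y), w), hw, rfl⟩
  simp only [Prod.mk.injEq] at h3
  obtain ⟨h3, rfl⟩ := h3
  have := cR_inj h3
  subst this
  exact ⟨y', ((jn_mem hK).1 h1).1, (hFS (x', y')).2 ⟨w', h2⟩⟩

/-- Borel functions map points of the model to points of the model. -/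
theorem In_fun {X Y : Type} [TopologicalSpace X] [TopologicalSpace Y] [RT X] [RT Y]
    {f : X → Y} (hf : AnalyticSet {p : X × Y | p.2 = f p.1}) :
    ∀ᶠ K in ctmF.{u}, ∀ x, In K x → In K (f x) := by
  filter_upwards [solve hf] with K h x hx
  obtain ⟨y, h1, h2⟩ := h x hx (f x) rfl
  rw [show y = f x from h2] at h1
  exact h1

end Pool.Agent.H19.GP
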