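import Pool.Agent.H19.GP.XSound
import Pool.Agent.H52.OM.CtmK
import Pool.Agent.H52.OM.UDW

/-!
# Goldstern's principle: countable transitive sets have codes; witnesses for the levels

PROOF of `psiX_complete`: `x ∈ Rl M`, `M = KL B w β`, `β` a limit ordinal: `rz x ∈ fld (Wl B w γ)` for some `γ < β` (`fld_Wl_limit`).  Let `h = {pair δ.toZFSet (Wl B w δ) | δ ≤ γ}` (`ZFSet.range` over `Set.Iic γ`), and `X` the set of all elements of `M`-small rank:
let `X` be the union of the transitive closures of: `h`, `γ.toZFSet`, `natZ n` (all `n`), `fld (Wl B w δ)`, `sep B (fld (Wl B w δ))`, `Hh B (Wl B w δ) p q θ` and all pairs of elements of `fld (Wl δ) ∪ New`, for `δ ≤ γ`.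
Simplest choice: `X = {z | z.rank < ρ, z ∈ TC(...)}`; countable because each of these sets is hereditarily countable: `fld (Wl B w δ)` is a countable transitive set (`countable_KL` in `H52/OM/CtmK.lean`: `γ < β` is countable since `M` is countable; `trans_Wl`), the new sets are subsets of it and countably many (`countable_New`),
and `X = {h} ∪ {pairs etc.} ∪ ...` is transitive and countable.  (A clean way: `HC`-closure: every set above is in `HC` (`hc_iff`, `HC.pair`), a countable set of `HC` sets is contained in a countable transitive set.)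
Ranks: `γ.toZFSet ∈ M`, `fld (Wl B w γ) ∈ M` (`level_mem`), so its rank `r` is `< β` (`CTM.rank_mem`); all elements of `fld (Wl B w δ)`, all new sets over `Wl B w δ`, `δ ≤ γ`, have rank `≤ r` (subsets of `fld (Wl γ)`); elements of `Wl B w δ` are pairs of elements of `fld (Wl γ)`: rank `≤ r + 2`;
`Wl B w δ`: `≤ r + 3`; `pair δ (Wl δ)`: `≤ max r γ + 6`; `h`: `≤ max r γ + 7 < β` (`β` limit).
-/

set_option autoImplicit false
set_option linter.unusedVariables false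
set_option linter.unusedSectionVars false

universe u

namespace Pool.Agent.H19.GP

open Pool.Agent.H17.Omega Pool.Agent.H17.GP
open Pool.Agent.H52.OM
open MeasureTheory Topology Filter

theorem xcode_rank_pair {a b : ZFSet.{u}} {m : Ordinal.{u}} (ha : a.rank ≤ m) (hb : b.rank ≤ m) :
    (ZFSet.pair a b).rank ≤ Order.succ (Order.succ m) := by
  unfold ZFSet.pair
  rw [ZFSet.rank_pair, ZFSet.rank_singleton, ZFSet.rank_pair]
  refine max_le (Order.succ_le_succ (Order.succ_le_succ ha)) (Order.succ_le_succ ?_)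
  exact max_le (Order.succ_le_succ ha) (Order.succ_le_succ hb)

/-- A hereditarily countable set is in a countable transitive set of sets of not larger rank. -/
theorem xcode_small {x : ZFSet.{u}} (h : HC x) : ∃ T : Set ZFSet.{u}, T.Countable ∧
    (∀ a ∈ T, ∀ b ∈ a, b ∈ T) ∧ x ∈ T ∧ ∀ y ∈ T, y.rank ≤ x.rank := by
  obtain ⟨T, hT, htr, hx⟩ := h
  refine ⟨{y | y ∈ T ∧ y.rank ≤ x.rank}, hT.mono fun y hy => hy.1, ?_, ⟨hx, le_rfl⟩, fun y hy => hy.2⟩
  intro a ha b hb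
  exact ⟨htr a ha.1 b hb, (ZFSet.rank_lt_of_mem hb).le.trans ha.2⟩

/-- A countable set of hereditarily countable sets is contained in a countable transitive set with the
same bound of the ranks. -/
theorem xcode_closure {S : Set ZFSet.{u}} (hS : S.Countable) (hc : ∀ x ∈ S, HC x) {ρ : Ordinal.{u}}
    (hρ : ∀ x ∈ S, x.rank < ρ) : ∃ X : Set ZFSet.{u}, (∀ y ∈ X, ∀ z ∈ y, z ∈ X) ∧ X.Countable ∧
      S ⊆ X ∧ ∀ y ∈ X, y.rank < ρ := by
  choose T hT htr hx hr using fun x : S => xcode_small (hc x.1 x.2)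
  have : Countable S := hS.to_subtype
  refine ⟨⋃ x : S, T x, ?_, Set.countable_iUnion hT, fun x hxS => Set.mem_iUnion.2 ⟨⟨x, hxS⟩, hx ⟨x, hxS⟩⟩, ?_⟩
  · intro y hy z hz
    obtain ⟨x, hxy⟩ := Set.mem_iUnion.1 hy
    exact Set.mem_iUnion.2 ⟨x, htr x y hxy z hz⟩
  · intro y hy
    obtain ⟨x, hxy⟩ := Set.mem_iUnion.1 hy
    exact (hr x y hxy).trans_lt (hρ x.1 x.2)

theorem psiX_complete {B : ZFSet.{u} → Prop} {w : ZFSet.{u}} (hw : WO w) (ht : (fld w).IsTransitive)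
    (hne : ∃ y, y ∈ fld w) (hwc : {y | y ∈ w}.Countable) {β : Ordinal.{u}} (hβ : Order.IsSuccLimit β)
    (hM : CTM (KL B w β)) (hO : ∀ γ < β, γ.toZFSet ∈ KL B w β) (hO' : ∀ γ : Ordinal.{u}, γ.toZFSet ∈ KL B w β → γ < β)
    {x : ℕ → ℕ} (hx : x ∈ Rl (KL B w β)) :
    ∃ X : Set ZFSet.{u}, (∀ y ∈ X, ∀ z ∈ y, z ∈ X) ∧ X.Countable ∧ X.Infinite ∧ PsiX B w x X ∧
      ∃ ρ < β, ∀ y ∈ X, y.rank < ρ := by
  have hcard : β.card ≤ Cardinal.aleph0 := by
    have h1 : (Set.Iio β).Countable := by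
      refine Set.MapsTo.countable_of_injOn (f := Ordinal.toZFSet) (t := KL B w β) ?_ ?_ hM.countable
      · intro γ hγ
        exact hO γ hγ
      · exact Ordinal.toZFSet_injective.injOn
    rw [← Cardinal.le_aleph0_iff_set_countable, Cardinal.mk_Iio_ordinal, Cardinal.lift_le_aleph0] at h1
    exact h1
  have hfc : {x | x ∈ fld w}.Countable := by
    refine Set.MapsTo.countable_of_injOn (f := fun y => ZFSet.pair y y) (t := {z | z ∈ w}) ?_ ?_ hwc
    · intro y hy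
      exact mem_fld.1 hy
    · intro a _ b _ hab
      exact (ZFSet.pair_inj.1 hab).1
  have hcw : HC w := by
    rw [hc_iff]
    refine ⟨hwc, fun y hy => ?_⟩
    obtain ⟨a, ha, b, hb, rfl⟩ := hw.rel y hy
    exact HC.pair ⟨{x | x ∈ fld w}, hfc, fun a ha b hb => ht a ha hb, ha⟩
      ⟨{x | x ∈ fld w}, hfc, fun a ha b hb => ht a ha hb, hb⟩
  obtain ⟨γ, hγ, hxγ⟩ := (fld_Wl_limit hw hβ).1 hx
  have hcd : ∀ δ ≤ γ, δ.card ≤ Cardinal.aleph0 := fun δ hδ =>
    (Ordinal.card_le_card (hδ.trans hγ.le)).trans hcard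
  have hcW : ∀ δ ≤ γ, HC (Wl B w δ) := fun δ hδ => hc_Wl hw hcw (hcd δ hδ)
  -- ranks
  have hrank : (fld (Wl B w γ)).rank < β :=
    hO' _ (hM.rank_mem (level_mem hw hγ hne))
  have hom : Ordinal.omega0 < β := by
    refine hO' _ ?_
    have h1 := hM.rank_mem hM.omZ_mem
    refine hM.toZFSet_mem_of_le ?_ h1
    rw [Ordinal.omega0_le]
    intro n
    have h2 := ZFSet.rank_lt_of_mem (natZ_mem_omZ.{u} n)
    rw [natZ_eq, Ordinal.rank_toZFSet] at h2
    exact h2.le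
  set m : Ordinal.{u} := max (max γ (fld (Wl B w γ)).rank) Ordinal.omega0 with hm
  have hmβ : m < β := max_lt (max_lt hγ hrank) hom
  have hmγ : γ ≤ m := (le_max_left _ _).trans (le_max_left _ _)
  have hmr : (fld (Wl B w γ)).rank ≤ m := (le_max_right _ _).trans (le_max_left _ _)
  have hs1 : ∀ o : Ordinal.{u}, o < β → Order.succ o < β := fun o ho => hβ.succ_lt ho
  set ρ : Ordinal.{u} := Order.succ (Order.succ (Order.succ (Order.succ (Order.succ (Order.succ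
    (Order.succ m)))))) with hρ
  have hρβ : ρ < β := hs1 _ (hs1 _ (hs1 _ (hs1 _ (hs1 _ (hs1 _ (hs1 _ hmβ))))))
  have hle : ∀ o : Ordinal.{u}, o ≤ Order.succ o := fun o => Order.le_succ o
  have hmρ : m < ρ := (Order.lt_succ m).trans_le ((hle _).trans ((hle _).trans ((hle _).trans
    ((hle _).trans ((hle _).trans (hle _))))))
  have hωm : Ordinal.omega0 ≤ m := le_max_right _ _
  have hel : ∀ δ ≤ γ, ∀ y ∈ fld (Wl B w δ), y.rank ≤ m := fun δ hδ y hy =>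
    (ZFSet.rank_lt_of_mem (fld_mono (Wl_mono hδ) hy)).le.trans hmr
  have hsub : ∀ δ ≤ γ, ∀ y, y ⊆ fld (Wl B w δ) → y.rank ≤ m := fun δ hδ y hy =>
    (ZFSet.rank_mono (hy.trans (fld_mono (Wl_mono hδ)))).trans hmr
  have hnew : ∀ δ ≤ γ, ∀ y, New B (Wl B w δ) y → y.rank ≤ m := by
    rintro δ hδ y ⟨-, p, q, θ, hc⟩
    refine hsub δ hδ y ?_
    rw [hc.eq, Hh]
    exact fun z hz => (ZFSet.mem_sep.1 hz).1
  have hWr : ∀ δ ≤ γ, (Wl B w δ).rank ≤ Order.succ (Order.succ (Order.succ m)) := by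
    intro δ hδ
    rw [ZFSet.rank_le_iff]
    intro z hz
    obtain ⟨a, ha, b, hb, rfl⟩ := (wo_Wl hw δ).rel z hz
    exact (xcode_rank_pair (hel δ hδ a ha) (hel δ hδ b hb)).trans_lt (Order.lt_succ _)
  -- the seeds
  set h : ZFSet.{u} := ZFSet.range (fun δ : Set.Iic γ => ZFSet.pair δ.1.toZFSet (Wl B w δ.1)) with hh
  have hmem : ∀ z, z ∈ h ↔ ∃ δ ≤ γ, z = ZFSet.pair δ.toZFSet (Wl B w δ) := by
    intro z
    rw [hh, ZFSet.mem_range]
    constructor
    · rintro ⟨δ, rfl⟩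
      exact ⟨δ.1, δ.2, rfl⟩
    · rintro ⟨δ, hδ, rfl⟩
      exact ⟨⟨δ, hδ⟩, rfl⟩
  have hIic : (Set.Iic γ).Countable := hier_countable_Iic (hcd γ le_rfl)
  have hhc : HC h := by
    rw [hc_iff]
    constructor
    · refine (hIic.image (fun δ => ZFSet.pair δ.toZFSet (Wl B w δ))).mono ?_
      intro z hz
      obtain ⟨δ, hδ, rfl⟩ := (hmem z).1 hz
      exact ⟨δ, hδ, rfl⟩
    · intro z hz
      obtain ⟨δ, hδ, rfl⟩ := (hmem z).1 hz
      exact HC.pair (hc_toZFSet (hcd δ hδ)) (hcW δ hδ)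
  have hhr : h.rank ≤ Order.succ (Order.succ (Order.succ (Order.succ (Order.succ (Order.succ m))))) := by
    rw [ZFSet.rank_le_iff]
    intro z hz
    obtain ⟨δ, hδ, rfl⟩ := (hmem z).1 hz
    refine (xcode_rank_pair (m := Order.succ (Order.succ (Order.succ m))) ?_ (hWr δ hδ)).trans_lt
      (Order.lt_succ _)
    rw [Ordinal.rank_toZFSet]
    exact (hδ.trans hmγ).trans ((hle _).trans ((hle _).trans (hle _)))
  have hFml : Countable Fml := Fml.code_injective.countable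
  set Sd : Ordinal.{u} → Set ZFSet.{u} := fun δ => {z | z ∈ fld (Wl B w δ) ∨ New B (Wl B w δ) z} with hSd
  have hcF : ∀ δ ≤ γ, {x | x ∈ fld (Wl B w δ)}.Countable := fun δ hδ => (hc_fld (hcW δ hδ)).countable
  have hSdc : ∀ δ ≤ γ, (Sd δ).Countable := fun δ hδ => (hcF δ hδ).union (countable_New (hcF δ hδ))
  have hSdh : ∀ δ ≤ γ, ∀ z ∈ Sd δ, HC z := by
    rintro δ hδ z (hz | ⟨-, p, q, θ, hc⟩)
    · exact HC.mem (hc_fld (hcW δ hδ)) hz
    · rw [hc.eq]
      exact hc_Hh (hcW δ hδ)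
  have hSdr : ∀ δ ≤ γ, ∀ z ∈ Sd δ, z.rank ≤ m := by
    rintro δ hδ z (hz | hz)
    · exact hel δ hδ z hz
    · exact hnew δ hδ z hz
  set S : Set ZFSet.{u} := {h} ∪ Set.range (natZ.{u}) ∪ {γ.toZFSet} ∪ ⋃ δ ∈ Set.Iic γ,
    ({Wl B w δ, fld (Wl B w δ), ZFSet.sep B (fld (Wl B w δ))} ∪
      (fun t : ZFSet.{u} × ZFSet.{u} × Fml => Hh B (Wl B w δ) t.1 t.2.1 t.2.2) ''
        ({x | x ∈ fld (Wl B w δ)} ×ˢ ({x | x ∈ fld (Wl B w δ)} ×ˢ (Set.univ : Set Fml))) ∪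
      (fun t : ZFSet.{u} × ZFSet.{u} => ZFSet.pair t.1 t.2) '' (Sd δ ×ˢ Sd δ)) with hS
  have hSc : S.Countable := by
    refine (((Set.countable_singleton _).union (Set.countable_range _)).union
      (Set.countable_singleton _)).union (hIic.biUnion fun δ hδ => ?_)
    refine ((Set.toFinite _).countable.union (Set.Countable.image ?_ _)).union
      (Set.Countable.image ((hSdc δ hδ).prod (hSdc δ hδ)) _)
    exact (hcF δ hδ).prod ((hcF δ hδ).prod Set.countable_univ)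
  have hprop : ∀ z ∈ S, HC z ∧ z.rank < ρ := by
    intro z hz
    rcases hz with ((hz | hz) | hz) | hz
    · rw [Set.mem_singleton_iff.1 hz]
      exact ⟨hhc, hhr.trans_lt (Order.lt_succ _)⟩
    · obtain ⟨n, rfl⟩ := hz
      refine ⟨hc_natZ n, ?_⟩
      rw [natZ_eq, Ordinal.rank_toZFSet]
      exact (Ordinal.natCast_lt_omega0 n).trans_le (hωm.trans hmρ.le)
    · rw [Set.mem_singleton_iff.1 hz]
      refine ⟨hc_toZFSet (hcd γ le_rfl), ?_⟩
      rw [Ordinal.rank_toZFSet]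
      exact hmγ.trans_lt hmρ
    · obtain ⟨δ, hδ, hz⟩ := Set.mem_iUnion₂.1 hz
      have hδ' : δ ≤ γ := hδ
      rcases hz with (hz | hz) | hz
      · rcases hz with rfl | rfl | hz
        · refine ⟨hcW δ hδ', (hWr δ hδ').trans_lt ?_⟩
          exact (Order.lt_succ _).trans_le ((hle _).trans ((hle _).trans (hle _)))
        · exact ⟨hc_fld (hcW δ hδ'), (hsub δ hδ' _ (fun z hz => hz)).trans_lt hmρ⟩
        · rw [Set.mem_singleton_iff.1 hz]
          exact ⟨hc_sep (hc_fld (hcW δ hδ')),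
            (hsub δ hδ' _ (fun z hz => (ZFSet.mem_sep.1 hz).1)).trans_lt hmρ⟩
      · obtain ⟨⟨p, q, θ⟩, -, rfl⟩ := hz
        exact ⟨hc_Hh (hcW δ hδ'), (hsub δ hδ' _ (fun z hz => (ZFSet.mem_sep.1 hz).1)).trans_lt hmρ⟩
      · obtain ⟨⟨a, b⟩, ⟨ha, hb⟩, rfl⟩ := hz
        refine ⟨HC.pair (hSdh δ hδ' a ha) (hSdh δ hδ' b hb),
          (xcode_rank_pair (hSdr δ hδ' a ha) (hSdr δ hδ' b hb)).trans_lt ?_⟩
        exact (Order.lt_succ _).trans_le ((hle _).trans ((hle _).trans ((hle _).trans (hle _))))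
  obtain ⟨X, hXt, hXc, hSX, hXr⟩ := xcode_closure hSc (fun z hz => (hprop z hz).1)
    (fun z hz => (hprop z hz).2)
  have hin : ∀ δ ≤ γ, ∀ z ∈ ({Wl B w δ, fld (Wl B w δ), ZFSet.sep B (fld (Wl B w δ))} ∪
      (fun t : ZFSet.{u} × ZFSet.{u} × Fml => Hh B (Wl B w δ) t.1 t.2.1 t.2.2) ''
        ({x | x ∈ fld (Wl B w δ)} ×ˢ ({x | x ∈ fld (Wl B w δ)} ×ˢ (Set.univ : Set Fml))) ∪
      (fun t : ZFSet.{u} × ZFSet.{u} => ZFSet.pair t.1 t.2) '' (Sd δ ×ˢ Sd δ) : Set ZFSet.{u}),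
      z ∈ X := fun δ hδ z hz => hSX (Or.inr (Set.mem_iUnion₂.2 ⟨δ, hδ, hz⟩))
  have hnat : ∀ n, natZ.{u} n ∈ X := fun n => hSX (Or.inl (Or.inl (Or.inr ⟨n, rfl⟩)))
  have hun : ∀ δ ≤ γ, ∀ W, ZFSet.pair δ.toZFSet W ∈ h ↔ W = Wl B w δ := by
    intro δ hδ W
    rw [hmem]
    constructor
    · rintro ⟨δ', hδ', e⟩
      obtain ⟨e1, e2⟩ := ZFSet.pair_inj.1 e
      rw [e2, ← Ordinal.toZFSet_injective e1]
    · rintro rfl
      exact ⟨δ, hδ, rfl⟩
  have hb : ∀ d, (d ∈ γ.toZFSet ∨ d = γ.toZFSet) → ∃ δ ≤ γ, d = δ.toZFSet := by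
    rintro d (hd | rfl)
    · obtain ⟨δ, hδ, rfl⟩ := Ordinal.mem_toZFSet_iff.1 hd
      exact ⟨δ, hδ.le, rfl⟩
    · exact ⟨γ, le_rfl, rfl⟩
  refine ⟨X, hXt, hXc, ?_, ?_, ρ, hρβ, hXr⟩
  · refine Set.infinite_of_injective_forall_mem (f := natZ.{u}) ?_ hnat
    intro a b hab
    exact natZ_inj.1 hab
  · refine ⟨?_, γ.toZFSet, hSX (Or.inl (Or.inr rfl)), h, hSX (Or.inl (Or.inl (Or.inl rfl))),
      ZFSet.isOrdinal_toZFSet γ, ⟨?_, ?_⟩, Wl B w γ, (hun γ le_rfl _).2 rfl, hxγ⟩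
    · have h0 := hnat 0
      rw [natZ_eq, Nat.cast_zero, Ordinal.toZFSet_zero] at h0
      exact h0
    · intro d hd
      obtain ⟨δ, hδ, rfl⟩ := hb d hd
      refine ⟨Wl B w δ, (hun δ hδ _).2 rfl, fun W' hW' => (hun δ hδ W').1 hW', ?_, ?_, ?_, ?_, ?_⟩
      · exact hin δ hδ _ (Or.inl (Or.inl (Or.inl rfl)))
      · exact hin δ hδ _ (Or.inl (Or.inl (Or.inr (Or.inl rfl))))
      · exact hin δ hδ _ (Or.inl (Or.inl (Or.inr (Or.inr rfl))))
      · intro p hp q hq θ _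
        exact hin δ hδ _ (Or.inl (Or.inr ⟨(p, q, θ), ⟨hp, hq, trivial⟩, rfl⟩))
      · intro a b ha hb
        exact hin δ hδ _ (Or.inr ⟨(a, b), ⟨ha, hb⟩, rfl⟩)
    · intro d W hd hdW z
      obtain ⟨δ, hδ, rfl⟩ := hb d hd
      rw [(hun δ hδ W).1 hdW, mem_Wl]
      refine or_congr Iff.rfl ⟨?_, ?_⟩
      · rintro ⟨ε, hε, hz⟩
        refine ⟨ε.toZFSet, Ordinal.toZFSet_mem_toZFSet_iff.2 hε, Wl B w ε,
          (hun ε (hε.le.trans hδ) _).2 rfl, ?_⟩
        rw [step, ZFSet.mem_sep] at hz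
        exact hz.2
      · rintro ⟨ε', hε', W', hW', a, b', rfl, hab⟩
        obtain ⟨ε, hε, rfl⟩ := Ordinal.mem_toZFSet_iff.1 hε'
        rw [(hun ε (hε.le.trans hδ) W').1 hW'] at hab
        exact ⟨ε, hε, (mem_step (wo_Wl hw ε)).2 hab⟩

end Pool.Agent.H19.GP
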