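import Pool.Agent.H19.GP.Tools
import Pool.Agent.H52.OM.StepA
import Pool.Agent.H17.Omega.CtmM

/-!
# Goldstern's principle: Borel predicates of countable transitive sets

`Vld c`: the relation `rel c` on `ω` is extensional and well-founded; `val c n` is the value of `n` under the transitive collapse, `El c = range (val c)` the
transitive set coded by `c`.  `XD P`: for all numbers `m i` the set of the `(z, c)` with `P z (El c) (val c ∘ m)` is Borel, as far as `c` is valid.
-/

set_option autoImplicit false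
set_option linter.unusedVariables false
set_option linter.unusedSectionVars false

universe u

namespace Pool.Agent.H19.GP

open Pool.Agent.H17.Omega Pool.Agent.H17.GP
open MeasureTheory Topology Filter

/-- `c` codes a transitive set. -/
structure Vld (c : ℕ → ℕ) : Prop where
  ext : ∀ m n, (∀ k, rel c k m ↔ rel c k n) → m = n
  wf : Wf c

theorem exists_val {c : ℕ → ℕ} (hc : Wf c) (n : ℕ) : ∃ x : ZFSet.{u}, IsVal (rel c) x n := by
  induction n using hc.induction with
  | _ n ih =>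
    choose f hf using fun a : {a // rel c a n} => ih a.1 a.2
    refine ⟨ZFSet.range f, ?_⟩
    rw [isVal_iff]
    constructor
    · intro a ha
      exact ⟨f ⟨a, ha⟩, ZFSet.mem_range.2 ⟨_, rfl⟩, hf _⟩
    · intro y hy
      obtain ⟨a, rfl⟩ := ZFSet.mem_range.1 hy
      exact ⟨a.1, a.2, hf a⟩

/-- the value of `n` -/
noncomputable def val (c : ℕ → ℕ) (n : ℕ) : ZFSet.{u} := by
  classical exact if h : ∃ x, IsVal (rel c) x n then h.choose else ∅

theorem isVal_val {c : ℕ → ℕ} (hc : Wf c) (n : ℕ) : IsVal (rel c) (val.{u} c n) n := by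
  classical
  unfold val
  rw [dif_pos (exists_val hc n)]
  exact (exists_val hc n).choose_spec

/-- the transitive set coded by `c` -/
def El (c : ℕ → ℕ) : Set ZFSet.{u} := Set.range (val c)

section

variable {c : ℕ → ℕ} (hc : Vld c)

include hc

theorem mem_val {x : ZFSet.{u}} {n : ℕ} : x ∈ val.{u} c n ↔ ∃ k, rel c k n ∧ x = val c k := by
  have h := isVal_iff.1 (isVal_val.{u} hc.wf n)
  constructor
  · intro hx
    obtain ⟨k, hk, hk'⟩ := h.2 x hx
    exact ⟨k, hk, hk'.unique (isVal_val hc.wf k)⟩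
  · rintro ⟨k, hk, rfl⟩
    obtain ⟨y, hy, hy'⟩ := h.1 k hk
    rw [(isVal_val hc.wf k).unique hy']
    exact hy

theorem val_inj {m n : ℕ} : val.{u} c m = val c n ↔ m = n := by
  refine ⟨fun h => ?_, fun h => by rw [h]⟩
  induction m using hc.wf.induction generalizing n with
  | _ m ih =>
    refine hc.ext m n fun k => ⟨fun hk => ?_, fun hk => ?_⟩
    · have h1 : val.{u} c k ∈ val c n := by rw [← h]; exact (mem_val hc).2 ⟨k, hk, rfl⟩
      obtain ⟨k', hk', e⟩ := (mem_val hc).1 h1
      rw [ih k hk e]; exact hk'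
    · have h1 : val.{u} c k ∈ val c m := by rw [h]; exact (mem_val hc).2 ⟨k, hk, rfl⟩
      obtain ⟨k', hk', e⟩ := (mem_val hc).1 h1
      rw [← ih k' hk' e.symm]; exact hk'

theorem val_mem_iff {m n : ℕ} : val.{u} c m ∈ val c n ↔ rel c m n := by
  rw [mem_val hc]
  constructor
  · rintro ⟨k, hk, e⟩
    rw [(val_inj hc).1 e]; exact hk
  · intro h
    exact ⟨m, h, rfl⟩

theorem El_trans : ∀ x ∈ El.{u} c, ∀ y ∈ x, y ∈ El c := by
  rintro x ⟨n, rfl⟩ y hy
  obtain ⟨k, _, rfl⟩ := (mem_val hc).1 hy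
  exact ⟨k, rfl⟩

end

/-- Borel predicates of transitive sets. -/
def XD {Z : Type} [MeasurableSpace Z] {ι : Type} (P : Z → Set ZFSet.{u} → (ι → ZFSet.{u}) → Prop) : Prop :=
  ∀ m : ι → ℕ, ∃ S : Set (Z × (ℕ → ℕ)), MeasurableSet S ∧
    ∀ z c, Vld c → ((z, c) ∈ S ↔ P z (El c) (fun i => val c (m i)))

namespace XD

variable {Z : Type} [MeasurableSpace Z] {ι κ : Type}
  {P Q : Z → Set ZFSet.{u} → (ι → ZFSet.{u}) → Prop}

theorem congr (hP : XD P) (h : ∀ z c, Vld c → ∀ v : ι → ZFSet.{u}, (∀ i, v i ∈ El c) → (P z (El c) v ↔ Q z (El c) v)) :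
    XD Q := by
  intro m
  obtain ⟨S, hS, h1⟩ := hP m
  exact ⟨S, hS, fun z c hc => (h1 z c hc).trans (h z c hc _ fun i => ⟨m i, rfl⟩)⟩

theorem subst (hP : XD P) (σ : ι → κ) : XD (fun z X (v : κ → ZFSet.{u}) => P z X (fun i => v (σ i))) :=
  fun m => hP (fun i => m (σ i))

theorem real {p : Z → Prop} (hp : MeasurableSet {z | p z}) :
    XD (fun z (_ : Set ZFSet.{u}) (_ : ι → ZFSet.{u}) => p z) := by
  intro m
  exact ⟨{a | p a.1}, measurable_fst hp, fun z c _ => Iff.rfl⟩

theorem const (p : Prop) : XD (fun (_ : Z) (_ : Set ZFSet.{u}) (_ : ι → ZFSet.{u}) => p) :=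
  real (MeasurableSet.const p)

theorem mem (i j : ι) : XD (fun (_ : Z) (_ : Set ZFSet.{u}) (v : ι → ZFSet.{u}) => v i ∈ v j) := by
  intro m
  refine ⟨{a | a.2 (Nat.pair (m i) (m j)) = 0}, ?_, fun z c hc => (val_mem_iff hc).symm⟩
  exact ((measurable_pi_apply _).comp measurable_snd) (measurableSet_singleton 0)

theorem eq (i j : ι) : XD (fun (_ : Z) (_ : Set ZFSet.{u}) (v : ι → ZFSet.{u}) => v i = v j) := by
  intro m
  exact ⟨{_a | m i = m j}, MeasurableSet.const _, fun z c hc => (val_inj hc).symm⟩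

theorem and (hP : XD P) (hQ : XD Q) : XD (fun z X v => P z X v ∧ Q z X v) := by
  intro m
  obtain ⟨S, hS, h1⟩ := hP m
  obtain ⟨S', hS', h2⟩ := hQ m
  exact ⟨S ∩ S', hS.inter hS', fun z c hc => and_congr (h1 z c hc) (h2 z c hc)⟩

theorem or (hP : XD P) (hQ : XD Q) : XD (fun z X v => P z X v ∨ Q z X v) := by
  intro m
  obtain ⟨S, hS, h1⟩ := hP m
  obtain ⟨S', hS', h2⟩ := hQ m
  exact ⟨S ∪ S', hS.union hS', fun z c hc => or_congr (h1 z c hc) (h2 z c hc)⟩

theorem not (hP : XD P) : XD (fun z X v => ¬ P z X v) := by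
  intro m
  obtain ⟨S, hS, h1⟩ := hP m
  exact ⟨Sᶜ, hS.compl, fun z c hc => not_congr (h1 z c hc)⟩

theorem imp (hP : XD P) (hQ : XD Q) : XD (fun z X v => P z X v → Q z X v) :=
  (hP.not.or hQ).congr fun _ _ _ _ _ => imp_iff_not_or.symm

theorem iff (hP : XD P) (hQ : XD Q) : XD (fun z X v => P z X v ↔ Q z X v) :=
  ((hP.imp hQ).and (hQ.imp hP)).congr fun _ _ _ _ _ => iff_def.symm

theorem allN {α : Type} [Countable α] {P : α → Z → Set ZFSet.{u} → (ι → ZFSet.{u}) → Prop} (h : ∀ a, XD (P a)) :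
    XD (fun z X v => ∀ a, P a z X v) := by
  intro m
  choose S hS h1 using fun a => h a m
  refine ⟨⋂ a, S a, MeasurableSet.iInter hS, fun z c hc => ?_⟩
  rw [Set.mem_iInter]
  exact forall_congr' fun a => h1 a z c hc

theorem exN {α : Type} [Countable α] {P : α → Z → Set ZFSet.{u} → (ι → ZFSet.{u}) → Prop} (h : ∀ a, XD (P a)) :
    XD (fun z X v => ∃ a, P a z X v) := by
  intro m
  choose S hS h1 using fun a => h a m
  refine ⟨⋃ a, S a, MeasurableSet.iUnion hS, fun z c hc => ?_⟩
  rw [Set.mem_iUnion]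
  exact exists_congr fun a => h1 a z c hc

/-- Quantifiers over the transitive set. -/
theorem exX {P : Z → Set ZFSet.{u} → (ι → ZFSet.{u}) → ZFSet.{u} → Prop}
    (h : XD (fun z X (v : Option ι → ZFSet.{u}) => P z X (fun i => v (some i)) (v none))) :
    XD (fun z X v => ∃ y ∈ X, P z X v y) := by
  intro m
  choose S hS h1 using fun k : ℕ => h (fun o => o.elim k m)
  refine ⟨⋃ k, S k, MeasurableSet.iUnion hS, fun z c hc => ?_⟩
  rw [Set.mem_iUnion]
  constructor
  · rintro ⟨k, hk⟩
    exact ⟨val c k, ⟨k, rfl⟩, (h1 k z c hc).1 hk⟩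
  · rintro ⟨_, ⟨k, rfl⟩, hk⟩
    exact ⟨k, (h1 k z c hc).2 hk⟩

theorem allX {P : Z → Set ZFSet.{u} → (ι → ZFSet.{u}) → ZFSet.{u} → Prop}
    (h : XD (fun z X (v : Option ι → ZFSet.{u}) => P z X (fun i => v (some i)) (v none))) :
    XD (fun z X v => ∀ y ∈ X, P z X v y) :=
  (exX (P := fun z X v y => ¬ P z X v y) h.not).not.congr fun z c _ v _ => by push Not; exact Iff.rfl

/-- Bounded quantifiers. -/
theorem bex (j : ι) {P : Z → Set ZFSet.{u} → (ι → ZFSet.{u}) → ZFSet.{u} → Prop}
    (h : XD (fun z X (v : Option ι → ZFSet.{u}) => P z X (fun i => v (some i)) (v none))) :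
    XD (fun z X v => ∃ y ∈ v j, P z X v y) := by
  refine (exX (P := fun z X v y => y ∈ v j ∧ P z X v y) ((mem none (some j)).and h)).congr fun z c hc v hv => ?_
  constructor
  · rintro ⟨y, _, h1, h2⟩; exact ⟨y, h1, h2⟩
  · rintro ⟨y, h1, h2⟩; exact ⟨y, El_trans hc _ (hv j) y h1, h1, h2⟩

theorem ball (j : ι) {P : Z → Set ZFSet.{u} → (ι → ZFSet.{u}) → ZFSet.{u} → Prop}
    (h : XD (fun z X (v : Option ι → ZFSet.{u}) => P z X (fun i => v (some i)) (v none))) :
    XD (fun z X v => ∀ y ∈ v j, P z X v y) :=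
  (bex j (P := fun z X v y => ¬ P z X v y) h.not).not.congr fun z c _ v _ => by push Not; exact Iff.rfl

theorem sat {θ : Fml} (hθ : θ.Delta0) :
    XD (ι := ℕ) (fun (_ : Z) (_ : Set ZFSet.{u}) (v : ℕ → ZFSet.{u}) => Sat (fun a b : ZFSet.{u} => a ∈ b) θ v) := by
  induction hθ with
  | mem i j => exact mem i j
  | eq i j => exact eq i j
  | bot => exact const False
  | imp _ _ ih1 ih2 => exact ih1.imp ih2
  | and _ _ ih1 ih2 => exact ih1.and ih2
  | or _ _ ih1 ih2 => exact ih1.or ih2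
  | @ball φ k j hkj _ ih =>
    have h1 := ih.subst (κ := Option ℕ) (fun i => if i = k then none else some i)
    have h2 : XD (ι := Option ℕ) (fun (z : Z) (_ : Set ZFSet.{u}) (v : Option ℕ → ZFSet.{u}) =>
        Sat (fun a b : ZFSet.{u} => a ∈ b) φ (upd (fun i => v (some i)) k (v none))) := by
      refine h1.congr (fun z c _ v _ => ?_)
      have e : (fun i : ℕ => v (if i = k then none else some i)) =
          upd (fun i => v (some i)) k (v none) := by
        funext i
        unfold upd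
        split_ifs <;> rfl
      rw [e]
    have h3 := ball (P := fun (z : Z) (_ : Set ZFSet.{u}) (v : ℕ → ZFSet.{u}) y =>
      Sat (fun a b : ZFSet.{u} => a ∈ b) φ (upd v k y)) j h2
    refine h3.congr (fun z c _ v _ => ?_)
    have e2 : ∀ y, upd v k y k = y := fun y => upd_same _ _ _
    have e3 : ∀ y, upd v k y j = v j := fun y => upd_ne _ _ (Ne.symm hkj)
    constructor
    · intro h y hy
      have hy' : upd v k y k ∈ upd v k y j := hy
      rw [e2, e3] at hy'
      exact h y hy'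
    · intro h y hy
      refine h y ?_
      show upd v k y k ∈ upd v k y j
      rw [e2, e3]
      exact hy
  | @bex φ k j hkj _ ih =>
    have h1 := ih.subst (κ := Option ℕ) (fun i => if i = k then none else some i)
    have h2 : XD (ι := Option ℕ) (fun (z : Z) (_ : Set ZFSet.{u}) (v : Option ℕ → ZFSet.{u}) =>
        Sat (fun a b : ZFSet.{u} => a ∈ b) φ (upd (fun i => v (some i)) k (v none))) := by
      refine h1.congr (fun z c _ v _ => ?_)
      have e : (fun i : ℕ => v (if i = k then none else some i)) =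
          upd (fun i => v (some i)) k (v none) := by
        funext i
        unfold upd
        split_ifs <;> rfl
      rw [e]
    have h3 := bex (P := fun (z : Z) (_ : Set ZFSet.{u}) (v : ℕ → ZFSet.{u}) y =>
      Sat (fun a b : ZFSet.{u} => a ∈ b) φ (upd v k y)) j h2
    refine h3.congr (fun z c _ v _ => ?_)
    have e2 : ∀ y, upd v k y k = y := fun y => upd_same _ _ _
    have e3 : ∀ y, upd v k y j = v j := fun y => upd_ne _ _ (Ne.symm hkj)
    constructor
    · rintro ⟨y, hy, h⟩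
      refine ⟨y, ?_, h⟩
      show upd v k y k ∈ upd v k y j
      rw [e2, e3]
      exact hy
    · rintro ⟨y, hy, h⟩
      refine ⟨y, ?_, h⟩
      have hy' : upd v k y k ∈ upd v k y j := hy
      rw [e2, e3] at hy'
      exact hy'

theorem d0 {n : ℕ} {P : (Fin n → ZFSet.{u}) → Prop} (hP : D0 P) (σ : Fin n → ι) :
    XD (fun (_ : Z) (_ : Set ZFSet.{u}) (v : ι → ZFSet.{u}) => P (fun i => v (σ i))) := by
  obtain ⟨θ, h1, h2, h3⟩ := hP
  rcases Nat.eq_zero_or_pos n with rfl | hn
  · refine (const (P Fin.elim0)).congr (fun z c _ v _ => ?_)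
    have e : (fun i => v (σ i)) = Fin.elim0 := funext fun i => i.elim0
    rw [e]
  · let σ' : ℕ → ι := fun m => if h : m < n then σ ⟨m, h⟩ else σ ⟨0, hn⟩
    have h4 := (sat (Z := Z) h1).subst σ'
    refine h4.congr (fun z c _ v _ => ?_)
    rw [h3]
    have e : (fun i : Fin n => v (σ' i)) = fun i => v (σ i) := by
      funext i
      have : σ' i = σ i := by
        simp only [σ', i.2, dif_pos]
      rw [this]
    rw [e]

end XD

end Pool.Agent.H19.GP
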