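import Pool.Agent.H19.GP.XD
import Pool.Agent.H52.OM.Hier

/-!
# Goldstern's principle: the constructible hierarchy inside a transitive set, as a Borel predicate of the code of the set

`RichW B X W`: `W`, `fld W`, `B ∩ fld W`, all new sets over `W` and all pairs of the next level are in `X`.  `HierX B w b h X`: `h` is the sequence of the levels over `w`, up to the ordinal `b`.
`PsiX B w x X`: some such sequence is in `X` and the real `x` is in its last level.

PROOF of `xd_psiX` (calculus `XD`; contexts `ι`, `Option ι`; compare `H52/OM/UDH.lean` and `UDW.lean`, the same formulas with quantifiers over `HC` in place of `X`).  `B z = (z ∈ rz e)`, real parameter `z = (e, x)`.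
1. `pairMem i j k` (`pair (v i) (v j) ∈ v k`), `pairEq`, `natZ` (`v i = natZ m`, fixed `m`, `D0` by induction on `m`: `OM28.d0_natZ` in `UDc.lean`), `subset`, `isEmpty`: `XD.d0`.
2. `v i = pair (natZ a) (natZ b)` (fixed `a b`): `∃ p q ∈ X, p = natZ a ∧ q = natZ b ∧ v i = pair p q` (components of an element of a transitive set... are in it: `pair p q ∈ X` implies `{p}, {p, q} ∈ X` and `p, q ∈ X`: `ZFSet.pair p q = {{p}, {p, q}}`).
   `v i ∈ rz e`: `∃ n m, e n = m ∧ v i = pair (natZ n) (natZ m)` (`exN`, `real`: the set `{(e, x) | e n = m}` is clopen).  `v i = rz x`: `∀ y ∈ v i, ∃ n m, x n = m ∧ y = pair (natZ n) (natZ m)` and `∀ n m, x n = m → ∃ y ∈ v i, y = pair (natZ n) (natZ m)`.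
3. `v i = fld (v j)` for `v j ∈ X`: `∀ y ∈ X, y ∈ v i ↔ pair y y ∈ v j` (elements of `fld W` are in `X` by transitivity: `mem_fld`).  `v i = sep B (v j)`: `∀ y ∈ X, (y ∈ v i ↔ y ∈ v j ∧ B y)`.
4. `v i = Hh B (v W) (v p) (v q) θ` if `RichW` (so that `fld W`, `sep B (fld W)`, `∅` are in `X`): `∃ L U e ∈ X, L = fld W ∧ U = sep B L ∧ e = ∅ ∧ ∀ u ∈ X, (u ∈ v i ↔ u ∈ L ∧ Sat θ (u, L, W, U, p, q, e, e, ...))`: `XD.sat` with `subst`.
5. `IsCode`, `CLt`, `Least`, `New`, `StepR` (Defs of `H52/OM`): quantifiers over elements of `fld W` (bounded by `X`), over `Fml` (`allN`, `exN`; `Countable Fml`), and `θ.code < θ'.code` is a constant.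
6. `RichW`: `mem`: `W ∈ X` is automatic for `v i`; `L`: `∃ L ∈ X, L = fld W`; `S`; `Hh`: `∀ p q ∈ fld W, ∀ θ, θ.Delta0 → ∃ z ∈ X, z = Hh ..`; `pr`: `∀ a b ∈ X`.  NOTE: in 4 the quantifier `∃ L ∈ X` may fail when `RichW` fails; so prove first that the conjunction (`L` and `S` and `∅ ∈ X` clauses) is `XD`, and that the remaining
   clauses are `XD` under this assumption (use `XD.congr` for conjunctions `A ∧ P` and `A ∧ P'` with `A → (P ↔ P')`).
7. `HierX`, `PsiX`: bounded quantifiers; `b.IsOrdinal`: `D0.isOrd` or (transitive and all elements transitive).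
-/

set_option autoImplicit false
set_option linter.unusedVariables false
set_option linter.unusedSectionVars false

universe u

namespace Pool.Agent.H19.GP

open Pool.Agent.H17.Omega Pool.Agent.H17.GP
open Pool.Agent.H52.OM
open MeasureTheory Topology Filter

/-- Everything that is needed for the step over `W` is in `X`. -/
structure RichW (B : ZFSet.{u} → Prop) (X : Set ZFSet.{u}) (W : ZFSet.{u}) : Prop where
  mem : W ∈ X
  L : fld W ∈ X
  S : ZFSet.sep B (fld W) ∈ X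
  Hh : ∀ p ∈ fld W, ∀ q ∈ fld W, ∀ θ : Fml, θ.Delta0 → Hh B W p q θ ∈ X
  pr : ∀ a b, (a ∈ fld W ∨ New B W a) → (b ∈ fld W ∨ New B W b) → ZFSet.pair a b ∈ X

/-- `h` is the sequence of the levels over `w` up to the ordinal `b`. -/
structure HierX (B : ZFSet.{u} → Prop) (w : ZFSet.{u}) (X : Set ZFSet.{u}) (b h : ZFSet.{u}) : Prop where
  fn : ∀ δ, (δ ∈ b ∨ δ = b) → ∃ W, ZFSet.pair δ W ∈ h ∧ (∀ W', ZFSet.pair δ W' ∈ h → W' = W) ∧ RichW B X W
  eq : ∀ δ W, (δ ∈ b ∨ δ = b) → ZFSet.pair δ W ∈ h → ∀ z, z ∈ W ↔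
    z ∈ w ∨ ∃ ε ∈ δ, ∃ W', ZFSet.pair ε W' ∈ h ∧ ∃ a b', z = ZFSet.pair a b' ∧ StepR B W' a b'

/-- The real `x` is in a level of the hierarchy in `X`. -/
def PsiX (B : ZFSet.{u} → Prop) (w : ZFSet.{u}) (x : ℕ → ℕ) (X : Set ZFSet.{u}) : Prop :=
  ∅ ∈ X ∧ ∃ b ∈ X, ∃ h ∈ X, b.IsOrdinal ∧ HierX B w X b h ∧ ∃ W, ZFSet.pair b W ∈ h ∧ rz x ∈ fld W

/-- the trivial wellorder of `{∅}` -/
def w0 : ZFSet.{u} := {ZFSet.pair ∅ ∅}

/-- the elements of the real `e`, as a predicate -/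
def BR (e : ℕ → ℕ) (z : ZFSet.{u}) : Prop := z ∈ rz.{u} e

/-! ### Variables as terms -/

/-- `s` is a variable -/
def XV {ι : Type} (s : (ι → ZFSet.{u}) → ZFSet.{u}) : Prop := ∃ i, ∀ v, s v = v i

theorem XV.var {ι : Type} (i : ι) : XV (fun v : ι → ZFSet.{u} => v i) := ⟨i, fun _ => rfl⟩

theorem XV.lift {ι : Type} {s : (ι → ZFSet.{u}) → ZFSet.{u}} (h : XV s) :
    XV (fun v : Option ι → ZFSet.{u} => s (fun i => v (some i))) := by
  obtain ⟨i, hi⟩ := h
  exact ⟨some i, fun v => hi _⟩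

section

variable {Z : Type} [MeasurableSpace Z] {ι : Type} {r s t : (ι → ZFSet.{u}) → ZFSet.{u}}

theorem XD.memV (hs : XV s) (ht : XV t) : XD (fun (_ : Z) (_ : Set ZFSet.{u}) (v : ι → ZFSet.{u}) => s v ∈ t v) := by
  obtain ⟨i, hi⟩ := hs
  obtain ⟨j, hj⟩ := ht
  refine (XD.mem i j).congr fun z c _ v _ => ?_
  rw [hi, hj]

theorem XD.eqV (hs : XV s) (ht : XV t) : XD (fun (_ : Z) (_ : Set ZFSet.{u}) (v : ι → ZFSet.{u}) => s v = t v) := by
  obtain ⟨i, hi⟩ := hs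
  obtain ⟨j, hj⟩ := ht
  refine (XD.eq i j).congr fun z c _ v _ => ?_
  rw [hi, hj]

theorem XD.d0V {n : ℕ} {P : (Fin n → ZFSet.{u}) → Prop} (hP : D0 P) {t : Fin n → (ι → ZFSet.{u}) → ZFSet.{u}}
    (ht : ∀ i, XV (t i)) : XD (fun (_ : Z) (_ : Set ZFSet.{u}) (v : ι → ZFSet.{u}) => P (fun i => t i v)) := by
  choose σ hσ using ht
  refine (XD.d0 (Z := Z) hP σ).congr fun z c _ v _ => ?_
  have e : (fun i => v (σ i)) = fun i => t i v := funext fun i => (hσ i v).symm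
  rw [e]

theorem XD.pairMemV (hs : XV s) (ht : XV t) (hr : XV r) :
    XD (fun (_ : Z) (_ : Set ZFSet.{u}) (v : ι → ZFSet.{u}) => ZFSet.pair (s v) (t v) ∈ r v) :=
  XD.d0V (P := fun v : Fin 3 → ZFSet.{u} => ZFSet.pair (v 0) (v 1) ∈ v 2)
    (D0.pairMem (D0T.var 0) (D0T.var 1) (D0T.var 2)) (t := ![s, t, r]) (by
      intro i; fin_cases i <;> assumption)

theorem XD.isPairV (hr : XV r) (hs : XV s) (ht : XV t) :
    XD (fun (_ : Z) (_ : Set ZFSet.{u}) (v : ι → ZFSet.{u}) => r v = ZFSet.pair (s v) (t v)) :=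
  XD.d0V (P := fun v : Fin 3 → ZFSet.{u} => v 0 = ZFSet.pair (v 1) (v 2))
    (D0.isPair (D0T.var 0) (D0T.var 1) (D0T.var 2)) (t := ![r, s, t]) (by
      intro i; fin_cases i <;> assumption)

theorem XD.isEmptyV (hs : XV s) : XD (fun (_ : Z) (_ : Set ZFSet.{u}) (v : ι → ZFSet.{u}) => s v = ∅) :=
  XD.d0V (P := fun v : Fin 1 → ZFSet.{u} => v 0 = ∅) (D0.isEmpty (D0T.var 0)) (t := ![s]) (by
      intro i; fin_cases i <;> assumption)

theorem XD.isOrdV (hs : XV s) :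
    XD (fun (_ : Z) (_ : Set ZFSet.{u}) (v : ι → ZFSet.{u}) => (s v).IsOrdinal) := by
  refine XD.d0V (P := fun v : Fin 1 → ZFSet.{u} => (v 0).IsOrdinal) ?_ (t := ![s]) (by
      intro i; fin_cases i <;> assumption)
  refine ((D0.isTrans (D0T.var 0)).and (D0.ballZ (p := fun v z => z.IsTransitive) (D0T.var 0)
    (D0.isTrans D0T.last))).congr fun v => ?_
  constructor
  · rintro ⟨h1, h2⟩
    refine ⟨h1, ?_⟩
    intro x y z hxy hyz hz
    exact h2 z hz y hyz hxy
  · intro h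
    exact ⟨h.isTransitive, fun z hz => (h.mem hz).isTransitive⟩

theorem XD.bexV (ht : XV t) {P : Z → Set ZFSet.{u} → (ι → ZFSet.{u}) → ZFSet.{u} → Prop}
    (h : XD (fun z X (v : Option ι → ZFSet.{u}) => P z X (fun i => v (some i)) (v none))) :
    XD (fun z X v => ∃ y ∈ t v, P z X v y) := by
  obtain ⟨j, hj⟩ := ht
  simp only [hj]
  exact XD.bex j h

theorem XD.ballV (ht : XV t) {P : Z → Set ZFSet.{u} → (ι → ZFSet.{u}) → ZFSet.{u} → Prop}
    (h : XD (fun z X (v : Option ι → ZFSet.{u}) => P z X (fun i => v (some i)) (v none))) :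
    XD (fun z X v => ∀ y ∈ t v, P z X v y) := by
  obtain ⟨j, hj⟩ := ht
  simp only [hj]
  exact XD.ball j h

theorem XD.satV {θ : Fml} (hθ : θ.Delta0) {s : ℕ → (ι → ZFSet.{u}) → ZFSet.{u}} (hs : ∀ n, XV (s n)) :
    XD (fun (_ : Z) (_ : Set ZFSet.{u}) (v : ι → ZFSet.{u}) =>
      Sat (fun a b : ZFSet.{u} => a ∈ b) θ (fun n => s n v)) := by
  choose σ hσ using hs
  refine ((XD.sat (Z := Z) hθ).subst σ).congr fun z c _ v _ => ?_
  have e : (fun i => v (σ i)) = fun i => s i v := funext fun i => (hσ i v).symm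
  rw [e]

theorem El_pair {c : ℕ → ℕ} (hc : Vld c) {a b : ZFSet.{u}} (h : ZFSet.pair a b ∈ El c) : a ∈ El c ∧ b ∈ El c := by
  have h1 : ({a, b} : ZFSet.{u}) ∈ El c := El_trans hc _ h _ (by
    rw [ZFSet.pair, ZFSet.mem_pair]; exact Or.inr rfl)
  exact ⟨El_trans hc _ h1 _ (ZFSet.mem_pair.2 (Or.inl rfl)), El_trans hc _ h1 _ (ZFSet.mem_pair.2 (Or.inr rfl))⟩

theorem XD.fldV (hs : XV s) (ht : XV t) :
    XD (fun (_ : Z) (_ : Set ZFSet.{u}) (v : ι → ZFSet.{u}) => s v = fld (t v)) := by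
  have h : XD (fun (_ : Z) (X : Set ZFSet.{u}) (v : ι → ZFSet.{u}) => ∀ y ∈ X, (y ∈ s v ↔ ZFSet.pair y y ∈ t v)) := by
    refine XD.allX ?_
    exact (XD.memV (XV.var none) hs.lift).iff (XD.pairMemV (XV.var none) (XV.var none) ht.lift)
  refine h.congr fun z c hc v hv => ?_
  obtain ⟨i, hi⟩ := hs
  obtain ⟨j, hj⟩ := ht
  rw [hi, hj]
  constructor
  · intro h1
    ext y
    rw [mem_fld]
    constructor
    · intro hy
      exact (h1 y (El_trans hc _ (hv i) _ hy)).1 hy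
    · intro hy
      exact (h1 y (El_pair hc (El_trans hc _ (hv j) _ hy)).1).2 hy
  · intro h1 y _
    rw [h1, mem_fld]

theorem XD.natV (m : ℕ) : ∀ {ι : Type} {s : (ι → ZFSet.{u}) → ZFSet.{u}}, XV s →
    XD (fun (_ : Z) (_ : Set ZFSet.{u}) (v : ι → ZFSet.{u}) => s v = natZ m) := by
  induction m with
  | zero =>
    intro ι s hs
    exact XD.isEmptyV hs
  | succ m ih =>
    intro ι s hs
    have h : XD (fun (_ : Z) (X : Set ZFSet.{u}) (v : ι → ZFSet.{u}) => ∃ y ∈ X, y = natZ m ∧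
        ∀ a ∈ X, (a ∈ s v ↔ a = y ∨ a ∈ y)) := by
      refine XD.exX ?_
      refine (ih (XV.var none)).and ?_
      refine XD.allX ?_
      exact (XD.memV (XV.var none) hs.lift.lift).iff ((XD.eqV (XV.var none) (XV.var (some none))).or
        (XD.memV (XV.var none) (XV.var (some none))))
    refine h.congr fun z c hc v hv => ?_
    obtain ⟨i, hi⟩ := hs
    rw [hi]
    constructor
    · rintro ⟨y, hy, rfl, h1⟩
      ext a
      show _ ↔ a ∈ insert (natZ m) (natZ m)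
      rw [ZFSet.mem_insert_iff]
      constructor
      · intro ha
        exact (h1 a (El_trans hc _ (hv i) _ ha)).1 ha
      · intro ha
        refine (h1 a ?_).2 ha
        rcases ha with rfl | ha
        · exact hy
        · exact El_trans hc _ hy _ ha
    · intro h1
      have h2 : natZ m ∈ v i := by rw [h1]; exact ZFSet.mem_insert _ _
      refine ⟨natZ m, El_trans hc _ (hv i) _ h2, rfl, fun a _ => ?_⟩
      rw [h1]
      show a ∈ insert (natZ m) (natZ m) ↔ _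
      rw [ZFSet.mem_insert_iff]

theorem XD.pairNatV (n m : ℕ) (hs : XV s) :
    XD (fun (_ : Z) (_ : Set ZFSet.{u}) (v : ι → ZFSet.{u}) => s v = ZFSet.pair (natZ n) (natZ m)) := by
  have h : XD (fun (_ : Z) (X : Set ZFSet.{u}) (v : ι → ZFSet.{u}) => ∃ p ∈ X, ∃ q ∈ X, p = natZ n ∧ q = natZ m ∧
      s v = ZFSet.pair p q) := by
    refine XD.exX ?_
    refine XD.exX ?_
    exact (XD.natV n (XV.var (some none))).and ((XD.natV m (XV.var none)).and
      (XD.isPairV hs.lift.lift (XV.var (some none)) (XV.var none)))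
  refine h.congr fun z c hc v hv => ?_
  obtain ⟨i, hi⟩ := hs
  rw [hi]
  constructor
  · rintro ⟨p, _, q, _, rfl, rfl, h1⟩; exact h1
  · intro h1
    have h2 := El_pair hc (by rw [← h1]; exact hv i)
    exact ⟨_, h2.1, _, h2.2, rfl, rfl, h1⟩

/-- membership in a real that is given by a measurable function -/
theorem XD.brV {e : Z → ℕ → ℕ} (he : ∀ n m, MeasurableSet {z | e z n = m}) (hs : XV s) :
    XD (fun (z : Z) (_ : Set ZFSet.{u}) (v : ι → ZFSet.{u}) => BR (e z) (s v)) := by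
  have h : XD (fun (z : Z) (X : Set ZFSet.{u}) (v : ι → ZFSet.{u}) => ∃ n m : ℕ, e z n = m ∧
      s v = ZFSet.pair (natZ n) (natZ m)) := by
    refine XD.exN fun n => XD.exN fun m => ?_
    exact (XD.real (he n m)).and (XD.pairNatV n m hs)
  refine h.congr fun z c hc v hv => ?_
  unfold BR
  rw [mem_rz]
  constructor
  · rintro ⟨n, m, rfl, h1⟩; exact ⟨n, h1⟩
  · rintro ⟨n, h1⟩; exact ⟨n, _, rfl, h1⟩

theorem XD.sepV {e : Z → ℕ → ℕ} (he : ∀ n m, MeasurableSet {z | e z n = m}) (hs : XV s) (ht : XV t) :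
    XD (fun (z : Z) (_ : Set ZFSet.{u}) (v : ι → ZFSet.{u}) => s v = ZFSet.sep (BR (e z)) (t v)) := by
  have h : XD (fun (z : Z) (X : Set ZFSet.{u}) (v : ι → ZFSet.{u}) => ∀ y ∈ X, (y ∈ s v ↔ y ∈ t v ∧ BR (e z) y)) := by
    refine XD.allX ?_
    exact (XD.memV (XV.var none) hs.lift).iff ((XD.memV (XV.var none) ht.lift).and (XD.brV he (XV.var none)))
  refine h.congr fun z c hc v hv => ?_
  obtain ⟨i, hi⟩ := hs
  obtain ⟨j, hj⟩ := ht
  rw [hi, hj]
  constructor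
  · intro h1
    ext y
    rw [ZFSet.mem_sep]
    constructor
    · intro hy
      exact (h1 y (El_trans hc _ (hv i) _ hy)).1 hy
    · intro hy
      exact (h1 y (El_trans hc _ (hv j) _ hy.1)).2 hy
  · intro h1 y _
    rw [h1, ZFSet.mem_sep]

theorem XD.rzV {e : Z → ℕ → ℕ} (he : ∀ n m, MeasurableSet {z | e z n = m}) (hs : XV s) :
    XD (fun (z : Z) (_ : Set ZFSet.{u}) (v : ι → ZFSet.{u}) => s v = rz (e z)) := by
  have h : XD (fun (z : Z) (X : Set ZFSet.{u}) (v : ι → ZFSet.{u}) => (∀ y ∈ X, (y ∈ s v ↔ BR (e z) y)) ∧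
      ∀ n m : ℕ, e z n = m → ∃ y ∈ X, y = ZFSet.pair (natZ n) (natZ m)) := by
    refine XD.and (XD.allX ?_) (XD.allN fun n => XD.allN fun m => ?_)
    · exact (XD.memV (XV.var none) hs.lift).iff (XD.brV he (XV.var none))
    · refine (XD.real (he n m)).imp (XD.exX ?_)
      exact XD.pairNatV n m (XV.var none)
  refine h.congr fun z c hc v hv => ?_
  obtain ⟨i, hi⟩ := hs
  rw [hi]
  constructor
  · rintro ⟨h1, h2⟩
    ext y
    constructor
    · intro hy
      exact (h1 y (El_trans hc _ (hv i) _ hy)).1 hy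
    · intro hy
      refine (h1 y ?_).2 hy
      obtain ⟨n, hn⟩ := mem_rz.1 hy
      obtain ⟨y', hy', h3⟩ := h2 n _ rfl
      rw [hn, ← h3]; exact hy'
  · intro h1
    refine ⟨fun y _ => by rw [h1]; rfl, fun n m hnm => ?_⟩
    refine ⟨_, ?_, rfl⟩
    refine El_trans hc _ (hv i) _ ?_
    rw [h1, ← hnm]
    exact mem_rz.2 ⟨n, rfl⟩

end

/-! ### The step with explicit parameters -/

/-- the parameters of a definable set: `L = fld W`, `S = sep B L`, `e = ∅` -/
def asP (L W S e p q z : ZFSet.{u}) : ℕ → ZFSet.{u}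
  | 0 => z
  | 1 => L
  | 2 => W
  | 3 => S
  | 4 => p
  | 5 => q
  | _ => e

/-- `z` is the set defined by `(p, q, θ)` -/
def HP (L W S e p q : ZFSet.{u}) (θ : Fml) (X : Set ZFSet.{u}) (z : ZFSet.{u}) : Prop :=
  ∀ y ∈ X, (y ∈ z ↔ y ∈ L ∧ Sat (fun a b : ZFSet.{u} => a ∈ b) θ (asP L W S e p q y))

/-- `(p, q, θ)` is a definition of `z` -/
def CP (L W S e : ZFSet.{u}) (X : Set ZFSet.{u}) (z p q : ZFSet.{u}) (θ : Fml) : Prop :=
  θ.Delta0 ∧ HP L W S e p q θ X z

/-- `(p, q, θ)` is the least definition of `z` -/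
def LP (L W S e : ZFSet.{u}) (X : Set ZFSet.{u}) (z p q : ZFSet.{u}) (θ : Fml) : Prop :=
  CP L W S e X z p q θ ∧ ∀ p' ∈ L, ∀ q' ∈ L, ∀ θ', CP L W S e X z p' q' θ' → ¬ CLt W p' q' θ' p q θ

/-- `z` is new -/
def NP (L W S e : ZFSet.{u}) (X : Set ZFSet.{u}) (z : ZFSet.{u}) : Prop :=
  z ∉ L ∧ ∃ p ∈ L, ∃ q ∈ L, ∃ θ, CP L W S e X z p q θ

/-- the wellorder of the next level -/
def SP (L W S e : ZFSet.{u}) (X : Set ZFSet.{u}) (a b : ZFSet.{u}) : Prop :=
  ZFSet.pair a b ∈ W ∨ (a ∈ L ∧ NP L W S e X b) ∨ (NP L W S e X a ∧ NP L W S e X b ∧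
    (a = b ∨ ∃ p ∈ L, ∃ q ∈ L, ∃ θ, ∃ p' ∈ L, ∃ q' ∈ L, ∃ θ', LP L W S e X a p q θ ∧ LP L W S e X b p' q' θ' ∧
      CLt W p q θ p' q' θ'))

section

variable {B : ZFSet.{u} → Prop} {X : Set ZFSet.{u}} (hX : ∀ y ∈ X, ∀ z ∈ y, z ∈ X) {L W S e : ZFSet.{u}}
  (hL : L = fld W) (hS : S = ZFSet.sep B L) (he : e = ∅)

theorem asP_eq {p q z : ZFSet.{u}} (hL : L = fld W) (hS : S = ZFSet.sep B L) (he : e = ∅) :
    asP L W S e p q z = asH B W p q z := by
  funext i
  match i with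
  | 0 => rfl
  | 1 => exact hL
  | 2 => rfl
  | 3 => show S = ZFSet.sep B (fld W); rw [hS, hL]
  | 4 => rfl
  | 5 => rfl
  | (n + 6) => exact he

include hX hL hS he

theorem hP_iff {z p q : ZFSet.{u}} {θ : Fml} (hLX : L ∈ X) (hz : z ∈ X) : HP L W S e p q θ X z ↔ z = Hh B W p q θ := by
  unfold HP Hh
  simp only [asP_eq hL hS he]
  constructor
  · intro h
    ext y
    rw [ZFSet.mem_sep, ← hL]
    constructor
    · intro hy
      exact (h y (hX _ hz _ hy)).1 hy
    · intro hy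
      exact (h y (hX _ hLX _ hy.1)).2 hy
  · intro h y _
    rw [h, ZFSet.mem_sep, ← hL]

theorem cP_iff {z p q : ZFSet.{u}} {θ : Fml} (hLX : L ∈ X) (hz : z ∈ X) (hp : p ∈ L) (hq : q ∈ L) :
    CP L W S e X z p q θ ↔ IsCode B W z p q θ := by
  unfold CP
  rw [hP_iff hX hL hS he hLX hz]
  constructor
  · rintro ⟨h1, h2⟩
    exact ⟨h1, by rw [← hL]; exact hp, by rw [← hL]; exact hq, h2⟩
  · intro h
    exact ⟨h.d0, h.eq⟩

theorem lP_iff {z p q : ZFSet.{u}} {θ : Fml} (hLX : L ∈ X) (hz : z ∈ X) (hp : p ∈ L) (hq : q ∈ L) :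
    LP L W S e X z p q θ ↔ Least B W z p q θ := by
  unfold LP Least
  rw [cP_iff hX hL hS he hLX hz hp hq]
  refine and_congr Iff.rfl ?_
  constructor
  · intro h p' q' θ' h1
    have hp' : p' ∈ L := by rw [hL]; exact h1.hp
    have hq' : q' ∈ L := by rw [hL]; exact h1.hq
    exact h p' hp' q' hq' θ' ((cP_iff hX hL hS he hLX hz hp' hq').2 h1)
  · intro h p' hp' q' hq' θ' h1
    exact h p' q' θ' ((cP_iff hX hL hS he hLX hz hp' hq').1 h1)

theorem nP_iff {z : ZFSet.{u}} (hLX : L ∈ X) (hz : z ∈ X) : NP L W S e X z ↔ New B W z := by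
  unfold NP New
  rw [← hL]
  refine and_congr Iff.rfl ?_
  constructor
  · rintro ⟨p, hp, q, hq, θ, h⟩
    exact ⟨p, q, θ, (cP_iff hX hL hS he hLX hz hp hq).1 h⟩
  · rintro ⟨p, q, θ, h⟩
    have hp : p ∈ L := by rw [hL]; exact h.hp
    have hq : q ∈ L := by rw [hL]; exact h.hq
    exact ⟨p, hp, q, hq, θ, (cP_iff hX hL hS he hLX hz hp hq).2 h⟩

theorem sP_iff {a b : ZFSet.{u}} (hLX : L ∈ X) (ha : a ∈ X) (hb : b ∈ X) : SP L W S e X a b ↔ StepR B W a b := by
  unfold SP StepR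
  rw [nP_iff hX hL hS he hLX ha, nP_iff hX hL hS he hLX hb, ← hL]
  refine or_congr Iff.rfl (or_congr Iff.rfl (and_congr Iff.rfl (and_congr Iff.rfl (or_congr Iff.rfl ?_))))
  constructor
  · rintro ⟨p, hp, q, hq, θ, p', hp', q', hq', θ', h1, h2, h3⟩
    exact ⟨p, q, θ, p', q', θ', (lP_iff hX hL hS he hLX ha hp hq).1 h1, (lP_iff hX hL hS he hLX hb hp' hq').1 h2, h3⟩
  · rintro ⟨p, q, θ, p', q', θ', h1, h2, h3⟩
    have hp : p ∈ L := by rw [hL]; exact h1.1.hp
    have hq : q ∈ L := by rw [hL]; exact h1.1.hq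
    have hp' : p' ∈ L := by rw [hL]; exact h2.1.hp
    have hq' : q' ∈ L := by rw [hL]; exact h2.1.hq
    exact ⟨p, hp, q, hq, θ, p', hp', q', hq', θ', (lP_iff hX hL hS he hLX ha hp hq).2 h1,
      (lP_iff hX hL hS he hLX hb hp' hq').2 h2, h3⟩

end

/-- `RichW` with quantifiers over `X` -/
def RP (B : ZFSet.{u} → Prop) (e : ZFSet.{u}) (X : Set ZFSet.{u}) (W : ZFSet.{u}) : Prop :=
  ∃ L ∈ X, L = fld W ∧ ∃ S ∈ X, S = ZFSet.sep B L ∧ (∀ p ∈ L, ∀ q ∈ L, ∀ θ : Fml, θ.Delta0 →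
    ∃ y ∈ X, HP L W S e p q θ X y) ∧ ∀ a ∈ X, ∀ b ∈ X, (a ∈ L ∨ NP L W S e X a) → (b ∈ L ∨ NP L W S e X b) →
      ∃ y ∈ X, y = ZFSet.pair a b

/-- `HierX` with quantifiers over `X` -/
def HP1 (B : ZFSet.{u} → Prop) (e : ZFSet.{u}) (X : Set ZFSet.{u}) (b h : ZFSet.{u}) : Prop :=
  ∀ δ ∈ X, (δ ∈ b ∨ δ = b) → ∃ W ∈ X, ZFSet.pair δ W ∈ h ∧ (∀ W' ∈ X, ZFSet.pair δ W' ∈ h → W' = W) ∧ RP B e X W

/-- `HierX` with quantifiers over `X` -/
def HP2 (B : ZFSet.{u} → Prop) (e : ZFSet.{u}) (X : Set ZFSet.{u}) (b h : ZFSet.{u}) : Prop :=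
  ∀ δ ∈ X, ∀ W ∈ X, (δ ∈ b ∨ δ = b) → ZFSet.pair δ W ∈ h → ∀ z ∈ X, (z ∈ W ↔ z = ZFSet.pair e e ∨ ∃ ε ∈ δ,
    ∃ W' ∈ X, ZFSet.pair ε W' ∈ h ∧ ∃ L ∈ X, L = fld W' ∧ ∃ S ∈ X, S = ZFSet.sep B L ∧ ∃ a ∈ X, ∃ b' ∈ X,
      z = ZFSet.pair a b' ∧ SP L W' S e X a b')

/-- `PsiX` with quantifiers over `X` -/
def PP (B : ZFSet.{u} → Prop) (x : ℕ → ℕ) (X : Set ZFSet.{u}) : Prop :=
  ∃ e ∈ X, e = ∅ ∧ ∃ b ∈ X, ∃ h ∈ X, b.IsOrdinal ∧ (∃ o ∈ X, o = ZFSet.pair e e) ∧ HP1 B e X b h ∧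
    HP2 B e X b h ∧ ∃ W ∈ X, ZFSet.pair b W ∈ h ∧ ∃ r ∈ X, r = rz x ∧ ZFSet.pair r r ∈ W

theorem pair_memX {X : Set ZFSet.{u}} (hX : ∀ y ∈ X, ∀ z ∈ y, z ∈ X) {a b : ZFSet.{u}} (h : ZFSet.pair a b ∈ X) :
    a ∈ X ∧ b ∈ X := by
  have h1 : ({a, b} : ZFSet.{u}) ∈ X := hX _ h _ (by
    rw [ZFSet.pair, ZFSet.mem_pair]; exact Or.inr rfl)
  exact ⟨hX _ h1 _ (ZFSet.mem_pair.2 (Or.inl rfl)), hX _ h1 _ (ZFSet.mem_pair.2 (Or.inr rfl))⟩

section

variable {B : ZFSet.{u} → Prop} {X : Set ZFSet.{u}} (hX : ∀ y ∈ X, ∀ z ∈ y, z ∈ X)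

include hX

theorem rP_iff {W : ZFSet.{u}} (hW : W ∈ X) (h0 : ∅ ∈ X) : RP B ∅ X W ↔ RichW B X W := by
  constructor
  · rintro ⟨L, hLX, hL, S, hSX, hS, h1, h2⟩
    have hH : ∀ p ∈ L, ∀ q ∈ L, ∀ θ : Fml, θ.Delta0 → Pool.Agent.H52.OM.Hh B W p q θ ∈ X := by
      intro p hp q hq θ hθ
      obtain ⟨y, hy, h3⟩ := h1 p hp q hq θ hθ
      rw [← (hP_iff hX hL hS rfl hLX hy).1 h3]; exact hy
    have hN : ∀ a, (a ∈ fld W ∨ New B W a) → a ∈ X := by
      rintro a (ha | ⟨-, p, q, θ, hc⟩)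
      · rw [← hL] at ha
        exact hX _ hLX _ ha
      · rw [hc.eq]
        exact hH p (by rw [hL]; exact hc.hp) q (by rw [hL]; exact hc.hq) θ hc.d0
    refine ⟨hW, by rw [← hL]; exact hLX, by rw [← hL, ← hS]; exact hSX, ?_, ?_⟩
    · intro p hp q hq θ hθ
      exact hH p (by rw [hL]; exact hp) q (by rw [hL]; exact hq) θ hθ
    · intro a b ha hb
      have haX := hN a ha
      have hbX := hN b hb
      obtain ⟨y, hy, rfl⟩ := h2 a haX b hbX (by rw [nP_iff hX hL hS rfl hLX haX, hL]; exact ha)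
        (by rw [nP_iff hX hL hS rfl hLX hbX, hL]; exact hb)
      exact hy
  · intro h
    refine ⟨fld W, h.L, rfl, _, h.S, rfl, ?_, ?_⟩
    · intro p hp q hq θ hθ
      exact ⟨_, h.Hh p hp q hq θ hθ, (hP_iff hX rfl rfl rfl h.L (h.Hh p hp q hq θ hθ)).2 rfl⟩
    · intro a ha b hb h1 h2
      rw [nP_iff hX rfl rfl rfl h.L ha] at h1
      rw [nP_iff hX rfl rfl rfl h.L hb] at h2
      exact ⟨_, h.pr a b h1 h2, rfl⟩

theorem stepR_memX {W a b : ZFSet.{u}} (hR : RichW B X W) (h : StepR B W a b) : ZFSet.pair a b ∈ X := by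
  rcases h with h | ⟨h1, h2⟩ | ⟨h1, h2, -⟩
  · exact hX _ hR.mem _ h
  · exact hR.pr a b (Or.inl h1) (Or.inr h2)
  · exact hR.pr a b (Or.inr h1) (Or.inr h2)

theorem pP_iff {x : ℕ → ℕ} : PP B x X ↔ PsiX B w0 x X := by
  have hw0 : ∀ z : ZFSet.{u}, z ∈ w0 ↔ z = ZFSet.pair ∅ ∅ := fun z => ZFSet.mem_singleton
  constructor
  · rintro ⟨e, he, rfl, b, hb, h, hh, hbo, ⟨o, ho, rfl⟩, h1, h2, W, hW, hbW, r, hr, rfl, hrW⟩
    have hδX : ∀ δ, (δ ∈ b ∨ δ = b) → δ ∈ X := by
      rintro δ (hδ | rfl)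
      · exact hX _ hb _ hδ
      · exact hb
    refine ⟨he, b, hb, h, hh, hbo, ⟨?_, ?_⟩, W, hbW, mem_fld.2 hrW⟩
    · intro δ hδ
      obtain ⟨W, hW, h3, h4, h5⟩ := h1 δ (hδX δ hδ) hδ
      refine ⟨W, h3, fun W' hW' => h4 W' ?_ hW', (rP_iff hX hW he).1 h5⟩
      exact (pair_memX hX (hX _ hh _ hW')).2
    · intro δ W hδ hδW z
      have hδX' := hδX δ hδ
      have hWX : W ∈ X := (pair_memX hX (hX _ hh _ hδW)).2
      have key : ∀ z ∈ X, (z ∈ W ↔ z ∈ w0 ∨ ∃ ε ∈ δ, ∃ W', ZFSet.pair ε W' ∈ h ∧ ∃ a b', z = ZFSet.pair a b' ∧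
          StepR B W' a b') := by
        intro z hz
        rw [h2 δ hδX' W hWX hδ hδW z hz, hw0]
        refine or_congr Iff.rfl ?_
        constructor
        · rintro ⟨ε, hε, W', hW', h3, L, hLX, hL, S, hSX, hS, a, ha, b', hb', rfl, h4⟩
          exact ⟨ε, hε, W', h3, a, b', rfl, (sP_iff hX hL hS rfl hLX ha hb').1 h4⟩
        · rintro ⟨ε, hε, W', h3, a, b', rfl, h4⟩
          have hW' : W' ∈ X := (pair_memX hX (hX _ hh _ h3)).2
          have hεb : ε ∈ b ∨ ε = b := by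
            rcases hδ with hδ | rfl
            · exact Or.inl (hbo.isTransitive _ hδ hε)
            · exact Or.inl hε
          obtain ⟨W2, hW2, h5, h6, h7⟩ := h1 ε (hδX ε hεb) hεb
          have h8 := h6 W' hW' h3
          subst h8
          have hR := (rP_iff hX hW' he).1 h7
          have hab := pair_memX hX hz
          exact ⟨ε, hε, W', hW', h3, _, hR.L, rfl, _, hR.S, rfl, a, hab.1, b', hab.2, rfl,
            (sP_iff hX rfl rfl rfl hR.L hab.1 hab.2).2 h4⟩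
      by_cases hz : z ∈ X
      · exact key z hz
      · constructor
        · intro hzW
          exact (hz (hX _ hWX _ hzW)).elim
        · rintro (h3 | ⟨ε, hε, W', h3, a, b', rfl, h4⟩)
          · rw [hw0] at h3
            rw [h3] at hz
            exact (hz ho).elim
          · exfalso
            apply hz
            have hW' : W' ∈ X := (pair_memX hX (hX _ hh _ h3)).2
            have hεb : ε ∈ b ∨ ε = b := by
              rcases hδ with hδ | rfl
              · exact Or.inl (hbo.isTransitive _ hδ hε)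
              · exact Or.inl hε
            obtain ⟨W2, hW2, h5, h6, h7⟩ := h1 ε (hδX ε hεb) hεb
            have h8 := h6 W' hW' h3
            subst h8
            exact stepR_memX hX ((rP_iff hX hW' he).1 h7) h4
  · rintro ⟨he, b, hb, h, hh, hbo, hH, W, hbW, hx⟩
    have hWX : W ∈ X := (pair_memX hX (hX _ hh _ hbW)).2
    have ho : ZFSet.pair ∅ ∅ ∈ X := by
      refine hX _ hWX _ ?_
      rw [hH.eq b W (Or.inr rfl) hbW, hw0]
      exact Or.inl rfl
    refine ⟨∅, he, rfl, b, hb, h, hh, hbo, ⟨_, ho, rfl⟩, ?_, ?_, W, hWX, hbW, rz x, ?_, rfl, mem_fld.1 hx⟩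
    · intro δ _ hδ
      obtain ⟨W, h1, h2, h3⟩ := hH.fn δ hδ
      exact ⟨W, h3.mem, h1, fun W' _ hW' => h2 W' hW', (rP_iff hX h3.mem he).2 h3⟩
    · intro δ hδX W hW hδ hδW z hz
      rw [hH.eq δ W hδ hδW, hw0]
      refine or_congr Iff.rfl ?_
      constructor
      · rintro ⟨ε, hε, W', h3, a, b', rfl, h4⟩
        have hW' : W' ∈ X := (pair_memX hX (hX _ hh _ h3)).2
        have hεb : ε ∈ b ∨ ε = b := by
          rcases hδ with hδ | rfl
          · exact Or.inl (hbo.isTransitive _ hδ hε)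
          · exact Or.inl hε
        obtain ⟨W2, h5, h6, hR⟩ := hH.fn ε hεb
        have h8 := h6 W' h3
        subst h8
        have hab := pair_memX hX hz
        exact ⟨ε, hε, W', hW', h3, _, hR.L, rfl, _, hR.S, rfl, a, hab.1, b', hab.2, rfl,
          (sP_iff hX rfl rfl rfl hR.L hab.1 hab.2).2 h4⟩
      · rintro ⟨ε, hε, W', hW', h3, L, hLX, hL, S, hSX, hS, a, ha, b', hb', rfl, h4⟩
        exact ⟨ε, hε, W', h3, a, b', rfl, (sP_iff hX hL hS rfl hLX ha hb').1 h4⟩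
    · exact hX _ (hX _ hWX _ (mem_fld.1 hx)) _ (by
        rw [ZFSet.pair, ZFSet.mem_pair]; exact Or.inl rfl) |> fun h1 => hX _ h1 _ (ZFSet.mem_singleton.2 rfl)

end

/-! ### Borel predicates -/

section

variable {Z : Type} [MeasurableSpace Z] {ι : Type} {L W S e p q p' q' a b z h : (ι → ZFSet.{u}) → ZFSet.{u}}

theorem xd_HP {θ : Fml} (hθ : θ.Delta0) (hL : XV L) (hW : XV W) (hS : XV S) (he : XV e) (hp : XV p) (hq : XV q)
    (hz : XV z) : XD (fun (_ : Z) (X : Set ZFSet.{u}) v => HP (L v) (W v) (S v) (e v) (p v) (q v) θ X (z v)) := by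
  refine XD.allX (P := fun (_ : Z) (X : Set ZFSet.{u}) v y => (y ∈ z v ↔ y ∈ L v ∧
    Sat (fun a b : ZFSet.{u} => a ∈ b) θ (asP (L v) (W v) (S v) (e v) (p v) (q v) y))) ?_
  refine (XD.memV (XV.var none) hz.lift).iff ((XD.memV (XV.var none) hL.lift).and ?_)
  refine XD.satV hθ (s := fun n (v : Option ι → ZFSet.{u}) => asP (L fun i => v (some i)) (W fun i => v (some i))
    (S fun i => v (some i)) (e fun i => v (some i)) (p fun i => v (some i)) (q fun i => v (some i)) (v none) n) ?_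
  intro n
  match n with
  | 0 => exact XV.var none
  | 1 => exact hL.lift
  | 2 => exact hW.lift
  | 3 => exact hS.lift
  | 4 => exact hp.lift
  | 5 => exact hq.lift
  | (n + 6) => exact he.lift

theorem xd_CP {θ : Fml} (hL : XV L) (hW : XV W) (hS : XV S) (he : XV e) (hz : XV z) (hp : XV p) (hq : XV q) :
    XD (fun (_ : Z) (X : Set ZFSet.{u}) v => CP (L v) (W v) (S v) (e v) X (z v) (p v) (q v) θ) := by
  unfold CP
  by_cases hθ : θ.Delta0
  · exact (XD.const _).and (xd_HP hθ hL hW hS he hp hq hz)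
  · refine (XD.const False).congr fun _ _ _ _ _ => ?_
    exact ⟨fun h => h.elim, fun h => hθ h.1⟩

theorem xd_CLt {θ θ' : Fml} (hW : XV W) (hp : XV p) (hq : XV q) (hp' : XV p') (hq' : XV q') :
    XD (fun (_ : Z) (X : Set ZFSet.{u}) v => CLt (W v) (p v) (q v) θ (p' v) (q' v) θ') := by
  unfold CLt
  exact ((XD.pairMemV hp hp' hW).and (XD.eqV hp hp').not).or
    (((XD.eqV hp hp').and ((XD.pairMemV hq hq' hW).and (XD.eqV hq hq').not)).or
      ((XD.eqV hp hp').and ((XD.eqV hq hq').and (XD.const _))))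

theorem xd_LP {θ : Fml} (hL : XV L) (hW : XV W) (hS : XV S) (he : XV e) (hz : XV z) (hp : XV p) (hq : XV q) :
    XD (fun (_ : Z) (X : Set ZFSet.{u}) v => LP (L v) (W v) (S v) (e v) X (z v) (p v) (q v) θ) := by
  unfold LP
  refine (xd_CP hL hW hS he hz hp hq).and (XD.ballV hL (XD.ballV hL.lift (XD.allN fun θ' => ?_)))
  exact (xd_CP hL.lift.lift hW.lift.lift hS.lift.lift he.lift.lift hz.lift.lift (XV.var (some none))
    (XV.var none)).imp (xd_CLt hW.lift.lift (XV.var (some none)) (XV.var none) hp.lift.lift hq.lift.lift).not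

theorem xd_NP (hL : XV L) (hW : XV W) (hS : XV S) (he : XV e) (hz : XV z) :
    XD (fun (_ : Z) (X : Set ZFSet.{u}) v => NP (L v) (W v) (S v) (e v) X (z v)) := by
  unfold NP
  refine (XD.memV hz hL).not.and (XD.bexV hL (XD.bexV hL.lift (XD.exN fun θ => ?_)))
  exact xd_CP hL.lift.lift hW.lift.lift hS.lift.lift he.lift.lift hz.lift.lift (XV.var (some none)) (XV.var none)

theorem xd_SP (hL : XV L) (hW : XV W) (hS : XV S) (he : XV e) (ha : XV a) (hb : XV b) :
    XD (fun (_ : Z) (X : Set ZFSet.{u}) v => SP (L v) (W v) (S v) (e v) X (a v) (b v)) := by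
  unfold SP
  refine (XD.pairMemV ha hb hW).or (((XD.memV ha hL).and (xd_NP hL hW hS he hb)).or
    ((xd_NP hL hW hS he ha).and ((xd_NP hL hW hS he hb).and ((XD.eqV ha hb).or ?_))))
  refine XD.bexV hL (XD.bexV hL.lift (XD.exN fun θ => XD.bexV hL.lift.lift (XD.bexV hL.lift.lift.lift
    (XD.exN fun θ' => ?_))))
  exact (xd_LP hL.lift.lift.lift.lift hW.lift.lift.lift.lift hS.lift.lift.lift.lift he.lift.lift.lift.lift
    ha.lift.lift.lift.lift (XV.var (some (some (some none)))) (XV.var (some (some none)))).and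
    ((xd_LP hL.lift.lift.lift.lift hW.lift.lift.lift.lift hS.lift.lift.lift.lift he.lift.lift.lift.lift
    hb.lift.lift.lift.lift (XV.var (some none)) (XV.var none)).and
    (xd_CLt hW.lift.lift.lift.lift (XV.var (some (some (some none)))) (XV.var (some (some none)))
      (XV.var (some none)) (XV.var none)))

variable {E : Z → ℕ → ℕ} (hE : ∀ n m, MeasurableSet {z | E z n = m})

include hE

theorem xd_RP (he : XV e) (hW : XV W) : XD (fun (z : Z) (X : Set ZFSet.{u}) v => RP (BR (E z)) (e v) X (W v)) := by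
  unfold RP
  refine XD.exX ((XD.fldV (XV.var none) hW.lift).and (XD.exX ((XD.sepV hE (XV.var none) (XV.var (some none))).and
    (XD.and ?_ ?_))))
  · refine XD.ballV (XV.var (some none)) (XD.ballV (XV.var (some (some none))) (XD.allN fun θ => ?_))
    by_cases hθ : θ.Delta0
    · refine (XD.const _).imp (XD.exX ?_)
      exact xd_HP hθ (XV.var (some (some (some (some none))))) hW.lift.lift.lift.lift.lift
        (XV.var (some (some (some none)))) he.lift.lift.lift.lift.lift (XV.var (some (some none)))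
        (XV.var (some none)) (XV.var none)
    · refine (XD.const True).congr fun _ _ _ _ _ => ?_
      exact ⟨fun _ h => (hθ h).elim, fun _ => trivial⟩
  · refine XD.allX (XD.allX (XD.imp ?_ (XD.imp ?_ (XD.exX ?_))))
    · exact (XD.memV (XV.var (some none)) (XV.var (some (some (some none))))).or
        (xd_NP (XV.var (some (some (some none)))) hW.lift.lift.lift.lift (XV.var (some (some none)))
          he.lift.lift.lift.lift (XV.var (some none)))
    · exact (XD.memV (XV.var none) (XV.var (some (some (some none))))).or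
        (xd_NP (XV.var (some (some (some none)))) hW.lift.lift.lift.lift (XV.var (some (some none)))
          he.lift.lift.lift.lift (XV.var none))
    · exact XD.isPairV (XV.var none) (XV.var (some (some none))) (XV.var (some none))

theorem xd_HP1 (he : XV e) (hb : XV b) (hh : XV h) :
    XD (fun (z : Z) (X : Set ZFSet.{u}) v => HP1 (BR (E z)) (e v) X (b v) (h v)) := by
  unfold HP1
  refine XD.allX (((XD.memV (XV.var none) hb.lift).or (XD.eqV (XV.var none) hb.lift)).imp (XD.exX ?_))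
  refine (XD.pairMemV (XV.var (some none)) (XV.var none) hh.lift.lift).and (XD.and (XD.allX ?_)
    (xd_RP hE he.lift.lift (XV.var none)))
  exact (XD.pairMemV (XV.var (some (some none))) (XV.var none) hh.lift.lift.lift).imp
    (XD.eqV (XV.var none) (XV.var (some none)))

theorem xd_HP2 (he : XV e) (hb : XV b) (hh : XV h) :
    XD (fun (z : Z) (X : Set ZFSet.{u}) v => HP2 (BR (E z)) (e v) X (b v) (h v)) := by
  unfold HP2
  -- variables: `none = W`, `some none = δ`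
  refine XD.allX (XD.allX (((XD.memV (XV.var (some none)) hb.lift.lift).or
    (XD.eqV (XV.var (some none)) hb.lift.lift)).imp ((XD.pairMemV (XV.var (some none)) (XV.var none)
      hh.lift.lift).imp (XD.allX ?_))))
  -- `none = z`, `some none = W`, `some (some none) = δ`
  refine (XD.memV (XV.var none) (XV.var (some none))).iff ((XD.isPairV (XV.var none) he.lift.lift.lift
    he.lift.lift.lift).or (XD.bexV (XV.var (some (some none))) (XD.exX (XD.and ?_ (XD.exX (XD.and ?_ (XD.exX (XD.and ?_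
      (XD.exX (XD.exX (XD.and ?_ ?_)))))))))))
  · -- `W' = none`, `ε = some none`
    exact XD.pairMemV (XV.var (some none)) (XV.var none) hh.lift.lift.lift.lift.lift
  · -- `L = none`, `W' = some none`
    exact XD.fldV (XV.var none) (XV.var (some none))
  · exact XD.sepV hE (XV.var none) (XV.var (some none))
  · -- `b' = none`, `a = 1`, `S = 2`, `L = 3`, `W' = 4`, `ε = 5`, `z = 6`
    exact XD.isPairV (XV.var (some (some (some (some (some (some none))))))) (XV.var (some none)) (XV.var none)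
  · exact xd_SP (XV.var (some (some (some none)))) (XV.var (some (some (some (some none)))))
      (XV.var (some (some none))) he.lift.lift.lift.lift.lift.lift.lift.lift.lift (XV.var (some none)) (XV.var none)

end

theorem xd_psiX : XD.{u} (Z := (ℕ → ℕ) × (ℕ → ℕ)) (ι := Empty)
    (fun z X _ => PsiX (BR z.1) w0 z.2 X) := by
  have hE1 : ∀ n m, MeasurableSet {z : (ℕ → ℕ) × (ℕ → ℕ) | z.1 n = m} := by
    intro n m
    have h : Measurable (fun z : (ℕ → ℕ) × (ℕ → ℕ) => z.1 n) := (measurable_pi_apply n).comp measurable_fst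
    exact h (measurableSet_singleton m)
  have hE2 : ∀ n m, MeasurableSet {z : (ℕ → ℕ) × (ℕ → ℕ) | z.2 n = m} := by
    intro n m
    have h : Measurable (fun z : (ℕ → ℕ) × (ℕ → ℕ) => z.2 n) := (measurable_pi_apply n).comp measurable_snd
    exact h (measurableSet_singleton m)
  have h : XD.{u} (Z := (ℕ → ℕ) × (ℕ → ℕ)) (ι := Empty) (fun z X _ => PP (BR z.1) z.2 X) := by
    unfold PP
    -- `e`, `b`, `h`
    refine XD.exX ((XD.isEmptyV (XV.var none)).and (XD.exX (XD.exX ((XD.isOrdV (XV.var (some none))).and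
      (XD.and (XD.exX ?_) (XD.and ?_ (XD.and ?_ (XD.exX (XD.and ?_ (XD.exX (XD.and ?_ ?_)))))))))))
    · exact XD.isPairV (XV.var none) (XV.var (some (some (some none)))) (XV.var (some (some (some none))))
    · exact xd_HP1 hE1 (XV.var (some (some none))) (XV.var (some none)) (XV.var none)
    · exact xd_HP2 hE1 (XV.var (some (some none))) (XV.var (some none)) (XV.var none)
    · exact XD.pairMemV (XV.var (some (some none))) (XV.var none) (XV.var (some none))
    · exact XD.rzV hE2 (XV.var none)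
    · exact XD.pairMemV (XV.var none) (XV.var none) (XV.var (some none))
  exact h.congr fun z c hc v _ => pP_iff (El_trans hc)

end Pool.Agent.H19.GP
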