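import Pool.Agent.H19.GP.XHier
import Pool.Agent.H52.OM.Hier

/-!
# Goldstern's principle: soundness of the witnesses for the levels; codes of countable transitive sets
-/

set_option autoImplicit false
set_option linter.unusedVariables false
set_option linter.unusedSectionVars false

universe u

namespace Pool.Agent.H19.GP

open Pool.Agent.H17.Omega Pool.Agent.H17.GP
open Pool.Agent.H52.OM
open MeasureTheory Topology Filter

theorem psiX_sound {B : ZFSet.{u} → Prop} {w : ZFSet.{u}} (hw : WO w) {x : ℕ → ℕ} {X : Set ZFSet.{u}}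
    (hX : ∀ y ∈ X, ∀ z ∈ y, z ∈ X) (h : PsiX B w x X) :
    ∃ γ : Ordinal.{u}, γ.toZFSet ∈ X ∧ rz x ∈ KL B w γ := by
  obtain ⟨h0, b, hb, f, hf, hbo, hH, W, hW, hx⟩ := h
  have hbγ : b.rank.toZFSet = b := hbo.toZFSet_rank_eq
  have key : ∀ δ : Ordinal.{u}, δ ≤ b.rank → ∀ W, ZFSet.pair δ.toZFSet W ∈ f → W = Wl B w δ := by
    intro δ
    induction δ using WellFoundedLT.induction with
    | ind δ ih =>
      intro hδ W hW
      have hle : ∀ ε : Ordinal.{u}, ε ≤ b.rank → ε.toZFSet ∈ b ∨ ε.toZFSet = b := by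
        intro ε hε
        rcases hε.lt_or_eq with h1 | h1
        · left
          rw [← hbγ]
          exact Ordinal.toZFSet_mem_toZFSet_iff.2 h1
        · right
          rw [h1]; exact hbγ
      ext z
      rw [hH.eq _ W (hle δ hδ) hW, mem_Wl]
      refine or_congr Iff.rfl ?_
      constructor
      · rintro ⟨ε, hε, W', hW', a, b', rfl, hs⟩
        obtain ⟨ε', hε', rfl⟩ := Ordinal.mem_toZFSet_iff.1 hε
        have h1 := ih ε' hε' (hε'.le.trans hδ) W' hW'
        subst h1
        exact ⟨ε', hε', (mem_step (wo_Wl hw ε')).2 hs⟩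
      · rintro ⟨ε, hε, hz⟩
        obtain ⟨W', hW', -, -⟩ := hH.fn _ (hle ε (hε.le.trans hδ))
        have h1 := ih ε hε (hε.le.trans hδ) W' hW'
        obtain ⟨a, -, b', -, rfl⟩ := (wo_step (B := B) (wo_Wl hw ε)).rel z hz
        refine ⟨_, Ordinal.toZFSet_mem_toZFSet_iff.2 hε, W', hW', a, b', rfl, ?_⟩
        rw [h1]
        exact (mem_step (wo_Wl hw ε)).1 hz
  refine ⟨b.rank, by rw [hbγ]; exact hb, ?_⟩
  show rz x ∈ fld (Wl B w b.rank)
  rw [← key b.rank le_rfl W (by rw [hbγ]; exact hW)]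
  exact hx

theorem exists_code_El {X : Set ZFSet.{u}} (hX : ∀ y ∈ X, ∀ z ∈ y, z ∈ X) (hc : X.Countable) (hi : X.Infinite) :
    ∃ c, Vld c ∧ El c = X := by
  classical
  have := hc.to_subtype
  have := hi.to_subtype
  obtain ⟨f⟩ : Nonempty (ℕ ≃ X) := by
    obtain ⟨e⟩ := nonempty_denumerable X
    exact ⟨(Denumerable.eqv X).symm⟩
  let c : ℕ → ℕ := fun k => if (f k.unpair.1).1 ∈ (f k.unpair.2).1 then 0 else 1
  have hrel : ∀ i j, rel c i j ↔ (f i).1 ∈ (f j).1 := by
    intro i j
    unfold rel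
    simp only [c, Nat.unpair_pair]
    split_ifs with h <;> simp [h]
  have hwf : Wf c := by
    refine Subrelation.wf (r := InvImage (· ∈ ·) fun n => (f n).1) (fun {x y} h => (hrel x y).1 h)
      (InvImage.wf _ ZFSet.mem_wf)
  have hV : Vld c := by
    refine ⟨fun m n h => ?_, hwf⟩
    have h1 : (f m).1 = (f n).1 := by
      ext z
      constructor
      · intro hz
        have h2 := hX _ (f m).2 z hz
        have h3 := (hrel (f.symm ⟨z, h2⟩) m).2 (by rw [Equiv.apply_symm_apply]; exact hz)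
        have h4 := (hrel _ _).1 ((h _).1 h3)
        rwa [Equiv.apply_symm_apply] at h4
      · intro hz
        have h2 := hX _ (f n).2 z hz
        have h3 := (hrel (f.symm ⟨z, h2⟩) n).2 (by rw [Equiv.apply_symm_apply]; exact hz)
        have h4 := (hrel _ _).1 ((h _).2 h3)
        rwa [Equiv.apply_symm_apply] at h4
    exact f.injective (Subtype.ext h1)
  have hval : ∀ n, IsVal (rel c) (f n).1 n := by
    intro n
    induction n using hwf.induction with
    | _ n ih =>
      rw [isVal_iff]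
      constructor
      · intro m hm
        exact ⟨(f m).1, (hrel m n).1 hm, ih m hm⟩
      · intro y hy
        have h2 := hX _ (f n).2 y hy
        have h3 : rel c (f.symm ⟨y, h2⟩) n := (hrel _ n).2 (by rw [Equiv.apply_symm_apply]; exact hy)
        refine ⟨f.symm ⟨y, h2⟩, h3, ?_⟩
        have h4 := ih _ h3
        rwa [Equiv.apply_symm_apply] at h4
  have hv : ∀ n, val c n = (f n).1 := fun n => (isVal_val hwf n).unique (hval n)
  refine ⟨c, hV, ?_⟩
  ext z
  constructor
  · rintro ⟨n, rfl⟩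
    rw [hv]; exact (f n).2
  · intro hz
    exact ⟨f.symm ⟨z, hz⟩, by rw [hv, Equiv.apply_symm_apply]⟩

end Pool.Agent.H19.GP
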